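import Mathlib

/- Linear algebra: if `N` is symmetric, traceless, positive definite on a hyperplane and `M` is a
right inverse of `N`, then `tr (A M A) ≥ 0` for every symmetric traceless `A`. -/

namespace Pool.Agent.Lib.MP_fc0ae9_an

open scoped InnerProductSpace
open Finset

/-- scalar core -/
lemma core_ineq {ι : Type*} [Fintype ι] [DecidableEq ι] (μ : ι → ℝ) (a : ι → ι → ℝ)
    (hμ0 : ∀ i, μ i ≠ 0) (hsum : ∑ i, μ i = 0)
    (hone : ∀ i j, μ i < 0 → μ j < 0 → i = j)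
    (hsymm : ∀ i j, a i j = a j i) (htr : ∑ i, a i i = 0) :
    0 ≤ ∑ i, (μ i)⁻¹ * ∑ j, a i j ^ 2 := by
  by_cases hneg : ∃ k, μ k < 0
  swap
  · push Not at hneg
    exact sum_nonneg fun i _ => mul_nonneg (inv_nonneg.2 (hneg i)) (sum_nonneg fun j _ => sq_nonneg _)
  obtain ⟨k, hk⟩ := hneg
  have hpos : ∀ i ∈ univ.erase k, 0 < μ i := by
    intro i hi
    rcases lt_trichotomy (μ i) 0 with h | h | h
    · exact absurd (hone i k h hk) (ne_of_mem_erase hi)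
    · exact absurd h (hμ0 i)
    · exact h
  set s := univ.erase k with hs
  set b := -μ k with hb
  have hbpos : 0 < b := by rw [hb]; linarith
  have hbs : ∑ i ∈ s, μ i = b := by
    have := Finset.add_sum_erase univ μ (mem_univ k)
    rw [hb]; linarith
  have hle : ∀ i ∈ s, μ i ≤ b := by
    intro i hi
    rw [← hbs]
    exact single_le_sum (fun j hj => (hpos j hj).le) hi
  have hakk : a k k = -∑ i ∈ s, a i i := by
    have := Finset.add_sum_erase univ (fun i => a i i) (mem_univ k)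
    linarith
  -- Cauchy-Schwarz for the diagonal
  have hCS : (∑ i ∈ s, a i i) ^ 2 ≤ b * ∑ i ∈ s, (μ i)⁻¹ * a i i ^ 2 := by
    have h := Finset.sq_sum_div_le_sum_sq_div s (fun i => a i i) (g := μ) hpos
    rw [hbs, div_le_iff₀ hbpos] at h
    calc _ ≤ _ := h
      _ = _ := by
        rw [mul_comm]; congr 1
        exact sum_congr rfl fun i _ => by rw [div_eq_inv_mul]
  have h1 : ∑ i, (μ i)⁻¹ * ∑ j, a i j ^ 2
      = (μ k)⁻¹ * ∑ j, a k j ^ 2 + ∑ i ∈ s, (μ i)⁻¹ * ∑ j, a i j ^ 2 :=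
    (Finset.add_sum_erase univ (fun i => (μ i)⁻¹ * ∑ j, a i j ^ 2) (mem_univ k)).symm
  have h2 : ∑ j, a k j ^ 2 = a k k ^ 2 + ∑ j ∈ s, a k j ^ 2 :=
    (Finset.add_sum_erase univ (fun j => a k j ^ 2) (mem_univ k)).symm
  have h3 : ∀ i ∈ s, (μ i)⁻¹ * a i i ^ 2 + b⁻¹ * a k i ^ 2 ≤ (μ i)⁻¹ * ∑ j, a i j ^ 2 := by
    intro i hi
    have hik : i ≠ k := ne_of_mem_erase hi
    have hp := hpos i hi
    have e1 : a i i ^ 2 + a i k ^ 2 ≤ ∑ j, a i j ^ 2 := by
      have : ∑ j ∈ ({i, k} : Finset ι), a i j ^ 2 ≤ ∑ j, a i j ^ 2 :=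
        sum_le_sum_of_subset_of_nonneg (subset_univ _) fun j _ _ => sq_nonneg _
      rwa [sum_pair hik] at this
    have e2 : b⁻¹ ≤ (μ i)⁻¹ := inv_anti₀ hp (hle i hi)
    have e3 : b⁻¹ * a k i ^ 2 ≤ (μ i)⁻¹ * a i k ^ 2 := by
      rw [hsymm k i]; exact mul_le_mul_of_nonneg_right e2 (sq_nonneg _)
    have e4 := mul_le_mul_of_nonneg_left e1 (inv_nonneg.2 hp.le)
    rw [mul_add] at e4
    linarith
  have h4 := sum_le_sum h3
  rw [sum_add_distrib, ← mul_sum] at h4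
  have h5 : (μ k)⁻¹ = -b⁻¹ := by rw [hb, inv_neg, neg_neg]
  have h6 : b⁻¹ * a k k ^ 2 ≤ ∑ i ∈ s, (μ i)⁻¹ * a i i ^ 2 := by
    rw [hakk, neg_sq, inv_mul_le_iff₀ hbpos]; exact hCS
  rw [h1, h2, h5]
  linarith

lemma trace_ineq {E : Type*} [NormedAddCommGroup E] [InnerProductSpace ℝ E]
    [FiniteDimensional ℝ E] {ι : Type*} [Fintype ι] (e : OrthonormalBasis ι ℝ E)
    (N M A : E →L[ℝ] E) (ξ : E)
    (hN : ∀ x y, ⟪N x, y⟫_ℝ = ⟪x, N y⟫_ℝ) (hNtr : ∑ i, ⟪e i, N (e i)⟫_ℝ = 0)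
    (hNpos : ∀ z, z ≠ 0 → ⟪ξ, z⟫_ℝ = 0 → 0 < ⟪z, N z⟫_ℝ)
    (hNM : ∀ x, N (M x) = x)
    (hA : ∀ x y, ⟪A x, y⟫_ℝ = ⟪x, A y⟫_ℝ) (hAtr : ∑ i, ⟪e i, A (e i)⟫_ℝ = 0) :
    0 ≤ ∑ i, ⟪M (A (e i)), A (e i)⟫_ℝ := by
  classical
  have hT : (N : E →ₗ[ℝ] E).IsSymmetric := fun x y => hN x y
  set n := Module.finrank ℝ E with hn
  let b := hT.eigenvectorBasis hn.symm
  let μ := hT.eigenvalues hn.symm
  have hb : ∀ i, N (b i) = μ i • b i := fun i => hT.apply_eigenvectorBasis hn.symm i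
  have hchange : ∀ T : E →L[ℝ] E, ∑ i, ⟪e i, T (e i)⟫_ℝ = ∑ i, ⟪b i, T (b i)⟫_ℝ := by
    intro T
    have h1 := LinearMap.trace_eq_sum_inner (T : E →ₗ[ℝ] E) e
    have h2 := LinearMap.trace_eq_sum_inner (T : E →ₗ[ℝ] E) b
    exact h1.symm.trans h2
  have hbb : ∀ i j, ⟪b i, b j⟫_ℝ = if i = j then 1 else 0 := fun i j =>
    orthonormal_iff_ite.1 b.orthonormal i j
  have hMb : ∀ i x, μ i * ⟪b i, M x⟫_ℝ = ⟪b i, x⟫_ℝ := by
    intro i x
    have := hN (b i) (M x)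
    rw [hb, hNM, real_inner_smul_left] at this
    exact this
  have hμ0 : ∀ i, μ i ≠ 0 := by
    intro i h
    have := hMb i (b i)
    rw [h, zero_mul, hbb] at this
    simp at this
  have hsum : ∑ i, μ i = 0 := by
    rw [hchange] at hNtr
    rw [← hNtr]
    refine sum_congr rfl fun i _ => ?_
    rw [hb, real_inner_smul_right, hbb]; simp
  have hone : ∀ i j, μ i < 0 → μ j < 0 → i = j := by
    intro i j hi hj
    by_contra hij
    have key : ∀ s t : ℝ, (s ≠ 0 ∨ t ≠ 0) → ⟪ξ, s • b i + t • b j⟫_ℝ = 0 → False := by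
      intro s t hst h0
      have hz : ⟪s • b i + t • b j, N (s • b i + t • b j)⟫_ℝ = s ^ 2 * μ i + t ^ 2 * μ j := by
        simp only [map_add, map_smul, hb, inner_add_left, inner_add_right, real_inner_smul_left,
          real_inner_smul_right, hbb, if_pos, if_neg hij, if_neg (Ne.symm hij)]
        ring
      have hne : s • b i + t • b j ≠ 0 := by
        intro h
        have h1 : ⟪b i, s • b i + t • b j⟫_ℝ = s := by
          simp only [inner_add_right, real_inner_smul_right, hbb, if_pos, if_neg hij]; ring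
        have h2 : ⟪b j, s • b i + t • b j⟫_ℝ = t := by
          simp only [inner_add_right, real_inner_smul_right, hbb, if_pos, if_neg (Ne.symm hij)]
          ring
        rw [h, inner_zero_right] at h1 h2
        rcases hst with h' | h'
        · exact h' h1.symm
        · exact h' h2.symm
      have := hNpos _ hne h0
      rw [hz] at this
      nlinarith [mul_nonneg (sq_nonneg s) (neg_nonneg.2 hi.le),
        mul_nonneg (sq_nonneg t) (neg_nonneg.2 hj.le)]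
    by_cases h0 : ⟪ξ, b i⟫_ℝ = 0
    · exact key 1 0 (Or.inl one_ne_zero) (by simp [h0])
    · refine key (⟪ξ, b j⟫_ℝ) (-⟪ξ, b i⟫_ℝ) (Or.inr (neg_ne_zero.2 h0)) ?_
      rw [inner_add_right, real_inner_smul_right, real_inner_smul_right]; ring
  have hcore := core_ineq μ (fun i j => ⟪b i, A (b j)⟫_ℝ) hμ0 hsum hone
    (fun i j => by rw [← hA, real_inner_comm]) (by rw [← hchange]; exact hAtr)
  have e1 : ∑ i, ⟪M (A (e i)), A (e i)⟫_ℝ = ∑ i, ⟪e i, (A.comp (M.comp A)) (e i)⟫_ℝ := by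
    refine sum_congr rfl fun i _ => ?_
    simp only [ContinuousLinearMap.comp_apply]
    rw [← hA, real_inner_comm]
  rw [e1, hchange]
  have e2 : ∀ j, ⟪b j, (A.comp (M.comp A)) (b j)⟫_ℝ
      = ∑ i, (μ i)⁻¹ * ⟪b i, A (b j)⟫_ℝ ^ 2 := by
    intro j
    simp only [ContinuousLinearMap.comp_apply]
    rw [← hA, ← b.sum_inner_mul_inner]
    refine sum_congr rfl fun i _ => ?_
    have h := hMb i (A (b j))
    have h' : ⟪b i, M (A (b j))⟫_ℝ = (μ i)⁻¹ * ⟪b i, A (b j)⟫_ℝ := by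
      rw [← h, ← mul_assoc, inv_mul_cancel₀ (hμ0 i), one_mul]
    rw [h', real_inner_comm (b i)]
    ring
  simp_rw [e2]
  rw [sum_comm]
  simpa only [mul_sum] using hcore

end Pool.Agent.Lib.MP_fc0ae9_an
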