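import Mathlib
import Pool.Agent.Lib.MP_fc0ae9_an.LinAlg

/- The Legendre transform of the Poisson kernel, in closed form. -/

namespace Pool.Agent.Lib.MP_fc0ae9_an

open scoped InnerProductSpace Topology
open Filter

variable {E : Type*} [NormedAddCommGroup E] [InnerProductSpace ℝ E]

noncomputable def sqS (D : ℝ) (e : E) (w : E) : ℝ := (D - 1) ^ 2 * ⟪e, w⟫_ℝ ^ 2 + 4 * D * ‖w‖ ^ 2

noncomputable def RR (D : ℝ) (e : E) (w : E) : ℝ :=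
  ((D - 1) * ⟪e, w⟫_ℝ + Real.sqrt (sqS D e w)) / (2 * D)

noncomputable def Phi (D : ℝ) (e : E) (w : E) : ℝ :=
  Real.sqrt ((D + 1) * (RR D e w - ⟪e, w⟫_ℝ)) * RR D e w ^ ((D - 1) / (2 * (D + 1)))

noncomputable def mu (D : ℝ) (e : E) (w : E) : ℝ :=
  RR D e w ^ (-1 / (D + 1)) / Real.sqrt ((D + 1) * RR D e w * (RR D e w - ⟪e, w⟫_ℝ))

noncomputable def XX (D : ℝ) (e : E) (w : E) : E := mu D e w • (RR D e w • e - w)

noncomputable def PP (D : ℝ) (e : E) (X : E) : ℝ := ⟪e, X⟫_ℝ * (‖X‖ ^ 2) ^ (-(D + 1) / 2)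

noncomputable def GG (D : ℝ) (e : E) (X : E) : E :=
  ((‖X‖ ^ 2) ^ (-(D + 1) / 2)) • e - ((D + 1) * ⟪e, X⟫_ℝ * (‖X‖ ^ 2) ^ (-(D + 1) / 2 - 1)) • X

noncomputable def NN (D : ℝ) (e : E) (X : E) : E →L[ℝ] E :=
  ((D + 1) * (‖X‖ ^ 2) ^ (-(D + 1) / 2 - 1)) •
    (⟪e, X⟫_ℝ • ContinuousLinearMap.id ℝ E + (innerSL ℝ X).smulRight e + (innerSL ℝ e).smulRight X
      - ((D + 3) * ⟪e, X⟫_ℝ / ‖X‖ ^ 2) • (innerSL ℝ X).smulRight X)

variable {D : ℝ} {e w : E}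

lemma abs_inner_le (he : ‖e‖ = 1) (w : E) : |⟪e, w⟫_ℝ| ≤ ‖w‖ := by
  have := abs_real_inner_le_norm e w
  rwa [he, one_mul] at this

lemma inner_sq_le (he : ‖e‖ = 1) (w : E) : ⟪e, w⟫_ℝ ^ 2 ≤ ‖w‖ ^ 2 := by
  rw [← sq_abs]; exact pow_le_pow_left₀ (abs_nonneg _) (abs_inner_le he w) 2

lemma sqS_nonneg (hD : 1 ≤ D) : 0 ≤ sqS D e w := by
  unfold sqS; positivity

lemma RR_quad (hD : 1 ≤ D) :
    D * RR D e w ^ 2 - (D - 1) * ⟪e, w⟫_ℝ * RR D e w - ‖w‖ ^ 2 = 0 := by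
  have h := Real.sq_sqrt (sqS_nonneg (e := e) (w := w) hD)
  have hD0 : D ≠ 0 := by linarith
  unfold RR
  set S := Real.sqrt (sqS D e w)
  unfold sqS at h
  field_simp
  linarith

lemma sqrt_ge (hD : 1 ≤ D) (he : ‖e‖ = 1) :
    (D + 1) * |⟪e, w⟫_ℝ| ≤ Real.sqrt (sqS D e w) := by
  apply Real.le_sqrt_of_sq_le
  have := inner_sq_le he w
  rw [mul_pow, sq_abs]; unfold sqS
  nlinarith

lemma RR_nonneg (hD : 1 ≤ D) (he : ‖e‖ = 1) : 0 ≤ RR D e w := by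
  have h := sqrt_ge (w := w) hD he
  have h1 := neg_abs_le ⟪e, w⟫_ℝ
  have h2 := abs_nonneg ⟪e, w⟫_ℝ
  unfold RR
  apply div_nonneg _ (by linarith)
  nlinarith

lemma RR_le (hD : 1 ≤ D) (he : ‖e‖ = 1) : RR D e w ≤ ‖w‖ := by
  have h : Real.sqrt (sqS D e w) ≤ (D + 1) * ‖w‖ := by
    apply Real.sqrt_le_iff.2 ⟨by positivity, _⟩
    have := inner_sq_le he w
    unfold sqS
    nlinarith [mul_le_mul_of_nonneg_left this (sq_nonneg (D - 1))]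
  have h1 := (le_abs_self _).trans (abs_inner_le he w)
  unfold RR
  rw [div_le_iff₀ (by linarith)]
  nlinarith [mul_le_mul_of_nonneg_left h1 (sub_nonneg.2 hD)]

lemma sqS_pos (hD : 1 ≤ D) (he : ‖e‖ = 1) (hw : ⟪e, w⟫_ℝ < ‖w‖) : 0 < sqS D e w := by
  have h0 : 0 < ‖w‖ := by
    rcases (norm_nonneg w).lt_or_eq with h | h
    · exact h
    · have := abs_inner_le he w
      have h2 := neg_abs_le ⟪e, w⟫_ℝ
      linarith
  unfold sqS
  have : 0 < 4 * D * ‖w‖ ^ 2 := by positivity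
  positivity

lemma RR_pos (hD : 1 ≤ D) (he : ‖e‖ = 1) (hw : ⟪e, w⟫_ℝ < ‖w‖) : 0 < RR D e w := by
  rcases (RR_nonneg (w := w) hD he).lt_or_eq with h | h
  · exact h
  · have hq := RR_quad (e := e) (w := w) hD
    rw [← h] at hq
    have h0 : ‖w‖ = 0 := by
      have : ‖w‖ ^ 2 = 0 := by linarith
      exact pow_eq_zero_iff two_ne_zero |>.1 this
    have := abs_inner_le he w
    have h2 := neg_abs_le ⟪e, w⟫_ℝ
    linarith

lemma RR_ge (hD : 1 ≤ D) (he : ‖e‖ = 1) : ⟪e, w⟫_ℝ ≤ RR D e w := by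
  have h := sqrt_ge (w := w) hD he
  have h1 := le_abs_self ⟪e, w⟫_ℝ
  unfold RR
  rw [le_div_iff₀ (by linarith)]
  nlinarith

lemma RR_gt (hD : 1 ≤ D) (he : ‖e‖ = 1) (hw : ⟪e, w⟫_ℝ < ‖w‖) : ⟪e, w⟫_ℝ < RR D e w := by
  rcases (RR_ge (w := w) hD he).lt_or_eq with h | h
  · exact h
  · have hq := RR_quad (e := e) (w := w) hD
    have hp := RR_pos hD he hw
    rw [← h] at hq hp
    nlinarith

lemma RR_eq (hD : 1 ≤ D) (he : ‖e‖ = 1) (hw : ¬ ⟪e, w⟫_ℝ < ‖w‖) : RR D e w = ⟪e, w⟫_ℝ :=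
  le_antisymm ((RR_le hD he).trans (not_lt.1 hw)) (RR_ge hD he)

lemma Phi_nonneg (hD : 1 ≤ D) (he : ‖e‖ = 1) : 0 ≤ Phi D e w :=
  mul_nonneg (Real.sqrt_nonneg _) (Real.rpow_nonneg (RR_nonneg hD he) _)

lemma Phi_pos (hD : 1 ≤ D) (he : ‖e‖ = 1) (hw : ⟪e, w⟫_ℝ < ‖w‖) : 0 < Phi D e w := by
  have h1 := RR_gt hD he hw
  exact mul_pos (Real.sqrt_pos.2 (mul_pos (by linarith) (by linarith)))
    (Real.rpow_pos_of_pos (RR_pos hD he hw) _)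

lemma Phi_eq_zero (hD : 1 ≤ D) (he : ‖e‖ = 1) (hw : ¬ ⟪e, w⟫_ℝ < ‖w‖) : Phi D e w = 0 := by
  unfold Phi; rw [RR_eq hD he hw]; simp

lemma continuous_RR : Continuous (RR D e) := by
  unfold RR sqS
  fun_prop

lemma continuous_Phi (hD : 1 ≤ D) : Continuous (Phi D e) := by
  have h := continuous_RR (D := D) (e := e)
  unfold Phi
  refine Continuous.mul (by fun_prop) (h.rpow_const fun _ => Or.inr ?_)
  exact div_nonneg (by linarith) (by linarith)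

lemma Phi_le (hD : 1 ≤ D) (he : ‖e‖ = 1) :
    Phi D e w ≤ Real.sqrt (2 * (D + 1)) * ‖w‖ ^ (D / (D + 1)) := by
  have hk : 0 ≤ (D - 1) / (2 * (D + 1)) := div_nonneg (by linarith) (by linarith)
  have h1 : Real.sqrt ((D + 1) * (RR D e w - ⟪e, w⟫_ℝ))
      ≤ Real.sqrt (2 * (D + 1)) * ‖w‖ ^ (1 / 2 : ℝ) := by
    rw [← Real.sqrt_eq_rpow, ← Real.sqrt_mul (by linarith)]
    apply Real.sqrt_le_sqrt
    have := RR_le (w := w) hD he
    have h2 := abs_inner_le he w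
    have h3 := neg_abs_le ⟪e, w⟫_ℝ
    nlinarith
  have h2 : RR D e w ^ ((D - 1) / (2 * (D + 1))) ≤ ‖w‖ ^ ((D - 1) / (2 * (D + 1))) :=
    Real.rpow_le_rpow (RR_nonneg hD he) (RR_le hD he) hk
  have h3 : ‖w‖ ^ (D / (D + 1)) = ‖w‖ ^ (1 / 2 : ℝ) * ‖w‖ ^ ((D - 1) / (2 * (D + 1))) := by
    rw [← Real.rpow_add' (norm_nonneg _) (by positivity)]
    congr 1
    have : D + 1 ≠ 0 := by linarith
    field_simp; ring
  rw [h3, ← mul_assoc]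
  exact mul_le_mul h1 h2 (Real.rpow_nonneg (RR_nonneg hD he) _) (by positivity)

lemma contDiffAt_RR (hD : 1 ≤ D) (he : ‖e‖ = 1) (hw : ⟪e, w⟫_ℝ < ‖w‖) :
    ContDiffAt ℝ 2 (RR D e) w := by
  have hi : ContDiffAt ℝ 2 (fun w : E => ⟪e, w⟫_ℝ) w := contDiffAt_const.inner ℝ contDiffAt_id
  have hS : ContDiffAt ℝ 2 (sqS D e) w :=
    (contDiffAt_const.mul (hi.pow 2)).add (contDiffAt_const.mul (contDiff_norm_sq ℝ).contDiffAt)
  exact ((contDiffAt_const.mul hi).add (hS.sqrt (sqS_pos hD he hw).ne')).div_const _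

lemma contDiffAt_Phi (hD : 1 ≤ D) (he : ‖e‖ = 1) (hw : ⟪e, w⟫_ℝ < ‖w‖) :
    ContDiffAt ℝ 2 (Phi D e) w := by
  have hi : ContDiffAt ℝ 2 (fun w : E => ⟪e, w⟫_ℝ) w := contDiffAt_const.inner ℝ contDiffAt_id
  have hR := contDiffAt_RR hD he hw
  have h1 := RR_gt hD he hw
  exact ((contDiffAt_const.mul (hR.sub hi)).sqrt (mul_pos (by linarith) (by linarith)).ne').mul
    (hR.rpow_const_of_ne (RR_pos hD he hw).ne')

lemma contDiffAt_XX (hD : 1 ≤ D) (he : ‖e‖ = 1) (hw : ⟪e, w⟫_ℝ < ‖w‖) :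
    ContDiffAt ℝ 2 (XX D e) w := by
  have hi : ContDiffAt ℝ 2 (fun w : E => ⟪e, w⟫_ℝ) w := contDiffAt_const.inner ℝ contDiffAt_id
  have hR := contDiffAt_RR hD he hw
  have h1 := RR_gt hD he hw
  have h2 := RR_pos hD he hw
  have h3 : 0 < (D + 1) * RR D e w * (RR D e w - ⟪e, w⟫_ℝ) :=
    mul_pos (mul_pos (by linarith) h2) (by linarith)
  have hm : ContDiffAt ℝ 2 (mu D e) w :=
    (hR.rpow_const_of_ne h2.ne').div (((contDiffAt_const.mul hR).mul (hR.sub hi)).sqrt h3.ne')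
      (Real.sqrt_pos.2 h3).ne'
  exact hm.smul ((hR.smul contDiffAt_const).sub contDiffAt_id)

lemma mu_pos (hD : 1 ≤ D) (he : ‖e‖ = 1) (hw : ⟪e, w⟫_ℝ < ‖w‖) : 0 < mu D e w := by
  have h1 := RR_gt hD he hw
  have h2 := RR_pos hD he hw
  exact div_pos (Real.rpow_pos_of_pos h2 _)
    (Real.sqrt_pos.2 (mul_pos (mul_pos (by linarith) h2) (by linarith)))

lemma mu_sq (hD : 1 ≤ D) (he : ‖e‖ = 1) (hw : ⟪e, w⟫_ℝ < ‖w‖) :
    mu D e w ^ 2 * ((D + 1) * RR D e w * (RR D e w - ⟪e, w⟫_ℝ))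
      = RR D e w ^ (-2 / (D + 1)) := by
  have h1 := RR_gt hD he hw
  have h2 := RR_pos hD he hw
  have h3 : 0 < (D + 1) * RR D e w * (RR D e w - ⟪e, w⟫_ℝ) :=
    mul_pos (mul_pos (by linarith) h2) (by linarith)
  unfold mu
  rw [div_pow, Real.sq_sqrt h3.le, div_mul_cancel₀ _ h3.ne', ← Real.rpow_natCast,
    ← Real.rpow_mul h2.le]
  congr 1; push_cast; ring

lemma inner_XX (he : ‖e‖ = 1) : ⟪e, XX D e w⟫_ℝ = mu D e w * (RR D e w - ⟪e, w⟫_ℝ) := by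
  unfold XX
  rw [real_inner_smul_right, inner_sub_right, real_inner_smul_right, real_inner_self_eq_norm_sq, he]
  ring

lemma normsq_XX (hD : 1 ≤ D) (he : ‖e‖ = 1) (hw : ⟪e, w⟫_ℝ < ‖w‖) :
    ‖XX D e w‖ ^ 2 = RR D e w ^ (-2 / (D + 1)) := by
  rw [← mu_sq hD he hw]
  unfold XX
  rw [norm_smul, mul_pow, Real.norm_eq_abs, sq_abs, norm_sub_sq_real, norm_smul, he,
    real_inner_smul_left, Real.norm_eq_abs, mul_one, sq_abs]
  have := RR_quad (e := e) (w := w) hD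
  congr 1
  linarith

lemma normsq_XX_pow (hD : 1 ≤ D) (he : ‖e‖ = 1) (hw : ⟪e, w⟫_ℝ < ‖w‖) :
    (‖XX D e w‖ ^ 2) ^ (-(D + 1) / 2) = RR D e w := by
  rw [normsq_XX hD he hw, ← Real.rpow_mul (RR_pos hD he hw).le]
  have : D + 1 ≠ 0 := by linarith
  have h : -2 / (D + 1) * (-(D + 1) / 2) = 1 := by field_simp
  rw [h, Real.rpow_one]

lemma normsq_XX_pos (hD : 1 ≤ D) (he : ‖e‖ = 1) (hw : ⟪e, w⟫_ℝ < ‖w‖) : 0 < ‖XX D e w‖ ^ 2 := by
  rw [normsq_XX hD he hw]; exact Real.rpow_pos_of_pos (RR_pos hD he hw) _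

lemma GG_XX (hD : 1 ≤ D) (he : ‖e‖ = 1) (hw : ⟪e, w⟫_ℝ < ‖w‖) : GG D e (XX D e w) = w := by
  have hq := normsq_XX_pos hD he hw
  have h1 : (D + 1) * ⟪e, XX D e w⟫_ℝ * (‖XX D e w‖ ^ 2) ^ (-(D + 1) / 2 - 1) * mu D e w = 1 := by
    rw [Real.rpow_sub_one hq.ne', normsq_XX_pow hD he hw, inner_XX he]
    have := mu_sq hD he hw
    rw [← normsq_XX hD he hw] at this
    calc _ = mu D e w ^ 2 * ((D + 1) * RR D e w * (RR D e w - ⟪e, w⟫_ℝ)) / ‖XX D e w‖ ^ 2 := by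
          ring
      _ = 1 := by rw [this, div_self hq.ne']
  unfold GG
  rw [normsq_XX_pow hD he hw]
  nth_rewrite 3 [XX]
  rw [smul_smul, h1, one_smul]
  abel

lemma Phi_eq (hD : 1 ≤ D) (he : ‖e‖ = 1) (hw : ⟪e, w⟫_ℝ < ‖w‖) :
    Phi D e w = PP D e (XX D e w) - ⟪w, XX D e w⟫_ℝ := by
  have h1 := RR_gt hD he hw
  have h2 := RR_pos hD he hw
  have h3 : 0 < (D + 1) * RR D e w * (RR D e w - ⟪e, w⟫_ℝ) :=
    mul_pos (mul_pos (by linarith) h2) (by linarith)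
  have hq := RR_quad (e := e) (w := w) hD
  have e1 : PP D e (XX D e w) - ⟪w, XX D e w⟫_ℝ
      = mu D e w * ((D + 1) * RR D e w * (RR D e w - ⟪e, w⟫_ℝ)) := by
    unfold PP
    rw [normsq_XX_pow hD he hw, inner_XX he]
    unfold XX
    rw [real_inner_smul_right, inner_sub_right, real_inner_smul_right, real_inner_self_eq_norm_sq,
      real_inner_comm e w]
    linear_combination (-mu D e w) * hq
  rw [e1]
  unfold mu Phi
  rw [div_mul_eq_mul_div, mul_div_assoc, Real.div_sqrt]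
  have e2 : (D + 1) * RR D e w * (RR D e w - ⟪e, w⟫_ℝ)
      = RR D e w * ((D + 1) * (RR D e w - ⟪e, w⟫_ℝ)) := by ring
  rw [e2, Real.sqrt_mul h2.le, Real.sqrt_eq_rpow (RR D e w), ← mul_assoc,
    ← Real.rpow_add h2, mul_comm]
  congr 2
  have : D + 1 ≠ 0 := by linarith
  field_simp; ring

lemma hasFDerivAt_nsq_rpow {X : E} (hX : 0 < ‖X‖ ^ 2) (s : ℝ) :
    HasFDerivAt (fun X : E => (‖X‖ ^ 2) ^ s)
      ((s * (‖X‖ ^ 2) ^ (s - 1)) • ((2 : ℝ) • innerSL ℝ X)) X := by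
  have h := (hasStrictFDerivAt_norm_sq X).hasFDerivAt
  have h2 : (2 • innerSL ℝ X : E →L[ℝ] ℝ) = (2 : ℝ) • innerSL ℝ X := by
    rw [← Nat.cast_smul_eq_nsmul ℝ]; norm_num
  rw [h2] at h
  exact h.rpow_const (Or.inl hX.ne')

lemma hasFDerivAt_PP {X : E} (hX : 0 < ‖X‖ ^ 2) :
    HasFDerivAt (PP D e) (innerSL ℝ (GG D e X)) X := by
  have h := ((innerSL ℝ e).hasFDerivAt (x := X)).mul (hasFDerivAt_nsq_rpow hX (-(D + 1) / 2))
  refine h.congr_fderiv ?_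
  ext v
  simp only [GG, add_apply, smul_apply, innerSL_apply_apply,
    smul_eq_mul, inner_sub_left, real_inner_smul_left]
  ring

lemma hasFDerivAt_GG {X : E} (hX : 0 < ‖X‖ ^ 2) :
    HasFDerivAt (GG D e) (-NN D e X) X := by
  have h1 := (hasFDerivAt_nsq_rpow hX (-(D + 1) / 2)).smul_const e
  have h2 := ((((innerSL ℝ e).hasFDerivAt (x := X)).const_mul (D + 1)).mul
    (hasFDerivAt_nsq_rpow hX (-(D + 1) / 2 - 1))).smul (hasFDerivAt_id X)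
  refine (h1.sub h2).congr_fderiv ?_
  ext v
  have hs : (‖X‖ ^ 2) ^ (-(D + 1) / 2 - 1 - 1) = (‖X‖ ^ 2) ^ (-(D + 1) / 2 - 1) / ‖X‖ ^ 2 :=
    Real.rpow_sub_one hX.ne' _
  simp only [NN, add_apply, smul_apply, innerSL_apply_apply,
    smul_eq_mul, sub_apply, ContinuousLinearMap.smulRight_apply,
    neg_apply, ContinuousLinearMap.id_apply, id, Pi.mul_apply, hs]
  match_scalars <;> ring

lemma isOpen_off : IsOpen {w : E | ⟪e, w⟫_ℝ < ‖w‖} :=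
  isOpen_lt (by fun_prop) continuous_norm

lemma hasFDerivAt_Phi (hD : 1 ≤ D) (he : ‖e‖ = 1) (hw : ⟪e, w⟫_ℝ < ‖w‖) :
    HasFDerivAt (Phi D e) (-innerSL ℝ (XX D e w)) w := by
  have hX := ((contDiffAt_XX hD he hw).differentiableAt two_ne_zero).hasFDerivAt
  have h1 := (hasFDerivAt_PP (D := D) (e := e) (normsq_XX_pos hD he hw)).comp w hX
  have h2 := (hasFDerivAt_id w).inner ℝ hX
  have h3 := (h1.sub h2).congr_of_eventuallyEq (f₁ := Phi D e) (by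
    filter_upwards [isOpen_off.mem_nhds hw] with v hv
    exact Phi_eq hD he hv)
  refine h3.congr_fderiv ?_
  ext v
  rw [GG_XX hD he hw]
  simp [real_inner_comm]

lemma NN_fderiv_XX (hD : 1 ≤ D) (he : ‖e‖ = 1) (hw : ⟪e, w⟫_ℝ < ‖w‖) (v : E) :
    NN D e (XX D e w) ((-fderiv ℝ (XX D e) w) v) = v := by
  have hX := ((contDiffAt_XX hD he hw).differentiableAt two_ne_zero).hasFDerivAt
  have h1 := (hasFDerivAt_GG (D := D) (e := e) (normsq_XX_pos hD he hw)).comp w hX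
  have h3 := h1.congr_of_eventuallyEq (f₁ := id) (by
    filter_upwards [isOpen_off.mem_nhds hw] with v hv
    exact (GG_XX hD he hv).symm)
  have h4 := h3.unique (hasFDerivAt_id w)
  have h5 := congrArg (fun L : E →L[ℝ] E => L v) h4
  simpa using h5

theorem hess_ineq [FiniteDimensional ℝ E] {ι : Type*} [Fintype ι] (b : OrthonormalBasis ι ℝ E)
    (hcard : (Fintype.card ι : ℝ) = D + 1) (hD : 1 ≤ D) (he : ‖e‖ = 1) (hw : ⟪e, w⟫_ℝ < ‖w‖)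
    (A : E →L[ℝ] E) (hA : ∀ x y, ⟪A x, y⟫_ℝ = ⟪x, A y⟫_ℝ) (hAtr : ∑ i, ⟪b i, A (b i)⟫_ℝ = 0) :
    0 ≤ ∑ i, ⟪(-fderiv ℝ (XX D e) w) (A (b i)), A (b i)⟫_ℝ := by
  set X := XX D e w with hXdef
  have hq : 0 < ‖X‖ ^ 2 := normsq_XX_pos hD he hw
  have ht : 0 < ⟪e, X⟫_ℝ := by
    rw [hXdef, inner_XX he]
    exact mul_pos (mu_pos hD he hw) (sub_pos.2 (RR_gt hD he hw))
  have hN : ∀ x y, ⟪x, NN D e X y⟫_ℝ = ((D + 1) * (‖X‖ ^ 2) ^ (-(D + 1) / 2 - 1)) *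
      (⟪e, X⟫_ℝ * ⟪x, y⟫_ℝ + ⟪X, y⟫_ℝ * ⟪x, e⟫_ℝ + ⟪e, y⟫_ℝ * ⟪x, X⟫_ℝ
        - ((D + 3) * ⟪e, X⟫_ℝ / ‖X‖ ^ 2) * (⟪X, y⟫_ℝ * ⟪x, X⟫_ℝ)) := by
    intro x y
    simp only [NN, add_apply, smul_apply,
      innerSL_apply_apply, sub_apply, ContinuousLinearMap.smulRight_apply,
      ContinuousLinearMap.id_apply, real_inner_smul_right, inner_add_right, inner_sub_right]
  refine trace_ineq b (NN D e X) _ A X ?_ ?_ ?_ (NN_fderiv_XX hD he hw) hA hAtr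
  · intro x y
    rw [real_inner_comm, hN, hN, real_inner_comm x y, real_inner_comm X x, real_inner_comm e y,
      real_inner_comm e x, real_inner_comm X y]
    ring
  · simp_rw [hN]
    rw [← Finset.mul_sum, Finset.sum_sub_distrib, Finset.sum_add_distrib, Finset.sum_add_distrib,
      ← Finset.mul_sum, ← Finset.mul_sum, b.sum_inner_mul_inner, b.sum_inner_mul_inner,
      b.sum_inner_mul_inner, real_inner_self_eq_norm_sq X, real_inner_comm e X]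
    have h1 : ∑ i, ⟪b i, b i⟫_ℝ = D + 1 := by
      rw [← hcard]
      simp [b.orthonormal.1]
    rw [h1]
    have : ⟪e, X⟫_ℝ * (D + 1) + ⟪e, X⟫_ℝ + ⟪e, X⟫_ℝ
        - (D + 3) * ⟪e, X⟫_ℝ / ‖X‖ ^ 2 * ‖X‖ ^ 2 = 0 := by
      rw [div_mul_cancel₀ _ hq.ne']; ring
    rw [this, mul_zero]
  · intro z hz hXz
    rw [hN, real_inner_comm X z, hXz, real_inner_self_eq_norm_sq]
    have h1 : 0 < ‖z‖ ^ 2 := by positivity
    have h2 : 0 < (‖X‖ ^ 2) ^ (-(D + 1) / 2 - 1) := Real.rpow_pos_of_pos hq _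
    have h3 : 0 < D + 1 := by linarith
    simp only [zero_mul, mul_zero, add_zero, sub_zero]
    positivity

end Pool.Agent.Lib.MP_fc0ae9_an
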