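import Pool.Agent.Lib.MP_fc0ae9_an.MxVit

/-! The maximal theorem of Hardy and Littlewood. -/

namespace Pool.Agent.Lib.MP_fc0ae9_an.St

open scoped InnerProductSpace ContDiff Topology ENNReal
open MeasureTheory Filter Metric Pool.Agent.Results.MP_fc0ae9_an.PositiveThreshold

variable {d : ℕ}

theorem mxhl_lt {g : Ed d → ℝ≥0∞} {lam : ℝ≥0∞} {x : Ed d} : lam < hl g x ↔
    ∃ y r, (0 < r ∧ x ∈ ball y r) ∧ lam < (∫⁻ z in ball y r, g z) / volume (ball y r) := by
  simp only [hl, lt_iSup_iff, exists_prop]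

theorem mxhl_eq (g : Ed d → ℝ≥0∞) (lam : ℝ≥0∞) : {x | lam < hl g x} =
    ⋃ p ∈ {p : Ed d × ℝ | 0 < p.2 ∧ lam < (∫⁻ z in ball p.1 p.2, g z) / volume (ball p.1 p.2)},
      ball p.1 p.2 := by
  ext x
  simp only [Set.mem_ofPred_eq, mxhl_lt, Set.mem_iUnion, exists_prop, Prod.exists]
  exact ⟨fun ⟨y, r, h1, h2⟩ => ⟨y, r, ⟨h1.1, h2⟩, h1.2⟩,
    fun ⟨y, r, h1, h2⟩ => ⟨y, r, ⟨h1.1, h2⟩, h1.2⟩⟩

theorem measurable_hl (g : Ed d → ℝ≥0∞) : Measurable (hl g) := by
  refine measurable_of_Ioi fun lam => ?_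
  change MeasurableSet {x | lam < hl g x}
  rw [mxhl_eq]
  exact (isOpen_biUnion fun _ _ => isOpen_ball).measurableSet

theorem hl_weak (hd : 1 ≤ d) (g : Ed d → ℝ≥0∞) {lam : ℝ≥0∞} (h0 : lam ≠ 0) :
    volume {x | lam < hl g x} ≤ 5 ^ d * lam⁻¹ * ∫⁻ x, g x := by
  have h := vitali_bound hd
    {p : Ed d × ℝ | 0 < p.2 ∧ lam < (∫⁻ z in ball p.1 p.2, g z) / volume (ball p.1 p.2)}
    (fun p hp => hp.1) (volume.withDensity g) (ENNReal.inv_ne_top.2 h0) fun p hp => by
      rw [withDensity_apply _ measurableSet_ball]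
      have h1 := ENNReal.mul_le_of_le_div hp.2.le
      calc volume (ball p.1 p.2) = lam⁻¹ * (lam * volume (ball p.1 p.2)) :=
            (ENNReal.inv_mul_cancel_left h0 hp.2.ne_top).symm
        _ ≤ _ := by gcongr
  rwa [← mxhl_eq, withDensity_apply _ MeasurableSet.univ, Measure.restrict_univ] at h

theorem mxhl_cut (hd : 1 ≤ d) (g : Ed d → ℝ≥0∞) {m : ℝ≥0∞} (h0 : m ≠ 0) :
    volume {x | m + m < hl g x} ≤ 5 ^ d * m⁻¹ * ∫⁻ x, if m < g x then g x else 0 := by
  refine le_trans (measure_mono fun x hx => ?_) (hl_weak hd _ h0)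
  obtain ⟨y, r, h1, h2⟩ := mxhl_lt.1 hx
  refine mxhl_lt.2 ⟨y, r, h1, lt_of_not_ge fun h3 => h2.not_ge ?_⟩
  have h4 : ∫⁻ z in ball y r, g z ≤
      (∫⁻ z in ball y r, if m < g z then g z else 0) + m * volume (ball y r) := by
    rw [← setLIntegral_const, ← lintegral_add_right _ measurable_const]
    refine lintegral_mono fun z => ?_
    split_ifs with h
    · exact le_self_add
    · rw [zero_add]
      exact not_lt.1 h
  refine (ENNReal.div_le_div_right h4 _).trans ?_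
  rw [ENNReal.add_div]
  exact add_le_add h3 (ENNReal.div_le_of_le_mul le_rfl)

theorem mxhl_in {r : ℝ} (hr : 1 < r) (y : ℝ≥0∞) :
    ∫⁻ t in Set.Ioi (0 : ℝ), (ENNReal.ofReal (t ^ r⁻¹ / 2))⁻¹ *
      (if ENNReal.ofReal (t ^ r⁻¹ / 2) < y then y else 0) ≤
      ENNReal.ofReal (2 ^ r / (1 - r⁻¹)) * y ^ r := by
  have r0 : 0 < r := by linarith
  have r1 : 0 < 1 - r⁻¹ := sub_pos.2 (inv_lt_one_of_one_lt₀ hr)
  rcases eq_or_ne y ⊤ with rfl | hy
  · rw [ENNReal.top_rpow_of_pos r0, ENNReal.mul_top (ENNReal.ofReal_pos.2 (by positivity)).ne']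
    exact le_top
  rcases eq_or_ne y 0 with rfl | hy0
  · simp
  obtain ⟨G, G0, rfl⟩ : ∃ G : ℝ, 0 < G ∧ y = ENNReal.ofReal G :=
    ⟨y.toReal, ENNReal.toReal_pos hy0 hy, (ENNReal.ofReal_toReal hy).symm⟩
  have T0 : 0 < (2 * G) ^ r := by positivity
  have hi : IntegrableOn (fun t : ℝ => 2 * G * t ^ (-r⁻¹)) (Set.Ioc 0 ((2 * G) ^ r)) :=
    ((intervalIntegral.intervalIntegrable_rpow' (r := -r⁻¹) (by linarith)).const_mul (2 * G)).1
  calc _ ≤ ∫⁻ t in Set.Ioi (0 : ℝ), (Set.Ioc 0 ((2 * G) ^ r)).indicator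
          (fun t : ℝ => ENNReal.ofReal (2 * G * t ^ (-r⁻¹))) t := by
        refine setLIntegral_mono' measurableSet_Ioi fun t ht => ?_
        have t0 : 0 < t := ht
        have t1 : 0 < t ^ r⁻¹ := by positivity
        split_ifs with h
        · rw [ENNReal.ofReal_lt_ofReal_iff G0] at h
          rw [Set.indicator_of_mem (show t ∈ Set.Ioc 0 ((2 * G) ^ r) from ⟨t0,
              (Real.rpow_inv_le_iff_of_pos t0.le (by positivity) r0).1 (by linarith)⟩),
            ← ENNReal.ofReal_inv_of_pos (by positivity), ← ENNReal.ofReal_mul (by positivity),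
            Real.rpow_neg t0.le]
          refine le_of_eq (congrArg _ ?_)
          field_simp
        · simp
    _ ≤ ∫⁻ t in Set.Ioc 0 ((2 * G) ^ r), ENNReal.ofReal (2 * G * t ^ (-r⁻¹)) := by
        rw [← lintegral_indicator measurableSet_Ioc]
        exact setLIntegral_le_lintegral _ _
    _ = ENNReal.ofReal (∫ t in (0 : ℝ)..(2 * G) ^ r, 2 * G * t ^ (-r⁻¹)) := by
        rw [intervalIntegral.integral_of_le T0.le, ofReal_integral_eq_lintegral_ofReal hi]
        filter_upwards [ae_restrict_mem measurableSet_Ioc] with t ht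
        have := ht.1
        positivity
    _ = _ := by
        rw [intervalIntegral.integral_const_mul, integral_rpow (Or.inl (by linarith)),
          ENNReal.ofReal_rpow_of_pos G0, ← ENNReal.ofReal_mul (by positivity),
          Real.zero_rpow (by linarith), ← Real.rpow_mul (by positivity),
          show r * (-r⁻¹ + 1) = r - 1 by field_simp; ring, Real.rpow_sub_one (by positivity),
          Real.mul_rpow (by norm_num) G0.le, show -r⁻¹ + 1 = 1 - r⁻¹ by ring]
        congr 1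
        generalize 1 - r⁻¹ = e at r1
        field_simp
        ring

theorem hl_strong (hd : 1 ≤ d) {r : ℝ} (hr : 1 < r) : ∃ C : ℝ≥0∞, C ≠ ⊤ ∧
    ∀ g : Ed d → ℝ≥0∞, Measurable g → ∫⁻ x, hl g x ^ r ≤ C * ∫⁻ x, g x ^ r := by
  have r0 : 0 < r := by linarith
  refine ⟨5 ^ d * ENNReal.ofReal (2 ^ r / (1 - r⁻¹)), by finiteness, fun g hg => ?_⟩
  have hm : Measurable fun t : ℝ => ENNReal.ofReal (t ^ r⁻¹ / 2) := by fun_prop
  rw [layer volume ((measurable_hl g).pow_const r)]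
  calc _ ≤ ∫⁻ t in Set.Ioi (0 : ℝ), 5 ^ d * ∫⁻ x, (ENNReal.ofReal (t ^ r⁻¹ / 2))⁻¹ *
          (if ENNReal.ofReal (t ^ r⁻¹ / 2) < g x then g x else 0) := by
        refine setLIntegral_mono' measurableSet_Ioi fun t ht => ?_
        have t0 : 0 < t := ht
        have t1 : 0 < t ^ r⁻¹ / 2 := by positivity
        have t2 := (ENNReal.ofReal_pos.2 t1).ne'
        rw [lintegral_const_mul' _ _ (ENNReal.inv_ne_top.2 t2), ← mul_assoc]
        refine le_trans (measure_mono fun x hx => ?_) (mxhl_cut hd g t2)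
        change _ < hl g x
        rw [← ENNReal.ofReal_add t1.le t1.le, add_halves, ← ENNReal.ofReal_rpow_of_pos t0]
        exact (ENNReal.rpow_inv_lt_iff r0).2 hx
    _ = 5 ^ d * ∫⁻ x, ∫⁻ t in Set.Ioi (0 : ℝ), (ENNReal.ofReal (t ^ r⁻¹ / 2))⁻¹ *
          (if ENNReal.ofReal (t ^ r⁻¹ / 2) < g x then g x else 0) := by
        rw [lintegral_const_mul' _ _ (by finiteness), lintegral_lintegral_swap]
        exact ((hm.comp measurable_fst).inv.mul (Measurable.ite
          (measurableSet_lt (hm.comp measurable_fst) (hg.comp measurable_snd))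
          (hg.comp measurable_snd) measurable_const)).aemeasurable
    _ ≤ _ := by
        rw [mul_assoc, ← lintegral_const_mul' (ENNReal.ofReal _) _ ENNReal.ofReal_ne_top]
        exact mul_le_mul_right (lintegral_mono fun x => mxhl_in hr (g x)) _

end Pool.Agent.Lib.MP_fc0ae9_an.St
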