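import Pool.Agent.Lib.MP_fc0ae9_an.MxPsi

/-! The Poisson kernel is dominated by the maximal function. -/

namespace Pool.Agent.Lib.MP_fc0ae9_an.St

open scoped InnerProductSpace ContDiff Topology ENNReal
open MeasureTheory Filter Metric Pool.Agent.Results.MP_fc0ae9_an.PositiveThreshold

variable {d : ℕ}

theorem mxker_pt {a : ℝ} (ha : 0 < a) (x₀ x : Ed d) : ∃ k : ℕ, x ∈ ball x₀ (2 ^ k * a) ∧
    a * ps a x₀ (pt 0 x) ≤ 2 ^ (d + 1) * (1 / 2) ^ k / (2 ^ k * a) ^ d := by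
  classical
  have H : ∃ k : ℕ, x ∈ ball x₀ (2 ^ k * a) := by
    obtain ⟨k, hk⟩ := pow_unbounded_of_one_lt (dist x x₀ / a) (one_lt_two (α := ℝ))
    exact ⟨k, (div_lt_iff₀ ha).1 hk⟩
  refine ⟨Nat.find H, Nat.find_spec H, ?_⟩
  have h1 : (2 ^ Nat.find H * a / 2) ^ 2 ≤ rr a x₀ (pt 0 x) := by
    rw [rr_pt]
    rcases Nat.eq_zero_or_pos (Nat.find H) with h | h
    · rw [h]
      nlinarith [sq_nonneg (dist x x₀), sq_nonneg a]
    · have h2 := not_lt.1 (mt mem_ball.2 (Nat.find_min H (Nat.sub_one_lt h.ne')))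
      obtain ⟨j, hj⟩ := Nat.exists_eq_add_one_of_ne_zero h.ne'
      rw [hj, Nat.add_sub_cancel] at h2
      rw [hj, show (2 : ℝ) ^ (j + 1) * a / 2 = 2 ^ j * a by ring]
      nlinarith [pow_le_pow_left₀ (by positivity) h2 2, sq_nonneg a]
  generalize Nat.find H = k at h1
  have h2 : ps a x₀ (pt 0 x) ≤ ((2 ^ k * a / 2) ^ (d + 1))⁻¹ := by
    refine (Real.rpow_le_rpow_of_nonpos (by positivity) h1 (neg_nonpos.2 (by positivity))).trans
      (le_of_eq ?_)
    rw [← Real.rpow_natCast _ 2, ← Real.rpow_mul (by positivity), ← Real.rpow_natCast _ (d + 1),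
      ← Real.rpow_neg (by positivity)]
    congr 1
    push_cast
    ring
  refine (mul_le_mul_of_nonneg_left h2 ha.le).trans (le_of_eq ?_)
  rw [div_pow, one_div, inv_pow, pow_succ (2 ^ k * a)]
  field_simp

theorem mxker_ball (g : Ed d → ℝ≥0∞) (x₀ : Ed d) {r : ℝ} (hr : 0 < r) : ∫⁻ z in ball x₀ r, g z ≤
    hl g x₀ * (ENNReal.ofReal (r ^ d) * volume (ball (0 : Ed d) 1)) := by
  have e := Measure.addHaar_ball_of_pos volume x₀ hr
  rw [finrank_euclideanSpace_fin] at e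
  rw [← e, ← ENNReal.div_le_iff (measure_ball_pos _ _ hr).ne' measure_ball_lt_top.ne]
  exact le_iSup₂_of_le x₀ r (le_iSup_of_le ⟨hr, mem_ball_self hr⟩ le_rfl)

theorem ker_le_hl : ∃ C : ℝ≥0∞, C ≠ ⊤ ∧ ∀ (a : ℝ) (x₀ : Ed d) (g : Ed d → ℝ≥0∞), 0 < a →
    Measurable g → ∫⁻ x, ENNReal.ofReal (a * ps a x₀ (pt 0 x)) * g x ≤ C * hl g x₀ := by
  refine ⟨(∑' k : ℕ, ENNReal.ofReal (2 ^ (d + 1) * (1 / 2) ^ k)) * volume (ball (0 : Ed d) 1),
    ENNReal.mul_ne_top (summable_geometric_two.mul_left _).tsum_ofReal_lt_top.ne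
      measure_ball_lt_top.ne, fun a x₀ g ha hg => ?_⟩
  let c : ℕ → ℝ≥0∞ := fun k => ENNReal.ofReal (2 ^ (d + 1) * (1 / 2) ^ k / (2 ^ k * a) ^ d)
  calc _ ≤ ∫⁻ x, ∑' k : ℕ, (ball x₀ (2 ^ k * a)).indicator (fun x => c k * g x) x := by
        refine lintegral_mono fun x => ?_
        obtain ⟨k, h1, h2⟩ := mxker_pt ha x₀ x
        refine le_trans ?_ (ENNReal.le_tsum k)
        rw [Set.indicator_of_mem h1]
        exact mul_le_mul_left (ENNReal.ofReal_le_ofReal h2) _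
    _ = ∑' k : ℕ, c k * ∫⁻ x in ball x₀ (2 ^ k * a), g x := by
        rw [lintegral_tsum fun k =>
          ((hg.const_mul _).indicator measurableSet_ball).aemeasurable]
        exact tsum_congr fun k => by
          rw [lintegral_indicator measurableSet_ball, lintegral_const_mul _ hg]
    _ ≤ _ := by
        rw [mul_assoc, ← ENNReal.tsum_mul_right]
        refine ENNReal.tsum_le_tsum fun k => ?_
        refine (mul_le_mul_right (mxker_ball g x₀ (by positivity)) _).trans (le_of_eq ?_)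
        rw [mul_comm (hl g x₀), ← mul_assoc, ← mul_assoc, ← ENNReal.ofReal_mul (by positivity),
          div_mul_cancel₀ _ (by positivity), mul_assoc]

end Pool.Agent.Lib.MP_fc0ae9_an.St
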