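import Pool.Agent.Lib.MP_fc0ae9_an.MxPt
import Pool.Agent.Lib.MP_fc0ae9_an.MxHL
import Pool.Agent.Lib.MP_fc0ae9_an.MxKer

/-! Absorption. -/

namespace Pool.Agent.Lib.MP_fc0ae9_an.St

open scoped InnerProductSpace ContDiff Topology ENNReal
open MeasureTheory Filter Metric Pool.Agent.Results.MP_fc0ae9_an.PositiveThreshold

variable {d : ℕ}

theorem mxabs_iter {u v h : Ed d → ℝ≥0∞} (hu : Measurable u) (hv : Measurable v)
    (hh : Measurable h) {θ C K : ℝ≥0∞} (hθ : θ < 1) (hθC : 2 * θ * C ≤ 1) (hK : K ≠ ⊤)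
    (huK : ∀ x, u x ≤ K) (h1 : ∀ x, u x ≤ h x + θ * v x)
    (h2 : ∀ τ, ∫⁻ x, (v x - τ) ≤ C * ∫⁻ x, (u x - τ)) : ∫⁻ x, u x ≤ 2 * ∫⁻ x, h x := by
  have key : ∀ n : ℕ, ∫⁻ x, (u x - θ ^ n * K) ≤ 2 * ∫⁻ x, h x := by
    intro n
    induction n with
    | zero =>
      simp only [pow_zero, one_mul, tsub_eq_zero_of_le (huK _), lintegral_zero]
      exact zero_le
    | succ n ih =>
      calc ∫⁻ x, (u x - θ ^ (n + 1) * K) ≤ ∫⁻ x, (h x + θ * (v x - θ ^ n * K)) := by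
            refine lintegral_mono fun x => tsub_le_iff_right.2 ((h1 x).trans ?_)
            rw [pow_succ', mul_assoc, add_assoc, ← mul_add]
            gcongr
            exact le_tsub_add
        _ = (∫⁻ x, h x) + θ * ∫⁻ x, (v x - θ ^ n * K) := by
            rw [lintegral_add_left hh, lintegral_const_mul _ (hv.sub_const _)]
        _ ≤ (∫⁻ x, h x) + θ * (C * (2 * ∫⁻ x, h x)) := by
            gcongr
            exact (h2 _).trans (by gcongr)
        _ = (∫⁻ x, h x) + 2 * θ * C * ∫⁻ x, h x := by ring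
        _ ≤ (∫⁻ x, h x) + 1 * ∫⁻ x, h x := by gcongr
        _ = _ := by ring
  have h3 : Tendsto (fun n : ℕ => θ ^ n * K) atTop (𝓝 0) := by
    have h4 := ENNReal.Tendsto.mul_const (ENNReal.tendsto_pow_atTop_nhds_zero_of_lt_one hθ)
      (Or.inr hK)
    rwa [zero_mul] at h4
  calc ∫⁻ x, u x = ∫⁻ x, liminf (fun n : ℕ => u x - θ ^ n * K) atTop := by
        refine lintegral_congr fun x => ?_
        rw [(ENNReal.Tendsto.sub tendsto_const_nhds h3 (Or.inr ENNReal.zero_ne_top)).liminf_eq,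
          tsub_zero]
    _ ≤ liminf (fun n : ℕ => ∫⁻ x, (u x - θ ^ n * K)) atTop :=
        lintegral_liminf_le fun n => hu.sub_const _
    _ ≤ _ := liminf_le_of_frequently_le' (Frequently.of_forall key)

theorem mxabs_le {α : ℝ} {F : Fin (d + 1) → EE d → ℝ} {x : Ed d} {A : ℝ≥0∞} :
    ntMax α (fun X => ‖vec F X‖) x ≤ A ↔
      ∀ (t : ℝ) (y : Ed d), 0 < t → dist y x < α * t → ‖vec F (pt t y)‖ₑ ≤ A := by
  simp only [ntMax, iSup_le_iff, enorm_norm, and_imp]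

theorem nice_max (hd : 2 ≤ d) : ∃ q : ℝ, 0 < q ∧ q < ((d : ℝ) - 1) / d ∧ ∀ p : ℝ, q < p →
    ∃ C : ℝ≥0∞, C ≠ ⊤ ∧ ∀ (F : Fin (d + 1) → EE d → ℝ) (f : Ed d → EE d), Nice F f →
      ∫⁻ x, ntMax 1 (fun X => ‖vec F X‖) x ^ p ≤ C * ∫⁻ x, ‖f x‖ₑ ^ p := by
  have hd1 : 1 ≤ d := by omega
  obtain ⟨β, hβ, hcore⟩ := pt_core hd
  obtain ⟨Ca, hCa, hap⟩ := aperture_int hd1 one_pos (one_pos.trans_le hβ)
  obtain ⟨Ck, hCk, hker⟩ := ker_le_hl (d := d)
  obtain ⟨θ, hθ0, hθ2, hθC⟩ : ∃ θ : ℝ≥0∞, θ ≠ 0 ∧ 2 * θ ≤ 1 ∧ 2 * θ * Ca ≤ 1 := by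
    have h1 : 2 * (Ca + 1) ≠ ⊤ := by finiteness
    have h2 : 2 * (Ca + 1) ≠ 0 := by positivity
    have h3 : 2 * (2 * (Ca + 1))⁻¹ * (Ca + 1) = 1 := by
      rw [mul_right_comm]
      exact ENNReal.mul_inv_cancel h2 h1
    refine ⟨(2 * (Ca + 1))⁻¹, ENNReal.inv_ne_zero.2 h1, ?_, ?_⟩
    · exact le_trans (le_mul_of_one_le_right' le_add_self) h3.le
    · exact le_trans (mul_le_mul_right le_self_add _) h3.le
  have hθ1 : θ < 1 := by
    by_contra h
    exact absurd ((le_mul_of_one_le_right' (not_lt.1 h)).trans hθ2) (by norm_num)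
  obtain ⟨q, hq, hqd, C, hC, hpt⟩ := hcore θ.toReal (ENNReal.toReal_pos hθ0 hθ1.ne_top)
  refine ⟨q, hq, hqd, fun p hp => ?_⟩
  have hp0 : 0 < p := hq.trans hp
  obtain ⟨r, hr, hqr⟩ : ∃ r : ℝ, 1 < r ∧ q * r = p :=
    ⟨p / q, (one_lt_div hq).2 hp, mul_div_cancel₀ p hq.ne'⟩
  have hr0 : 0 ≤ r := by linarith
  obtain ⟨Ch, hCh, hhl⟩ := hl_strong hd1 hr
  obtain ⟨B, hB⟩ : ∃ B : ℝ≥0∞, B = 2 ^ (r - 1) * (ENNReal.ofReal C * Ck) ^ r := ⟨_, rfl⟩
  have hBt : B ≠ ⊤ := by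
    rw [hB]
    exact ENNReal.mul_ne_top (ENNReal.rpow_ne_top_of_nonneg (by linarith) (by norm_num))
      (ENNReal.rpow_ne_top_of_nonneg hr0 (by finiteness))
  refine ⟨2 * (B * Ch), by finiteness, fun F f hF => ?_⟩
  obtain ⟨K, -, -, hK⟩ := hF.exists_bound
  have hM : ∀ (α : ℝ) (x : Ed d), ntMax α (fun X => ‖vec F X‖) x ≤ ENNReal.ofReal K :=
    fun α x => mxabs_le.2 fun t y ht _ => by
      rw [← ofReal_norm]
      exact ENNReal.ofReal_le_ofReal (hK _ (pt_mem ht y))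
  have hg : Measurable fun x => ‖f x‖ₑ ^ q := hF.cont.measurable.enorm.pow_const q
  have h1 : ∀ x₀, ntMax 1 (fun X => ‖vec F X‖) x₀ ^ q ≤
      ENNReal.ofReal C * Ck * hl (fun x => ‖f x‖ₑ ^ q) x₀ +
        θ * ntMax β (fun X => ‖vec F X‖) x₀ ^ q := by
    intro x₀
    have hfin : ntMax β (fun X => ‖vec F X‖) x₀ ≠ ⊤ :=
      ne_top_of_le_ne_top ENNReal.ofReal_ne_top (hM β x₀)
    rw [← ENNReal.le_rpow_inv_iff hq]
    refine mxabs_le.2 fun a y ha hy => (ENNReal.le_rpow_inv_iff hq).2 ?_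
    rw [one_mul] at hy
    have h2 := ENNReal.ofReal_le_ofReal (hpt F f hF x₀ y a _ ha hy fun t z ht hz => by
      have h3 := ENNReal.toReal_mono hfin (mxabs_le.1 le_rfl t z ht hz)
      rwa [toReal_enorm] at h3)
    rw [← ENNReal.ofReal_rpow_of_nonneg (norm_nonneg _) hq.le, ofReal_norm] at h2
    refine h2.trans (ENNReal.ofReal_add_le.trans (add_le_add ?_ (le_of_eq ?_)))
    · rw [ENNReal.ofReal_mul hC.le, mul_assoc, ← integral_const_mul,
        ofReal_integral_eq_lintegral_ofReal ((hF.integrable ha x₀ hq.le).const_mul a)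
          (Eventually.of_forall fun x => by have := ps_pos ha x₀ (pt 0 x); positivity)]
      refine mul_le_mul_right (le_trans (le_of_eq (lintegral_congr fun x => ?_))
        (hker a x₀ _ ha hg)) _
      have h3 := ps_pos ha x₀ (pt 0 x)
      rw [← mul_assoc, ENNReal.ofReal_mul (by positivity),
        ← ENNReal.ofReal_rpow_of_nonneg (norm_nonneg _) hq.le, ofReal_norm]
    · rw [ENNReal.ofReal_mul ENNReal.toReal_nonneg, ENNReal.ofReal_toReal hθ1.ne_top,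
        ← ENNReal.ofReal_rpow_of_nonneg ENNReal.toReal_nonneg hq.le, ENNReal.ofReal_toReal hfin]
  have h2 : 2 ^ (r - 1) * θ ^ r ≤ θ := by
    have e : θ ^ r = θ ^ (r - 1) * θ := by
      rw [ENNReal.rpow_sub _ _ hθ0 hθ1.ne_top, ENNReal.rpow_one,
        ENNReal.div_mul_cancel hθ0 hθ1.ne_top]
    rw [e, ← mul_assoc, ← ENNReal.mul_rpow_of_nonneg _ _ (by linarith)]
    exact mul_le_of_le_one_left' (ENNReal.rpow_le_one hθ2 (by linarith))
  have h3 := mxabs_iter (u := fun x => ntMax 1 (fun X => ‖vec F X‖) x ^ p)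
    (v := fun x => ntMax β (fun X => ‖vec F X‖) x ^ p)
    (h := fun x => B * hl (fun x => ‖f x‖ₑ ^ q) x ^ r) ((measurable_ntMax _ _).pow_const p)
    ((measurable_ntMax _ _).pow_const p) (((measurable_hl _).pow_const r).const_mul B) hθ1 hθC
    (ENNReal.rpow_ne_top_of_nonneg hp0.le ENNReal.ofReal_ne_top)
    (fun x => ENNReal.rpow_le_rpow (hM 1 x) hp0.le) (fun x => by
      have h4 := (ENNReal.rpow_le_rpow (h1 x) hr0).trans
        (ENNReal.rpow_add_le_mul_rpow_add_rpow _ _ hr.le)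
      rw [← ENNReal.rpow_mul, hqr, ENNReal.mul_rpow_of_nonneg _ _ hr0,
        ENNReal.mul_rpow_of_nonneg θ _ hr0, ← ENNReal.rpow_mul, hqr, mul_add, ← mul_assoc,
        ← mul_assoc, ← hB] at h4
      exact h4.trans (by gcongr)) fun τ => hap _ p τ hp0
  refine h3.trans ?_
  rw [lintegral_const_mul _ ((measurable_hl _).pow_const r), mul_assoc, mul_assoc]
  have h5 := hhl _ hg
  simp only [← ENNReal.rpow_mul, hqr] at h5
  gcongr

end Pool.Agent.Lib.MP_fc0ae9_an.St
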