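import Pool.Agent.Lib.MP_fc0ae9_an.MxDefs

/-! Pointwise algebra for the correction field and the density. -/

namespace Pool.Agent.Lib.MP_fc0ae9_an.St

open scoped InnerProductSpace ContDiff Topology ENNReal
open MeasureTheory Filter Metric Pool.Agent.Results.MP_fc0ae9_an.PositiveThreshold

variable {d : ℕ}

variable {ι : Type} [Fintype ι] {ε b k c δ q : ℝ}

theorem WW_split (ε b k c δ q : ℝ) (e : Vc ι) (j : Jet ι) (l : ι) :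
    WW ε b k c δ q e j l = q * NN ε b δ e j ^ (q / 2 - 1) * gv ε b e j.1 j.2.1 j.2.2 l -
      VV ε b δ q e j * e l + ZZ ε b k c δ q e j l := by
  simp only [WW, ZZ, GG, PiLp.add_apply, PiLp.sub_apply, PiLp.smul_apply, smul_eq_mul]
  ring

theorem GG_nonneg (hε : 0 ≤ ε) (hb : 0 ≤ b) (hδ : 0 < δ) (q : ℝ) (e : Vc ι) (j : Jet ι) :
    0 ≤ GG ε b δ q e j :=
  mul_nonneg (Real.rpow_pos_of_pos (NN_pos hε hb hδ e j) _).le (sq_nonneg _)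

theorem norm_ZZ_le (hε : 0 ≤ ε) (hb : 0 ≤ b) (hk : 0 ≤ k) (hc : 0 ≤ c) (hδ : 0 < δ) (hq : 0 ≤ q)
    {e : Vc ι} (he : ‖e‖ = 1) (j : Jet ι) :
    ‖ZZ ε b k c δ q e j‖ ≤ (3 * k + c + 2) * (q * (ε * GG ε b δ q e j)) := by
  have hN := NN_pos hε hb hδ e j
  have hG := GG_nonneg hε hb hδ q e j
  have hP := (Real.rpow_pos_of_pos hN (q / 2 - 2)).le
  have hw0 : |⟪e, j.1⟫_ℝ| ≤ ‖j.1‖ := by simpa [he] using abs_real_inner_le_norm e j.1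
  have hw4 : 0 ≤ ε * b * ⟪e, j.1⟫_ℝ ^ 2 := by positivity
  have ha4 : 0 ≤ ε * ‖j.2.1‖ ^ 2 := by positivity
  have h2 : ‖j.1‖ ^ 2 ≤ NN ε b δ e j := by unfold NN; linarith [sq_nonneg δ]
  have h3 : NN ε b δ e j ^ (q / 2 - 1) = NN ε b δ e j ^ (q / 2 - 2) * NN ε b δ e j := by
    rw [← Real.rpow_add_one hN.ne']; congr 1; ring
  have hZ : NN ε b δ e j ^ (q / 2 - 2) * (|⟪e, j.1⟫_ℝ| * ‖Yv k c j.1 j.2.1‖) ≤
      (3 * k + c) * GG ε b δ q e j := by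
    rw [GG, h3]
    calc _ ≤ NN ε b δ e j ^ (q / 2 - 2) * (‖j.1‖ * ((3 * k + c) * ‖j.2.1‖ ^ 2 * ‖j.1‖)) :=
          mul_le_mul_of_nonneg_left
            (mul_le_mul hw0 (norm_Yv_le hk hc _ _) (norm_nonneg _) (norm_nonneg _)) hP
      _ = (3 * k + c) * (NN ε b δ e j ^ (q / 2 - 2) * ‖j.1‖ ^ 2 * ‖j.2.1‖ ^ 2) := by ring
      _ ≤ _ := by gcongr
  have hεq : 0 ≤ ε * q := mul_nonneg hε hq
  have h4 := mul_le_mul_of_nonneg_left hZ hεq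
  refine (norm_sub_le _ _).trans ?_
  rw [norm_smul, norm_smul, he, Real.norm_eq_abs, Real.norm_eq_abs, abs_mul,
    abs_of_nonneg (mul_nonneg hεq hP),
    abs_of_nonneg (show 0 ≤ 2 * ε * q * GG ε b δ q e j by positivity)]
  linarith

theorem eps_GG_le (hε : 0 < ε) (hb : 0 ≤ b) (hδ : 0 < δ) (hq : 0 < q) (hq1 : q ≤ 1) (e : Vc ι)
    (j : Jet ι) : ε * GG ε b δ q e j ≤ ε ^ (q / 2) * ‖j‖ ^ q := by
  have hj2 : ‖j.2.1‖ ≤ ‖j‖ := (norm_fst_le j.2).trans (norm_snd_le j)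
  have hw4 : 0 ≤ ε * b * ⟪e, j.1⟫_ℝ ^ 2 := by positivity
  have hG1 : GG ε b δ q e j ≤ ε ^ (q / 2 - 1) * ‖j‖ ^ q := by
    refine le_trans ?_ (mul_le_mul_of_nonneg_left (Real.rpow_le_rpow (norm_nonneg _) hj2 hq.le)
      (by positivity))
    rcases (norm_nonneg j.2.1).eq_or_lt with h | h
    · rw [GG, ← h, Real.zero_rpow hq.ne']; simp
    · have h1 : NN ε b δ e j ^ (q / 2 - 1) ≤ (ε * ‖j.2.1‖ ^ 2) ^ (q / 2 - 1) := by
        refine Real.rpow_le_rpow_of_nonpos (by positivity) ?_ (by linarith)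
        unfold NN; linarith [sq_nonneg δ, sq_nonneg ‖j.1‖]
      refine (mul_le_mul_of_nonneg_right h1 (sq_nonneg _)).trans_eq ?_
      rw [Real.mul_rpow hε.le (sq_nonneg _), mul_assoc, ← Real.rpow_add_one (by positivity),
        sub_add_cancel, sq_rpow_half h.le]
  have h2 : ε ^ (q / 2) = ε ^ (q / 2 - 1) * ε := by
    rw [← Real.rpow_add_one hε.ne', sub_add_cancel]
  refine (mul_le_mul_of_nonneg_left hG1 hε.le).trans_eq ?_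
  rw [h2]; ring

theorem VV_nonneg (hε : 0 ≤ ε) (hb : 0 ≤ b) (hδ : 0 < δ) (hq : 0 ≤ q) (e : Vc ι) (j : Jet ι) :
    0 ≤ VV ε b δ q e j := by
  have hw4 : 0 ≤ ε * b * ⟪e, j.1⟫_ℝ ^ 2 := by positivity
  have ha4 : 0 ≤ ε * ‖j.2.1‖ ^ 2 := by positivity
  rw [VV, sub_nonneg, ← sq_rpow_half hδ.le]
  refine Real.rpow_le_rpow (sq_nonneg _) ?_ (by linarith)
  unfold NN; linarith [sq_nonneg ‖j.1‖]

theorem VV_ge (hε : 0 ≤ ε) (hb : 0 ≤ b) (hq : 0 ≤ q) (δ : ℝ) (e : Vc ι) (j : Jet ι) :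
    ‖j.1‖ ^ q - δ ^ q ≤ VV ε b δ q e j := by
  have hw4 : 0 ≤ ε * b * ⟪e, j.1⟫_ℝ ^ 2 := by positivity
  have ha4 : 0 ≤ ε * ‖j.2.1‖ ^ 2 := by positivity
  rw [VV, sub_le_sub_iff_right, ← sq_rpow_half (norm_nonneg j.1)]
  refine Real.rpow_le_rpow (sq_nonneg _) ?_ (by linarith)
  unfold NN; linarith [sq_nonneg δ]

theorem WW_bdry (ε b k c δ q : ℝ) (e w : Vc ι) :
    WW ε b k c δ q e (w, 0, 0) = -(VV ε b δ q e (w, 0, 0) • e) := by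
  have h1 : ∀ v : Vc ι, mv (0 : Vc (ι × ι)) v = 0 := fun v => by ext i; simp [mv_apply]
  have h2 : sg (0 : Vc (ι × ι)) (0 : Vc (ι × ι × ι)) = 0 := by ext i; simp [sg_apply]
  simp [WW, gv, gabs, Yv, h1, h2]

theorem VV_bdry (hε : 0 ≤ ε) (hε1 : ε ≤ 1) (hb : 0 ≤ b) (hδ : 0 < δ) (hq : 0 < q) (hq1 : q ≤ 1)
    {e : Vc ι} (he : ‖e‖ = 1) (w : Vc ι) : VV ε b δ q e (w, 0, 0) ≤ (1 + b) * ‖w‖ ^ q := by
  have hw0 : |⟪e, w⟫_ℝ| ≤ ‖w‖ := by simpa [he] using abs_real_inner_le_norm e w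
  have hw2 : ⟪e, w⟫_ℝ ^ 2 ≤ ‖w‖ ^ 2 := by
    rw [← sq_abs]; exact pow_le_pow_left₀ (abs_nonneg _) hw0 2
  have hεb : 0 ≤ ε * b := mul_nonneg hε hb
  have hεb1 : ε * b ≤ b := mul_le_of_le_one_left hb hε1
  have hw3 := mul_le_mul_of_nonneg_left hw2 hεb
  have hw5 := mul_le_mul_of_nonneg_right hεb1 (sq_nonneg ‖w‖)
  have h1 := rpow_sub_le (s := ‖w‖ ^ 2 + ε * b * ⟪e, w⟫_ℝ ^ 2) (L := 1 + b) (by positivity)
    (by linarith) (norm_nonneg w) hδ hq hq1 (by linarith)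
  have h2 : (1 + b) ^ (q / 2) ≤ 1 + b :=
    (Real.rpow_le_rpow_of_exponent_le (by linarith) (show q / 2 ≤ 1 by linarith)).trans_eq
      (Real.rpow_one _)
  have h3 : NN ε b δ e (w, 0, 0) = ‖w‖ ^ 2 + ε * b * ⟪e, w⟫_ℝ ^ 2 + δ ^ 2 := by simp [NN]
  rw [VV, h3]
  exact h1.trans (mul_le_mul_of_nonneg_right h2 (by positivity))

end Pool.Agent.Lib.MP_fc0ae9_an.St
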