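import Pool.Agent.Lib.MP_fc0ae9_an.MxDefs

/-! The calibration for all small parameters. -/

namespace Pool.Agent.Lib.MP_fc0ae9_an.St

open scoped InnerProductSpace ContDiff Topology ENNReal
open MeasureTheory Filter Metric Pool.Agent.Results.MP_fc0ae9_an.PositiveThreshold

variable {d : ℕ}

theorem mxcal_gen {ι : Type} [Fintype ι] {n : ℝ} (hn : n = Fintype.card ι) (h3 : 3 ≤ n) :
    ∃ γ C ε₀ : ℝ, 0 < γ ∧ 0 < C ∧ 0 < ε₀ ∧ ε₀ ≤ 1 ∧ ∀ ε : ℝ, 0 < ε → ε ≤ ε₀ →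
      ∀ θ : ℝ, 1 ≤ θ → θ ≤ th n + γ * ε / (2 * C) →
      ∀ (N : ℝ) (e w : Vc ι) (A : Vc (ι × ι)) (S : Vc (ι × ι × ι)), ‖e‖ = 1 → STM A → STT S →
      0 < N → ‖w‖ ^ 2 + ε * bb n * ⟪e, w⟫_ℝ ^ 2 + ε * ‖A‖ ^ 2 ≤ N →
      γ * ε / 2 * ‖A‖ ^ 2 ≤ FF ε (bb n) (kk n) 4 θ N e w A S := by
  obtain ⟨γ, ε₀, hγ, hε0, H0⟩ := calib0 hn h3
  have hb := cal_bb h3
  have hk := cal_kk h3
  obtain ⟨C, hC, HT⟩ := theta_dep (E := Vc ι) (y := 3 * kk n + 4) hb (by positivity)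
  refine ⟨γ, C, min ε₀ (min 1 (γ / C)), hγ, hC, by positivity,
    (min_le_right _ _).trans (min_le_left _ _), fun ε e0 hε θ hθ1 hθ2 => ?_⟩
  have e1 : ε ≤ ε₀ := hε.trans (min_le_left _ _)
  have e2 : ε ≤ 1 := hε.trans ((min_le_right _ _).trans (min_le_left _ _))
  have e3 : ε * C ≤ γ := (le_div_iff₀ hC).1 (hε.trans ((min_le_right _ _).trans (min_le_right _ _)))
  have key : ∀ (e w : Vc ι) (A : Vc (ι × ι)) (S : Vc (ι × ι × ι)), ‖e‖ = 1 → STM A → STT S →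
      ‖w‖ ^ 2 + ε * bb n * ⟪e, w⟫_ℝ ^ 2 + ε * ‖A‖ ^ 2 ≤ 1 →
      γ * ε / 2 * ‖A‖ ^ 2 ≤ FF ε (bb n) (kk n) 4 θ 1 e w A S := by
    intro e w A S he hA hS hN
    have h0 := H0 ε e0 e1 e w A S he hA hS hN
    have h1 : 0 ≤ ε * bb n * ⟪e, w⟫_ℝ ^ 2 := by positivity
    have hN' : ‖w‖ ^ 2 + ε * ‖A‖ ^ 2 ≤ 1 := by linarith
    have hw := cal_w_le (by positivity) hN'
    obtain ⟨D, d1, d2, d3⟩ := HT ε (kk n) 4 θ (th n) e0 e2 e w (mv A w) (mv A e) (sg A S)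
      (Yv (kk n) 4 w A) ‖A‖ ‖S‖ (tr3 A) he (norm_nonneg _) (norm_nonneg _) (cal_mv_le A hw)
      (cal_mv_le A he.le) (norm_sg_le A S) (cal_Yv_le hk A hw) hN'
    unfold FF at h0 ⊢
    rw [d3]
    have p1 : 0 ≤ γ * ε * ‖A‖ ^ 2 := by positivity
    have p2 : 0 ≤ γ * ε * ‖A‖ ^ 4 := by positivity
    have p3 : 0 ≤ γ * ε * ‖S‖ ^ 2 := by positivity
    rcases le_total θ (th n) with h | h
    · have h4 : 0 ≤ C * ε ^ 2 * ‖A‖ ^ 4 := by positivity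
      have h5 : (th n - θ) * -(C * ε ^ 2 * ‖A‖ ^ 4) ≤ (th n - θ) * D :=
        mul_le_mul_of_nonneg_left d1 (by linarith)
      have h6 : (th n - θ) * (C * ε ^ 2 * ‖A‖ ^ 4) ≤ 1 * (C * ε ^ 2 * ‖A‖ ^ 4) :=
        mul_le_mul_of_nonneg_right (by linarith [cal_th_two h3]) h4
      have h7 : ε * C * (ε * ‖A‖ ^ 4) ≤ γ * (ε * ‖A‖ ^ 4) :=
        mul_le_mul_of_nonneg_right e3 (by positivity)
      nlinarith
    · have h5 : (θ - th n) * D ≤ (θ - th n) * (C * (‖A‖ ^ 2 + ε * ‖S‖ ^ 2)) :=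
        mul_le_mul_of_nonneg_left d2 (by linarith)
      have h6 : (θ - th n) * (C * (‖A‖ ^ 2 + ε * ‖S‖ ^ 2)) ≤
          γ * ε / (2 * C) * (C * (‖A‖ ^ 2 + ε * ‖S‖ ^ 2)) :=
        mul_le_mul_of_nonneg_right (by linarith) (by positivity)
      have h7 : γ * ε / (2 * C) * (C * (‖A‖ ^ 2 + ε * ‖S‖ ^ 2)) =
          γ * ε / 2 * (‖A‖ ^ 2 + ε * ‖S‖ ^ 2) := by field_simp
      have h8 : ε * (γ * ε * ‖S‖ ^ 2) ≤ 1 * (γ * ε * ‖S‖ ^ 2) := mul_le_mul_of_nonneg_right e2 p3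
      nlinarith
  intro N e w A S he hA hS hN hle
  obtain ⟨μ, hμ0, rfl⟩ : ∃ μ : ℝ, 0 < μ ∧ N = μ ^ 2 :=
    ⟨√N, Real.sqrt_pos.2 hN, (Real.sq_sqrt hN.le).symm⟩
  have h1 := FF_homog ε (bb n) (kk n) 4 θ 1 μ hμ0.ne' one_ne_zero e (μ⁻¹ • w) (μ⁻¹ • A) (μ⁻¹ • S)
  rw [smul_inv_smul₀ hμ0.ne', smul_inv_smul₀ hμ0.ne', smul_inv_smul₀ hμ0.ne', mul_one] at h1
  have h2 := key e (μ⁻¹ • w) (μ⁻¹ • A) (μ⁻¹ • S) he (hA.smul _) (hS.smul _) (by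
    rw [norm_smul, norm_smul, inner_smul_right, Real.norm_of_nonneg (inv_pos.2 hμ0).le]
    have h3 := mul_le_mul_of_nonneg_left hle (sq_nonneg μ⁻¹)
    rw [← mul_pow, inv_mul_cancel₀ hμ0.ne'] at h3
    linarith)
  rw [norm_smul, Real.norm_of_nonneg (inv_pos.2 hμ0).le] at h2
  rw [h1]
  refine le_trans (le_of_eq ?_) (mul_le_mul_of_nonneg_left h2 (sq_nonneg μ))
  field_simp

theorem calib_small (hd : 2 ≤ d) : ∃ b k γ ε₀ : ℝ, 0 ≤ b ∧ 0 ≤ k ∧ 0 < γ ∧ γ ≤ 1 ∧ 0 < ε₀ ∧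
    ε₀ ≤ 1 ∧ ∀ ε : ℝ, 0 < ε → ε ≤ ε₀ → ∃ q : ℝ, 1 / 4 ≤ q ∧ q < ((d : ℝ) - 1) / d ∧
      Cal d ε b k 4 γ q := by
  have hd' : (2 : ℝ) ≤ d := by exact_mod_cast hd
  have h3 : (3 : ℝ) ≤ (d : ℝ) + 1 := by linarith
  obtain ⟨γ, C, ε₀, hγ, hC, hε0, hε1, H⟩ :=
    mxcal_gen (ι := Fin (d + 1)) (n := (d : ℝ) + 1) (by simp) h3
  have hth : th ((d : ℝ) + 1) = 2 - ((d : ℝ) - 1) / d := by
    unfold th
    rw [add_sub_cancel_right]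
    field_simp
    ring
  have hp1 : 1 / 2 ≤ ((d : ℝ) - 1) / d := by
    rw [le_div_iff₀ (by linarith)]
    linarith
  have hp2 : ((d : ℝ) - 1) / d ≤ 1 := by
    rw [div_le_iff₀ (by linarith)]
    linarith
  refine ⟨bb ((d : ℝ) + 1), kk ((d : ℝ) + 1), min (γ / 2) 1, ε₀, cal_bb h3, cal_kk h3,
    by positivity, min_le_right _ _, hε0, hε1, fun ε e0 e1 => ?_⟩
  have hη : 0 < γ * ε / (2 * C) := by positivity
  refine ⟨max (((d : ℝ) - 1) / d - γ * ε / (2 * C)) (((d : ℝ) - 1) / d / 2),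
    le_trans (by linarith) (le_max_right _ _), max_lt (by linarith) (by linarith), ?_⟩
  intro N w A S hA hS hN hle
  have hq1 : max (((d : ℝ) - 1) / d - γ * ε / (2 * C)) (((d : ℝ) - 1) / d / 2) ≤ 1 :=
    max_le (by linarith) (by linarith)
  have hq2 := le_max_left (((d : ℝ) - 1) / d - γ * ε / (2 * C)) (((d : ℝ) - 1) / d / 2)
  refine le_trans ?_ (H ε e0 e1 _ (by linarith) (by rw [hth]; linarith) N (ev 0) w A S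
    (norm_ev 0) hA hS hN hle)
  refine mul_le_mul_of_nonneg_right ?_ (sq_nonneg _)
  have h1 : min (γ / 2) 1 * ε ≤ γ / 2 * ε := mul_le_mul_of_nonneg_right (min_le_left _ _) e0.le
  linarith

end Pool.Agent.Lib.MP_fc0ae9_an.St
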