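import Pool.Agent.Lib.MP_fc0ae9_an.StR

/-! Definitions for the maximal estimate below the Stein-Weiss exponent. -/

namespace Pool.Agent.Lib.MP_fc0ae9_an.St

open scoped InnerProductSpace ContDiff Topology ENNReal
open MeasureTheory Filter Metric Pool.Agent.Results.MP_fc0ae9_an.PositiveThreshold

variable {d : ℕ}

/-- The squared distance to the point `(0, x₀)`, regularised by `a`. -/
noncomputable def rr (a : ℝ) (x₀ : Ed d) (X : EE d) : ℝ := a ^ 2 + ‖X - pt 0 x₀‖ ^ 2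

/-- The weight. -/
noncomputable def ps (a : ℝ) (x₀ : Ed d) (X : EE d) : ℝ := rr a x₀ X ^ (-(((d : ℝ) + 1) / 2))

/-- The partial derivatives of the weight. -/
noncomputable def ps1 (a : ℝ) (x₀ : Ed d) (l : Fin (d + 1)) (X : EE d) : ℝ :=
  -((d : ℝ) + 1) * (X - pt 0 x₀) l * rr a x₀ X ^ (-(((d : ℝ) + 3) / 2))

/-- Minus the Laplacian of the height times the weight. -/
noncomputable def ch (a : ℝ) (x₀ : Ed d) (X : EE d) : ℝ :=
  ((d : ℝ) + 1) * ((d : ℝ) + 3) * a ^ 2 * X 0 * rr a x₀ X ^ (-(((d : ℝ) + 5) / 2))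

/-- The correction part of the calibration. -/
noncomputable def ZZ {ι : Type} [Fintype ι] (ε b k c δ q : ℝ) (e : Vc ι) (j : Jet ι) : Vc ι :=
  (ε * q * NN ε b δ e j ^ (q / 2 - 2) * ⟪e, j.1⟫_ℝ) • Yv k c j.1 j.2.1 -
    (2 * ε * q * GG ε b δ q e j) • e

/-- The weighted calibration. -/
noncomputable def UU (ε b k c δ q a : ℝ) (x₀ : Ed d) (F : Fin (d + 1) → EE d → ℝ)
    (l : Fin (d + 1)) (X : EE d) : ℝ :=
  ps a x₀ X * WW ε b k c δ q (ev 0) (jet F X) l -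
    X 0 * ps1 a x₀ l X * VV ε b δ q (ev 0) (jet F X)

/-- Bounded systems that are smooth up to the boundary, with boundary values `f`. -/
structure Nice (F : Fin (d + 1) → EE d → ℝ) (f : Ed d → EE d) : Prop where
  cr : CR F
  bd : ∃ K : ℝ, ∀ X ∈ halfSpace d, JB F X K
  cont : Continuous f
  lim : ∀ x, Tendsto (fun t => jet F (pt t x)) (𝓝[>] 0) (𝓝 (f x, 0, 0))

/-- Bounded functions with bounded scaled gradient. -/
def Bd (G : EE d → ℝ) : Prop :=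
  (∀ X ∈ halfSpace d, ContDiffAt ℝ 1 G X) ∧
    ∃ K : ℝ, ∀ X ∈ halfSpace d, |G X| ≤ K ∧ ∀ l, X 0 * |pd l G X| ≤ K

/-- The uncentred maximal function of Hardy and Littlewood. -/
noncomputable def hl (g : Ed d → ℝ≥0∞) (x : Ed d) : ℝ≥0∞ :=
  ⨆ (y : Ed d) (r : ℝ) (_ : 0 < r ∧ x ∈ ball y r), (∫⁻ z in ball y r, g z) / volume (ball y r)

/-- Vertical shift. -/
noncomputable def sh (s : ℝ) (u : EE d → ℝ) : EE d → ℝ := fun X => u (X + s • ev 0)

/-- The calibration inequality with constant `γ ε`. -/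
def Cal (d : ℕ) (ε b k c γ q : ℝ) : Prop :=
  ∀ (N : ℝ) (w : EE d) (A : Vc (Fin (d + 1) × Fin (d + 1)))
    (S : Vc (Fin (d + 1) × Fin (d + 1) × Fin (d + 1))), STM A → STT S → 0 < N →
    ‖w‖ ^ 2 + ε * b * ⟪ev 0, w⟫_ℝ ^ 2 + ε * ‖A‖ ^ 2 ≤ N →
    γ * ε * ‖A‖ ^ 2 ≤ FF ε b k c (2 - q) N (ev 0) w A S

end Pool.Agent.Lib.MP_fc0ae9_an.St
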