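import Pool.Agent.Lib.MP_fc0ae9_an.MxDefs

/-! Calculus for the weight. -/

namespace Pool.Agent.Lib.MP_fc0ae9_an.St

open scoped InnerProductSpace ContDiff Topology ENNReal
open MeasureTheory Filter Metric Pool.Agent.Results.MP_fc0ae9_an.PositiveThreshold

variable {d : ℕ}

variable {a : ℝ}

theorem rr_pos (ha : 0 < a) (x₀ : Ed d) (X : EE d) : 0 < rr a x₀ X := by
  unfold rr
  positivity

theorem rr_pt (a t : ℝ) (x₀ x : Ed d) : rr a x₀ (pt t x) = a ^ 2 + t ^ 2 + dist x x₀ ^ 2 := by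
  rw [rr, ← dist_eq_norm, dist_pt_sq, sub_zero, add_assoc]

theorem ps_pos (ha : 0 < a) (x₀ : Ed d) (X : EE d) : 0 < ps a x₀ X :=
  Real.rpow_pos_of_pos (rr_pos ha x₀ X) _

theorem mxpsi_sum (a : ℝ) (x₀ : Ed d) (X : EE d) :
    rr a x₀ X = a ^ 2 + ∑ i, (X - pt 0 x₀) i ^ 2 := by
  rw [rr, EuclideanSpace.real_norm_sq_eq]

theorem mxpsi_zero (x₀ : Ed d) (X : EE d) : (X - pt 0 x₀) 0 = X 0 := by
  rw [PiLp.sub_apply, pt_zero, sub_zero]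

theorem mxpsi_co (x₀ : Ed d) (i l : Fin (d + 1)) (X : EE d) :
    HD l (fun Y => (Y - pt 0 x₀) i) X (X 0 * ev i l) := by
  have h : HasFDerivAt (fun Y : EE d => Y i) (EuclideanSpace.proj (𝕜 := ℝ) i) X :=
    (EuclideanSpace.proj (𝕜 := ℝ) i).hasFDerivAt
  have h1 : HD l (fun Y => Y i) X (X 0 * ev i l) := by
    refine ⟨h.differentiableAt, ?_⟩
    rw [pd_eq, h.fderiv]
    simp [ev_apply, eq_comm]
  exact (h1.sub (HD.const (pt 0 x₀ i))).of_eq (sub_zero _)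

theorem mxpsi_rr (a : ℝ) (x₀ : Ed d) (l : Fin (d + 1)) (X : EE d) :
    HD l (rr a x₀) X (2 * (X - pt 0 x₀) l * X 0) := by
  rw [funext (mxpsi_sum a x₀)]
  refine ((HD.const (a ^ 2)).add (HD.sum fun i => (mxpsi_co x₀ i l X).sq)).of_eq ?_
  simp [ev_apply]

theorem mxpsi_pow {r : ℝ} (hr : 0 < r) (s : ℝ) : r ^ (-(s / 2)) = r ^ (-((s + 2) / 2)) * r := by
  rw [← Real.rpow_add_one hr.ne']
  congr 1
  ring

theorem hd_ps (ha : 0 < a) (x₀ : Ed d) (l : Fin (d + 1)) (X : EE d) :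
    HD l (ps a x₀) X (X 0 * ps1 a x₀ l X) := by
  refine ((mxpsi_rr a x₀ l X).rpow (rr_pos ha x₀ X) _).of_eq ?_
  rw [ps1, show -(((d : ℝ) + 1) / 2) - 1 = -(((d : ℝ) + 3) / 2) by ring]
  ring

theorem hd_ps1 (ha : 0 < a) (x₀ : Ed d) (X : EE d) : ∃ P : Fin (d + 1) → ℝ,
    (∀ l, HD l (fun Y => Y 0 * ps1 a x₀ l Y) X (P l)) ∧
      ∑ l, P l = X 0 * (-ch a x₀ X - ps1 a x₀ 0 X) := by
  obtain ⟨w, hw⟩ : ∃ w, w = rr a x₀ X ^ (-(((d : ℝ) + 5) / 2)) := ⟨_, rfl⟩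
  have h1 : rr a x₀ X ^ (-(((d : ℝ) + 3) / 2)) = w * rr a x₀ X := by
    rw [mxpsi_pow (rr_pos ha x₀ X), hw, show (d : ℝ) + 3 + 2 = d + 5 by ring]
  refine ⟨fun l => X 0 * ev 0 l * ps1 a x₀ l X - X 0 ^ 2 * (d + 1) * (w * rr a x₀ X) +
    X 0 ^ 2 * (d + 1) * (d + 3) * w * (X - pt 0 x₀) l ^ 2, fun l => ?_, ?_⟩
  · refine (HD.coord.mul (((mxpsi_co x₀ l l X).const_mul (-((d : ℝ) + 1))).mul
      ((mxpsi_rr a x₀ l X).rpow (rr_pos ha x₀ X) (-(((d : ℝ) + 3) / 2))))).of_eq ?_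
    rw [show -(((d : ℝ) + 3) / 2) - 1 = -(((d : ℝ) + 5) / 2) by ring, ← hw, ev_apply l l,
      if_pos rfl]
    simp only [ps1, h1]
    ring
  · have h2 : ∑ l, X 0 * ev 0 l * ps1 a x₀ l X = X 0 * ps1 a x₀ 0 X := by simp [ev_apply]
    rw [Finset.sum_add_distrib, Finset.sum_sub_distrib, h2, Finset.sum_const, ← Finset.mul_sum,
      eq_sub_of_add_eq' (mxpsi_sum a x₀ X).symm, Finset.card_univ, Fintype.card_fin, nsmul_eq_mul, ch, ps1, ← hw, h1, mxpsi_zero]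
    push_cast
    ring

theorem ps1_inner (ha : 0 < a) (x₀ : Ed d) (X Z : EE d) :
    |∑ l, ps1 a x₀ l X * Z l| ≤ ((d : ℝ) + 1) * (ps a x₀ X / √(rr a x₀ X)) * ‖Z‖ := by
  have h0 := rr_pos ha x₀ X
  obtain ⟨w, hw⟩ : ∃ w, w = rr a x₀ X ^ (-(((d : ℝ) + 3) / 2)) := ⟨_, rfl⟩
  have h1 : 0 < w := hw ▸ Real.rpow_pos_of_pos h0 _
  have h2 : ps a x₀ X / √(rr a x₀ X) = w * √(rr a x₀ X) := by
    rw [ps, mxpsi_pow h0, show (d : ℝ) + 1 + 2 = d + 3 by ring, ← hw, mul_div_assoc,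
      Real.div_sqrt]
  have h3 : ∑ l, ps1 a x₀ l X * Z l = -(((d : ℝ) + 1) * w * ⟪X - pt 0 x₀, Z⟫_ℝ) := by
    rw [PiLp.inner_apply, Finset.mul_sum, ← Finset.sum_neg_distrib]
    refine Finset.sum_congr rfl fun l _ => ?_
    rw [ps1, ← hw, RCLike.inner_apply, conj_trivial]
    ring
  have h4 : ‖X - pt 0 x₀‖ ≤ √(rr a x₀ X) :=
    Real.le_sqrt_of_sq_le (le_add_of_nonneg_left (sq_nonneg a))
  rw [h3, h2, abs_neg, abs_mul, abs_of_pos (by positivity), ← mul_assoc, mul_assoc _ _ ‖Z‖]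
  gcongr
  exact (abs_real_inner_le_norm _ _).trans (by gcongr)

theorem ps1_le (ha : 0 < a) (x₀ : Ed d) (l : Fin (d + 1)) (X : EE d) :
    |X 0 * ps1 a x₀ l X| ≤ ((d : ℝ) + 1) * ps a x₀ X := by
  have h0 := rr_pos ha x₀ X
  have h1 := ps1_inner ha x₀ X (ev l)
  have h2 : ∑ i, ps1 a x₀ i X * ev l i = ps1 a x₀ l X := by simp [ev_apply]
  have h3 : |X 0| ≤ √(rr a x₀ X) := by
    refine Real.abs_le_sqrt ?_
    rw [mxpsi_sum, ← mxpsi_zero x₀ X]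
    exact (Finset.single_le_sum (f := fun i => (X - pt 0 x₀) i ^ 2) (fun i _ => sq_nonneg _)
      (Finset.mem_univ 0)).trans (le_add_of_nonneg_left (sq_nonneg a))
  have h4 := Real.sqrt_pos.2 h0
  rw [h2, norm_ev, mul_one] at h1
  rw [abs_mul]
  refine (mul_le_mul h3 h1 (abs_nonneg _) h4.le).trans_eq ?_
  field_simp

end Pool.Agent.Lib.MP_fc0ae9_an.St
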