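import Pool.Agent.Lib.MP_fc0ae9_an.MxAlg
import Pool.Agent.Lib.MP_fc0ae9_an.MxPsi

/-! The divergence of the weighted calibration. -/

namespace Pool.Agent.Lib.MP_fc0ae9_an.St

open scoped InnerProductSpace ContDiff Topology ENNReal
open MeasureTheory Filter Metric Pool.Agent.Results.MP_fc0ae9_an.PositiveThreshold

variable {d : ℕ}

variable {ε b k c δ q γ a : ℝ} {x₀ : Ed d} {F : Fin (d + 1) → EE d → ℝ} {X : EE d}

theorem div_UU (hF : CR F) (hX : X ∈ halfSpace d) (hε : 0 ≤ ε) (hb : 0 ≤ b) (hδ : 0 < δ)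
    (ha : 0 < a) (k c q : ℝ) (x₀ : Ed d) :
    ∑ l, pd l (UU ε b k c δ q a x₀ F l) X =
      ps a x₀ X * ∑ l, pd l (fun Y => WW ε b k c δ q (ev 0) (jet F Y) l) X +
        ∑ l, ps1 a x₀ l X * ZZ ε b k c δ q (ev 0) (jet F X) l +
        ch a x₀ X * VV ε b δ q (ev 0) (jet F X) := by
  have hX0 : 0 < X 0 := hX
  obtain ⟨P, hP, sP⟩ := hd_ps1 ha x₀ X
  have hW : ∀ l, HD l (fun Y => WW ε b k c δ q (ev 0) (jet F Y) l) X
      (X 0 * pd l (fun Y => WW ε b k c δ q (ev 0) (jet F Y) l) X) := fun l =>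
    ⟨(((contDiff_euclidean.1 (contDiff_WW hε hb hδ k c q _) l).contDiffAt.comp X
      (jet_contDiffAt hF.har hX)).differentiableAt one_ne_zero), rfl⟩
  have key : ∀ l, X 0 * pd l (UU ε b k c δ q a x₀ F l) X =
      X 0 * (ps a x₀ X * pd l (fun Y => WW ε b k c δ q (ev 0) (jet F Y) l) X) +
        X 0 * (ps1 a x₀ l X * ZZ ε b k c δ q (ev 0) (jet F X) l) -
        X 0 * VV ε b δ q (ev 0) (jet F X) * ((ev 0 : EE d) l * ps1 a x₀ l X) -
        VV ε b δ q (ev 0) (jet F X) * P l := by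
    intro l
    have h := (((hd_ps ha x₀ l X).mul (hW l)).sub
      ((hP l).mul (hd_VV hF hX hε hb hδ q l))).2
    refine h.trans ?_
    rw [WW_split]
    simp only [jet]
    ring
  refine mul_left_cancel₀ hX0.ne' ?_
  rw [Finset.mul_sum, Finset.sum_congr rfl fun l _ => key l, Finset.sum_sub_distrib,
    Finset.sum_sub_distrib, Finset.sum_add_distrib, ← Finset.mul_sum, ← Finset.mul_sum,
    ← Finset.mul_sum, ← Finset.mul_sum, ← Finset.mul_sum, sum_ev_mul, sP]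
  ring

theorem mxdiv_aux (hF : CR F) (hX : X ∈ halfSpace d) (hε : 0 < ε) (hb : 0 ≤ b) (hk : 0 ≤ k)
    (hc : 0 ≤ c) (hδ : 0 < δ) (ha : 0 < a) (hq : 0 < q) (hcal : Cal d ε b k c γ q) :
    ch a x₀ X * VV ε b δ q (ev 0) (jet F X) +
      ps a x₀ X * (q * (ε * GG ε b δ q (ev 0) (jet F X))) *
        (γ / X 0 - ((d : ℝ) + 1) * (3 * k + c + 2) / √(rr a x₀ X)) ≤
      ∑ l, pd l (UU ε b k c δ q a x₀ F l) X := by
  have hX0 : 0 < X 0 := hX
  have hps := ps_pos ha x₀ X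
  have hN := NN_pos hε.le hb hδ (ev 0) (jet F X)
  have h1 := hcal _ (vec F X) (jA F X) (jS F X) (hF.stm hX) (hF.stt hX) hN
    (le_add_of_nonneg_right (sq_nonneg δ))
  have h2 := mul_le_mul_of_nonneg_left h1 (mul_pos hq (Real.rpow_pos_of_pos hN (q / 2 - 1))).le
  rw [← div_WW hF hX hε.le hb hδ] at h2
  have h3 : q * (ε * GG ε b δ q (ev 0) (jet F X)) * (γ / X 0) ≤
      ∑ l, pd l (fun Y => WW ε b k c δ q (ev 0) (jet F Y) l) X := by
    rw [← mul_div_assoc, div_le_iff₀' hX0]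
    refine le_of_eq_of_le ?_ h2
    simp only [GG, jet]
    ring
  have h4 := (abs_le.1 (ps1_inner ha x₀ X (ZZ ε b k c δ q (ev 0) (jet F X)))).1
  have h5 := mul_le_mul_of_nonneg_left
    (norm_ZZ_le hε.le hb hk hc hδ hq.le (norm_ev (d := d) 0) (jet F X))
    (show 0 ≤ ((d : ℝ) + 1) * (ps a x₀ X / √(rr a x₀ X)) by positivity)
  have h6 := mul_le_mul_of_nonneg_left h3 hps.le
  rw [div_UU hF hX hε.le hb hδ ha]
  have e : ps a x₀ X * (q * (ε * GG ε b δ q (ev 0) (jet F X))) *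
      (γ / X 0 - ((d : ℝ) + 1) * (3 * k + c + 2) / √(rr a x₀ X)) =
      ps a x₀ X * (q * (ε * GG ε b δ q (ev 0) (jet F X)) * (γ / X 0)) -
        ((d : ℝ) + 1) * (ps a x₀ X / √(rr a x₀ X)) *
          ((3 * k + c + 2) * (q * (ε * GG ε b δ q (ev 0) (jet F X)))) := by ring
  rw [e]
  linarith

/-- outside the cone -/
theorem div_UU_good (hF : CR F) (hX : X ∈ halfSpace d) (hε : 0 < ε) (hb : 0 ≤ b) (hk : 0 ≤ k)
    (hc : 0 ≤ c) (hδ : 0 < δ) (ha : 0 < a) (hq : 0 < q) (hcal : Cal d ε b k c γ q)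
    (h : ((d : ℝ) + 1) * (3 * k + c + 2) * X 0 ≤ γ * √(rr a x₀ X)) :
    ch a x₀ X * VV ε b δ q (ev 0) (jet F X) ≤ ∑ l, pd l (UU ε b k c δ q a x₀ F l) X := by
  have hX0 : 0 < X 0 := hX
  have hr : 0 < √(rr a x₀ X) := Real.sqrt_pos.2 (rr_pos ha x₀ X)
  refine le_trans (le_add_of_nonneg_right ?_) (mxdiv_aux hF hX hε hb hk hc hδ ha hq hcal)
  have h1 := GG_nonneg hε.le hb hδ q (ev 0) (jet F X)
  have h2 := ps_pos ha x₀ X
  refine mul_nonneg (by positivity) (sub_nonneg.2 ?_)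
  rw [div_le_div_iff₀ hr hX0]
  exact h

/-- everywhere -/
theorem div_UU_bad (hF : CR F) (hX : X ∈ halfSpace d) (hε : 0 < ε) (hb : 0 ≤ b) (hk : 0 ≤ k)
    (hc : 0 ≤ c) (hδ : 0 < δ) (ha : 0 < a) (hq : 0 < q) (hq1 : q ≤ 1) (hγ : 0 ≤ γ)
    (hcal : Cal d ε b k c γ q) :
    ch a x₀ X * VV ε b δ q (ev 0) (jet F X) -
      ((d : ℝ) + 1) * (3 * k + c + 2) * (ε ^ (q / 2) * ‖jet F X‖ ^ q) / X 0 ^ (d + 2) ≤
      ∑ l, pd l (UU ε b k c δ q a x₀ F l) X := by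
  have hX0 : 0 < X 0 := hX
  have hr0 := rr_pos ha x₀ X
  have hr : 0 < √(rr a x₀ X) := Real.sqrt_pos.2 hr0
  refine le_trans ?_ (mxdiv_aux hF hX hε hb hk hc hδ ha hq hcal)
  have h1 := GG_nonneg hε.le hb hδ q (ev 0) (jet F X)
  have h2 := ps_pos ha x₀ X
  have h3 := eps_GG_le hε hb hδ hq hq1 (ev 0) (jet F X)
  have h4 : ps a x₀ X / √(rr a x₀ X) ≤ 1 / X 0 ^ (d + 2) := by
    have e1 : ps a x₀ X / √(rr a x₀ X) = rr a x₀ X ^ (-(((d : ℝ) + 2) / 2)) := by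
      rw [ps, Real.sqrt_eq_rpow, ← Real.rpow_sub hr0]
      congr 1
      ring
    have e2 : X 0 ^ 2 ≤ rr a x₀ X := by
      obtain ⟨x, hx⟩ := exists_pt X
      rw [hx, rr_pt, pt_zero]
      nlinarith [sq_nonneg a, sq_nonneg (dist x x₀)]
    have e3 : (X 0 ^ 2) ^ (-(((d : ℝ) + 2) / 2)) = 1 / X 0 ^ (d + 2) := by
      rw [← neg_div, sq_rpow_half hX0.le, Real.rpow_neg hX0.le, one_div, ← Real.rpow_natCast]
      push_cast
      rfl
    rw [e1, ← e3]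
    exact Real.rpow_le_rpow_of_nonpos (by positivity) e2 (neg_nonpos.2 (by positivity))
  have h5 : q * (ε * GG ε b δ q (ev 0) (jet F X)) ≤ ε ^ (q / 2) * ‖jet F X‖ ^ q :=
    (mul_le_of_le_one_left (by positivity) hq1).trans h3
  have h6 := mul_le_mul h4 h5 (by positivity) (by positivity)
  have h7 := mul_le_mul_of_nonneg_left h6
    (show 0 ≤ ((d : ℝ) + 1) * (3 * k + c + 2) by positivity)
  have h8 : 0 ≤ ps a x₀ X * (q * (ε * GG ε b δ q (ev 0) (jet F X))) * (γ / X 0) := by positivity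
  have e4 : ps a x₀ X * (q * (ε * GG ε b δ q (ev 0) (jet F X))) *
      (γ / X 0 - ((d : ℝ) + 1) * (3 * k + c + 2) / √(rr a x₀ X)) =
      ps a x₀ X * (q * (ε * GG ε b δ q (ev 0) (jet F X))) * (γ / X 0) -
        ((d : ℝ) + 1) * (3 * k + c + 2) *
          (ps a x₀ X / √(rr a x₀ X) * (q * (ε * GG ε b δ q (ev 0) (jet F X)))) := by ring
  have e5 : ((d : ℝ) + 1) * (3 * k + c + 2) * (ε ^ (q / 2) * ‖jet F X‖ ^ q) / X 0 ^ (d + 2) =
      ((d : ℝ) + 1) * (3 * k + c + 2) * (1 / X 0 ^ (d + 2) * (ε ^ (q / 2) * ‖jet F X‖ ^ q)) := by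
    ring
  rw [e4, e5]
  linarith

end Pool.Agent.Lib.MP_fc0ae9_an.St
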