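import Pool.Agent.Lib.MP_fc0ae9_an.MxDefs

/-! Domination of products. -/

namespace Pool.Agent.Lib.MP_fc0ae9_an.St

open scoped InnerProductSpace ContDiff Topology ENNReal
open MeasureTheory Filter Metric Pool.Agent.Results.MP_fc0ae9_an.PositiveThreshold

variable {d : ℕ}

theorem Dom.mul_bd {φ G : EE d → ℝ} (hφ : Dom φ) (hG : Bd G) : Dom fun X => φ X * G X := by
  obtain ⟨hG1, K, hK⟩ := hG
  refine ⟨fun X hX => (hφ.1 X hX).mul (hG1 X hX), fun t₁ t₂ ht₁ => ?_⟩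
  obtain ⟨h, hi, hb⟩ := hφ.2 t₁ t₂ ht₁
  refine ⟨fun x => (K + K / t₁) * h x, hi.const_mul _, ?_⟩
  filter_upwards [hb] with x hx t ht
  have hX := pt_mem (ht₁.trans_le ht.1) x
  obtain ⟨a1, a2⟩ := hx t ht
  obtain ⟨b1, b2⟩ := hK _ hX
  have hK0 : 0 ≤ K := (abs_nonneg _).trans b1
  have h0 : 0 ≤ h x := (abs_nonneg _).trans a1
  have c1 : 0 ≤ K / t₁ * h x := by positivity
  refine ⟨?_, fun l => ?_⟩
  · rw [abs_mul]
    linarith [mul_le_mul a1 b1 (abs_nonneg _) h0]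
  · have c2 : pd l (fun X => φ X * G X) (pt t x) =
        φ (pt t x) * pd l G (pt t x) + G (pt t x) * pd l φ (pt t x) := by
      rw [pd_eq, fderiv_fun_mul ((hφ.1 _ hX).differentiableAt one_ne_zero)
        ((hG1 _ hX).differentiableAt one_ne_zero)]
      rfl
    have c3 : |pd l G (pt t x)| ≤ K / t₁ := by
      rw [le_div_iff₀' ht₁]
      exact (mul_le_mul_of_nonneg_right ht.1 (abs_nonneg _)).trans (b2 l)
    rw [c2]
    refine (abs_add_le _ _).trans ?_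
    rw [abs_mul, abs_mul]
    linarith [mul_le_mul a1 c3 (abs_nonneg _) h0, mul_le_mul b1 (a2 l) (abs_nonneg _) hK0]

theorem Dom.sub {φ ψ : EE d → ℝ} (hφ : Dom φ) (hψ : Dom ψ) : Dom fun X => φ X - ψ X := by
  refine ⟨fun X hX => (hφ.1 X hX).sub (hψ.1 X hX), fun t₁ t₂ ht₁ => ?_⟩
  obtain ⟨h, hi, hb⟩ := hφ.2 t₁ t₂ ht₁
  obtain ⟨h', hi', hb'⟩ := hψ.2 t₁ t₂ ht₁
  refine ⟨fun x => h x + h' x, hi.add hi', ?_⟩
  filter_upwards [hb, hb'] with x hx hx' t ht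
  have hX := pt_mem (ht₁.trans_le ht.1) x
  refine ⟨(abs_sub _ _).trans (add_le_add (hx t ht).1 (hx' t ht).1), fun l => ?_⟩
  rw [pd_eq, fderiv_fun_sub ((hφ.1 _ hX).differentiableAt one_ne_zero)
    ((hψ.1 _ hX).differentiableAt one_ne_zero)]
  exact (abs_sub _ _).trans (add_le_add ((hx t ht).2 l) ((hx' t ht).2 l))

theorem bd_comp {Ψ : Jet (Fin (d + 1)) → ℝ} (hΨ : ContDiff ℝ 1 Ψ) {F : Fin (d + 1) → EE d → ℝ}
    (hF : ∀ i, Har (F i)) {K : ℝ} (hK : ∀ X ∈ halfSpace d, JB F X K) :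
    Bd fun X => Ψ (jet F X) := by
  refine ⟨fun X hX => hΨ.contDiffAt.comp X (jet_contDiffAt hF hX), ?_⟩
  have : ProperSpace (Jet (Fin (d + 1))) := FiniteDimensional.proper_real _
  obtain ⟨L, hL⟩ := (isCompact_closedBall (0 : Jet (Fin (d + 1))) K).exists_bound_of_continuousOn
    (hΨ.continuous_fderiv one_ne_zero).continuousOn
  obtain ⟨M, hM⟩ := (isCompact_closedBall (0 : Jet (Fin (d + 1))) K).exists_bound_of_continuousOn
    hΨ.continuous.continuousOn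
  refine ⟨max M (L * K), fun X hX => ?_⟩
  obtain ⟨b1, b2⟩ := hK X hX
  have hmem : jet F X ∈ closedBall (0 : Jet (Fin (d + 1))) K := by simpa using b1
  refine ⟨(hM _ hmem).trans (le_max_left _ _), fun l => le_trans ?_ (le_max_right _ _)⟩
  have c0 := (hΨ.differentiable one_ne_zero (jet F X)).hasFDerivAt.comp X
    ((jet_contDiffAt hF hX).differentiableAt one_ne_zero).hasFDerivAt
  have c1 : pd l (fun X => Ψ (jet F X)) X = fderiv ℝ Ψ (jet F X) (fderiv ℝ (jet F) X (ev l)) :=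
    congrArg (fun T : EE d →L[ℝ] ℝ => T (ev l)) c0.fderiv
  have c2 := ((fderiv ℝ Ψ (jet F X)).le_opNorm (fderiv ℝ (jet F) X (ev l))).trans
    (mul_le_mul_of_nonneg_right (hL _ hmem) (norm_nonneg _))
  rw [c1, ← Real.norm_eq_abs]
  refine (mul_le_mul_of_nonneg_left c2 (le_of_lt hX)).trans ?_
  rw [mul_left_comm]
  exact mul_le_mul_of_nonneg_left (b2 l) ((norm_nonneg _).trans (hL _ hmem))

end Pool.Agent.Lib.MP_fc0ae9_an.St
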