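import Pool.Agent.Lib.MP_fc0ae9_an.MxDefs

/-! Harmonic functions with bounded slice integrals are bounded above any height. -/

namespace Pool.Agent.Lib.MP_fc0ae9_an.St

open scoped InnerProductSpace ContDiff Topology ENNReal
open MeasureTheory Filter Metric Pool.Agent.Results.MP_fc0ae9_an.PositiveThreshold

variable {d : ℕ}

lemma mxmv_coord (Y Z : EE d) : Z 0 - dist Y Z ≤ Y 0 := by
  have h := PiLp.dist_apply_le Y Z 0
  rw [Real.dist_eq] at h
  linarith [(abs_le.1 h).1]

lemma mxmv_low {B : ℝ} (hB : 0 < B) : ∃ c : ℝ, 0 < c ∧ ∀ u : EE d → ℝ, Har u →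
    ∀ (Z : EE d) (σ M : ℝ), 0 < σ → σ ≤ Z 0 → 0 ≤ M → (∀ Y ∈ ball Z (σ / 2), |u Y| ≤ B * M) →
      ∀ Y ∈ ball Z (c * σ), |u Y - u Z| ≤ M / 2 := by
  obtain ⟨C, hC, h⟩ := grad_est (d := d)
  refine ⟨min (1 / 4) (1 / (8 * (d + 1) * C * B)), by positivity,
    fun u hu Z σ M hσ hZ hM hb Y hY => ?_⟩
  have h1 : ∀ W ∈ ball Z (σ / 4), ‖fderiv ℝ u W‖ ≤ (d + 1) * (C * (B * M) / (σ / 4)) := by
    intro W hW
    refine ContinuousLinearMap.opNorm_le_bound _ (by positivity) fun v => ?_
    have e : v = ∑ l, v l • (ev l : EE d) := by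
      ext i
      simp [ev_apply, Finset.sum_apply]
    have h2 := mxmv_coord W Z
    have h3 := fun l => h u hu W (σ / 4) (B * M) (by positivity) (by linarith [mem_ball.1 hW])
      (fun V hV => hb V (mem_ball.2 (by
        linarith [dist_triangle V W Z, mem_ball.1 hW, mem_ball.1 hV]))) l
    conv_lhs => rw [e, map_sum]
    refine (norm_sum_le_of_le _ (n := fun _ => ‖v‖ * (C * (B * M) / (σ / 4)))
      fun l _ => ?_).trans (le_of_eq ?_)
    · rw [map_smul, norm_smul]
      exact mul_le_mul (PiLp.norm_apply_le v l) (h3 l) (norm_nonneg _) (norm_nonneg _)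
    · rw [Finset.sum_const, Finset.card_univ, Fintype.card_fin, nsmul_eq_mul]
      push_cast
      ring
  have h2 := mem_ball.1 hY
  have h3 := mul_le_mul_of_nonneg_right (min_le_left (1 / 4) (1 / (8 * (d + 1) * C * B))) hσ.le
  have h4 := mul_le_mul_of_nonneg_right (min_le_right (1 / 4) (1 / (8 * (d + 1) * C * B))) hσ.le
  refine ((convex_ball Z (σ / 4)).norm_image_sub_le_of_norm_fderiv_le (fun W hW =>
    (hu W (ball_subset_half (by linarith) hW)).1.differentiableAt (by simp)) h1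
    (mem_ball_self (by positivity)) (mem_ball.2 (by linarith))).trans ?_
  rw [← dist_eq_norm]
  refine (mul_le_mul_of_nonneg_left (h2.le.trans h4) (by positivity)).trans (le_of_eq ?_)
  field_simp
  ring

theorem slice_bound {p : ℝ} (hp : 0 < p) {u : EE d → ℝ} (hu : Har u) {A : ℝ≥0∞} (hA : A ≠ ⊤)
    (h : ∀ t, 0 < t → ∫⁻ x, ‖u (pt t x)‖ₑ ^ p ≤ A) {s : ℝ} (hs : 0 < s) :
    ∃ K : ℝ, ∀ X : EE d, s ≤ X 0 → |u X| ≤ K := by
  set e : ℝ := (d + 1) / p with he
  have he0 : 0 < e := by positivity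
  obtain ⟨c, hc, hl⟩ := mxmv_low (d := d) (B := 2 ^ e) (by positivity)
  set V := (volume (ball (0 : Ed d) 1)).toReal with hV
  have hV0 : 0 < V := ENNReal.toReal_pos (measure_ball_pos _ _ one_pos).ne' measure_ball_lt_top.ne
  refine ⟨(s * (2 ^ p * A.toReal / (c ^ d * V))) ^ p⁻¹ / (s / 2) ^ e, fun X hX => ?_⟩
  obtain ⟨Z, h1, h2⟩ := (isCompact_closedBall X (s / 2)).exists_isMaxOn
    (f := fun Y => (s / 2 - dist Y X) ^ e * |u Y|) ⟨X, mem_closedBall_self (by positivity)⟩
    (ContinuousOn.mul (Continuous.continuousOn (Continuous.rpow_const (by fun_prop)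
      fun _ => Or.inr he0.le)) fun Y hY => ((hu Y (ball_subset_half hX
        (closedBall_subset_ball (half_lt_self hs) hY))).1.continuousAt.abs).continuousWithinAt)
  have h3 : (s / 2 - dist X X) ^ e * |u X| ≤ (s / 2 - dist Z X) ^ e * |u Z| :=
    h2 (mem_closedBall_self (by positivity))
  rw [dist_self, sub_zero] at h3
  rw [le_div_iff₀' (by positivity)]
  refine h3.trans ?_
  have h0 := sub_nonneg.2 (mem_closedBall.1 h1)
  set σ := s / 2 - dist Z X with hσ
  rcases h0.eq_or_lt with h4 | h4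
  · rw [← h4, Real.zero_rpow he0.ne', zero_mul]
    positivity
  have h5 := mxmv_coord Z X
  have h6 := dist_nonneg (x := Z) (y := X)
  have h7 := hl u hu Z σ |u Z| h4 (by linarith) (abs_nonneg _) fun Y hY => by
    have k1 := dist_triangle Y Z X
    have k2 := mem_ball.1 hY
    have k3 : (s / 2 - dist Y X) ^ e * |u Y| ≤ σ ^ e * |u Z| :=
      h2 (mem_closedBall.2 (by linarith))
    have k4 := (mul_le_mul_of_nonneg_right (Real.rpow_le_rpow (half_pos h4).le
      (show σ / 2 ≤ s / 2 - dist Y X by linarith) he0.le) (abs_nonneg _)).trans k3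
    rw [Real.div_rpow h4.le zero_le_two, div_mul_eq_mul_div, div_le_iff₀ (by positivity),
      mul_assoc, mul_comm |u Z|] at k4
    exact le_of_mul_le_mul_left k4 (by positivity)
  obtain ⟨y, hy⟩ := exists_pt Z
  have h8 : ENNReal.ofReal ((|u Z| / 2) ^ p) * volume (ball y (c * σ)) ≤ A := by
    rw [← setLIntegral_const]
    refine (setLIntegral_mono' measurableSet_ball fun x hx => ?_).trans
      ((setLIntegral_le_lintegral _ _).trans (h (Z 0) (by linarith)))
    have k1 := dist_pt_sq (Z 0) (Z 0) x y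
    rw [← hy, sub_self, zero_pow two_ne_zero, zero_add, sq_eq_sq₀ dist_nonneg dist_nonneg] at k1
    have k2 := h7 (pt (Z 0) x) (mem_ball.2 (k1 ▸ hx))
    have k3 := abs_sub_abs_le_abs_sub (u Z) (u (pt (Z 0) x))
    rw [abs_sub_comm] at k3
    rw [← ENNReal.ofReal_rpow_of_nonneg (by positivity) hp.le, Real.enorm_eq_ofReal_abs]
    exact ENNReal.rpow_le_rpow (ENNReal.ofReal_le_ofReal (by linarith)) hp.le
  have h9 := ENNReal.toReal_mono hA h8
  rw [Measure.addHaar_ball_of_pos _ _ (by positivity), ENNReal.toReal_mul, ENNReal.toReal_mul,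
    ENNReal.toReal_ofReal (by positivity), ENNReal.toReal_ofReal (by positivity),
    finrank_euclideanSpace_fin, ← hV, Real.div_rpow (abs_nonneg _) zero_le_two, mul_pow] at h9
  rw [Real.le_rpow_inv_iff_of_pos (by positivity) (by positivity) hp,
    Real.mul_rpow (by positivity) (abs_nonneg _), ← Real.rpow_mul h4.le, he,
    div_mul_cancel₀ _ hp.ne', Real.rpow_add h4, Real.rpow_natCast, Real.rpow_one,
    mul_comm _ σ, mul_assoc]
  refine mul_le_mul (by linarith) ?_ (by positivity) hs.le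
  rw [le_div_iff₀ (by positivity)]
  refine le_trans (le_of_eq ?_) (mul_le_mul_of_nonneg_left h9 (by positivity))
  field_simp

end Pool.Agent.Lib.MP_fc0ae9_an.St
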