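import Pool.Agent.Lib.MP_fc0ae9_an.MxDefs

/-! Vertical shifts. -/

namespace Pool.Agent.Lib.MP_fc0ae9_an.St

open scoped InnerProductSpace ContDiff Topology ENNReal
open MeasureTheory Filter Metric Pool.Agent.Results.MP_fc0ae9_an.PositiveThreshold

variable {d : ℕ}

theorem sh_pt (s : ℝ) (u : EE d → ℝ) (t : ℝ) (x : Ed d) : sh s u (pt t x) = u (pt (t + s) x) := by
  have h : pt t x + s • ev 0 = pt (t + s) x := by
    ext i
    refine Fin.cases ?_ (fun j => ?_) i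
    · simp [pt_zero, ev_apply]
    · simp [pt_succ, ev_apply]
  rw [sh, h]

theorem mxsh_pd (s : ℝ) (u : EE d → ℝ) (i : Fin (d + 1)) : pd i (sh s u) = sh s (pd i u) := by
  funext X
  simp only [pd_eq, sh]
  rw [← fderiv_comp_add_right]
  rfl

theorem mxsh_zero (s : ℝ) (X : EE d) : (X + s • (ev 0 : EE d)) 0 = X 0 + s := by
  simp [ev_apply]

theorem mxsh_mem {s : ℝ} (hs : 0 < s) {X : EE d} (hX : X ∈ halfSpace d) :
    X + s • (ev 0 : EE d) ∈ halfSpace d := by
  have h : 0 < X 0 := hX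
  change 0 < (X + s • (ev 0 : EE d)) 0
  rw [mxsh_zero]
  linarith

theorem mxsh_har {s : ℝ} (hs : 0 < s) {u : EE d → ℝ} (hu : Har u) : Har (sh s u) := by
  intro X hX
  obtain ⟨h1, h2⟩ := hu _ (mxsh_mem hs hX)
  refine ⟨h1.comp X (f := fun X : EE d => X + s • ev 0) (by fun_prop), ?_⟩
  simp only [mxsh_pd]
  exact h2

theorem mxsh_cont : Continuous fun q : ℝ × Ed d => pt q.1 q.2 := (ptL d).continuous

theorem mxsh_lim {s : ℝ} (hs : 0 < s) {u : EE d → ℝ} (hu : Har u) (x : Ed d) :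
    Tendsto (fun t => sh s u (pt t x)) (𝓝[>] 0) (𝓝 (u (pt s x))) := by
  simp only [sh_pt]
  have h1 : Tendsto (fun t : ℝ => pt (t + s) x) (𝓝 0) (𝓝 (pt s x)) := by
    have h2 : Continuous fun t : ℝ => pt (t + s) x :=
      mxsh_cont.comp (f := fun t : ℝ => (t + s, x)) (by fun_prop)
    simpa using h2.tendsto 0
  exact ((hu _ (pt_mem hs x)).1.continuousAt.tendsto.comp h1).mono_left nhdsWithin_le_nhds

theorem mxsh_pi {ι : Type} [Fintype ι] {f : ℝ → ι → ℝ} {a : ι → ℝ} {l : Filter ℝ}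
    (h : ∀ i, Tendsto (fun t => f t i) l (𝓝 (a i))) :
    Tendsto (fun t => (WithLp.toLp 2 (f t) : Vc ι)) l (𝓝 (WithLp.toLp 2 a)) :=
  ((PiLp.continuous_toLp 2 _).tendsto a).comp (tendsto_pi_nhds.2 h)

theorem nice_shift {F : Fin (d + 1) → EE d → ℝ} (hF : CR F) {s K : ℝ} (hs : 0 < s)
    (hK : ∀ X : EE d, s ≤ X 0 → ∀ i, |F i X| ≤ K) :
    Nice (fun i => sh s (F i)) fun x => vec F (pt s x) := by
  have hh : ∀ i, Har (sh s (F i)) := fun i => mxsh_har hs (hF.har i)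
  refine ⟨⟨hh, fun X hX i j => ?_, fun X hX => ?_⟩, ?_, ?_, fun x => ?_⟩
  · simp only [mxsh_pd]
    exact hF.sym _ (mxsh_mem hs hX) i j
  · simp only [mxsh_pd]
    exact hF.div _ (mxsh_mem hs hX)
  · obtain ⟨C, -, hC⟩ := jet_bound (d := d) (κ := 1 / 2) (by norm_num) (by norm_num)
    refine ⟨C * K, fun X hX => hC _ hh X hX K fun i Y hY => hK _ ?_ i⟩
    have h0 : 0 < X 0 := hX
    have h1 : |Y 0 - X 0| ≤ dist Y X := by
      rw [← Real.dist_eq]
      exact PiLp.dist_apply_le Y X 0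
    have h2 := mem_ball.1 hY
    rw [mxsh_zero]
    linarith [(abs_le.1 h1).1]
  · refine (PiLp.continuous_toLp 2 _).comp (continuous_pi fun i => continuous_iff_continuousAt.2
      fun x => ?_)
    exact ((hF.har i _ (pt_mem hs x)).1.continuousAt).comp (f := fun x : Ed d => pt s x)
      (mxsh_cont.comp (f := fun x : Ed d => (s, x)) (by fun_prop)).continuousAt
  · have h0 : Tendsto (fun t : ℝ => t) (𝓝[>] 0) (𝓝 0) := nhdsWithin_le_nhds
    refine (mxsh_pi fun i => mxsh_lim hs (hF.har i) x).prodMk_nhds (Tendsto.prodMk_nhds ?_ ?_)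
    · refine mxsh_pi (a := 0) fun p => ?_
      simpa only [mxsh_pd, pt_zero, zero_mul, Pi.zero_apply] using
        h0.mul (mxsh_lim hs ((hF.har p.1).der p.2) x)
    · refine mxsh_pi (a := 0) fun p => ?_
      simpa only [mxsh_pd, pt_zero, zero_mul, Pi.zero_apply, zero_pow two_ne_zero] using
        (h0.pow 2).mul (mxsh_lim hs (((hF.har p.1).der p.2.1).der p.2.2) x)

theorem ntMax_le_liminf (α : ℝ) (u : EE d → ℝ) (x : Ed d) :
    ntMax α u x ≤ liminf (fun s => ntMax α (sh s u) x) (𝓝[>] 0) := by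
  refine iSup_le fun t => iSup_le fun y => iSup_le fun h => le_liminf_of_le (h := ?_)
  have h1 : Tendsto (fun s : ℝ => t - s) (𝓝[>] 0) (𝓝 t) := by
    have hc : Continuous fun s : ℝ => t - s := by fun_prop
    simpa using (hc.tendsto 0).mono_left (nhdsWithin_le_nhds (s := Set.Ioi 0))
  filter_upwards [h1.eventually (lt_mem_nhds h.1),
    (h1.const_mul α).eventually (lt_mem_nhds h.2)] with s h2 h3
  refine le_iSup_of_le (t - s) (le_iSup_of_le y (le_iSup_of_le ⟨h2, h3⟩ ?_))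
  rw [sh_pt, sub_add_cancel]

end Pool.Agent.Lib.MP_fc0ae9_an.St
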