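import Pool.Agent.Lib.MP_fc0ae9_an.MxAbs
import Pool.Agent.Lib.MP_fc0ae9_an.MxMV
import Pool.Agent.Lib.MP_fc0ae9_an.MxSh

/-! The maximal estimate. -/

namespace Pool.Agent.Lib.MP_fc0ae9_an.St

open scoped InnerProductSpace ContDiff Topology ENNReal
open MeasureTheory Filter Metric Pool.Agent.Results.MP_fc0ae9_an.PositiveThreshold

variable {d : ℕ}

theorem mxm_enorm {p : ℝ} (hp : 0 < p) (w : EE d) :
    ‖w‖ₑ ^ p ≤ ENNReal.ofReal (((d : ℝ) + 1) ^ p) * ∑ i, ‖w i‖ₑ ^ p := by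
  have h := ENNReal.ofReal_le_ofReal (norm_rpow_le hp w)
  rw [← ENNReal.ofReal_rpow_of_nonneg (norm_nonneg _) hp.le, ofReal_norm,
    ENNReal.ofReal_mul (by positivity),
    ENNReal.ofReal_sum_of_nonneg fun i _ => by positivity] at h
  refine h.trans_eq (congrArg _ (Finset.sum_congr rfl fun i _ => ?_))
  rw [← ENNReal.ofReal_rpow_of_nonneg (abs_nonneg _) hp.le, ← Real.norm_eq_abs, ofReal_norm]

theorem mxm_comp (α : ℝ) (F : Fin (d + 1) → EE d → ℝ) (i : Fin (d + 1)) (x : Ed d) :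
    ntMax α (F i) x ≤ ntMax α (fun X => ‖vec F X‖) x := by
  refine iSup_mono fun t => iSup_mono fun y => iSup_mono fun _ => ?_
  rw [← ofReal_norm, ← ofReal_norm, norm_norm]
  exact ENNReal.ofReal_le_ofReal (PiLp.norm_apply_le (vec F (pt t y)) i)

theorem max_main (hd : 2 ≤ d) : ∃ p₁ : ℝ, 0 < p₁ ∧ p₁ < ((d : ℝ) - 1) / d ∧ ∀ α : ℝ, 0 < α →
    ∀ p : ℝ, p₁ ≤ p → ∃ C : ℝ≥0∞, C ≠ ⊤ ∧ ∀ F : Fin (d + 1) → EE d → ℝ, CR F →
      ∀ A : ℝ≥0∞, A ≠ ⊤ → (∀ t, 0 < t → ∫⁻ x, ∑ i, ‖F i (pt t x)‖ₑ ^ p ≤ A) →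
      ∫⁻ x, ∑ i, ntMax α (F i) x ^ p ≤
        C * liminf (fun t => ∫⁻ x, ∑ i, ‖F i (pt t x)‖ₑ ^ p) (𝓝[>] 0) := by
  obtain ⟨q, hq, hqd, hmax⟩ := nice_max hd
  refine ⟨(q + ((d : ℝ) - 1) / d) / 2, by linarith, by linarith, fun α hα p hp => ?_⟩
  have hqp : q < p := by linarith
  have hp0 : 0 < p := hq.trans hqp
  obtain ⟨Cn, hCn, hn⟩ := hmax p hqp
  obtain ⟨Ca, hCa, hap⟩ := aperture_int (d := d) (by omega) one_pos hα
  obtain ⟨B, hB⟩ : ∃ B : ℝ≥0∞, B = Ca * (Cn * ENNReal.ofReal (((d : ℝ) + 1) ^ p)) + 1 := ⟨_, rfl⟩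
  have hB0 : B ≠ 0 := by rw [hB]; positivity
  have hBt : B ≠ ⊤ := by rw [hB]; finiteness
  refine ⟨((d + 1 : ℕ) : ℝ≥0∞) * B, by finiteness, fun F hF A hA h => ?_⟩
  have h1 : ∀ s, 0 < s → ∫⁻ x, ntMax α (sh s fun X => ‖vec F X‖) x ^ p ≤
      B * ∫⁻ x, ∑ i, ‖F i (pt s x)‖ₑ ^ p := by
    intro s hs
    choose K hK using fun i => slice_bound hp0 (hF.har i) hA (fun t ht =>
      (lintegral_mono fun x => Finset.single_le_sum (f := fun i => ‖F i (pt t x)‖ₑ ^ p)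
        (fun _ _ => zero_le) (Finset.mem_univ i)).trans (h t ht)) hs
    have h2 := hn _ _ (nice_shift hF hs (K := ∑ i, |K i|) fun X hX i =>
      (hK i X hX).trans ((le_abs_self _).trans (Finset.single_le_sum (f := fun i => |K i|)
        (fun _ _ => abs_nonneg _) (Finset.mem_univ i))))
    have h3 := hap (sh s fun X => ‖vec F X‖) p 0 hp0
    simp only [tsub_zero] at h3
    have h4 : ∫⁻ x, ‖vec F (pt s x)‖ₑ ^ p ≤
        ENNReal.ofReal (((d : ℝ) + 1) ^ p) * ∫⁻ x, ∑ i, ‖F i (pt s x)‖ₑ ^ p := by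
      rw [← lintegral_const_mul' _ _ ENNReal.ofReal_ne_top]
      exact lintegral_mono fun x => mxm_enorm hp0 _
    calc _ ≤ Ca * (Cn * (ENNReal.ofReal (((d : ℝ) + 1) ^ p) *
          ∫⁻ x, ∑ i, ‖F i (pt s x)‖ₑ ^ p)) :=
          h3.trans (mul_le_mul_right (h2.trans (mul_le_mul_right h4 _)) _)
      _ ≤ _ := by
          rw [hB, ← mul_assoc, ← mul_assoc, mul_assoc Ca]
          exact mul_le_mul_left le_self_add _
  calc ∫⁻ x, ∑ i, ntMax α (F i) x ^ p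
      ≤ ∫⁻ x, ((d + 1 : ℕ) : ℝ≥0∞) *
          liminf (fun s => ntMax α (sh s fun X => ‖vec F X‖) x ^ p) (𝓝[>] 0) := by
        refine lintegral_mono fun x => ?_
        have h5 : ntMax α (fun X => ‖vec F X‖) x ^ p ≤
            liminf (fun s => ntMax α (sh s fun X => ‖vec F X‖) x ^ p) (𝓝[>] 0) :=
          (ENNReal.rpow_le_rpow (ntMax_le_liminf α _ x) hp0.le).trans_eq
            (OrderIso.liminf_apply (ENNReal.orderIsoRpow p hp0))
        refine (Finset.sum_le_card_nsmul _ _ _ fun i _ =>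
          (ENNReal.rpow_le_rpow (mxm_comp α F i x) hp0.le).trans h5).trans_eq ?_
        rw [Finset.card_univ, Fintype.card_fin, nsmul_eq_mul]
    _ ≤ ((d + 1 : ℕ) : ℝ≥0∞) *
          liminf (fun s => ∫⁻ x, ntMax α (sh s fun X => ‖vec F X‖) x ^ p) (𝓝[>] 0) := by
        rw [lintegral_const_mul' _ _ (ENNReal.natCast_ne_top _)]
        exact mul_le_mul_right
          (lintegral_liminf_le fun s => (measurable_ntMax _ _).pow_const p) _
    _ ≤ _ := by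
        rw [mul_assoc, ← ENNReal.liminf_const_mul_of_ne_zero_of_ne_top hB0 hBt]
        exact mul_le_mul_right (liminf_le_liminf (eventually_nhdsWithin_of_forall h1)) _

end Pool.Agent.Lib.MP_fc0ae9_an.St
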