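import Pool.Agent.Lib.MP_fc0ae9_an.MxPsi

/-! Integrals and limits of the weight. -/

namespace Pool.Agent.Lib.MP_fc0ae9_an.St

open scoped InnerProductSpace ContDiff Topology ENNReal
open MeasureTheory Filter Metric Pool.Agent.Results.MP_fc0ae9_an.PositiveThreshold

variable {d : ℕ}

variable {a : ℝ}

lemma mxpsj_cd_rr (a : ℝ) (x₀ : Ed d) : ContDiff ℝ 1 (rr a x₀) :=
  contDiff_const.add ((contDiff_id.sub contDiff_const).norm_sq ℝ)

lemma mxpsj_cd_ps (ha : 0 < a) (x₀ : Ed d) : ContDiff ℝ 1 (ps a x₀) :=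
  (mxpsj_cd_rr a x₀).rpow_const_of_ne fun X => (rr_pos ha x₀ X).ne'

lemma mxpsj_cd_co (i : Fin (d + 1)) : ContDiff ℝ 1 fun Y : EE d => Y i :=
  (EuclideanSpace.proj (𝕜 := ℝ) i).contDiff

lemma mxpsj_cd_ps1 (ha : 0 < a) (x₀ : Ed d) (l : Fin (d + 1)) : ContDiff ℝ 1 (ps1 a x₀ l) :=
  (contDiff_const.mul ((mxpsj_cd_co l).comp (contDiff_id.sub contDiff_const))).mul
    ((mxpsj_cd_rr a x₀).rpow_const_of_ne fun X => (rr_pos ha x₀ X).ne')

lemma mxpsj_cont (ha : 0 < a) (x₀ : Ed d) (t : ℝ) : Continuous fun x => ps a x₀ (pt t x) :=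
  (mxpsj_cd_ps ha x₀).continuous.comp
    (continuous_iff_continuousAt.2 fun x => (sS_fderiv t x).continuousAt)

theorem integrable_ps (ha : 0 < a) (x₀ : Ed d) : Integrable fun x => ps a x₀ (pt 0 x) := by
  have hm : 0 < min (a ^ 2) 1 := lt_min (by positivity) one_pos
  have h1 : Integrable fun x : Ed d => ((1 : ℝ) + ‖x‖ ^ 2) ^ (-((d : ℝ) + 1) / 2) :=
    integrable_rpow_neg_one_add_norm_sq (by simp)
  refine ((h1.comp_sub_right x₀).const_mul (min (a ^ 2) 1 ^ (-((d : ℝ) + 1) / 2))).mono'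
    (mxpsj_cont ha x₀ 0).aestronglyMeasurable (Eventually.of_forall fun x => ?_)
  rw [Real.norm_of_nonneg (ps_pos ha x₀ _).le, ← Real.mul_rpow hm.le (by positivity), ps, rr_pt,
    dist_eq_norm, neg_div]
  refine Real.rpow_le_rpow_of_nonpos (by positivity) ?_ (neg_nonpos.2 (by positivity))
  nlinarith [min_le_left (a ^ 2) 1, min_le_right (a ^ 2) 1, sq_nonneg ‖x - x₀‖]

theorem ps_le (ha : 0 < a) (x₀ : Ed d) (t : ℝ) (x : Ed d) :
    ps a x₀ (pt t x) ≤ ps a x₀ (pt 0 x) := by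
  refine Real.rpow_le_rpow_of_nonpos (rr_pos ha x₀ _) ?_ (neg_nonpos.2 (by positivity))
  rw [rr_pt, rr_pt]
  nlinarith [sq_nonneg t]

theorem ps_top (ha : 0 < a) (x₀ : Ed d) :
    Tendsto (fun t => ∫ x, ps a x₀ (pt t x)) atTop (𝓝 0) := by
  have h := tendsto_integral_filter_of_dominated_convergence (μ := volume) (l := atTop)
    (F := fun (t : ℝ) (x : Ed d) => ps a x₀ (pt t x)) (f := fun _ => 0)
    (fun x => ps a x₀ (pt 0 x))
    (Eventually.of_forall fun t => (mxpsj_cont ha x₀ t).aestronglyMeasurable)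
    (Eventually.of_forall fun t => Eventually.of_forall fun x => by
      rw [Real.norm_of_nonneg (ps_pos ha x₀ _).le]
      exact ps_le ha x₀ t x)
    (integrable_ps ha x₀) (Eventually.of_forall fun x => by
      simp only [ps, rr_pt]
      exact (tendsto_rpow_neg_atTop (by positivity)).comp (tendsto_atTop_add_const_right _ _
        (tendsto_atTop_add_const_left _ _ (tendsto_pow_atTop two_ne_zero))))
  simpa using h

theorem ps_zero (ha : 0 < a) (x₀ x : Ed d) :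
    Tendsto (fun t => ps a x₀ (pt t x)) (𝓝[>] 0) (𝓝 (ps a x₀ (pt 0 x))) :=
  (((mxpsj_cd_ps ha x₀).continuous.tendsto _).comp (sS_deriv 0 x).continuousAt).mono_left
    nhdsWithin_le_nhds

theorem ps1_zero (ha : 0 < a) (x₀ x : Ed d) (l : Fin (d + 1)) :
    Tendsto (fun t => t * ps1 a x₀ l (pt t x)) (𝓝[>] 0) (𝓝 0) := by
  have h := (tendsto_id (x := 𝓝 (0 : ℝ))).mul
    (((mxpsj_cd_ps1 ha x₀ l).continuous.tendsto _).comp (sS_deriv 0 x).continuousAt)
  rw [zero_mul] at h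
  exact h.mono_left nhdsWithin_le_nhds

lemma mxpsj_dom (ha : 0 < a) (x₀ : Ed d) {W : EE d → ℝ} {C : ℝ} (hC : 0 ≤ C)
    (h1 : ContDiff ℝ 1 W) (h2 : ∀ X, |W X| ≤ C * ps a x₀ X)
    (h3 : ∀ X l, |X 0 * pd l W X| ≤ C * ps a x₀ X) : Dom W := by
  refine ⟨fun X _ => h1.contDiffAt, fun t₁ t₂ ht => ⟨fun x => (C + C / t₁) * ps a x₀ (pt 0 x),
    (integrable_ps ha x₀).const_mul _, Eventually.of_forall fun x t ht' => ?_⟩⟩
  have hP := ps_pos ha x₀ (pt 0 x)
  have h4 := mul_le_mul_of_nonneg_left (ps_le ha x₀ t x) hC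
  have h5 : 0 ≤ C / t₁ * ps a x₀ (pt 0 x) := by positivity
  refine ⟨by nlinarith [h2 (pt t x)], fun l => ?_⟩
  have h6 := (h3 (pt t x) l).trans h4
  rw [abs_mul, pt_zero, abs_of_pos (ht.trans_le ht'.1)] at h6
  have h7 : |pd l W (pt t x)| ≤ C / t₁ * ps a x₀ (pt 0 x) := by
    rw [div_mul_eq_mul_div, le_div_iff₀' ht]
    exact (mul_le_mul_of_nonneg_right ht'.1 (abs_nonneg _)).trans h6
  nlinarith [mul_nonneg hC hP.le]

theorem dom_ps (ha : 0 < a) (x₀ : Ed d) : Dom (ps a x₀) := by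
  refine mxpsj_dom ha x₀ (C := (d : ℝ) + 1) (by positivity) (mxpsj_cd_ps ha x₀) (fun X => ?_)
    fun X l => ?_
  · have h := ps_pos ha x₀ X
    rw [abs_of_pos h]
    exact le_mul_of_one_le_left h.le (by linarith [Nat.cast_nonneg (α := ℝ) d])
  · rw [(hd_ps ha x₀ l X).2]
    exact ps1_le ha x₀ l X

lemma mxpsj_hd_z (x₀ : Ed d) (i l : Fin (d + 1)) (X : EE d) :
    HD l (fun Y => (Y - pt 0 x₀) i) X (X 0 * ev l i) := by
  have h : HasFDerivAt (fun Y : EE d => (Y - pt 0 x₀) i) (EuclideanSpace.proj (𝕜 := ℝ) i) X :=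
    (EuclideanSpace.proj (𝕜 := ℝ) i).hasFDerivAt.sub_const (pt 0 x₀ i)
  exact ⟨h.differentiableAt, by rw [pd_eq, h.fderiv]; rfl⟩

lemma mxpsj_hd_rr (a : ℝ) (x₀ : Ed d) (l : Fin (d + 1)) (X : EE d) :
    HD l (rr a x₀) X (2 * X 0 * (X - pt 0 x₀) l) := by
  have e : rr a x₀ = fun Y => a ^ 2 + ∑ i, (Y - pt 0 x₀) i ^ 2 := by
    funext Y
    rw [rr, EuclideanSpace.real_norm_sq_eq]
  rw [e]
  refine ((HD.const _).add (HD.sum fun i => (mxpsj_hd_z x₀ i l X).sq)).of_eq ?_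
  simp only [ev_apply, mul_ite, mul_one, mul_zero, Finset.sum_ite_eq', Finset.mem_univ, if_true]
  ring

lemma mxpsj_sq_le (a : ℝ) (x₀ : Ed d) (i : Fin (d + 1)) (X : EE d) :
    (X - pt 0 x₀) i ^ 2 ≤ rr a x₀ X := by
  rw [rr, EuclideanSpace.real_norm_sq_eq]
  exact (Finset.single_le_sum (f := fun i => (X - pt 0 x₀) i ^ 2) (fun _ _ => sq_nonneg _)
    (Finset.mem_univ i)).trans (le_add_of_nonneg_left (sq_nonneg a))

theorem dom_ps1 (ha : 0 < a) (x₀ : Ed d) (l : Fin (d + 1)) :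
    Dom fun Y => Y 0 * ps1 a x₀ l Y := by
  have hd : (0 : ℝ) ≤ d := Nat.cast_nonneg d
  refine mxpsj_dom ha x₀ (C := ((d : ℝ) + 1) * ((d : ℝ) + 5)) (by positivity)
    ((mxpsj_cd_co 0).mul (mxpsj_cd_ps1 ha x₀ l)) (fun X => (ps1_le ha x₀ l X).trans ?_)
    fun X k => ?_
  · have h := ps_pos ha x₀ X
    gcongr
    nlinarith
  have hR := rr_pos ha x₀ X
  have h1 : HD k (fun Y => Y 0 * ps1 a x₀ l Y) X _ := HD.coord.mul
    (((mxpsj_hd_z x₀ l k X).const_mul (-((d : ℝ) + 1))).mul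
      ((mxpsj_hd_rr a x₀ k X).rpow hR (-(((d : ℝ) + 3) / 2))))
  rw [h1.2]
  have hev : ∀ i j : Fin (d + 1), |(ev i : EE d) j| ≤ 1 := fun i j => by
    rw [ev_apply]
    split_ifs <;> simp
  have ht : X 0 ^ 2 ≤ rr a x₀ X := by simpa [pt_zero] using mxpsj_sq_le a x₀ 0 X
  have hz : ∀ i j, |(X - pt 0 x₀) i * (X - pt 0 x₀) j| ≤ rr a x₀ X := fun i j => by
    have hi := mxpsj_sq_le a x₀ i X
    have hj := mxpsj_sq_le a x₀ j X
    rw [abs_le]
    constructor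
    · nlinarith [sq_nonneg ((X - pt 0 x₀) i + (X - pt 0 x₀) j)]
    · nlinarith [sq_nonneg ((X - pt 0 x₀) i - (X - pt 0 x₀) j)]
  obtain ⟨G, hG⟩ : ∃ G, G = rr a x₀ X ^ (-(((d : ℝ) + 3) / 2) - 1) := ⟨_, rfl⟩
  have hG0 : 0 < G := hG ▸ Real.rpow_pos_of_pos hR _
  have e1 : rr a x₀ X ^ (-(((d : ℝ) + 3) / 2)) = G * rr a x₀ X := by
    rw [hG, ← Real.rpow_add_one hR.ne']
    congr 1
    ring
  have e2 : ps a x₀ X = G * rr a x₀ X * rr a x₀ X := by
    rw [← e1, ← Real.rpow_add_one hR.ne', ps]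
    congr 1
    ring
  rw [ps1, e1, e2, ← hG]
  have h0 := hz 0 l
  rw [show (X - pt 0 x₀) 0 = X 0 by simp [pt_zero]] at h0
  have h2 := hz l k
  have h3 := hev 0 k
  have h4 := hev k l
  generalize rr a x₀ X = R at *
  generalize (X - pt 0 x₀) l = u at *
  generalize (X - pt 0 x₀) k = w at *
  generalize (ev 0 : EE d) k = p at *
  generalize (ev k : EE d) l = q at *
  generalize X 0 = t at *
  calc _ = |((d : ℝ) + 1) * G * (-(p * (t * u) * R) - q * t ^ 2 * R +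
        ((d : ℝ) + 3) * t ^ 2 * (u * w))| := by
        congr 1
        ring
    _ ≤ ((d : ℝ) + 1) * G * (1 * R * R + 1 * R * R + ((d : ℝ) + 3) * R * R) := by
        rw [abs_mul, abs_of_pos (by positivity : 0 < ((d : ℝ) + 1) * G)]
        gcongr
        refine (abs_add_le _ _).trans (add_le_add ((abs_sub _ _).trans (add_le_add ?_ ?_)) ?_)
        · rw [abs_neg, abs_mul, abs_mul, abs_of_pos hR]
          gcongr
        · rw [abs_mul, abs_mul, abs_of_pos hR, abs_sq]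
          gcongr
        · rw [abs_mul, abs_mul, abs_sq, abs_of_pos (by positivity : 0 < (d : ℝ) + 3)]
          gcongr
    _ = _ := by ring

end Pool.Agent.Lib.MP_fc0ae9_an.St
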