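import Pool.Agent.Lib.MP_fc0ae9_an.MxAlg
import Pool.Agent.Lib.MP_fc0ae9_an.MxPsj
import Pool.Agent.Lib.MP_fc0ae9_an.MxDom

/-! Integration of the weighted calibration over slices. -/

namespace Pool.Agent.Lib.MP_fc0ae9_an.St

open scoped InnerProductSpace ContDiff Topology ENNReal
open MeasureTheory Filter Metric Pool.Agent.Results.MP_fc0ae9_an.PositiveThreshold

variable {d : ℕ}

variable {ε b k c δ q a : ℝ} {x₀ : Ed d} {F : Fin (d + 1) → EE d → ℝ} {f : Ed d → EE d}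

theorem mxsl_bdW (hF : Nice F f) (hε : 0 ≤ ε) (hb : 0 ≤ b) (hδ : 0 < δ) (k c q : ℝ)
    (l : Fin (d + 1)) : Bd fun X => WW ε b k c δ q (ev 0) (jet F X) l := by
  obtain ⟨K, hK⟩ := hF.bd
  exact bd_comp (Ψ := fun j => WW ε b k c δ q (ev 0) j l)
    (contDiff_euclidean.1 (contDiff_WW hε hb hδ k c q _) l) hF.cr.har hK

theorem mxsl_bdV (hF : Nice F f) (hε : 0 ≤ ε) (hb : 0 ≤ b) (hδ : 0 < δ) (q : ℝ) :
    Bd fun X => VV ε b δ q (ev 0) (jet F X) := by
  obtain ⟨K, hK⟩ := hF.bd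
  exact bd_comp (contDiff_VV hε hb hδ q _) hF.cr.har hK

theorem Nice.exists_bound (hF : Nice F f) : ∃ K : ℝ, 0 ≤ K ∧ (∀ x, ‖f x‖ ≤ K) ∧
    ∀ X ∈ halfSpace d, ‖vec F X‖ ≤ K := by
  obtain ⟨K, hK⟩ := hF.bd
  have h1 : ∀ X ∈ halfSpace d, ‖vec F X‖ ≤ K := fun X hX =>
    (norm_fst_le (jet F X)).trans (hK X hX).1
  refine ⟨K, (norm_nonneg _).trans (h1 _ (pt_mem one_pos 0)), fun x => ?_, h1⟩
  exact le_of_tendsto ((continuous_fst.tendsto _).comp (hF.lim x)).norm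
    (eventually_nhdsWithin_of_forall fun t ht => h1 _ (pt_mem ht x))

theorem Nice.integrable (hF : Nice F f) (ha : 0 < a) (x₀ : Ed d) (hq : 0 ≤ q) :
    Integrable fun x => ps a x₀ (pt 0 x) * ‖f x‖ ^ q := by
  obtain ⟨K, hK0, hK, -⟩ := hF.exists_bound
  refine ((integrable_ps ha x₀).mul_const (K ^ q)).mono'
    ((integrable_ps ha x₀).1.mul
      (hF.cont.norm.rpow_const fun _ => Or.inr hq).aestronglyMeasurable)
    (Eventually.of_forall fun x => ?_)
  have h := ps_pos ha x₀ (pt 0 x)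
  rw [Real.norm_of_nonneg (by positivity)]
  exact mul_le_mul_of_nonneg_left (Real.rpow_le_rpow (norm_nonneg _) (hK x) hq) h.le

theorem dom_UU (hF : Nice F f) (hε : 0 ≤ ε) (hb : 0 ≤ b) (hδ : 0 < δ) (ha : 0 < a) (k c q : ℝ)
    (x₀ : Ed d) (l : Fin (d + 1)) : Dom (UU ε b k c δ q a x₀ F l) := by
  exact ((dom_ps ha x₀).mul_bd (mxsl_bdW hF hε hb hδ k c q l)).sub
    ((dom_ps1 ha x₀ l).mul_bd (mxsl_bdV hF hε hb hδ q))

theorem slice_ineq (hF : Nice F f) (hε : 0 ≤ ε) (hε1 : ε ≤ 1) (hb : 0 ≤ b) (hδ : 0 < δ)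
    (ha : 0 < a) (hq : 0 < q) (hq1 : q ≤ 1) {E g s s' : ℝ} (hs : 0 < s) (hss : s ≤ s')
    (h1 : ∀ t, 0 < t → -(E / (t + a) ^ 2) ≤ ∫ x, ∑ l, pd l (UU ε b k c δ q a x₀ F l) (pt t x))
    (h2 : ∀ t ∈ Set.Icc s s',
      g - E / (t + a) ^ 2 ≤ ∫ x, ∑ l, pd l (UU ε b k c δ q a x₀ F l) (pt t x)) :
    g * (s' - s) ≤ (1 + b) * (∫ x, ps a x₀ (pt 0 x) * ‖f x‖ ^ q) + E / a := by
  have hU := dom_UU hF hε hb hδ ha k c q x₀
  set D : ℝ → ℝ := fun t => ∫ x, ∑ l, pd l (UU ε b k c δ q a x₀ F l) (pt t x) with hD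
  set Φ : ℝ → ℝ := fun t => ∫ x, UU ε b k c δ q a x₀ F 0 (pt t x) with hΦ
  have hΦd : ∀ t, 0 < t → HasDerivAt Φ (D t) t := by
    intro t ht
    have e : D t = ∫ x, pd 0 (UU ε b k c δ q a x₀ F 0) (pt t x) := by
      simp only [hD]
      rw [integral_finsetSum _ fun l _ => (hU l).integrable_pd ht l, Fin.sum_univ_succ,
        Finset.sum_eq_zero fun j _ => (hU j.succ).integral_pd_succ ht j, add_zero]
    rw [e]
    exact (hU 0).hasDerivAt ht
  have hΨd : ∀ t, 0 < t →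
      HasDerivAt (fun t => Φ t - E / (t + a)) (D t + E / (t + a) ^ 2) t := by
    intro t ht
    have h := (hasDerivAt_const t E).fun_div ((hasDerivAt_id' t).add_const a) (by positivity)
    refine ((hΦd t ht).fun_sub h).congr_deriv ?_
    ring
  have hmono : ∀ t t', 0 < t → t ≤ t' → Φ t - E / (t + a) ≤ Φ t' - E / (t' + a) :=
    fun t t' ht htt => StL_mono hΨd ht htt fun τ hτ => by
      linarith [h1 τ (ht.trans_le hτ.1)]
  have hstep : Φ s - E / (s + a) - g * s ≤ Φ s' - E / (s' + a) - g * s' :=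
    StL_mono (f := fun t => Φ t - E / (t + a) - g * t)
      (f' := fun t => D t + E / (t + a) ^ 2 - g * 1)
      (fun t ht => (hΨd t ht).fun_sub ((hasDerivAt_id' t).const_mul g)) hs hss fun τ hτ => by
        linarith [h2 τ hτ]
  obtain ⟨K₁, hK₁⟩ := (mxsl_bdW hF hε hb hδ k c q 0).2
  obtain ⟨K₂, hK₂⟩ := (mxsl_bdV hF hε hb hδ q).2
  have hK₁0 : 0 ≤ K₁ := (abs_nonneg _).trans (hK₁ _ (pt_mem one_pos 0)).1
  have hK₂0 : 0 ≤ K₂ := (abs_nonneg _).trans (hK₂ _ (pt_mem one_pos 0)).1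
  have hbd : ∀ X ∈ halfSpace d,
      ‖UU ε b k c δ q a x₀ F 0 X‖ ≤ (K₁ + ((d : ℝ) + 1) * K₂) * ps a x₀ X := by
    intro X hX
    have h3 := ps_pos ha x₀ X
    have h4 := mul_le_mul_of_nonneg_left (hK₁ X hX).1 h3.le
    have h5 := mul_le_mul (ps1_le ha x₀ 0 X) (hK₂ X hX).1 (abs_nonneg _) (by positivity)
    refine (abs_sub _ _).trans ?_
    rw [abs_mul, abs_mul, abs_of_pos h3]
    linarith
  have htop : Tendsto (fun t => Φ t - E / (t + a)) atTop (𝓝 (0 - 0)) := by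
    refine Tendsto.sub ?_ (tendsto_const_nhds.div_atTop (tendsto_atTop_add_const_right _ _
      tendsto_id))
    have h3 := (ps_top ha x₀).const_mul (K₁ + ((d : ℝ) + 1) * K₂)
    rw [mul_zero] at h3
    refine squeeze_zero_norm' ?_ h3
    filter_upwards [eventually_gt_atTop 0] with t ht
    rw [← integral_const_mul]
    exact norm_integral_le_of_norm_le (((dom_ps ha x₀).integrable ht).const_mul _)
      (Eventually.of_forall fun x => hbd _ (pt_mem ht x))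
  have hbot : Tendsto (fun t => Φ t - E / (t + a)) (𝓝[>] 0)
      (𝓝 ((∫ x, -(ps a x₀ (pt 0 x) * VV ε b δ q (ev 0) (f x, 0, 0))) - E / (0 + a))) := by
    refine Tendsto.sub ?_ (tendsto_const_nhds.div
      ((tendsto_id.mono_left nhdsWithin_le_nhds).add_const a) (by positivity))
    refine tendsto_integral_filter_of_dominated_convergence
      (fun x => (K₁ + ((d : ℝ) + 1) * K₂) * ps a x₀ (pt 0 x))
      (eventually_nhdsWithin_of_forall fun t ht => ((hU 0).integrable ht).1)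
      (eventually_nhdsWithin_of_forall fun t ht => Eventually.of_forall fun x =>
        (hbd _ (pt_mem ht x)).trans
          (mul_le_mul_of_nonneg_left (ps_le ha x₀ t x) (by positivity)))
      ((integrable_ps ha x₀).const_mul _) (Eventually.of_forall fun x => ?_)
    have h3 := (((contDiff_euclidean.1 (contDiff_WW hε hb hδ k c q (ev 0)) 0).continuous.tendsto
      _).comp (hF.lim x))
    have h4 := (((contDiff_VV hε hb hδ q (ev 0)).continuous.tendsto _).comp (hF.lim x))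
    have h5 := ((ps_zero ha x₀ x).mul h3).sub ((ps1_zero ha x₀ x 0).mul h4)
    rw [WW_bdry] at h5
    have e : ps a x₀ (pt 0 x) * (-(VV ε b δ q (ev 0) (f x, 0, 0) • (ev 0 : EE d))) 0 -
        0 * VV ε b δ q (ev 0) (f x, 0, 0) =
        -(ps a x₀ (pt 0 x) * VV ε b δ q (ev 0) (f x, 0, 0)) := by
      simp [ev_apply]
    rw [e] at h5
    exact h5
  have h3 : Φ s' - E / (s' + a) ≤ 0 - 0 := ge_of_tendsto htop
    ((eventually_ge_atTop s').mono fun t ht => hmono s' t (hs.trans_le hss) ht)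
  have h4 := le_of_tendsto hbot (b := Φ s - E / (s + a)) (by
    filter_upwards [Ioc_mem_nhdsGT hs] with t ht using hmono t s ht.1 ht.2)
  have h5 : ∫ x, ps a x₀ (pt 0 x) * VV ε b δ q (ev 0) (f x, 0, 0) ≤
      (1 + b) * ∫ x, ps a x₀ (pt 0 x) * ‖f x‖ ^ q := by
    rw [← integral_const_mul]
    refine integral_mono_of_nonneg (Eventually.of_forall fun x =>
      mul_nonneg (ps_pos ha x₀ _).le (VV_nonneg hε hb hδ hq.le _ _))
      ((hF.integrable ha x₀ hq.le).const_mul _) (Eventually.of_forall fun x => ?_)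
    have h6 := mul_le_mul_of_nonneg_left (VV_bdry hε hε1 hb hδ hq hq1 (norm_ev (d := d) 0) (f x))
      (ps_pos ha x₀ (pt 0 x)).le
    exact h6.trans_eq (by ring)
  rw [integral_neg, zero_add] at h4
  linarith

end Pool.Agent.Lib.MP_fc0ae9_an.St
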