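import Pool.Agent.Lib.MP_fc0ae9_an.MxCal
import Pool.Agent.Lib.MP_fc0ae9_an.MxDiv
import Pool.Agent.Lib.MP_fc0ae9_an.MxSl

/-! The pointwise estimate. -/

namespace Pool.Agent.Lib.MP_fc0ae9_an.St

open scoped InnerProductSpace ContDiff Topology ENNReal
open MeasureTheory Filter Metric Pool.Agent.Results.MP_fc0ae9_an.PositiveThreshold

variable {d : ℕ}

theorem mxpt_small {x τ s : ℝ} (n : ℕ) (hx : 0 ≤ x) (hxt : x ≤ τ ^ n) (hτ : 0 < τ) (hτ1 : τ ≤ 1)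
    (hs0 : 0 ≤ s) (hs : 1 ≤ n * s) : x ^ s ≤ τ := by
  refine (Real.rpow_le_rpow hx hxt hs0).trans ?_
  rw [← Real.rpow_natCast, ← Real.rpow_mul hτ.le]
  exact (Real.rpow_le_rpow_of_exponent_ge hτ hτ1 hs).trans_eq (Real.rpow_one τ)

theorem mxpt_cone : ∃ C : ℝ, 0 < C ∧ ∀ F : Fin (d + 1) → EE d → ℝ, (∀ i, Har (F i)) →
    ∀ (R m : ℝ) (x₀ : Ed d), 0 ≤ R →
      (∀ (t : ℝ) (z : Ed d), 0 < t → dist z x₀ < (2 * R + 1) * t → ‖vec F (pt t z)‖ ≤ m) →
      ∀ (t : ℝ) (x : Ed d), 0 < t → dist x x₀ < R * t → JB F (pt t x) (C * m) := by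
  obtain ⟨C, hC, h⟩ := jet_bound (d := d) (κ := 1 / 2) (by norm_num) (by norm_num)
  refine ⟨C, hC, fun F hF R m x₀ hR hm t x ht hx => h F hF _ (pt_mem ht x) m fun i Y hY => ?_⟩
  obtain ⟨z, hz⟩ := exists_pt Y
  have h1 := stp2_coord hY
  have h2 := mem_ball.1 hY
  rw [pt_zero] at h1 h2
  have h3 := dist_pt_sq (Y 0) t z x
  rw [← hz] at h3
  have h4 : dist z x ≤ dist Y (pt t x) :=
    (pow_le_pow_iff_left₀ dist_nonneg dist_nonneg two_ne_zero).1 (by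
      nlinarith [sq_nonneg (Y 0 - t)])
  have h5 := hm (Y 0) z (by linarith) (by
    have h6 := dist_triangle z x x₀
    nlinarith)
  rw [← hz] at h5
  exact (PiLp.norm_apply_le (vec F Y) i).trans h5

theorem mxpt_lip {F : Fin (d + 1) → EE d → ℝ} (hF : ∀ i, Har (F i)) {t m : ℝ} (ht : 0 < t)
    {S : Set (EE d)} (hS : Convex ℝ S) (h : ∀ Y ∈ S, t ≤ Y 0 ∧ JB F Y m) {Y Z : EE d}
    (hY : Y ∈ S) (hZ : Z ∈ S) : ‖jet F Y - jet F Z‖ ≤ (d + 1) * m / t * dist Y Z := by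
  have hm : 0 ≤ m := (norm_nonneg _).trans (h Y hY).2.1
  have hd : ∀ W ∈ S, DifferentiableAt ℝ (jet F) W := fun W hW =>
    (jet_contDiffAt hF (lt_of_lt_of_le ht (h W hW).1)).differentiableAt one_ne_zero
  have hb : ∀ W ∈ S, ‖fderiv ℝ (jet F) W‖ ≤ (d + 1) * m / t := by
    intro W hW
    have hW' : t ≤ W 0 := (h W hW).1
    refine ContinuousLinearMap.opNorm_le_bound _ (by positivity) (fun v => ?_)
    have e : v = ∑ l, v l • (ev l : EE d) := by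
      ext i
      simp [ev_apply, Finset.sum_apply]
    have hl : ∀ l, ‖fderiv ℝ (jet F) W (ev l)‖ ≤ m / t := by
      intro l
      rw [le_div_iff₀ ht]
      nlinarith [(h W hW).2.2 l, norm_nonneg (fderiv ℝ (jet F) W (ev l))]
    calc ‖fderiv ℝ (jet F) W v‖ = ‖∑ l, v l • fderiv ℝ (jet F) W (ev l)‖ := by
          conv_lhs => rw [e]
          simp only [map_sum, map_smul]
      _ ≤ ∑ l, ‖v l • fderiv ℝ (jet F) W (ev l)‖ := norm_sum_le _ _
      _ ≤ ∑ _l : Fin (d + 1), ‖v‖ * (m / t) := by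
          refine Finset.sum_le_sum (fun l _ => ?_)
          rw [norm_smul]
          exact mul_le_mul (PiLp.norm_apply_le v l) (hl l) (norm_nonneg _) (norm_nonneg _)
      _ = (d + 1) * m / t * ‖v‖ := by
          rw [Finset.sum_const, Finset.card_univ, Fintype.card_fin, nsmul_eq_mul]
          push_cast
          ring
  rw [dist_eq_norm]
  exact hS.norm_image_sub_le_of_norm_fderiv_le hd hb hZ hY

theorem mxpt_near {F : Fin (d + 1) → EE d → ℝ} (hF : ∀ i, Har (F i)) {a η R M t : ℝ}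
    {x₀ x y : Ed d} (ha : 0 < a) (hη : 0 < η) (hη1 : η ≤ 1) (hR : 3 ≤ R) (hy : dist y x₀ < a)
    (h : ∀ (t : ℝ) (x : Ed d), 0 < t → dist x x₀ < R * t → JB F (pt t x) M)
    (ht : t ∈ Set.Icc a (a + η * a)) (hx : x ∈ ball y (η * a)) :
    ‖vec F (pt a y)‖ ≤ ‖vec F (pt t x)‖ + 2 * (d + 1) * η * M := by
  have hconv : Convex ℝ ({W : EE d | a ≤ W 0} ∩ closedBall (pt a y) (2 * (η * a))) :=
    (convex_halfSpace_ge (EuclideanSpace.proj (0 : Fin (d + 1)) : EE d →L[ℝ] ℝ).isLinear a).inter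
      (convex_closedBall _ _)
  have h0 := stp2_dist ht hx
  have h1 := mxpt_lip hF ha hconv (m := M) (fun Y hY => ⟨hY.1, by
      obtain ⟨z, hz⟩ := exists_pt Y
      have h2 : a ≤ Y 0 := hY.1
      have h3 := dist_pt_sq (Y 0) a z y
      rw [← hz] at h3
      have h4 : dist z y ≤ dist Y (pt a y) :=
        (pow_le_pow_iff_left₀ dist_nonneg dist_nonneg two_ne_zero).1 (by
          nlinarith [sq_nonneg (Y 0 - a)])
      have h5 := mem_closedBall.1 hY.2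
      have h6 := dist_triangle z y x₀
      rw [hz]
      exact h _ _ (by linarith) (by nlinarith)⟩)
    (Y := pt t x) (Z := pt a y) ⟨ht.1, h0⟩ ⟨le_refl a, mem_closedBall_self (by positivity)⟩
  have hM : 0 ≤ M := (norm_nonneg _).trans (h a x₀ ha (by rw [dist_self]; positivity)).1
  have h2 : ‖vec F (pt t x) - vec F (pt a y)‖ ≤ ‖jet F (pt t x) - jet F (pt a y)‖ :=
    norm_fst_le (jet F (pt t x) - jet F (pt a y))
  have h3 := mul_le_mul_of_nonneg_left h0 (show 0 ≤ ((d : ℝ) + 1) * M / a by positivity)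
  have e : ((d : ℝ) + 1) * M / a * (2 * (η * a)) = 2 * (d + 1) * η * M := by
    field_simp
  have h4 := norm_sub_norm_le (vec F (pt a y)) (vec F (pt t x))
  rw [norm_sub_rev] at h4
  linarith

theorem mxpt_ch {a t : ℝ} {x₀ x : Ed d} (ha : 0 < a) (ht : t ∈ Set.Icc a (2 * a))
    (hx : dist x x₀ ≤ 2 * a) : 1 / 3 ^ (d + 5) / a ^ (d + 2) ≤ ch a x₀ (pt t x) := by
  have h0 : (0 : ℝ) ≤ dist x x₀ := dist_nonneg
  have h1 : rr a x₀ (pt t x) ≤ (3 * a) ^ 2 := by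
    rw [rr_pt]
    nlinarith [ht.1, ht.2]
  have h2 := Real.rpow_le_rpow_of_nonpos (rr_pos ha x₀ (pt t x)) h1
    (show -(((d : ℝ) + 5) / 2) ≤ 0 from neg_nonpos.2 (by positivity))
  have e3 : ((3 * a) ^ 2) ^ (-(((d : ℝ) + 5) / 2)) = 1 / (3 * a) ^ (d + 5) := by
    rw [← neg_div, sq_rpow_half (by positivity), Real.rpow_neg (by positivity), one_div,
      ← Real.rpow_natCast]
    push_cast
    rfl
  rw [e3] at h2
  have h3 : a ^ 2 * a ≤ ((d : ℝ) + 1) * ((d : ℝ) + 3) * a ^ 2 * t := by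
    have h4 : (1 : ℝ) ≤ ((d : ℝ) + 1) * ((d : ℝ) + 3) := by
      nlinarith [Nat.cast_nonneg (α := ℝ) d]
    exact mul_le_mul (le_mul_of_one_le_left (by positivity) h4) ht.1 ha.le (by positivity)
  refine le_trans (le_of_eq ?_) (mul_le_mul h3 h2 (by positivity) ((by positivity : (0 : ℝ) ≤
    a ^ 2 * a).trans h3))
  rw [mul_pow]
  field_simp
  ring

theorem mxpt_int {ε b k c δ q γ a R M t g r : ℝ} {x₀ y : Ed d} {F : Fin (d + 1) → EE d → ℝ}
    {f : Ed d → EE d} (hF : Nice F f) (hε : 0 < ε) (hb : 0 ≤ b) (hk : 0 ≤ k) (hc : 0 ≤ c)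
    (hδ : 0 < δ) (ha : 0 < a) (hq : 0 < q) (hq1 : q ≤ 1) (hγ : 0 < γ) (hcal : Cal d ε b k c γ q)
    (hR : ((d : ℝ) + 1) * (3 * k + c + 2) = γ * R) (hR0 : 0 < R) (hM : 0 ≤ M)
    (h : ∀ (t : ℝ) (x : Ed d), 0 < t → dist x x₀ < R * t → JB F (pt t x) M) (ht : 0 < t)
    (hr : 0 < r)
    (hg : ∀ x ∈ ball y r, g ≤ ch a x₀ (pt t x) * VV ε b δ q (ev 0) (jet F (pt t x))) :
    g * (r ^ d * volume.real (ball (0 : Ed d) 1)) -
      γ * R * (ε ^ (q / 2) * M ^ q) * (1 + R) ^ 2 * R ^ d * volume.real (ball (0 : Ed d) 1) /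
        (t + a) ^ 2 ≤ ∫ x, ∑ l, pd l (UU ε b k c δ q a x₀ F l) (pt t x) := by
  obtain ⟨e, he⟩ : ∃ e, e = γ * R * (ε ^ (q / 2) * M ^ q) * (1 + R) ^ 2 / ((t + a) ^ 2 * t ^ d) :=
    ⟨_, rfl⟩
  have he0 : 0 ≤ e := by rw [he]; positivity
  have i1 : Integrable ((ball y r).indicator fun _ : Ed d => g) :=
    (integrable_indicator_iff measurableSet_ball).2 (integrableOn_const measure_ball_lt_top.ne)
  have i2 : Integrable ((ball x₀ (R * t)).indicator fun _ : Ed d => e) :=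
    (integrable_indicator_iff measurableSet_ball).2 (integrableOn_const measure_ball_lt_top.ne)
  refine le_trans (le_of_eq ?_) (integral_mono (i1.sub i2)
    (integrable_finsetSum _ fun l _ => (dom_UU hF hε.le hb hδ ha k c q x₀ l).integrable_pd ht l)
    fun x => ?_)
  · rw [integral_sub' i1 i2, integral_indicator_const _ measurableSet_ball,
      integral_indicator_const _ measurableSet_ball, stp2_vol _ hr, stp2_vol _ (mul_pos hR0 ht),
      he, smul_eq_mul, smul_eq_mul, mul_pow]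
    field_simp
  have hX := pt_mem ht x
  have h1 : (ball y r).indicator (fun _ : Ed d => g) x ≤
      ch a x₀ (pt t x) * VV ε b δ q (ev 0) (jet F (pt t x)) := by
    by_cases hx : x ∈ ball y r
    · rw [Set.indicator_of_mem hx]
      exact hg x hx
    · rw [Set.indicator_of_notMem hx]
      have h2 := rr_pos ha x₀ (pt t x)
      refine mul_nonneg ?_ (VV_nonneg hε.le hb hδ hq.le _ _)
      rw [ch, pt_zero]
      positivity
  rw [Pi.sub_apply]
  by_cases hbad : a < R * t ∧ dist x x₀ < R * t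
  · have h2 := div_UU_bad (x₀ := x₀) hF.cr hX hε hb hk hc hδ ha hq hq1 hγ.le hcal
    rw [Set.indicator_of_mem (mem_ball.2 hbad.2)]
    have h3 := Real.rpow_le_rpow (norm_nonneg _) (h t x ht hbad.2).1 hq.le
    have h4 : ((d : ℝ) + 1) * (3 * k + c + 2) * (ε ^ (q / 2) * ‖jet F (pt t x)‖ ^ q) /
        pt t x 0 ^ (d + 2) ≤ e := by
      rw [pt_zero, hR, he, div_le_div_iff₀ (by positivity) (by positivity)]
      have h5 : (t + a) ^ 2 ≤ ((1 + R) * t) ^ 2 :=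
        pow_le_pow_left₀ (by positivity) (by nlinarith [hbad.1]) 2
      calc _ ≤ γ * R * (ε ^ (q / 2) * M ^ q) * (((1 + R) * t) ^ 2 * t ^ d) := by gcongr
        _ = _ := by ring
    linarith
  · have h2 := div_UU_good (x₀ := x₀) hF.cr hX hε hb hk hc hδ ha hq hcal (by
      rw [hR, pt_zero, mul_assoc]
      refine mul_le_mul_of_nonneg_left (Real.le_sqrt_of_sq_le ?_) hγ.le
      rw [rr_pt]
      have h3 : 0 < R * t := mul_pos hR0 ht
      rcases not_and_or.1 hbad with h4 | h4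
      · nlinarith [sq_nonneg t, sq_nonneg (dist x x₀), not_lt.1 h4]
      · nlinarith [sq_nonneg t, sq_nonneg a, not_lt.1 h4])
    have h3 : 0 ≤ (ball x₀ (R * t)).indicator (fun _ : Ed d => e) x :=
      Set.indicator_nonneg (fun _ _ => he0) x
    linarith

theorem pt_core (hd : 2 ≤ d) : ∃ β : ℝ, 1 ≤ β ∧ ∀ θ : ℝ, 0 < θ → ∃ q : ℝ, 0 < q ∧
    q < ((d : ℝ) - 1) / d ∧ ∃ C : ℝ, 0 < C ∧ ∀ (F : Fin (d + 1) → EE d → ℝ) (f : Ed d → EE d),
      Nice F f → ∀ (x₀ y : Ed d) (a m : ℝ), 0 < a → dist y x₀ < a →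
      (∀ (t : ℝ) (z : Ed d), 0 < t → dist z x₀ < β * t → ‖vec F (pt t z)‖ ≤ m) →
      ‖vec F (pt a y)‖ ^ q ≤ C * (a * ∫ x, ps a x₀ (pt 0 x) * ‖f x‖ ^ q) + θ * m ^ q := by
  obtain ⟨b, k, γ, ε₀, hb, hk, hγ, hγ1, hε₀, hε₀1, hcal⟩ := calib_small hd
  obtain ⟨C, hC, hcone⟩ := mxpt_cone (d := d)
  obtain ⟨R, hRd⟩ : ∃ R, R = ((d : ℝ) + 1) * (3 * k + 4 + 2) / γ := ⟨_, rfl⟩
  have hR : ((d : ℝ) + 1) * (3 * k + 4 + 2) = γ * R := by
    rw [hRd]
    field_simp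
  have hd0 : (0 : ℝ) ≤ d := Nat.cast_nonneg d
  have hR3 : 3 ≤ R := by
    rw [hRd, le_div_iff₀ hγ]
    nlinarith [mul_nonneg hd0 hk]
  have hR0 : 0 < R := by linarith
  refine ⟨2 * R + 1, by linarith, fun θ hθ => ?_⟩
  obtain ⟨τ, hτ, hτ1, hτθ⟩ : ∃ τ : ℝ, 0 < τ ∧ τ ≤ 1 ∧ τ ≤ θ / 2 :=
    ⟨min 1 (θ / 2), by positivity, min_le_left _ _, min_le_right _ _⟩
  obtain ⟨η, hη, hη1, hητ⟩ : ∃ η : ℝ, 0 < η ∧ η ≤ 1 ∧ 2 * (d + 1) * η * C ≤ τ ^ 4 := by
    refine ⟨min 1 (τ ^ 4 / (2 * (d + 1) * C)), by positivity, min_le_left _ _, ?_⟩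
    have h := min_le_right 1 (τ ^ 4 / (2 * (d + 1) * C))
    rw [le_div_iff₀ (by positivity)] at h
    linarith
  obtain ⟨c₀, hc₀⟩ : ∃ c₀ : ℝ, c₀ = 1 / 3 ^ (d + 5) := ⟨_, rfl⟩
  have hc₀0 : 0 < c₀ := by rw [hc₀]; positivity
  obtain ⟨H, hH⟩ : ∃ H, H = γ * R * (C + 1) * (1 + R) ^ 2 * R ^ d / (c₀ * η ^ (d + 1)) := ⟨_, rfl⟩
  have hH0 : 0 < H := by rw [hH]; positivity
  obtain ⟨σ, hσ, hσ1, hσθ⟩ : ∃ σ : ℝ, 0 < σ ∧ σ ≤ 1 ∧ σ * H ≤ θ / 2 :=
    ⟨min 1 (θ / 2 / H), by positivity, min_le_left _ _, (le_div_iff₀ hH0).1 (min_le_right _ _)⟩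
  obtain ⟨ε, hε, hεε, hεσ⟩ : ∃ ε : ℝ, 0 < ε ∧ ε ≤ ε₀ ∧ ε ≤ σ ^ 8 :=
    ⟨min ε₀ (σ ^ 8), by positivity, min_le_left _ _, min_le_right _ _⟩
  obtain ⟨q, hq4, hqd, hcq⟩ := hcal ε hε hεε
  have hq : 0 < q := by linarith
  have hq1 : q ≤ 1 := hqd.le.trans (by
    have : (2 : ℝ) ≤ d := by exact_mod_cast hd
    rw [div_le_one (by linarith)]
    linarith)
  obtain ⟨vb, hvb⟩ : ∃ vb, vb = volume.real (ball (0 : Ed d) 1) := ⟨_, rfl⟩
  have hvb0 : 0 < vb := by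
    rw [hvb]
    exact ENNReal.toReal_pos (measure_ball_pos _ _ one_pos).ne' measure_ball_lt_top.ne
  refine ⟨q, hq, hqd, (1 + b) / (c₀ * η ^ (d + 1) * vb), by positivity,
    fun F f hF x₀ y a m ha hy hm => ?_⟩
  have hm0 : 0 ≤ m := (norm_nonneg _).trans (hm 1 x₀ one_pos (by rw [dist_self]; positivity))
  have hJ := hcone F hF.cr.har R m x₀ hR0.le hm
  have hM : 0 ≤ C * m := by positivity
  refine le_of_forall_pos_le_add fun e he => ?_
  obtain ⟨δ, hδ, hδe⟩ : ∃ δ : ℝ, 0 < δ ∧ δ ^ q = e :=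
    ⟨e ^ q⁻¹, by positivity, Real.rpow_inv_rpow he.le hq.ne'⟩
  obtain ⟨G, hG⟩ : ∃ G, G = ‖vec F (pt a y)‖ ^ q - τ * m ^ q - e := ⟨_, rfl⟩
  have hηa : 0 < η * a := mul_pos hη ha
  have key := slice_ineq (k := k) (c := 4) (x₀ := x₀) hF hε.le (hεε.trans hε₀1) hb hδ ha hq hq1
    (E := γ * R * (ε ^ (q / 2) * (C * m) ^ q) * (1 + R) ^ 2 * R ^ d * vb)
    (g := c₀ / a ^ (d + 2) * G * ((η * a) ^ d * vb)) ha (le_add_of_nonneg_right hηa.le)
    (fun t ht => by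
      have h := mxpt_int (y := y) (g := 0) hF hε hb hk (by norm_num) hδ ha hq hq1 hγ hcq hR hR0 hM
        hJ ht one_pos fun x _ => by
          have h2 := rr_pos ha x₀ (pt t x)
          refine mul_nonneg ?_ (VV_nonneg hε.le hb hδ hq.le _ _)
          rw [ch, pt_zero]
          positivity
      rwa [zero_mul, zero_sub, ← hvb] at h)
    (fun t ht => by
      rw [hvb]
      refine mxpt_int (y := y) hF hε hb hk (by norm_num) hδ ha hq hq1 hγ hcq hR hR0 hM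
        hJ (ha.trans_le ht.1) hηa fun x hx => ?_
      have h1 := mxpt_near hF.cr.har ha hη hη1 hR3 hy hJ ht hx
      have h2 := mxpt_ch (x₀ := x₀) (x := x) (t := t) ha ⟨ht.1, by nlinarith [ht.2]⟩ (by
        have h3 := dist_triangle x y x₀
        have h4 := mem_ball.1 hx
        nlinarith)
      rw [← hc₀] at h2
      have h3 := VV_ge hε.le hb hq.le δ (ev 0) (jet F (pt t x))
      have h4 := (Real.rpow_le_rpow (norm_nonneg _) h1 hq.le).trans
        (Real.rpow_add_le_add_rpow (norm_nonneg _) (by positivity) hq.le hq1)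
      have h5 : (2 * ((d : ℝ) + 1) * η * (C * m)) ^ q ≤ τ * m ^ q := by
        rw [← mul_assoc, Real.mul_rpow (by positivity) hm0]
        exact mul_le_mul_of_nonneg_right
          (mxpt_small 4 (by positivity) hητ hτ hτ1 hq.le (by push_cast; linarith)) (by positivity)
      have h6 : G ≤ VV ε b δ q (ev 0) (jet F (pt t x)) := by
        have e1 : (jet F (pt t x)).1 = vec F (pt t x) := rfl
        rw [e1, hδe] at h3
        linarith
      exact (mul_le_mul_of_nonneg_left h6 (by positivity)).trans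
        (mul_le_mul_of_nonneg_right h2 (VV_nonneg hε.le hb hδ hq.le _ _)))
  obtain ⟨I, hI⟩ : ∃ I, I = ∫ x, ps a x₀ (pt 0 x) * ‖f x‖ ^ q := ⟨_, rfl⟩
  rw [← hI] at key ⊢
  have h1 : ε ^ (q / 2) ≤ σ :=
    mxpt_small 8 hε.le hεσ hσ hσ1 (by positivity) (by push_cast; linarith)
  have h2 : C ^ q ≤ C + 1 := by
    rcases le_total C 1 with h | h
    · linarith [Real.rpow_le_one hC.le h hq.le]
    · linarith [Real.rpow_le_self_of_one_le h hq1]
  have h3 : ε ^ (q / 2) * (C * m) ^ q ≤ σ * ((C + 1) * m ^ q) := by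
    rw [Real.mul_rpow hC.le hm0]
    gcongr
  have h4 : G ≤ (1 + b) / (c₀ * η ^ (d + 1) * vb) * (a * I) + σ * H * m ^ q := by
    have hP : 0 < c₀ * η ^ (d + 1) * vb / a := by positivity
    refine le_of_mul_le_mul_left ?_ hP
    calc c₀ * η ^ (d + 1) * vb / a * G
        = c₀ / a ^ (d + 2) * G * ((η * a) ^ d * vb) * (a + η * a - a) := by
          rw [mul_pow]
          field_simp
          ring
      _ ≤ (1 + b) * I + γ * R * (σ * ((C + 1) * m ^ q)) * (1 + R) ^ 2 * R ^ d * vb / a := by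
          refine key.trans ?_
          gcongr
      _ = _ := by
          rw [hH]
          field_simp
  have h5 : 0 ≤ m ^ q := by positivity
  linarith [mul_le_mul_of_nonneg_right hτθ h5, mul_le_mul_of_nonneg_right hσθ h5]

end Pool.Agent.Lib.MP_fc0ae9_an.St
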