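import Pool.Agent.Lib.MP_fc0ae9_an.MxDefs

/-! The covering lemma, the layer cake formula and the change of aperture. -/

namespace Pool.Agent.Lib.MP_fc0ae9_an.St

open scoped InnerProductSpace ContDiff Topology ENNReal
open MeasureTheory Filter Metric Pool.Agent.Results.MP_fc0ae9_an.PositiveThreshold

variable {d : ℕ}

theorem mxvit_ball_mul (x : Ed d) {r : ℝ} (hr : 0 < r) (s : ℝ) :
    volume (ball x (r * s)) = ENNReal.ofReal (r ^ d) * volume (ball x s) := by
  rw [Measure.addHaar_ball_mul_of_pos volume x hr, Measure.addHaar_ball_center volume x s,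
    finrank_euclideanSpace_fin]

theorem mxvit_radius (hd : 1 ≤ d) {M : ℝ≥0∞} (hM : M ≠ ⊤) :
    ∃ R : ℝ, ∀ (x : Ed d) (r : ℝ), 0 < r → volume (ball x r) ≤ M → r ≤ R := by
  have hV : 0 < (volume (ball (0 : Ed d) 1)).toReal :=
    ENNReal.toReal_pos (measure_ball_pos volume _ one_pos).ne' measure_ball_lt_top.ne
  refine ⟨max 1 (M.toReal / (volume (ball (0 : Ed d) 1)).toReal), fun x r hr h => ?_⟩
  rcases le_total r 1 with h1 | h1
  · exact le_max_of_le_left h1
  refine le_max_of_le_right ?_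
  rw [Measure.addHaar_ball_of_pos volume x hr, finrank_euclideanSpace_fin] at h
  have h2 := ENNReal.toReal_mono hM h
  rw [ENNReal.toReal_mul, ENNReal.toReal_ofReal (pow_pos hr d).le] at h2
  rw [le_div_iff₀ hV]
  exact (mul_le_mul_of_nonneg_right (le_self_pow₀ h1 (by omega)) hV.le).trans h2

theorem mxvit_slice (y : ℝ≥0∞) :
    (volume.restrict (Set.Ioi (0 : ℝ))) {t : ℝ | ENNReal.ofReal t < y} = y := by
  rw [Measure.restrict_apply (measurableSet_lt ENNReal.measurable_ofReal measurable_const)]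
  by_cases hy : y = ⊤
  · subst hy
    simp
  · have : {t : ℝ | ENNReal.ofReal t < y} ∩ Set.Ioi 0 = Set.Ioo 0 y.toReal := by
      ext t
      simp only [Set.mem_inter_iff, Set.mem_ofPred_eq, Set.mem_Ioi, Set.mem_Ioo]
      constructor
      · rintro ⟨h1, h2⟩
        exact ⟨h2, (ENNReal.ofReal_lt_iff_lt_toReal h2.le hy).1 h1⟩
      · rintro ⟨h2, h1⟩
        exact ⟨(ENNReal.ofReal_lt_iff_lt_toReal h2.le hy).2 h1, h2⟩
    rw [this, Real.volume_Ioo, sub_zero, ENNReal.ofReal_toReal hy]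

theorem vitali_bound (hd : 1 ≤ d) (T : Set (Ed d × ℝ)) (hT : ∀ p ∈ T, 0 < p.2)
    (ν : Measure (Ed d)) {c : ℝ≥0∞} (hc : c ≠ ⊤)
    (h : ∀ p ∈ T, volume (ball p.1 p.2) ≤ c * ν (ball p.1 p.2)) :
    volume (⋃ p ∈ T, ball p.1 p.2) ≤ 5 ^ d * c * ν Set.univ := by
  rcases T.eq_empty_or_nonempty with rfl | ⟨p₀, hp₀⟩
  · simp
  have hc0 : c ≠ 0 := by
    rintro rfl
    have h1 := h p₀ hp₀
    rw [zero_mul] at h1
    exact (measure_ball_pos volume p₀.1 (hT p₀ hp₀)).not_ge h1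
  by_cases hν : ν Set.univ = ⊤
  · rw [hν, ENNReal.mul_top (mul_ne_zero (pow_ne_zero _ (by norm_num)) hc0)]
    exact le_top
  have hM : c * ν Set.univ ≠ ⊤ := ENNReal.mul_ne_top hc hν
  obtain ⟨R, hR⟩ := mxvit_radius (d := d) hd hM
  obtain ⟨u, huT, hdis, hcov⟩ := Vitali.exists_disjoint_subfamily_covering_enlargement_ball T
    (fun p => p.1) (fun p => p.2) R (fun p hp => hR p.1 p.2 (hT p hp)
      ((h p hp).trans (mul_le_mul_right (measure_mono (Set.subset_univ _)) c))) 5 (by norm_num)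
  have hcount : u.Countable := hdis.countable_of_isOpen (fun _ _ => isOpen_ball)
    fun p hp => nonempty_ball.2 (hT p (huT hp))
  have hsub : (⋃ p ∈ T, ball p.1 p.2) ⊆ ⋃ p ∈ u, ball p.1 (5 * p.2) := by
    refine Set.iUnion₂_subset fun p hp => ?_
    obtain ⟨q, hq, hpq⟩ := hcov p hp
    exact hpq.trans (Set.subset_biUnion_of_mem (u := fun p : Ed d × ℝ => ball p.1 (5 * p.2)) hq)
  calc volume (⋃ p ∈ T, ball p.1 p.2) ≤ volume (⋃ p ∈ u, ball p.1 (5 * p.2)) := measure_mono hsub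
    _ ≤ ∑' p : u, volume (ball p.1.1 (5 * p.1.2)) := measure_biUnion_le volume hcount _
    _ ≤ ∑' p : u, 5 ^ d * c * ν (ball p.1.1 p.1.2) := by
        refine ENNReal.tsum_le_tsum fun p => ?_
        rw [mxvit_ball_mul p.1.1 (by norm_num : (0 : ℝ) < 5), mul_assoc,
          ENNReal.ofReal_pow (by norm_num), ENNReal.ofReal_ofNat]
        exact mul_le_mul_right (h p.1 (huT p.2)) _
    _ = 5 ^ d * c * ν (⋃ p ∈ u, ball p.1 p.2) := by
        rw [ENNReal.tsum_mul_left, measure_biUnion hcount hdis fun _ _ => measurableSet_ball]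
    _ ≤ 5 ^ d * c * ν Set.univ := mul_le_mul_right (measure_mono (Set.subset_univ _)) _

theorem layer {Ω : Type} [MeasurableSpace Ω] (μ : Measure Ω) [SFinite μ] {f : Ω → ℝ≥0∞}
    (hf : Measurable f) :
    ∫⁻ x, f x ∂μ = ∫⁻ t in Set.Ioi (0 : ℝ), μ {x | ENNReal.ofReal t < f x} := by
  have hS : MeasurableSet {q : Ω × ℝ | ENNReal.ofReal q.2 < f q.1} :=
    measurableSet_lt (ENNReal.measurable_ofReal.comp measurable_snd) (hf.comp measurable_fst)
  have h1 : ∀ x, f x = ∫⁻ t in Set.Ioi (0 : ℝ),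
      {q : Ω × ℝ | ENNReal.ofReal q.2 < f q.1}.indicator 1 (x, t) := by
    intro x
    have h2 : (fun t : ℝ => {q : Ω × ℝ | ENNReal.ofReal q.2 < f q.1}.indicator
        (1 : Ω × ℝ → ℝ≥0∞) (x, t)) = {t : ℝ | ENNReal.ofReal t < f x}.indicator 1 := by
      funext t
      simp only [Set.indicator, Set.mem_ofPred_eq, Pi.one_apply]
    rw [h2, lintegral_indicator_one
      (measurableSet_lt ENNReal.measurable_ofReal measurable_const), mxvit_slice]
  have h3 : ∀ t : ℝ, μ {x | ENNReal.ofReal t < f x} =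
      ∫⁻ x, {q : Ω × ℝ | ENNReal.ofReal q.2 < f q.1}.indicator 1 (x, t) ∂μ := by
    intro t
    have h2 : (fun x : Ω => {q : Ω × ℝ | ENNReal.ofReal q.2 < f q.1}.indicator
        (1 : Ω × ℝ → ℝ≥0∞) (x, t)) = {x : Ω | ENNReal.ofReal t < f x}.indicator 1 := by
      funext x
      simp only [Set.indicator, Set.mem_ofPred_eq, Pi.one_apply]
    rw [h2, lintegral_indicator_one (measurableSet_lt measurable_const hf)]
  rw [lintegral_congr h1, lintegral_congr h3]
  exact lintegral_lintegral_swap (f := fun x t =>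
    {q : Ω × ℝ | ENNReal.ofReal q.2 < f q.1}.indicator (1 : Ω × ℝ → ℝ≥0∞) (x, t))
    (measurable_one.indicator hS).aemeasurable

theorem lint_le_of_meas {Ω : Type} [MeasurableSpace Ω] (μ : Measure Ω) [SFinite μ]
    {f g : Ω → ℝ≥0∞} (hf : Measurable f) (hg : Measurable g) {C : ℝ≥0∞} (hC : C ≠ ⊤)
    (h : ∀ t : ℝ, 0 < t → μ {x | ENNReal.ofReal t < f x} ≤ C * μ {x | ENNReal.ofReal t < g x}) :
    ∫⁻ x, f x ∂μ ≤ C * ∫⁻ x, g x ∂μ := by
  rw [layer μ hf, layer μ hg, ← lintegral_const_mul' _ _ hC]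
  exact setLIntegral_mono' measurableSet_Ioi fun t ht => h t ht

theorem aperture (hd : 1 ≤ d) {α β : ℝ} (hα : 0 < α) (hβ : 0 < β) : ∃ C : ℝ≥0∞, C ≠ ⊤ ∧
    ∀ (u : EE d → ℝ) (lam : ℝ≥0∞),
      volume {x | lam < ntMax β u x} ≤ C * volume {x | lam < ntMax α u x} := by
  have hγ : 0 < max α β / α := div_pos (lt_max_of_lt_left hα) hα
  refine ⟨5 ^ d * ENNReal.ofReal ((max α β / α) ^ d),
    ENNReal.mul_ne_top (ENNReal.pow_ne_top (by norm_num)) ENNReal.ofReal_ne_top, fun u lam => ?_⟩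
  have hmeas : MeasurableSet {x | lam < ntMax α u x} :=
    measurableSet_lt measurable_const (measurable_ntMax α u)
  have key := vitali_bound hd
    {p : Ed d × ℝ | ∃ t : ℝ, 0 < t ∧ lam < ‖u (pt t p.1)‖ₑ ∧ p.2 = max α β * t}
    (by
      rintro p ⟨t, ht, -, hp⟩
      rw [hp]
      exact mul_pos (lt_max_of_lt_left hα) ht)
    (volume.restrict {x | lam < ntMax α u x}) (c := ENNReal.ofReal ((max α β / α) ^ d))
    ENNReal.ofReal_ne_top
    (by
      rintro p ⟨t, ht, hl, hp⟩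
      have e : max α β * t = max α β / α * (α * t) := by field_simp
      rw [hp, Measure.restrict_apply measurableSet_ball]
      conv_lhs => rw [e, mxvit_ball_mul p.1 hγ]
      refine mul_le_mul_right (measure_mono fun x hx => Set.mem_inter ?_ ?_) _
      · exact ball_subset_ball (mul_le_mul_of_nonneg_right (le_max_left _ _) ht.le) hx
      · change lam < ntMax α u x
        refine hl.trans_le (le_iSup_of_le t (le_iSup_of_le p.1 (le_iSup_of_le ⟨ht, ?_⟩ le_rfl)))
        rwa [dist_comm])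
  rw [Measure.restrict_apply_univ] at key
  refine le_trans (measure_mono fun x hx => ?_) key
  simp only [ntMax, Set.mem_ofPred_eq, lt_iSup_iff] at hx
  obtain ⟨t, y, ⟨ht, hxy⟩, hl⟩ := hx
  refine Set.mem_biUnion (x := (y, max α β * t)) ⟨t, ht, hl, rfl⟩ ?_
  rw [mem_ball, dist_comm]
  exact hxy.trans_le (mul_le_mul_of_nonneg_right (le_max_right _ _) ht.le)

/-- change of aperture for truncated powers -/
theorem aperture_int (hd : 1 ≤ d) {α β : ℝ} (hα : 0 < α) (hβ : 0 < β) : ∃ C : ℝ≥0∞, C ≠ ⊤ ∧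
    ∀ (u : EE d → ℝ) (p : ℝ) (τ : ℝ≥0∞), 0 < p →
      ∫⁻ x, (ntMax β u x ^ p - τ) ≤ C * ∫⁻ x, (ntMax α u x ^ p - τ) := by
  obtain ⟨C, hC, h⟩ := aperture hd hα hβ
  refine ⟨C, hC, fun u p τ hp => ?_⟩
  refine lint_le_of_meas volume (((measurable_ntMax β u).pow_const p).sub_const τ)
    (((measurable_ntMax α u).pow_const p).sub_const τ) hC fun t _ => ?_
  simp only [lt_tsub_iff_right, ← ENNReal.rpow_inv_lt_iff hp]
  exact h u _

end Pool.Agent.Lib.MP_fc0ae9_an.St
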