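import Pool.Agent.Lib.MP_fc0ae9_an.MxMain

/- The characterisation of `H^p(ℝ^d)` by first order Riesz transforms holds slightly below the
exponent `(d-1)/d` of Stein and Weiss. -/

namespace Pool.Agent.Lib.MP_fc0ae9_an.OldRiesz

open MeasureTheory Filter
open scoped Topology ENNReal NNReal
open Pool.Agent.Results.MP_fc0ae9_an.PositiveThreshold Pool.Agent.Lib.MP_fc0ae9_an.St

theorem result (d : ℕ) (hd : 2 ≤ d) : ∃ p₁ : ℝ, 0 < p₁ ∧ p₁ < ((d : ℝ) - 1) / d ∧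
    ∀ α : ℝ, 0 < α → ∀ p : ℝ, p₁ ≤ p → ∃ C : ℝ≥0,
      ∀ (u : EuclideanSpace ℝ (Fin (d + 1)) → ℝ)
        (v : Fin d → EuclideanSpace ℝ (Fin (d + 1)) → ℝ),
        InnerProductSpace.HarmonicOnNhd u (halfSpace d) →
        (∀ j, InnerProductSpace.HarmonicOnNhd (v j) (halfSpace d)) →
        (∀ X ∈ halfSpace d, (∀ j, pd 0 (v j) X = pd j.succ u X) ∧
          (∀ j k, pd j.succ (v k) X = pd k.succ (v j) X) ∧
          pd 0 u X + ∑ j, pd j.succ (v j) X = 0) →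
        (⨆ (t : ℝ) (_ : 0 < t), ∫⁻ x, (‖u (pt t x)‖ₑ ^ p + ∑ j, ‖v j (pt t x)‖ₑ ^ p)) < ∞ →
        ∫⁻ x, (ntMax α u x ^ p + ∑ j, ntMax α (v j) x ^ p) ≤
          C * liminf (fun t : ℝ => ∫⁻ x, (‖u (pt t x)‖ₑ ^ p + ∑ j, ‖v j (pt t x)‖ₑ ^ p))
            (𝓝[>] 0) := by
  obtain ⟨p₁, h0, h1, h⟩ := max_main hd
  refine ⟨p₁, h0, h1, fun α hα p hp => ?_⟩
  obtain ⟨C, hC, h⟩ := h α hα p hp
  refine ⟨C.toNNReal, fun u v hu hv hcr hs => ?_⟩
  have hF : CR (Fin.cons u v) := by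
    refine ⟨fun i => Fin.cases (har_of_harmonic hu) (fun j => har_of_harmonic (hv j)) i, ?_, ?_⟩
    · intro X hX i j
      obtain ⟨h2, h3, -⟩ := hcr X hX
      refine Fin.cases ?_ (fun i => ?_) i <;> refine Fin.cases ?_ (fun j => ?_) j
      · rfl
      · exact h2 j
      · exact (h2 i).symm
      · exact h3 i j
    · intro X hX
      rw [Fin.sum_univ_succ]
      exact (hcr X hX).2.2
  have h4 := h _ hF _ hs.ne fun t ht => by
    simp only [Fin.sum_univ_succ, Fin.cons_zero, Fin.cons_succ]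
    exact le_iSup₂_of_le t ht le_rfl
  simp only [Fin.sum_univ_succ, Fin.cons_zero, Fin.cons_succ] at h4
  rwa [ENNReal.coe_toNNReal hC]

/-- Conjugate harmonic systems with bounded slice integrals lie in `H^p`. -/
theorem characterisation (d : ℕ) (hd : 2 ≤ d) : ∃ p₁ : ℝ, 0 < p₁ ∧ p₁ < ((d : ℝ) - 1) / d ∧
    ∀ α : ℝ, 0 < α → ∀ p : ℝ, p₁ ≤ p →
      ∀ (u : EuclideanSpace ℝ (Fin (d + 1)) → ℝ)
        (v : Fin d → EuclideanSpace ℝ (Fin (d + 1)) → ℝ),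
        InnerProductSpace.HarmonicOnNhd u (halfSpace d) →
        (∀ j, InnerProductSpace.HarmonicOnNhd (v j) (halfSpace d)) →
        (∀ X ∈ halfSpace d, (∀ j, pd 0 (v j) X = pd j.succ u X) ∧
          (∀ j k, pd j.succ (v k) X = pd k.succ (v j) X) ∧
          pd 0 u X + ∑ j, pd j.succ (v j) X = 0) →
        ((⨆ (t : ℝ) (_ : 0 < t), ∫⁻ x, (‖u (pt t x)‖ₑ ^ p + ∑ j, ‖v j (pt t x)‖ₑ ^ p)) < ∞ ↔
          MemHp α p u ∧ AreRieszTransforms α p u v) := by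
  obtain ⟨p₁, h0, h1, h⟩ := result d hd
  refine ⟨p₁, h0, h1, fun α hα p hp u v hu hv hcr => ⟨fun hs => ?_, fun hs => ?_⟩⟩
  · obtain ⟨C, h⟩ := h α hα p hp
    have h2 := (h u v hu hv hcr hs).trans_lt (ENNReal.mul_lt_top ENNReal.coe_lt_top
      (lt_of_le_of_lt (liminf_le_of_frequently_le' (Eventually.frequently
        (eventually_nhdsWithin_of_forall fun t ht => le_iSup₂_of_le t ht le_rfl))) hs))
    exact ⟨⟨hu, (lintegral_mono fun x => le_self_add).trans_lt h2⟩, fun j => ⟨hv j,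
      (lintegral_mono fun x => (Finset.single_le_sum (f := fun j => ntMax α (v j) x ^ p)
        (fun _ _ => zero_le) (Finset.mem_univ j)).trans le_add_self).trans_lt h2⟩, hcr⟩
  · have hp0 : 0 ≤ p := h0.le.trans hp
    refine lt_of_le_of_lt (b := ∫⁻ x, (ntMax α u x ^ p + ∑ j, ntMax α (v j) x ^ p))
      (iSup₂_le fun t ht => lintegral_mono fun x => add_le_add
        (ENNReal.rpow_le_rpow (le_ntMax hα u ht x) hp0)
        (Finset.sum_le_sum fun j _ => ENNReal.rpow_le_rpow (le_ntMax hα _ ht x) hp0)) ?_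
    rw [lintegral_add_left ((measurable_ntMax α u).pow_const p),
      lintegral_finsetSum _ fun j _ => (measurable_ntMax α (v j)).pow_const p]
    exact ENNReal.add_lt_top.2 ⟨hs.1.2, ENNReal.sum_lt_top.2 fun j _ => (hs.2.1 j).2⟩

/-- The boundary value map `T` is bounded below. -/
theorem embedding (d : ℕ) (hd : 2 ≤ d) : ∃ p₁ : ℝ, 0 < p₁ ∧ p₁ < ((d : ℝ) - 1) / d ∧
    ∀ α : ℝ, 0 < α → ∀ p : ℝ, p₁ ≤ p → ∃ C : ℝ≥0,
      ∀ (u : EuclideanSpace ℝ (Fin (d + 1)) → ℝ)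
        (v : Fin d → EuclideanSpace ℝ (Fin (d + 1)) → ℝ) (g : EuclideanSpace ℝ (Fin d) → ℝ)
        (f : Fin d → EuclideanSpace ℝ (Fin d) → ℝ),
        MemHp α p u → AreRieszTransforms α p u v →
        (∀ᵐ x, Tendsto (fun t => u (pt t x)) (𝓝[>] 0) (𝓝 (g x))) →
        (∀ j, ∀ᵐ x, Tendsto (fun t => v j (pt t x)) (𝓝[>] 0) (𝓝 (f j x))) →
        ∫⁻ x, ntMax α u x ^ p ≤ C * ∫⁻ x, (‖g x‖ₑ ^ p + ∑ j, ‖f j x‖ₑ ^ p) := by
  obtain ⟨p₁, h0, h1, h⟩ := result d hd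
  refine ⟨p₁, h0, h1, fun α hα p hp => ?_⟩
  obtain ⟨C, h⟩ := h α hα p hp
  refine ⟨C, fun u v g f hu hv hg hf => ?_⟩
  have hp0 : 0 ≤ p := h0.le.trans hp
  have hb : ∀ t : ℝ, 0 < t → ∀ x, ‖u (pt t x)‖ₑ ^ p + ∑ j, ‖v j (pt t x)‖ₑ ^ p ≤
      ntMax α u x ^ p + ∑ j, ntMax α (v j) x ^ p := fun t ht x => add_le_add
    (ENNReal.rpow_le_rpow (le_ntMax hα u ht x) hp0)
    (Finset.sum_le_sum fun j _ => ENNReal.rpow_le_rpow (le_ntMax hα _ ht x) hp0)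
  have hfin : ∫⁻ x, (ntMax α u x ^ p + ∑ j, ntMax α (v j) x ^ p) < ∞ := by
    rw [lintegral_add_left ((measurable_ntMax α u).pow_const p),
      lintegral_finsetSum _ fun j _ => (measurable_ntMax α (v j)).pow_const p]
    exact ENNReal.add_lt_top.2 ⟨hu.2, ENNReal.sum_lt_top.2 fun j _ => (hv.1 j).2⟩
  have hm : ∀ {w : EuclideanSpace ℝ (Fin (d + 1)) → ℝ}, MemHp α p w → ∀ {t : ℝ}, 0 < t →
      Measurable fun x => ‖w (pt t x)‖ₑ ^ p := fun hw t ht =>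
    (sS_cont (fun X hX => (hw.1 X hX).1.continuousAt) ht).measurable.enorm.pow_const p
  have hlim := tendsto_lintegral_filter_of_dominated_convergence (l := 𝓝[>] (0 : ℝ))
    (μ := volume) (F := fun t x => ‖u (pt t x)‖ₑ ^ p + ∑ j, ‖v j (pt t x)‖ₑ ^ p)
    (f := fun x => ‖g x‖ₑ ^ p + ∑ j, ‖f j x‖ₑ ^ p) _
    (eventually_nhdsWithin_of_forall fun t ht =>
      (hm hu ht).add (Finset.measurable_sum _ fun j _ => hm (hv.1 j) ht))
    (eventually_nhdsWithin_of_forall fun t ht => Eventually.of_forall (hb t ht)) hfin.ne (by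
      filter_upwards [hg, ae_all_iff.2 hf] with x h2 h3
      exact ((ENNReal.continuous_rpow_const.tendsto _).comp h2.enorm).add
        (tendsto_finsetSum _ fun j _ =>
          (ENNReal.continuous_rpow_const.tendsto _).comp (h3 j).enorm))
  have h4 := h u v hu.1 (fun j => (hv.1 j).1) hv.2
    (lt_of_le_of_lt (iSup₂_le fun t ht => lintegral_mono (hb t ht)) hfin)
  rw [hlim.liminf_eq] at h4
  exact (lintegral_mono fun x => le_self_add).trans h4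

/-- The boundary value map `T` is injective. -/
theorem injective (d : ℕ) (hd : 2 ≤ d) : ∃ p₁ : ℝ, 0 < p₁ ∧ p₁ < ((d : ℝ) - 1) / d ∧
    ∀ α : ℝ, 0 < α → ∀ p : ℝ, p₁ ≤ p →
      ∀ (u : EuclideanSpace ℝ (Fin (d + 1)) → ℝ)
        (v : Fin d → EuclideanSpace ℝ (Fin (d + 1)) → ℝ),
        MemHp α p u → AreRieszTransforms α p u v →
        (∀ᵐ x, Tendsto (fun t => u (pt t x)) (𝓝[>] 0) (𝓝 0)) →
        (∀ j, ∀ᵐ x, Tendsto (fun t => v j (pt t x)) (𝓝[>] 0) (𝓝 0)) →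
        ∀ X ∈ halfSpace d, u X = 0 := by
  obtain ⟨p₁, h0, h1, h⟩ := embedding d hd
  refine ⟨p₁, h0, h1, fun α hα p hp u v hu hv hu0 hv0 X hX => ?_⟩
  obtain ⟨C, h⟩ := h α hα p hp
  have hp0 : 0 < p := h0.trans_le hp
  have hX0 : 0 < X 0 := hX
  have h2 := h u v (fun _ => 0) (fun _ _ => 0) hu hv hu0 hv0
  simp only [enorm_zero, ENNReal.zero_rpow_of_pos hp0, Finset.sum_const_zero, add_zero,
    lintegral_zero, mul_zero, nonpos_iff_eq_zero] at h2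
  rw [lintegral_eq_zero_iff ((measurable_ntMax α u).pow_const p)] at h2
  obtain ⟨y, hy⟩ := exists_pt X
  obtain ⟨x, hx, hx0⟩ := Measure.exists_mem_of_measure_ne_zero_of_ae
    (Metric.measure_ball_pos volume y (mul_pos hα hX0)).ne' (ae_restrict_of_ae h2)
  have h3 := p1_le u hX0 (Metric.mem_ball'.1 hx)
  rw [← hy, (ENNReal.rpow_eq_zero_iff_of_pos hp0).1 hx0] at h3
  exact enorm_eq_zero.1 (nonpos_iff_eq_zero.1 h3)

end Pool.Agent.Lib.MP_fc0ae9_an.OldRiesz
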