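import Mathlib

/- A nonnegative `C^2` subharmonic function on the half-space `t > 0`, dominated on vertical lines
by an integrable function and with boundary values zero a.e., vanishes. -/

namespace Pool.Agent.Lib.MP_fc0ae9_an

open MeasureTheory Filter Set Metric
open scoped Topology

variable {d : ℕ}

/-- directional derivative -/
noncomputable def dd {X : Type*} [NormedAddCommGroup X] [NormedSpace ℝ X] (f : X → ℝ) (v : X) :
    X → ℝ := fun q => fderiv ℝ f q v

lemma dd_contDiffAt {X : Type*} [NormedAddCommGroup X] [NormedSpace ℝ X] {f : X → ℝ} {q : X}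
    {m n : WithTop ℕ∞} (h : ContDiffAt ℝ n f q) (hmn : m + 1 ≤ n) (v : X) :
    ContDiffAt ℝ m (dd f v) q :=
  (h.fderiv_right hmn).clm_apply contDiffAt_const

lemma slice_cont {H : ℝ × EuclideanSpace ℝ (Fin d) → ℝ} {n : WithTop ℕ∞}
    (hH : ∀ q : ℝ × EuclideanSpace ℝ (Fin d), 0 < q.1 → ContDiffAt ℝ n H q) {t : ℝ} (ht : 0 < t) :
    ContDiff ℝ n (fun x => H (t, x)) := by
  rw [contDiff_iff_contDiffAt]
  intro x
  exact (hH (t, x) ht).comp x (contDiffAt_const.prodMk contDiffAt_id)

lemma slice_dd {H : ℝ × EuclideanSpace ℝ (Fin d) → ℝ}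
    (hH : ∀ q : ℝ × EuclideanSpace ℝ (Fin d), 0 < q.1 → ContDiffAt ℝ 1 H q) {t : ℝ} (ht : 0 < t)
    (v : EuclideanSpace ℝ (Fin d)) :
    dd (fun x => H (t, x)) v = fun x => dd H (0, v) (t, x) := by
  funext x
  have h1 := ((hH (t, x) ht).differentiableAt one_ne_zero).hasFDerivAt
  have h2 := h1.comp x (hasFDerivAt_prodMk_right (𝕜 := ℝ) t x)
  have h3 : fderiv ℝ (fun x => H (t, x)) x = _ := h2.fderiv
  simp [dd, h3]

lemma hasDerivAt_slice_integral {H : ℝ × EuclideanSpace ℝ (Fin d) → ℝ}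
    (hH : ∀ q : ℝ × EuclideanSpace ℝ (Fin d), 0 < q.1 → ContDiffAt ℝ 1 H q)
    {η : EuclideanSpace ℝ (Fin d) → ℝ} (hη : Continuous η) (hc : HasCompactSupport η)
    {t : ℝ} (ht : 0 < t) :
    HasDerivAt (fun s => ∫ x, H (s, x) * η x) (∫ x, dd H (1, 0) (t, x) * η x) t := by
  have hD : ∀ q : ℝ × EuclideanSpace ℝ (Fin d), 0 < q.1 → ContDiffAt ℝ 0 (dd H (1, 0)) q :=
    fun q hq => dd_contDiffAt (hH q hq) (by simp) _
  have hK : IsCompact (Icc (t / 2) (2 * t) ×ˢ tsupport η) := isCompact_Icc.prod hc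
  obtain ⟨C, hC⟩ := hK.exists_bound_of_continuousOn (f := dd H (1, 0)) (fun q hq =>
    (hD q (by have := hq.1.1; linarith)).continuousAt.continuousWithinAt)
  have hs : Icc (t / 2) (2 * t) ∈ 𝓝 t := Icc_mem_nhds (by linarith) (by linarith)
  refine (hasDerivAt_integral_of_dominated_loc_of_deriv_le (μ := volume)
    (F := fun s x => H (s, x) * η x) (F' := fun s x => dd H (1, 0) (s, x) * η x)
    (bound := fun x => C * ‖η x‖) hs ?_ ?_ ?_ ?_ ?_ ?_).2
  · filter_upwards [Ioi_mem_nhds ht] with s hs'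
    exact ((slice_cont hH hs').continuous.mul hη).aestronglyMeasurable
  · exact ((slice_cont hH ht).continuous.mul hη).integrable_of_hasCompactSupport hc.mul_left
  · exact ((slice_cont hD ht).continuous.mul hη).aestronglyMeasurable
  · refine Eventually.of_forall fun x s hs' => ?_
    by_cases hx : x ∈ tsupport η
    · rw [norm_mul]
      exact mul_le_mul_of_nonneg_right (hC (s, x) ⟨hs', hx⟩) (norm_nonneg _)
    · simp [image_eq_zero_of_notMem_tsupport hx]
  · exact (hη.norm.integrable_of_hasCompactSupport hc.norm).const_mul C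
  · refine Eventually.of_forall fun x s hs' => ?_
    have hs0 : 0 < s := by have := hs'.1; linarith
    have h1 := ((hH (s, x) hs0).differentiableAt one_ne_zero).hasFDerivAt
    have h2 : HasDerivAt (fun s : ℝ => (s, x)) ((1 : ℝ), (0 : EuclideanSpace ℝ (Fin d))) s :=
      (hasDerivAt_id s).prodMk (hasDerivAt_const s x)
    exact (h1.comp_hasDerivAt s h2).mul_const (η x)

lemma ibp_once {f η : EuclideanSpace ℝ (Fin d) → ℝ} (hf : ContDiff ℝ 1 f) (hη : ContDiff ℝ 1 η)
    (hc : HasCompactSupport η) (v : EuclideanSpace ℝ (Fin d)) :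
    ∫ x, f x * dd η v x = -∫ x, dd f v x * η x := by
  have hf' : Continuous (dd f v) := (hf.continuous_fderiv one_ne_zero).clm_apply continuous_const
  have hη' : Continuous (dd η v) := (hη.continuous_fderiv one_ne_zero).clm_apply continuous_const
  have hc' : HasCompactSupport (dd η v) := hc.fderiv_apply (𝕜 := ℝ) v
  exact integral_mul_fderiv_eq_neg_fderiv_mul_of_integrable
    ((hf'.mul hη.continuous).integrable_of_hasCompactSupport hc.mul_left)
    ((hf.continuous.mul hη').integrable_of_hasCompactSupport hc'.mul_left)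
    ((hf.continuous.mul hη.continuous).integrable_of_hasCompactSupport hc.mul_left)
    (fun x _ => hf.differentiable one_ne_zero x) (fun x _ => hη.differentiable one_ne_zero x)

lemma dd_contDiff {X : Type*} [NormedAddCommGroup X] [NormedSpace ℝ X] {f : X → ℝ}
    {m n : WithTop ℕ∞} (h : ContDiff ℝ n f) (hmn : m + 1 ≤ n) (v : X) :
    ContDiff ℝ m (dd f v) :=
  contDiff_iff_contDiffAt.2 fun _ => dd_contDiffAt h.contDiffAt hmn v

lemma ibp_twice {f η : EuclideanSpace ℝ (Fin d) → ℝ} (hf : ContDiff ℝ 2 f) (hη : ContDiff ℝ 2 η)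
    (hc : HasCompactSupport η) (v : EuclideanSpace ℝ (Fin d)) :
    ∫ x, dd (dd f v) v x * η x = ∫ x, f x * dd (dd η v) v x := by
  have h21 : (1 : WithTop ℕ∞) + 1 ≤ 2 := by norm_num
  have h12 : (1 : WithTop ℕ∞) ≤ 2 := by norm_num
  have h1 := ibp_once (dd_contDiff hf h21 v) (hη.of_le h12) hc v
  have h2 := ibp_once (hf.of_le h12) (dd_contDiff hη h21 v) (hc.fderiv_apply (𝕜 := ℝ) v) v
  linarith

lemma dd_scale {η : EuclideanSpace ℝ (Fin d) → ℝ} (hη : ContDiff ℝ 1 η) (c a : ℝ)
    (v : EuclideanSpace ℝ (Fin d)) :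
    dd (fun x => a * η (c • x)) v = fun x => (a * c) * dd η v (c • x) := by
  funext x
  have h1 := (hη.differentiable one_ne_zero (c • x)).hasFDerivAt
  have h2 : HasFDerivAt (fun x : EuclideanSpace ℝ (Fin d) => c • x)
      (c • ContinuousLinearMap.id ℝ _) x := (hasFDerivAt_id x).const_smul c
  have h3 : fderiv ℝ (fun x => a * η (c • x)) x = _ := ((h1.comp x h2).const_mul a).fderiv
  simp [dd, h3, mul_assoc]

lemma exists_cutoffs {ι : Type*} [Fintype ι] (e : ι → EuclideanSpace ℝ (Fin d)) :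
    ∃ C : ℝ, 0 ≤ C ∧ ∀ R : ℝ, 0 < R → ∃ η : EuclideanSpace ℝ (Fin d) → ℝ, ContDiff ℝ 2 η ∧
      HasCompactSupport η ∧ (∀ x, 0 ≤ η x) ∧ (∀ x, η x ≤ 1) ∧ (∀ x, ‖x‖ ≤ R → η x = 1) ∧
      ∀ x, ∑ j, dd (dd η (e j)) (e j) x ≤ C / R ^ 2 := by
  let b : ContDiffBump (0 : EuclideanSpace ℝ (Fin d)) := ⟨1, 2, one_pos, one_lt_two⟩
  have hb : ContDiff ℝ 2 b := b.contDiff
  have hc : HasCompactSupport b := b.hasCompactSupport
  have h21 : (1 : WithTop ℕ∞) + 1 ≤ 2 := by norm_num
  have h12 : (1 : WithTop ℕ∞) ≤ 2 := by norm_num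
  have hbd : ∀ j, ∃ C, ∀ x, ‖dd (dd b (e j)) (e j) x‖ ≤ C := fun j =>
    (dd_contDiff (m := 0) (dd_contDiff hb h21 (e j)) (by simp) (e j)).continuous.bounded_above_of_compact_support
      ((hc.fderiv_apply (𝕜 := ℝ) (e j)).fderiv_apply (𝕜 := ℝ) (e j))
  choose C hC using hbd
  refine ⟨∑ j, C j, Finset.sum_nonneg fun j _ => (norm_nonneg _).trans (hC j 0), fun R hR => ?_⟩
  refine ⟨fun x => 1 * b (R⁻¹ • x), ?_, ?_, ?_, ?_, ?_, ?_⟩
  · exact contDiff_const.mul (hb.comp (contDiff_id.const_smul _))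
  · exact (hc.comp_smul (inv_ne_zero hR.ne')).mul_left
  · intro x; beta_reduce; rw [one_mul]; exact b.nonneg
  · intro x; beta_reduce; rw [one_mul]; exact b.le_one
  · intro x hx
    beta_reduce
    rw [one_mul]
    apply b.one_of_mem_closedBall
    rw [mem_closedBall, dist_zero_right, norm_smul, norm_inv, Real.norm_of_nonneg hR.le,
      inv_mul_le_iff₀ hR]
    simpa [b] using hx
  · intro x
    rw [Finset.sum_div]
    refine Finset.sum_le_sum fun j _ => ?_
    rw [dd_scale (hb.of_le h12), dd_scale (dd_contDiff hb h21 (e j))]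
    have := (le_abs_self _).trans (hC j (R⁻¹ • x))
    have e1 : 1 * R⁻¹ * R⁻¹ = (R ^ 2)⁻¹ := by field_simp
    rw [e1, div_eq_inv_mul]
    exact mul_le_mul_of_nonneg_left this (by positivity)

theorem slice_zero {ι : Type*} [Fintype ι] (e : ι → EuclideanSpace ℝ (Fin d))
    (V : ℝ × EuclideanSpace ℝ (Fin d) → ℝ)
    (hV : ∀ q : ℝ × EuclideanSpace ℝ (Fin d), 0 < q.1 → ContDiffAt ℝ 2 V q)
    (hpos : ∀ q : ℝ × EuclideanSpace ℝ (Fin d), 0 < q.1 → 0 ≤ V q)
    (hsub : ∀ q : ℝ × EuclideanSpace ℝ (Fin d), 0 < q.1 →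
      0 ≤ dd (dd V (1, 0)) (1, 0) q + ∑ j, dd (dd V (0, e j)) (0, e j) q)
    (g : EuclideanSpace ℝ (Fin d) → ℝ) (hg : Integrable g)
    (hle : ∀ᵐ x, ∀ t, 0 < t → V (t, x) ≤ g x)
    (hlim : ∀ᵐ x, Tendsto (fun t => V (t, x)) (𝓝[>] 0) (𝓝 0)) :
    ∀ q : ℝ × EuclideanSpace ℝ (Fin d), 0 < q.1 → V q = 0 := by
  have h21 : (1 : WithTop ℕ∞) + 1 ≤ 2 := by norm_num
  have h12 : (1 : WithTop ℕ∞) ≤ 2 := by norm_num
  have hV1 : ∀ q : ℝ × EuclideanSpace ℝ (Fin d), 0 < q.1 → ContDiffAt ℝ 1 V q :=
    fun q hq => (hV q hq).of_le h12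
  have hD1 : ∀ v, ∀ q : ℝ × EuclideanSpace ℝ (Fin d), 0 < q.1 → ContDiffAt ℝ 1 (dd V v) q :=
    fun v q hq => dd_contDiffAt (hV q hq) h21 v
  have hD0 : ∀ v w, ∀ q : ℝ × EuclideanSpace ℝ (Fin d), 0 < q.1 →
      ContDiffAt ℝ 0 (dd (dd V v) w) q :=
    fun v w q hq => dd_contDiffAt (hD1 v q hq) (by simp) w
  set G := ∫ x, g x with hG
  have hnorm : ∀ t, 0 < t → ∀ᵐ x, ‖V (t, x)‖ ≤ g x := fun t ht => by
    filter_upwards [hle] with x hx
    rw [Real.norm_of_nonneg (hpos (t, x) ht)]; exact hx t ht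
  have hint : ∀ t, 0 < t → Integrable fun x => V (t, x) := fun t ht =>
    hg.mono' (slice_cont hV ht).continuous.aestronglyMeasurable (hnorm t ht)
  have hmG : ∀ t, 0 < t → ∫ x, V (t, x) ≤ G := fun t ht =>
    integral_mono_ae (hint t ht) hg (by filter_upwards [hle] with x hx using hx t ht)
  have hm0 : ∀ t, 0 < t → 0 ≤ ∫ x, V (t, x) := fun t ht =>
    integral_nonneg fun x => hpos (t, x) ht
  have hG0 : 0 ≤ G := (hm0 1 one_pos).trans (hmG 1 one_pos)
  have hmlim : Tendsto (fun t => ∫ x, V (t, x)) (𝓝[>] 0) (𝓝 0) := by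
    have := tendsto_integral_filter_of_dominated_convergence (μ := volume) (l := 𝓝[>] (0 : ℝ))
      (F := fun t x => V (t, x)) (f := fun _ => (0 : ℝ)) g
      (eventually_nhdsWithin_of_forall fun t ht => (hint t ht).aestronglyMeasurable)
      (eventually_nhdsWithin_of_forall fun t ht => hnorm t ht) hg hlim
    simpa using this
  obtain ⟨C, hC0, hC⟩ := exists_cutoffs e
  -- main estimate
  have main : ∀ R, 0 < R → ∀ t T, 0 < t → t < T →
      ∫ x in closedBall 0 R, V (t, x) ≤ t / T * G + C / R ^ 2 * G * T ^ 2 := by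
    intro R hR t T ht htT
    obtain ⟨η, hη, hc, hη0, hη1, hηR, hηD⟩ := hC R hR
    set K := C / R ^ 2 * G with hK
    have hK0 : 0 ≤ K := by positivity
    have hmul : ∀ s, 0 < s → Integrable fun x => V (s, x) * η x := fun s hs =>
      ((slice_cont hV hs).continuous.mul hη.continuous).integrable_of_hasCompactSupport hc.mul_left
    have hm1 : ∀ s, 0 < s → ∫ x, V (s, x) * η x ≤ ∫ x, V (s, x) := fun s hs =>
      integral_mono (hmul s hs) (hint s hs) fun x => by
        have := hpos (s, x) hs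
        have := hη1 x
        show V (s, x) * η x ≤ V (s, x)
        nlinarith
    have hsecond : ∀ s, 0 < s → 0 ≤ (∫ x, dd (dd V (1, 0)) (1, 0) (s, x) * η x) + K := by
      intro s hs
      have hi : ∀ v, Integrable fun x => dd (dd V v) v (s, x) * η x := fun v =>
        ((slice_cont (hD0 v v) hs).continuous.mul hη.continuous).integrable_of_hasCompactSupport
          hc.mul_left
      have a1 : 0 ≤ ∫ x, (dd (dd V (1, 0)) (1, 0) (s, x) * η x
          + ∑ j, dd (dd V (0, e j)) (0, e j) (s, x) * η x) :=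
        integral_nonneg fun x => by
          have := mul_nonneg (hsub (s, x) hs) (hη0 x)
          rwa [add_mul, Finset.sum_mul] at this
      rw [integral_add (hi _) (integrable_finsetSum _ fun j _ => hi _),
        integral_finsetSum _ fun j _ => hi _] at a1
      have a2 : ∀ j, ∫ x, dd (dd V (0, e j)) (0, e j) (s, x) * η x
          = ∫ x, V (s, x) * dd (dd η (e j)) (e j) x := by
        intro j
        rw [← ibp_twice (slice_cont hV hs) hη hc (e j), slice_dd hV1 hs, slice_dd (hD1 _) hs]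
      have hi2 : ∀ j, Integrable fun x => V (s, x) * dd (dd η (e j)) (e j) x := fun j =>
        ((slice_cont hV hs).continuous.mul (dd_contDiff (m := 0) (dd_contDiff hη h21 (e j))
          (by simp) (e j)).continuous).integrable_of_hasCompactSupport
          ((hc.fderiv_apply (𝕜 := ℝ) (e j)).fderiv_apply (𝕜 := ℝ) (e j)).mul_left
      simp_rw [a2] at a1
      rw [← integral_finsetSum _ fun j _ => hi2 j] at a1
      have a3 : ∫ x, ∑ j, V (s, x) * dd (dd η (e j)) (e j) x ≤ ∫ x, C / R ^ 2 * V (s, x) :=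
        integral_mono (integrable_finsetSum _ fun j _ => hi2 j) ((hint s hs).const_mul _)
          fun x => by
            show ∑ j, V (s, x) * dd (dd η (e j)) (e j) x ≤ C / R ^ 2 * V (s, x)
            rw [← Finset.mul_sum, mul_comm]
            exact mul_le_mul_of_nonneg_right (hηD x) (hpos (s, x) hs)
      rw [integral_const_mul] at a3
      have a4 : C / R ^ 2 * ∫ x, V (s, x) ≤ K :=
        mul_le_mul_of_nonneg_left (hmG s hs) (by positivity)
      linarith
    have hd1 : ∀ s, 0 < s → HasDerivAt (fun s => (∫ x, V (s, x) * η x) + K / 2 * s ^ 2)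
        ((∫ x, dd V (1, 0) (s, x) * η x) + K * s) s := by
      intro s hs
      have h2 : HasDerivAt (fun s : ℝ => K / 2 * s ^ 2) (K * s) s := by
        have := (hasDerivAt_pow 2 s).const_mul (K / 2)
        refine this.congr_deriv ?_
        norm_num; ring
      exact (hasDerivAt_slice_integral hV1 hη.continuous hc hs).add h2
    have hd2 : ∀ s, 0 < s → HasDerivAt (fun s => (∫ x, dd V (1, 0) (s, x) * η x) + K * s)
        ((∫ x, dd (dd V (1, 0)) (1, 0) (s, x) * η x) + K) s := by
      intro s hs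
      have h2 : HasDerivAt (fun s : ℝ => K * s) K s := by
        simpa using (hasDerivAt_id s).const_mul K
      exact (hasDerivAt_slice_integral (hD1 _) hη.continuous hc hs).add h2
    have hconv : ConvexOn ℝ (Ioi 0) (fun s => (∫ x, V (s, x) * η x) + K / 2 * s ^ 2) := by
      refine convexOn_of_hasDerivWithinAt2_nonneg (convex_Ioi 0)
        (fun s hs => (hd1 s hs).continuousAt.continuousWithinAt)
        (f' := fun s => (∫ x, dd V (1, 0) (s, x) * η x) + K * s)
        (f'' := fun s => (∫ x, dd (dd V (1, 0)) (1, 0) (s, x) * η x) + K) ?_ ?_ ?_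
      · intro s hs; rw [interior_Ioi] at hs; exact (hd1 s hs).hasDerivWithinAt
      · intro s hs; rw [interior_Ioi] at hs; exact (hd2 s hs).hasDerivWithinAt
      · intro s hs; rw [interior_Ioi] at hs; exact hsecond s hs
    have hT : 0 < T := ht.trans htT
    have hball : ∫ x in closedBall 0 R, V (t, x) ≤ ∫ x, V (t, x) * η x := by
      have b1 : ∫ x in closedBall 0 R, V (t, x) = ∫ x in closedBall 0 R, V (t, x) * η x :=
        setIntegral_congr_fun measurableSet_closedBall fun x hx => by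
          rw [mem_closedBall, dist_zero_right] at hx
          show V (t, x) = V (t, x) * η x
          rw [hηR x hx, mul_one]
      rw [b1]
      exact setIntegral_le_integral (hmul t ht)
        (Eventually.of_forall fun x => mul_nonneg (hpos (t, x) ht) (hη0 x))
    have hbound : ∀ ε, 0 < ε → ε < t → ∫ x, V (t, x) * η x
        ≤ (∫ x, V (ε, x)) + t / (T - ε) * G + K * T ^ 2 := by
      intro ε hε hεt
      have hTe : 0 < T - ε := by linarith
      have ha : 0 ≤ (T - t) / (T - ε) := div_nonneg (by linarith) hTe.le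
      have hb : 0 ≤ (t - ε) / (T - ε) := div_nonneg (by linarith) hTe.le
      have hab : (T - t) / (T - ε) + (t - ε) / (T - ε) = 1 := by field_simp; ring
      have hcv := hconv.2 (mem_Ioi.2 hε) (mem_Ioi.2 hT) ha hb hab
      have ept : ((T - t) / (T - ε)) • ε + ((t - ε) / (T - ε)) • T = t := by
        simp only [smul_eq_mul]; field_simp; ring
      rw [ept] at hcv
      simp only [smul_eq_mul] at hcv
      have ha1 : (T - t) / (T - ε) ≤ 1 := by linarith
      have hb1 : (t - ε) / (T - ε) ≤ 1 := by linarith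
      have hb2 : (t - ε) / (T - ε) ≤ t / (T - ε) :=
        div_le_div_of_nonneg_right (by linarith) hTe.le
      have p1 : 0 ≤ ∫ x, V (ε, x) * η x :=
        integral_nonneg fun x => mul_nonneg (hpos (ε, x) hε) (hη0 x)
      have p2 : 0 ≤ ∫ x, V (T, x) * η x :=
        integral_nonneg fun x => mul_nonneg (hpos (T, x) hT) (hη0 x)
      have q1 := hm1 ε hε
      have q2 := (hm1 T hT).trans (hmG T hT)
      have r1 : (T - t) / (T - ε) * ∫ x, V (ε, x) * η x ≤ ∫ x, V (ε, x) := by nlinarith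
      have r2 : (t - ε) / (T - ε) * ∫ x, V (T, x) * η x ≤ t / (T - ε) * G :=
        mul_le_mul hb2 q2 p2 (hb.trans hb2)
      have r3 : (T - t) / (T - ε) * (K / 2 * ε ^ 2) ≤ K / 2 * T ^ 2 := by
        have : K / 2 * ε ^ 2 ≤ K / 2 * T ^ 2 :=
          mul_le_mul_of_nonneg_left (pow_le_pow_left₀ hε.le (by linarith) 2) (by positivity)
        have h0 : 0 ≤ K / 2 * ε ^ 2 := by positivity
        nlinarith
      have r4 : (t - ε) / (T - ε) * (K / 2 * T ^ 2) ≤ K / 2 * T ^ 2 := by
        have h0 : 0 ≤ K / 2 * T ^ 2 := by positivity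
        nlinarith
      have r5 : 0 ≤ K / 2 * t ^ 2 := by positivity
      rw [mul_add, mul_add] at hcv
      linarith
    have hl : Tendsto (fun ε => (∫ x, V (ε, x)) + t / (T - ε) * G + K * T ^ 2) (𝓝[>] 0)
        (𝓝 (0 + t / (T - 0) * G + K * T ^ 2)) := by
      refine (hmlim.add ?_).add tendsto_const_nhds
      refine Tendsto.mono_left ?_ nhdsWithin_le_nhds
      exact (tendsto_const_nhds.div (tendsto_const_nhds.sub tendsto_id)
        (by simpa using hT.ne')).mul tendsto_const_nhds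
    have hfin := ge_of_tendsto hl (by
      filter_upwards [Ioo_mem_nhdsGT ht] with ε hε using hbound ε hε.1 hε.2)
    rw [zero_add, sub_zero] at hfin
    exact hball.trans hfin
  rintro ⟨t, x₀⟩ ht
  simp only at ht
  have hR0 : 0 < ‖x₀‖ + 1 := by positivity
  have hzero : ∫ x in closedBall 0 (‖x₀‖ + 1), V (t, x) ≤ 0 := by
    have s1 : ∀ T, t < T → ∫ x in closedBall 0 (‖x₀‖ + 1), V (t, x) ≤ t / T * G := by
      intro T hT
      have hl : Tendsto (fun R : ℝ => t / T * G + C / R ^ 2 * G * T ^ 2) atTop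
          (𝓝 (t / T * G + 0 * G * T ^ 2)) :=
        tendsto_const_nhds.add (((tendsto_const_nhds.div_atTop
          (tendsto_pow_atTop two_ne_zero)).mul tendsto_const_nhds).mul tendsto_const_nhds)
      have := ge_of_tendsto (b := ∫ x in closedBall 0 (‖x₀‖ + 1), V (t, x)) hl (by
        filter_upwards [eventually_ge_atTop (‖x₀‖ + 1)] with R hR
        refine le_trans ?_ (main R (hR0.trans_le hR) t T ht hT)
        exact setIntegral_mono_set (hint t ht).integrableOn
          (Eventually.of_forall fun x => hpos (t, x) ht)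
          (closedBall_subset_closedBall hR).eventuallyLE)
      simpa using this
    have hl : Tendsto (fun T : ℝ => t / T * G) atTop (𝓝 (0 * G)) :=
      (tendsto_const_nhds.div_atTop tendsto_id).mul tendsto_const_nhds
    have := ge_of_tendsto hl (by
      filter_upwards [eventually_gt_atTop t] with T hT using s1 T hT)
    simpa using this
  by_contra hne
  have hp : 0 < V (t, x₀) := lt_of_le_of_ne (hpos (t, x₀) ht) (Ne.symm hne)
  have hcont := (slice_cont hV ht).continuous
  have hposint : 0 < ∫ x in closedBall 0 (‖x₀‖ + 1), V (t, x) := by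
    rw [setIntegral_pos_iff_support_of_nonneg_ae
      (Eventually.of_forall fun x => hpos (t, x) ht) (hint t ht).integrableOn]
    have hopen : IsOpen (Function.support (fun x => V (t, x)) ∩ ball 0 (‖x₀‖ + 1)) :=
      hcont.isOpen_support.inter isOpen_ball
    refine lt_of_lt_of_le (hopen.measure_pos volume ⟨x₀, hp.ne', by simp⟩) ?_
    exact measure_mono (inter_subset_inter_right _ ball_subset_closedBall)
  linarith

end Pool.Agent.Lib.MP_fc0ae9_an
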