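import Pool.Agent.Lib.MP_fc0ae9_an.StAlg

/-! Basic facts on the tensor operations. -/

namespace Pool.Agent.Lib.MP_fc0ae9_an.St

open scoped InnerProductSpace

variable {ι : Type} [Fintype ι]

lemma mv_add_right (A : Vc (ι × ι)) (u v : Vc ι) : mv A (u + v) = mv A u + mv A v := by
  ext i; simp [mv_apply, mul_add, Finset.sum_add_distrib]

lemma mv_sub_right (A : Vc (ι × ι)) (u v : Vc ι) : mv A (u - v) = mv A u - mv A v := by
  ext i; simp [mv_apply, mul_sub, Finset.sum_sub_distrib]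

lemma mv_smul_right (A : Vc (ι × ι)) (s : ℝ) (u : Vc ι) : mv A (s • u) = s • mv A u := by
  ext i; simp [mv_apply, Finset.mul_sum, mul_left_comm]

lemma mv_add_left (A B : Vc (ι × ι)) (u : Vc ι) : mv (A + B) u = mv A u + mv B u := by
  ext i; simp [mv_apply, add_mul, Finset.sum_add_distrib]

lemma mv_sub_left (A B : Vc (ι × ι)) (u : Vc ι) : mv (A - B) u = mv A u - mv B u := by
  ext i; simp [mv_apply, sub_mul, Finset.sum_sub_distrib]

lemma mv_smul_left (A : Vc (ι × ι)) (s : ℝ) (u : Vc ι) : mv (s • A) u = s • mv A u := by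
  ext i; simp [mv_apply, Finset.mul_sum, mul_assoc]

lemma sg_smul_left (A : Vc (ι × ι)) (S : Vc (ι × ι × ι)) (s : ℝ) :
    sg (s • A) S = s • sg A S := by
  ext i; simp [sg_apply, Finset.mul_sum, mul_assoc]

lemma sg_smul_right (A : Vc (ι × ι)) (S : Vc (ι × ι × ι)) (s : ℝ) :
    sg A (s • S) = s • sg A S := by
  ext i; simp [sg_apply, Finset.mul_sum, mul_left_comm]

lemma tr3_smul (A : Vc (ι × ι)) (s : ℝ) : tr3 (s • A) = s ^ 3 * tr3 A := by
  simp only [tr3, PiLp.smul_apply, smul_eq_mul, Finset.mul_sum]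
  exact Finset.sum_congr rfl fun i _ => Finset.sum_congr rfl fun j _ =>
    Finset.sum_congr rfl fun k _ => by ring

/- Cauchy-Schwarz row by row (Finset.sum_mul_sq_le_sq_mul_sq, norm_sq_eq2). -/
lemma norm_mv_le (A : Vc (ι × ι)) (u : Vc ι) : ‖mv A u‖ ≤ ‖A‖ * ‖u‖ := by
  refine (abs_le_of_sq_le_sq' ?_ (by positivity)).2
  rw [mul_pow, norm_sq_eq, norm_sq_eq2, Finset.sum_mul, norm_sq_eq u]
  exact Finset.sum_le_sum fun i _ => Finset.sum_mul_sq_le_sq_mul_sq _ _ _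

lemma norm_sg_le (A : Vc (ι × ι)) (S : Vc (ι × ι × ι)) : ‖sg A S‖ ≤ ‖A‖ * ‖S‖ := by
  refine (abs_le_of_sq_le_sq' ?_ (by positivity)).2
  have h : ‖S‖ ^ 2 = ∑ k, ∑ p : ι × ι, S (p.1, p.2, k) ^ 2 := by
    rw [norm_sq_eq3, Finset.sum_comm (γ := ι) (α := ι × ι), Fintype.sum_prod_type]
  rw [mul_pow, norm_sq_eq, h, Finset.mul_sum, norm_sq_eq A]
  refine Finset.sum_le_sum fun k _ => ?_
  rw [sg_apply, ← Fintype.sum_prod_type' (fun i j => A (i, j) * S (i, j, k))]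
  exact Finset.sum_mul_sq_le_sq_mul_sq _ _ _

lemma inner_mv_comm {A : Vc (ι × ι)} (hA : ∀ i j, A (i, j) = A (j, i)) (u v : Vc ι) :
    ⟪mv A u, v⟫_ℝ = ⟪u, mv A v⟫_ℝ := by
  simp only [inner_eq, mv_apply, Finset.sum_mul, Finset.mul_sum]
  rw [Finset.sum_comm]
  exact Finset.sum_congr rfl fun i _ => Finset.sum_congr rfl fun j _ => by rw [hA j i]; ring

/- Cauchy-Schwarz twice: the matrix (i,k) |-> sum_j A(i,j) B(j,k) has norm at most |A| |B|. -/
lemma abs_tri_le (A B C : Vc (ι × ι)) :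
    |∑ i, ∑ j, ∑ k, A (i, j) * B (j, k) * C (k, i)| ≤ ‖A‖ * ‖B‖ * ‖C‖ := by
  let D : Vc (ι × ι) := WithLp.toLp 2 fun p => ∑ j, A (p.2, j) * B (j, p.1)
  have hD : ‖D‖ ≤ ‖A‖ * ‖B‖ := by
    refine (abs_le_of_sq_le_sq' ?_ (by positivity)).2
    rw [mul_pow, norm_sq_eq2, norm_sq_eq2, norm_sq_eq2 B, Finset.sum_comm,
      Finset.sum_comm (f := fun i j => B (i, j) ^ 2), Finset.sum_mul_sum]
    exact Finset.sum_le_sum fun i _ => Finset.sum_le_sum fun k _ =>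
      Finset.sum_mul_sq_le_sq_mul_sq _ _ _
  have h : ∑ i, ∑ j, ∑ k, A (i, j) * B (j, k) * C (k, i) = ⟪D, C⟫_ℝ := by
    rw [inner_eq, Fintype.sum_prod_type, Finset.sum_comm (f := fun k i => D (k, i) * C (k, i))]
    refine Finset.sum_congr rfl fun i _ => ?_
    rw [Finset.sum_comm]
    exact Finset.sum_congr rfl fun k _ => (Finset.sum_mul _ _ _).symm
  rw [h]
  exact (abs_real_inner_le_norm _ _).trans (mul_le_mul_of_nonneg_right hD (norm_nonneg _))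

lemma abs_tr3_le (A : Vc (ι × ι)) : |tr3 A| ≤ ‖A‖ ^ 3 := by
  exact (abs_tri_le A A A).trans_eq (by ring)

lemma norm_Yv_le {k c : ℝ} (hk : 0 ≤ k) (hc : 0 ≤ c) (w : Vc ι) (A : Vc (ι × ι)) :
    ‖Yv k c w A‖ ≤ (3 * k + c) * ‖A‖ ^ 2 * ‖w‖ := by
  have h1 : ‖mv A (mv A w)‖ ≤ ‖A‖ * (‖A‖ * ‖w‖) :=
    (norm_mv_le _ _).trans (mul_le_mul_of_nonneg_left (norm_mv_le _ _) (norm_nonneg _))
  have h2 : |c - k| ≤ c + k := abs_le.2 ⟨by linarith, by linarith⟩
  refine (norm_add_le _ _).trans ?_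
  rw [norm_smul, norm_smul, Real.norm_of_nonneg (by positivity), Real.norm_eq_abs, abs_mul,
    abs_of_nonneg (sq_nonneg ‖A‖)]
  have h3 := mul_le_mul_of_nonneg_left h1 (show 0 ≤ 2 * k by positivity)
  have h4 := mul_le_mul_of_nonneg_right h2 (show 0 ≤ ‖A‖ ^ 2 * ‖w‖ by positivity)
  linarith

lemma Yv_smul_right (k c s : ℝ) (w : Vc ι) (A : Vc (ι × ι)) :
    Yv k c (s • w) A = s • Yv k c w A := by
  simp only [Yv, mv_smul_right]
  module

/- gv is homogeneous of degree 2, Yv of degree 3; norm_smul, inner_smul, field_simp. -/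
lemma FF_homog (ε b k c θ N μ : ℝ) (hμ : μ ≠ 0) (hN : N ≠ 0) (e w : Vc ι) (A : Vc (ι × ι))
    (S : Vc (ι × ι × ι)) :
    FF ε b k c θ (μ ^ 2 * N) e (μ • w) (μ • A) (μ • S) = μ ^ 2 * FF ε b k c θ N e w A S := by
  have hn : ∀ {E : Type} [NormedAddCommGroup E] [NormedSpace ℝ E] (s : ℝ) (x : E),
      ‖s • x‖ ^ 2 = s ^ 2 * ‖x‖ ^ 2 := fun s x => by
    rw [norm_smul, mul_pow, Real.norm_eq_abs, sq_abs]
  have hY : Yv k c (μ • w) (μ • A) = μ ^ 3 • Yv k c w A := by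
    simp only [Yv, mv_smul_right, mv_smul_left, hn]
    module
  have hg : gabs ε b e (μ • w) (mv (μ • A) (μ • w)) (mv (μ • A) e) (sg (μ • A) (μ • S))
      (‖μ • A‖ ^ 2) = μ ^ 2 • gabs ε b e w (mv A w) (mv A e) (sg A S) (‖A‖ ^ 2) := by
    simp only [gabs, mv_smul_right, mv_smul_left, sg_smul_left, sg_smul_right, hn,
      real_inner_smul_right]
    module
  unfold FF Fabs
  rw [hg, hY]
  simp only [mv_smul_left, sg_smul_left, sg_smul_right, tr3_smul, hn, real_inner_smul_left,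
    real_inner_smul_right]
  field_simp

lemma STM.smul {A : Vc (ι × ι)} (hA : STM A) (s : ℝ) : STM (s • A) := by
  refine ⟨fun i j => by simp [hA.1 i j], ?_⟩
  simp only [PiLp.smul_apply, smul_eq_mul]
  rw [← Finset.mul_sum, hA.2, mul_zero]

lemma STT.smul {S : Vc (ι × ι × ι)} (hS : STT S) (s : ℝ) : STT (s • S) := by
  refine ⟨fun i j k => by simp [hS.1 i j k], fun i j k => by simp [hS.2.1 i j k], fun k => ?_⟩
  simp only [PiLp.smul_apply, smul_eq_mul]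
  rw [← Finset.mul_sum, hS.2.2, mul_zero]

lemma contDiff_mv {A : Jet ι → Vc (ι × ι)} {w : Jet ι → Vc ι} (hA : ContDiff ℝ 1 A)
    (hw : ContDiff ℝ 1 w) : ContDiff ℝ 1 fun j => mv (A j) (w j) :=
  contDiff_euclidean.2 fun _ => ContDiff.sum fun _ _ =>
    (contDiff_euclidean.1 hA _).mul (contDiff_euclidean.1 hw _)

lemma contDiff_NN_rpow {ε b δ : ℝ} (hε : 0 ≤ ε) (hb : 0 ≤ b) (hδ : 0 < δ) (s : ℝ) (e : Vc ι) :
    ContDiff ℝ 1 fun j => NN ε b δ e j ^ s := by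
  refine ContDiff.rpow_const_of_ne ?_ fun j => (NN_pos hε hb hδ e j).ne'
  unfold NN
  exact (((contDiff_fst.norm_sq ℝ).add (contDiff_const.mul
    ((contDiff_const.inner ℝ contDiff_fst).pow 2))).add
    (contDiff_const.mul (contDiff_snd.fst.norm_sq ℝ))).add contDiff_const

/- contDiff_euclidean for the vector valued ones, then sums and products of coordinates;
contDiff_norm_sq; ContDiff.rpow_const_of_ne with NN_pos. -/
lemma contDiff_VV {ε b δ : ℝ} (hε : 0 ≤ ε) (hb : 0 ≤ b) (hδ : 0 < δ) (q : ℝ) (e : Vc ι) :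
    ContDiff ℝ 1 (VV ε b δ q e) := by
  exact (contDiff_NN_rpow hε hb hδ _ e).sub contDiff_const

lemma contDiff_WW {ε b δ : ℝ} (hε : 0 ≤ ε) (hb : 0 ≤ b) (hδ : 0 < δ) (k c q : ℝ) (e : Vc ι) :
    ContDiff ℝ 1 (WW ε b k c δ q e) := by
  have h1 : ContDiff ℝ 1 fun j : Jet ι => j.1 := contDiff_fst
  have h2 : ContDiff ℝ 1 fun j : Jet ι => j.2.1 := contDiff_snd.fst
  have h3 : ContDiff ℝ 1 fun j : Jet ι => j.2.2 := contDiff_snd.snd
  have ha : ContDiff ℝ 1 fun j : Jet ι => ‖j.2.1‖ ^ 2 := h2.norm_sq ℝ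
  have hw : ContDiff ℝ 1 fun j : Jet ι => ⟪e, j.1⟫_ℝ := contDiff_const.inner ℝ h1
  have hs : ContDiff ℝ 1 fun j : Jet ι => sg j.2.1 j.2.2 :=
    contDiff_euclidean.2 fun k => ContDiff.sum fun i _ => ContDiff.sum fun j _ =>
      (contDiff_euclidean.1 h2 _).mul (contDiff_euclidean.1 h3 _)
  unfold WW gv gabs Yv
  exact (((contDiff_const.mul (contDiff_NN_rpow hε hb hδ _ e)).smul
    (((contDiff_mv h2 h1).add (((((contDiff_const.mul hw).smul (contDiff_mv h2 contDiff_const)).add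
      (ha.smul contDiff_const)).add hs).const_smul ε)).sub
      ((contDiff_const.mul ha).smul contDiff_const))).sub
    ((contDiff_VV hε hb hδ q e).smul contDiff_const)).add
    (((contDiff_const.mul (contDiff_NN_rpow hε hb hδ _ e)).mul hw).smul
      (((contDiff_mv h2 (contDiff_mv h2 h1)).const_smul _).add ((contDiff_const.mul ha).smul h1)))

lemma VV_zero (ε b : ℝ) {δ : ℝ} (hδ : 0 < δ) (q : ℝ) (e : Vc ι) : VV ε b δ q e 0 = 0 := by
  have h : NN ε b δ e 0 = δ ^ 2 := by simp [NN]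
  rw [VV, h, ← Real.rpow_natCast, ← Real.rpow_mul hδ.le, sub_eq_zero]
  congr 1
  push_cast
  ring

lemma WW_zero (ε b k c : ℝ) {δ : ℝ} (hδ : 0 < δ) (q : ℝ) (e : Vc ι) :
    WW ε b k c δ q e 0 = 0 := by
  have h1 : ∀ v : Vc ι, mv (0 : Vc (ι × ι)) v = 0 := fun v => by ext i; simp [mv_apply]
  have h2 : sg (0 : Vc (ι × ι)) (0 : Vc (ι × ι × ι)) = 0 := by ext i; simp [sg_apply]
  simp [WW, VV_zero ε b hδ, gv, gabs, h1, h2]

end Pool.Agent.Lib.MP_fc0ae9_an.St
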