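import Mathlib

/-! Algebraic definitions for the two-jet calibration below the Stein-Weiss exponent. -/

namespace Pool.Agent.Lib.MP_fc0ae9_an.St

open scoped InnerProductSpace

/-- Euclidean vectors indexed by `ι`. -/
abbrev Vc (ι : Type) : Type := EuclideanSpace ℝ ι

/-- Jets: a vector, a matrix and a three-tensor. -/
abbrev Jet (ι : Type) : Type := Vc ι × Vc (ι × ι) × Vc (ι × ι × ι)

/-- The first Kato constant. -/
noncomputable def nu (n : ℝ) : ℝ := (n - 1) / n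

/-- The inverse of the first Kato constant. -/
noncomputable def th (n : ℝ) : ℝ := n / (n - 1)

/-- The second Kato constant. -/
noncomputable def nu2 (n : ℝ) : ℝ := n / (n + 2)

/-- The anisotropy parameter. -/
noncomputable def bb (n : ℝ) : ℝ := 7 / 2 * n * (n - 1)

/-- The coefficient of the stress tensor term. -/
noncomputable def kk (n : ℝ) : ℝ := 4 * n * (n - 1) / (n - 2)

section Abs

variable {E : Type} [NormedAddCommGroup E] [InnerProductSpace ℝ E]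

/-- Half the scaled gradient of `NN`, in terms of abstract vectors. -/
noncomputable def gabs (ε b : ℝ) (e w p q σ : E) (a2 : ℝ) : E :=
  p + ε • ((b * ⟪e, w⟫_ℝ) • q + a2 • e + σ)

/-- The normalised divergence of the calibration, in terms of abstract vectors. -/
noncomputable def Fabs (ε b k c θ N : ℝ) (e w p q σ Y : E) (a2 τ2 tr : ℝ) : ℝ :=
  a2 - θ * ‖gabs ε b e w p q σ a2‖ ^ 2 / N +
    ε * (b * ‖q‖ ^ 2 + τ2 - 3 * a2 + 2 * θ * a2 * ⟪e, gabs ε b e w p q σ a2⟫_ℝ / N +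
      (⟪q, Y⟫_ℝ + 2 * ⟪e, w⟫_ℝ * (k * tr + c * ⟪σ, w⟫_ℝ) + 2 * ⟪e, w⟫_ℝ * ⟪e, Y⟫_ℝ) / N -
      (2 + θ) * ⟪e, w⟫_ℝ * ⟪Y, gabs ε b e w p q σ a2⟫_ℝ / N ^ 2)

end Abs

/-- The first order term of `Fabs` (plus the gain from the normalisation) in scalar form. -/
noncomputable def Qr (θ b k c r ω l a τ tr st X1 X2 X3 X4 X5 X6 : ℝ) : ℝ :=
  τ ^ 2 - 2 * θ * r * X1 - 2 * θ * b * r ^ 2 * ω * X3 + b * X2 - 3 * a ^ 2 +
    r * (2 * k * X4 + (c - k) * a ^ 2 * X5) + 2 * r * ω * (k * tr + c * r * st) +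
    2 * r ^ 2 * ω * (2 * k * X3 + (c - k) * a ^ 2 * ω) -
    (2 + θ) * r ^ 3 * ω * (2 * k * X6 + (c - k) * a ^ 2 * l) +
    b * r ^ 2 * ω ^ 2 * a ^ 2 + a ^ 4

variable {ι : Type} [Fintype ι]

/-- Matrix times vector. -/
noncomputable def mv (A : Vc (ι × ι)) (w : Vc ι) : Vc ι :=
  WithLp.toLp 2 fun i => ∑ j, A (i, j) * w j

/-- Contraction of a matrix with a three-tensor. -/
noncomputable def sg (A : Vc (ι × ι)) (S : Vc (ι × ι × ι)) : Vc ι :=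
  WithLp.toLp 2 fun k => ∑ i, ∑ j, A (i, j) * S (i, j, k)

/-- The trace of the cube. -/
noncomputable def tr3 (A : Vc (ι × ι)) : ℝ := ∑ i, ∑ j, ∑ k, A (i, j) * A (j, k) * A (k, i)

/-- Symmetric traceless matrices. -/
def STM (A : Vc (ι × ι)) : Prop := (∀ i j, A (i, j) = A (j, i)) ∧ ∑ i, A (i, i) = 0

/-- Symmetric traceless three-tensors. -/
def STT (S : Vc (ι × ι × ι)) : Prop :=
  (∀ i j k, S (i, j, k) = S (j, i, k)) ∧ (∀ i j k, S (i, j, k) = S (i, k, j)) ∧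
    ∀ k, ∑ i, S (i, i, k) = 0

/-- Half the scaled gradient of `NN`. -/
noncomputable def gv (ε b : ℝ) (e w : Vc ι) (A : Vc (ι × ι)) (S : Vc (ι × ι × ι)) : Vc ι :=
  gabs ε b e w (mv A w) (mv A e) (sg A S) (‖A‖ ^ 2)

/-- The correction field. -/
noncomputable def Yv (k c : ℝ) (w : Vc ι) (A : Vc (ι × ι)) : Vc ι :=
  (2 * k) • mv A (mv A w) + ((c - k) * ‖A‖ ^ 2) • w

/-- The normalised divergence of the calibration. -/
noncomputable def FF (ε b k c θ N : ℝ) (e w : Vc ι) (A : Vc (ι × ι)) (S : Vc (ι × ι × ι)) : ℝ :=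
  Fabs ε b k c θ N e w (mv A w) (mv A e) (sg A S) (Yv k c w A) (‖A‖ ^ 2) (‖S‖ ^ 2) (tr3 A)

/-- The quadratic form under the power. -/
noncomputable def NN (ε b δ : ℝ) (e : Vc ι) (j : Jet ι) : ℝ :=
  ‖j.1‖ ^ 2 + ε * b * ⟪e, j.1⟫_ℝ ^ 2 + ε * ‖j.2.1‖ ^ 2 + δ ^ 2

/-- The density. -/
noncomputable def VV (ε b δ q : ℝ) (e : Vc ι) (j : Jet ι) : ℝ := NN ε b δ e j ^ (q / 2) - δ ^ q

/-- The calibration. -/
noncomputable def WW (ε b k c δ q : ℝ) (e : Vc ι) (j : Jet ι) : Vc ι :=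
  (q * NN ε b δ e j ^ (q / 2 - 1)) • (gv ε b e j.1 j.2.1 j.2.2 - (2 * ε * ‖j.2.1‖ ^ 2) • e) -
    VV ε b δ q e j • e + (ε * q * NN ε b δ e j ^ (q / 2 - 2) * ⟪e, j.1⟫_ℝ) • Yv k c j.1 j.2.1

/-- The energy density. -/
noncomputable def GG (ε b δ q : ℝ) (e : Vc ι) (j : Jet ι) : ℝ :=
  NN ε b δ e j ^ (q / 2 - 1) * ‖j.2.1‖ ^ 2

/-- The flux without the normal derivative of the density. -/
noncomputable def Th (ε b k c δ q : ℝ) (e : Vc ι) (j : Jet ι) : ℝ :=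
  q * NN ε b δ e j ^ (q / 2 - 1) * ⟪e, gv ε b e j.1 j.2.1 j.2.2⟫_ℝ - ⟪e, WW ε b k c δ q e j⟫_ℝ

/-- The second order term. -/
noncomputable def R2 (b k c θ : ℝ) (e w : Vc ι) (A : Vc (ι × ι)) (S : Vc (ι × ι × ι)) : ℝ :=
  -(θ * ‖(b * ⟪e, w⟫_ℝ) • mv A e + ‖A‖ ^ 2 • e + sg A S‖ ^ 2) +
    2 * θ * ‖A‖ ^ 2 * ⟪e, (b * ⟪e, w⟫_ℝ) • mv A e + ‖A‖ ^ 2 • e + sg A S⟫_ℝ -
    (2 + θ) * ⟪e, w⟫_ℝ * ⟪Yv k c w A, (b * ⟪e, w⟫_ℝ) • mv A e + ‖A‖ ^ 2 • e + sg A S⟫_ℝ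

lemma mv_apply (A : Vc (ι × ι)) (w : Vc ι) (i : ι) : mv A w i = ∑ j, A (i, j) * w j := rfl

lemma sg_apply (A : Vc (ι × ι)) (S : Vc (ι × ι × ι)) (k : ι) :
    sg A S k = ∑ i, ∑ j, A (i, j) * S (i, j, k) := rfl

lemma inner_eq (u v : Vc ι) : ⟪u, v⟫_ℝ = ∑ i, u i * v i := by
  simp [PiLp.inner_apply, mul_comm]

lemma norm_sq_eq (u : Vc ι) : ‖u‖ ^ 2 = ∑ i, u i ^ 2 := EuclideanSpace.real_norm_sq_eq u

lemma norm_sq_eq2 (A : Vc (ι × ι)) : ‖A‖ ^ 2 = ∑ i, ∑ j, A (i, j) ^ 2 := by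
  rw [norm_sq_eq, Fintype.sum_prod_type]

lemma norm_sq_eq3 (S : Vc (ι × ι × ι)) : ‖S‖ ^ 2 = ∑ i, ∑ j, ∑ k, S (i, j, k) ^ 2 := by
  simp only [norm_sq_eq, Fintype.sum_prod_type]

lemma NN_pos {ε b δ : ℝ} (hε : 0 ≤ ε) (hb : 0 ≤ b) (hδ : 0 < δ) (e : Vc ι) (j : Jet ι) :
    0 < NN ε b δ e j := by
  unfold NN; positivity

end Pool.Agent.Lib.MP_fc0ae9_an.St
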