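import Mathlib
import Pool.Agent.Lib.MP_fc0ae9_an.Legendre
import Pool.Agent.Lib.MP_fc0ae9_an.Slice

/- `chi (Phi (F))` is `C^2` and subharmonic for every harmonic gradient `F`. -/

namespace Pool.Agent.Lib.MP_fc0ae9_an

open scoped InnerProductSpace Topology
open Filter Polynomial

noncomputable def chi (δ s : ℝ) : ℝ := (s - δ) * expNegInvGlue (s - δ)

noncomputable def chi1 (δ s : ℝ) : ℝ := expNegInvGlue (s - δ) + (s - δ)⁻¹ * expNegInvGlue (s - δ)

noncomputable def chi2 (δ s : ℝ) : ℝ := (s - δ)⁻¹ ^ 3 * expNegInvGlue (s - δ)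

lemma glue_d0 (z : ℝ) : HasDerivAt expNegInvGlue (z⁻¹ ^ 2 * expNegInvGlue z) z := by
  simpa using expNegInvGlue.hasDerivAt_polynomial_eval_inv_mul 1 z

lemma glue_d1 (z : ℝ) : HasDerivAt (fun x => x⁻¹ * expNegInvGlue x)
    (z⁻¹ ^ 2 * (z⁻¹ - 1) * expNegInvGlue z) z := by
  simpa using expNegInvGlue.hasDerivAt_polynomial_eval_inv_mul X z

lemma hasDerivAt_chi (δ s : ℝ) : HasDerivAt (chi δ) (chi1 δ s) s := by
  have h0 : HasDerivAt (fun s => s - δ) 1 s := (hasDerivAt_id s).sub_const δ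
  have h := h0.mul ((glue_d0 (s - δ)).comp s h0)
  refine h.congr_deriv ?_
  unfold chi1
  by_cases hz : s - δ = 0
  · simp [hz]
  · simp only [Function.comp]; field_simp

lemma hasDerivAt_chi1 (δ s : ℝ) : HasDerivAt (chi1 δ) (chi2 δ s) s := by
  have h0 : HasDerivAt (fun s => s - δ) 1 s := (hasDerivAt_id s).sub_const δ
  have h := ((glue_d0 (s - δ)).comp s h0).add ((glue_d1 (s - δ)).comp s h0)
  refine h.congr_deriv ?_
  unfold chi2
  ring

lemma chi_zero {δ s : ℝ} (h : s ≤ δ) : chi δ s = 0 := by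
  unfold chi; rw [expNegInvGlue.zero_of_nonpos (by linarith), mul_zero]

lemma chi_pos {δ s : ℝ} (h : δ < s) : 0 < chi δ s :=
  mul_pos (by linarith) (expNegInvGlue.pos_of_pos (by linarith))

lemma chi_nonneg (δ s : ℝ) : 0 ≤ chi δ s := by
  rcases le_or_gt s δ with h | h
  · rw [chi_zero h]
  · exact (chi_pos h).le

lemma chi_le {δ s : ℝ} (hδ : 0 ≤ δ) (h : δ < s) : chi δ s ≤ s := by
  have h1 : expNegInvGlue (s - δ) ≤ 1 := by
    unfold expNegInvGlue
    rw [if_neg (by linarith), Real.exp_le_one_iff, neg_nonpos]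
    exact inv_nonneg.2 (by linarith)
  have h2 := mul_le_mul_of_nonneg_left h1 (by linarith : 0 ≤ s - δ)
  unfold chi
  linarith

lemma chi1_nonneg (δ s : ℝ) : 0 ≤ chi1 δ s := by
  unfold chi1
  rcases le_or_gt s δ with h | h
  · rw [expNegInvGlue.zero_of_nonpos (by linarith)]; simp
  · have := expNegInvGlue.nonneg (s - δ)
    have h2 : 0 < s - δ := by linarith
    positivity

lemma chi2_nonneg (δ s : ℝ) : 0 ≤ chi2 δ s := by
  unfold chi2
  rcases le_or_gt s δ with h | h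
  · rw [expNegInvGlue.zero_of_nonpos (by linarith)]; simp
  · have := expNegInvGlue.nonneg (s - δ)
    have h2 : 0 < s - δ := by linarith
    positivity

lemma contDiff_chi (δ : ℝ) : ContDiff ℝ 2 (chi δ) := by
  have h0 : ContDiff ℝ 2 (fun s : ℝ => s - δ) := contDiff_id.sub contDiff_const
  exact h0.mul ((expNegInvGlue.contDiff (n := 2)).comp h0)

variable {E : Type*} [NormedAddCommGroup E] [InnerProductSpace ℝ E] {D : ℝ} {e : E}

theorem subharm [FiniteDimensional ℝ E] {ι : Type*} [Fintype ι] (b : OrthonormalBasis ι ℝ E)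
    (hcard : (Fintype.card ι : ℝ) = D + 1) (hD : 1 ≤ D) (he : ‖e‖ = 1) {δ : ℝ} (hδ : 0 < δ)
    {F : E → E} {X : E} (hF : ContDiffAt ℝ 2 F X)
    (hA : ∀ x y, ⟪fderiv ℝ F X x, y⟫_ℝ = ⟪x, fderiv ℝ F X y⟫_ℝ)
    (hAtr : ∑ i, ⟪b i, fderiv ℝ F X (b i)⟫_ℝ = 0)
    (hlap : ∑ i, fderiv ℝ (fun Y => fderiv ℝ F Y (b i)) X (b i) = 0) :
    ContDiffAt ℝ 2 (fun Y => chi δ (Phi D e (F Y))) X ∧
      0 ≤ ∑ i, dd (dd (fun Y => chi δ (Phi D e (F Y))) (b i)) (b i) X := by
  by_cases hw : ⟪e, F X⟫_ℝ < ‖F X‖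
  · refine ⟨(contDiff_chi δ).contDiffAt.comp X ((contDiffAt_Phi hD he hw).comp X hF), ?_⟩
    have hFd : HasFDerivAt F (fderiv ℝ F X) X := (hF.differentiableAt two_ne_zero).hasFDerivAt
    have hev : ∀ v, dd (fun Y => chi δ (Phi D e (F Y))) v =ᶠ[𝓝 X]
        fun Y => chi1 δ (Phi D e (F Y)) * -⟪XX D e (F Y), fderiv ℝ F Y v⟫_ℝ := by
      intro v
      filter_upwards [hF.continuousAt.preimage_mem_nhds (isOpen_off.mem_nhds hw),
        hF.eventually (by simp)] with Y hY hY2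
      have h1 := (hasFDerivAt_Phi hD he hY).comp Y (hY2.differentiableAt two_ne_zero).hasFDerivAt
      have h2 := (hasDerivAt_chi δ (Phi D e (F Y))).comp_hasFDerivAt Y h1
      have h3 : fderiv ℝ (fun Y => chi δ (Phi D e (F Y))) Y = _ := h2.fderiv
      simp [dd, h3]
    have hsec : ∀ v, dd (dd (fun Y => chi δ (Phi D e (F Y))) v) v X
        = chi2 δ (Phi D e (F X)) * ⟪XX D e (F X), fderiv ℝ F X v⟫_ℝ ^ 2
          + chi1 δ (Phi D e (F X)) * (⟪(-fderiv ℝ (XX D e) (F X)) (fderiv ℝ F X v), fderiv ℝ F X v⟫_ℝ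
            - ⟪XX D e (F X), fderiv ℝ (fun Y => fderiv ℝ F Y v) X v⟫_ℝ) := by
      intro v
      have h1 := (hasFDerivAt_Phi hD he hw).comp X hFd
      have h2 := (hasDerivAt_chi1 δ (Phi D e (F X))).comp_hasFDerivAt X h1
      have h3 := ((contDiffAt_XX hD he hw).differentiableAt two_ne_zero).hasFDerivAt.comp X hFd
      have h4 : HasFDerivAt (fun Y => fderiv ℝ F Y v) (fderiv ℝ (fun Y => fderiv ℝ F Y v) X) X :=
        (((hF.fderiv_right (m := 1) (by norm_num)).clm_apply contDiffAt_const).differentiableAt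
          one_ne_zero).hasFDerivAt
      have h5 := (h2.mul (h3.inner ℝ h4).neg).congr_of_eventuallyEq (hev v)
      have h6 : fderiv ℝ (dd (fun Y => chi δ (Phi D e (F Y))) v) X = _ := h5.fderiv
      rw [dd, h6]
      simp
      ring
    simp_rw [hsec]
    rw [Finset.sum_add_distrib, ← Finset.mul_sum, ← Finset.mul_sum, Finset.sum_sub_distrib,
      ← inner_sum, hlap, inner_zero_right, sub_zero]
    exact add_nonneg (mul_nonneg (chi2_nonneg _ _) (Finset.sum_nonneg fun i _ => sq_nonneg _))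
      (mul_nonneg (chi1_nonneg _ _) (hess_ineq b hcard hD he hw _ hA hAtr))
  · have h0 : (fun Y => chi δ (Phi D e (F Y))) =ᶠ[𝓝 X] fun _ => 0 := by
      have hc : ContinuousAt (fun Y => Phi D e (F Y)) X :=
        (continuous_Phi hD).continuousAt.comp hF.continuousAt
      have hlt : Phi D e (F X) < δ := by rw [Phi_eq_zero hD he hw]; exact hδ
      filter_upwards [hc.eventually (gt_mem_nhds hlt)] with Y hY
      exact chi_zero hY.le
    refine ⟨contDiffAt_const.congr_of_eventuallyEq h0, le_of_eq (Finset.sum_eq_zero ?_).symm⟩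
    intro i _
    have h1 : dd (fun Y => chi δ (Phi D e (F Y))) (b i) =ᶠ[𝓝 X] fun _ => 0 := by
      filter_upwards [h0.fderiv (𝕜 := ℝ)] with Y hY
      simp [dd, hY]
    rw [dd, h1.fderiv_eq]
    simp

end Pool.Agent.Lib.MP_fc0ae9_an
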