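import Pool.Agent.Lib.MP_fc0ae9_an.StAlg
import Pool.Agent.Results.MP_fc0ae9_an.PositiveThreshold

/-! Analytic definitions for the two-jet calibration. -/

namespace Pool.Agent.Lib.MP_fc0ae9_an.St

open scoped InnerProductSpace ContDiff
open Pool.Agent.Results.MP_fc0ae9_an.PositiveThreshold

/-- The ambient space. -/
abbrev EE (d : ℕ) : Type := EuclideanSpace ℝ (Fin (d + 1))

/-- The boundary. -/
abbrev Ed (d : ℕ) : Type := EuclideanSpace ℝ (Fin d)

variable {d : ℕ}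

/-- The unit vectors. -/
noncomputable def ev (l : Fin (d + 1)) : EE d := EuclideanSpace.single l 1

/-- Smooth harmonic functions on the half-space. -/
def Har (u : EE d → ℝ) : Prop :=
  ∀ X ∈ halfSpace d, ContDiffAt ℝ ∞ u X ∧ ∑ k, pd k (pd k u) X = 0

/-- Smooth solutions of the Cauchy-Riemann system of Stein and Weiss. -/
structure CR (F : Fin (d + 1) → EE d → ℝ) : Prop where
  har : ∀ i, Har (F i)
  sym : ∀ X ∈ halfSpace d, ∀ i j, pd i (F j) X = pd j (F i) X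
  div : ∀ X ∈ halfSpace d, ∑ i, pd i (F i) X = 0

/-- The scaled first derivatives. -/
noncomputable def jA (F : Fin (d + 1) → EE d → ℝ) (X : EE d) :
    Vc (Fin (d + 1) × Fin (d + 1)) :=
  WithLp.toLp 2 fun p => X 0 * pd p.2 (F p.1) X

/-- The scaled second derivatives. -/
noncomputable def jS (F : Fin (d + 1) → EE d → ℝ) (X : EE d) :
    Vc (Fin (d + 1) × Fin (d + 1) × Fin (d + 1)) :=
  WithLp.toLp 2 fun p => X 0 ^ 2 * pd p.2.2 (pd p.2.1 (F p.1)) X

/-- The scaled third derivatives. -/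
noncomputable def jR (F : Fin (d + 1) → EE d → ℝ) (X : EE d) (i j k l : Fin (d + 1)) : ℝ :=
  X 0 ^ 3 * pd l (pd k (pd j (F i))) X

/-- The scaled two-jet. -/
noncomputable def jet (F : Fin (d + 1) → EE d → ℝ) (X : EE d) : Jet (Fin (d + 1)) :=
  (vec F X, jA F X, jS F X)

/-- A bound for the jet and its scaled derivative. -/
def JB (F : Fin (d + 1) → EE d → ℝ) (X : EE d) (m : ℝ) : Prop :=
  ‖jet F X‖ ≤ m ∧ ∀ l, X 0 * ‖fderiv ℝ (jet F) X (ev l)‖ ≤ m

/-- `f'` is the scaled partial derivative of `f`. -/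
def HD (l : Fin (d + 1)) (f : EE d → ℝ) (X : EE d) (f' : ℝ) : Prop :=
  DifferentiableAt ℝ f X ∧ X 0 * pd l f X = f'

/-- Local domination of a function and its gradient on slabs. -/
def Dom (W : EE d → ℝ) : Prop :=
  (∀ X ∈ halfSpace d, ContDiffAt ℝ 1 W X) ∧ ∀ t₁ t₂ : ℝ, 0 < t₁ → ∃ h : Ed d → ℝ,
    MeasureTheory.Integrable h ∧ ∀ᵐ x, ∀ t ∈ Set.Icc t₁ t₂,
      |W (pt t x)| ≤ h x ∧ ∀ l, |pd l W (pt t x)| ≤ h x

/-- The radial weight of the mean value formula. -/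
noncomputable def bump (y : EE d) : ℝ := expNegInvGlue (1 - ‖y‖ ^ 2)

lemma pt_zero (t : ℝ) (x : Ed d) : pt t x 0 = t := rfl

lemma pt_succ (t : ℝ) (x : Ed d) (j : Fin d) : pt t x j.succ = x j := rfl

lemma pt_mem {t : ℝ} (ht : 0 < t) (x : Ed d) : pt t x ∈ halfSpace d := ht

lemma exists_pt (X : EE d) : ∃ x : Ed d, X = pt (X 0) x := by
  refine ⟨WithLp.toLp 2 fun j => X j.succ, ?_⟩
  ext i
  refine Fin.cases ?_ (fun j => ?_) i <;> rfl

lemma dist_pt_sq (s t : ℝ) (x y : Ed d) :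
    dist (pt s x) (pt t y) ^ 2 = (s - t) ^ 2 + dist x y ^ 2 := by
  simp only [EuclideanSpace.dist_sq_eq, Fin.sum_univ_succ, pt_zero, pt_succ, Real.dist_eq, sq_abs]

lemma norm_ev (l : Fin (d + 1)) : ‖(ev l : EE d)‖ = 1 := by simp [ev]

lemma inner_ev (l : Fin (d + 1)) (w : EE d) : ⟪ev l, w⟫_ℝ = w l := by
  simp [ev, EuclideanSpace.inner_single_left]

lemma ev_apply (l i : Fin (d + 1)) : (ev l : EE d) i = if i = l then 1 else 0 := by
  simp [ev]

lemma pd_eq (l : Fin (d + 1)) (u : EE d → ℝ) (X : EE d) : pd l u X = fderiv ℝ u X (ev l) := rfl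

lemma vec_apply (F : Fin (d + 1) → EE d → ℝ) (X : EE d) (i : Fin (d + 1)) : vec F X i = F i X :=
  rfl

lemma jA_apply (F : Fin (d + 1) → EE d → ℝ) (X : EE d) (i j : Fin (d + 1)) :
    jA F X (i, j) = X 0 * pd j (F i) X := rfl

lemma jS_apply (F : Fin (d + 1) → EE d → ℝ) (X : EE d) (i j k : Fin (d + 1)) :
    jS F X (i, j, k) = X 0 ^ 2 * pd k (pd j (F i)) X := rfl

end Pool.Agent.Lib.MP_fc0ae9_an.St
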