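import Pool.Agent.Lib.MP_fc0ae9_an.StA

/-! Pointwise bounds for the density and the flux. -/

namespace Pool.Agent.Lib.MP_fc0ae9_an.St

open scoped InnerProductSpace Topology
open Filter

lemma sq_rpow_half {x : ℝ} (hx : 0 ≤ x) (q : ℝ) : (x ^ 2) ^ (q / 2) = x ^ q := by
  rw [← Real.rpow_natCast, ← Real.rpow_mul hx]
  congr 1
  push_cast
  ring

lemma rpow_sub_le {s L x δ q : ℝ} (hs : 0 ≤ s) (hL : 0 ≤ L) (hx : 0 ≤ x) (hδ : 0 < δ) (hq : 0 < q)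
    (hq1 : q ≤ 1) (h : s ≤ L * x ^ 2) : (s + δ ^ 2) ^ (q / 2) - δ ^ q ≤ L ^ (q / 2) * x ^ q := by
  have h1 := Real.rpow_add_le_add_rpow hs (sq_nonneg δ) (p := q / 2) (by linarith) (by linarith)
  have h2 := Real.rpow_le_rpow hs h (show 0 ≤ q / 2 by linarith)
  rw [Real.mul_rpow hL (sq_nonneg x), sq_rpow_half hx] at h2
  rw [sq_rpow_half hδ.le] at h1
  linarith

/- Sketch. N = NN. Th = VV + 2 eps q GG - eps q N^(q/2-2) w0 <e,Y> and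
|w0 <e,Y>| <= (3k+c) a^2 |w|^2 <= (3k+c) a^2 N, so |Th - VV| <= C GG.
(s + d^2)^(q/2) - d^q <= s^(q/2) (Real.rpow_add_le_add_rpow), s <= (1 + eps b + eps) |j|^2.
GG <= (eps a^2)^(q/2-1) a^2 = eps^(q/2-1) a^q (a = 0 separately).
N^(q/2) = N^(q/2-1) (N0 + eps a^2) <= N0^(q/2) + eps GG with N0 = |w|^2 + eps b w0^2 + d^2 <= N. -/
theorem ptw {ι : Type} [Fintype ι] {ε b k c q : ℝ} (hε : 0 < ε) (hb : 0 ≤ b) (hk : 0 ≤ k)
    (hc : 0 ≤ c) (hq : 0 < q) (hq1 : q ≤ 1) : ∃ C : ℝ, 0 < C ∧ ∀ δ : ℝ, 0 < δ →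
      ∀ (e : Vc ι) (j : Jet ι), ‖e‖ = 1 →
      |VV ε b δ q e j| ≤ C * ‖j‖ ^ q ∧ |Th ε b k c δ q e j| ≤ C * ‖j‖ ^ q ∧
      -(C * GG ε b δ q e j) ≤ Th ε b k c δ q e j ∧
      Th ε b k c δ q e j ≤ C * ‖j.1‖ ^ q + C * GG ε b δ q e j := by
  set L := 1 + ε * b + ε with hL
  have hεb : 0 ≤ ε * b := by positivity
  have hL0 : 0 ≤ L := by positivity
  set z := 2 * ε * q + ε * q * (3 * k + c) with hz
  have hz0 : 0 ≤ z := by positivity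
  have hLq : 0 ≤ L ^ (q / 2) := by positivity
  have hεq : 0 ≤ z * ε ^ (q / 2 - 1) := by positivity
  refine ⟨L ^ (q / 2) + z * ε ^ (q / 2 - 1) + z + ε, by positivity, fun δ hδ e j he => ?_⟩
  have hN := NN_pos hε.le hb hδ e j
  have hw0 : |⟪e, j.1⟫_ℝ| ≤ ‖j.1‖ := by simpa [he] using abs_real_inner_le_norm e j.1
  have hw2 : ⟪e, j.1⟫_ℝ ^ 2 ≤ ‖j.1‖ ^ 2 := by
    rw [← sq_abs]; exact pow_le_pow_left₀ (abs_nonneg _) hw0 2
  have hw3 : ε * b * ⟪e, j.1⟫_ℝ ^ 2 ≤ ε * b * ‖j.1‖ ^ 2 := mul_le_mul_of_nonneg_left hw2 hεb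
  have hw4 : 0 ≤ ε * b * ⟪e, j.1⟫_ℝ ^ 2 := by positivity
  have ha4 : 0 ≤ ε * ‖j.2.1‖ ^ 2 := by positivity
  have hj1 : ‖j.1‖ ≤ ‖j‖ := norm_fst_le j
  have hj2 : ‖j.2.1‖ ≤ ‖j‖ := (norm_fst_le j.2).trans (norm_snd_le j)
  have hG0 : 0 ≤ GG ε b δ q e j := mul_nonneg (Real.rpow_pos_of_pos hN _).le (sq_nonneg _)
  have hTh : Th ε b k c δ q e j = VV ε b δ q e j + 2 * ε * q * GG ε b δ q e j -
      ε * q * (NN ε b δ e j ^ (q / 2 - 2) * (⟪e, j.1⟫_ℝ * ⟪e, Yv k c j.1 j.2.1⟫_ℝ)) := by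
    simp only [Th, WW, GG, inner_add_right, inner_sub_right, real_inner_smul_right,
      real_inner_self_eq_norm_sq, he]
    ring
  have hZ : |NN ε b δ e j ^ (q / 2 - 2) * (⟪e, j.1⟫_ℝ * ⟪e, Yv k c j.1 j.2.1⟫_ℝ)| ≤
      (3 * k + c) * GG ε b δ q e j := by
    have h1 : |⟪e, Yv k c j.1 j.2.1⟫_ℝ| ≤ (3 * k + c) * ‖j.2.1‖ ^ 2 * ‖j.1‖ := by
      refine le_trans ?_ (norm_Yv_le hk hc _ _)
      simpa [he] using abs_real_inner_le_norm e (Yv k c j.1 j.2.1)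
    have h2 : ‖j.1‖ ^ 2 ≤ NN ε b δ e j := by unfold NN; linarith [sq_nonneg δ]
    have h3 : NN ε b δ e j ^ (q / 2 - 1) = NN ε b δ e j ^ (q / 2 - 2) * NN ε b δ e j := by
      rw [← Real.rpow_add_one hN.ne']; congr 1; ring
    rw [abs_mul, abs_of_pos (Real.rpow_pos_of_pos hN _), abs_mul, GG, h3]
    calc _ ≤ NN ε b δ e j ^ (q / 2 - 2) * (‖j.1‖ * ((3 * k + c) * ‖j.2.1‖ ^ 2 * ‖j.1‖)) :=
          mul_le_mul_of_nonneg_left (mul_le_mul hw0 h1 (abs_nonneg _) (norm_nonneg _))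
            (Real.rpow_pos_of_pos hN _).le
      _ = (3 * k + c) * (NN ε b δ e j ^ (q / 2 - 2) * ‖j.1‖ ^ 2 * ‖j.2.1‖ ^ 2) := by ring
      _ ≤ _ := by gcongr
  have hTV : |Th ε b k c δ q e j - VV ε b δ q e j| ≤ z * GG ε b δ q e j := by
    have h1 := mul_le_mul_of_nonneg_left (abs_le.1 hZ).1 (show 0 ≤ ε * q by positivity)
    have h2 := mul_le_mul_of_nonneg_left (abs_le.1 hZ).2 (show 0 ≤ ε * q by positivity)
    have h3 : 0 ≤ ε * q * GG ε b δ q e j := by positivity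
    rw [hTh, hz, abs_le]
    constructor <;> linarith
  have hV0 : 0 ≤ VV ε b δ q e j := by
    rw [VV, sub_nonneg, ← sq_rpow_half hδ.le]
    refine Real.rpow_le_rpow (sq_nonneg _) ?_ (by linarith)
    unfold NN; linarith [sq_nonneg ‖j.1‖]
  have hV1 : VV ε b δ q e j ≤ L ^ (q / 2) * ‖j‖ ^ q := by
    refine rpow_sub_le (by positivity) hL0 (norm_nonneg _) hδ hq hq1 ?_
    have h1 := pow_le_pow_left₀ (norm_nonneg _) hj1 2
    have h2 := mul_le_mul_of_nonneg_left (pow_le_pow_left₀ (norm_nonneg _) hj2 2) hε.le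
    have h3 := mul_le_mul_of_nonneg_left h1 hεb
    rw [hL]; linarith
  have hG1 : GG ε b δ q e j ≤ ε ^ (q / 2 - 1) * ‖j‖ ^ q := by
    refine le_trans ?_ (mul_le_mul_of_nonneg_left (Real.rpow_le_rpow (norm_nonneg _) hj2 hq.le)
      (by positivity))
    rcases (norm_nonneg j.2.1).eq_or_lt with h | h
    · rw [GG, ← h, Real.zero_rpow hq.ne']; simp
    · have h1 : NN ε b δ e j ^ (q / 2 - 1) ≤ (ε * ‖j.2.1‖ ^ 2) ^ (q / 2 - 1) := by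
        refine Real.rpow_le_rpow_of_nonpos (by positivity) ?_ (by linarith)
        unfold NN; linarith [sq_nonneg δ, sq_nonneg ‖j.1‖]
      refine (mul_le_mul_of_nonneg_right h1 (sq_nonneg _)).trans_eq ?_
      rw [Real.mul_rpow hε.le (sq_nonneg _), mul_assoc, ← Real.rpow_add_one (by positivity),
        sub_add_cancel, sq_rpow_half h.le]
  have hV2 : VV ε b δ q e j ≤ L ^ (q / 2) * ‖j.1‖ ^ q + ε * GG ε b δ q e j := by
    have h0 : 0 < ‖j.1‖ ^ 2 + ε * b * ⟪e, j.1⟫_ℝ ^ 2 + δ ^ 2 := by positivity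
    have h1 := rpow_sub_le (s := ‖j.1‖ ^ 2 + ε * b * ⟪e, j.1⟫_ℝ ^ 2) (by positivity) hL0
      (norm_nonneg j.1) hδ hq hq1 (by
        have : 0 ≤ ε * ‖j.1‖ ^ 2 := by positivity
        rw [hL]; linarith)
    have h2 : NN ε b δ e j ^ (q / 2 - 1) ≤
        (‖j.1‖ ^ 2 + ε * b * ⟪e, j.1⟫_ℝ ^ 2 + δ ^ 2) ^ (q / 2 - 1) := by
      refine Real.rpow_le_rpow_of_nonpos h0 ?_ (by linarith)
      unfold NN; linarith
    have h3 := mul_le_mul_of_nonneg_right h2 h0.le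
    rw [← Real.rpow_add_one h0.ne', sub_add_cancel] at h3
    have h4 : NN ε b δ e j ^ (q / 2) = NN ε b δ e j ^ (q / 2 - 1) *
        ((‖j.1‖ ^ 2 + ε * b * ⟪e, j.1⟫_ℝ ^ 2 + δ ^ 2) + ε * ‖j.2.1‖ ^ 2) := by
      conv_lhs => rw [← sub_add_cancel (q / 2) 1, Real.rpow_add_one hN.ne']
      congr 1
      unfold NN; ring
    rw [VV, GG, h4]
    linarith
  have hjq : 0 ≤ ‖j‖ ^ q := by positivity
  have hwq : 0 ≤ ‖j.1‖ ^ q := by positivity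
  have hG2 := mul_le_mul_of_nonneg_left hG1 hz0
  obtain ⟨h1, h2⟩ := abs_le.1 hTV
  have a1 := mul_nonneg hLq hjq
  have a2 := mul_nonneg hεq hjq
  have a3 := mul_nonneg hz0 hjq
  have a4 := mul_nonneg hε.le hjq
  have b1 := mul_nonneg hLq hG0
  have b2 := mul_nonneg hεq hG0
  have b4 := mul_nonneg hε.le hG0
  have c2 := mul_nonneg hεq hwq
  have c3 := mul_nonneg hz0 hwq
  have c4 := mul_nonneg hε.le hwq
  refine ⟨?_, abs_le.2 ⟨?_, ?_⟩, ?_, ?_⟩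
  · rw [abs_of_nonneg hV0]; linarith
  all_goals linarith

end Pool.Agent.Lib.MP_fc0ae9_an.St
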