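import Pool.Agent.Lib.MP_fc0ae9_an.StAlg

/-! The calibration inequality away from the degenerate regime. -/

namespace Pool.Agent.Lib.MP_fc0ae9_an.St

open scoped InnerProductSpace

variable {E : Type} [NormedAddCommGroup E] [InnerProductSpace ℝ E]

/- Sketch. rho = theta nu, gamma = (1 - rho)/2, x = 1 - r^2 with r = |w|, eps a^2 <= x.
|p + eps s|^2 <= |p|^2 + 2 eps |p| |s| + eps^2 |s|^2, theta |p|^2 <= a^2 r^2,
theta eps^2 |s|^2 <= rho x eps tau^2, and (2 theta eps |p| |s|)^2 <= 4 rho r^2 (a^2 x) (eps tau^2)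
<= (X + Y)^2 for X = (1 - gamma) a^2 x, Y = rho r^2 eps tau^2 / (1 - gamma).
Finally 1 - rho x - rho r^2 / (1 - gamma) >= gamma. -/
theorem caseA_main {θ ν : ℝ} (hθ : 0 ≤ θ) (hν : 0 ≤ ν) (h : θ * ν < 1) {ε a τ : ℝ} (hε : 0 < ε)
    (ha : 0 ≤ a) (hτ : 0 ≤ τ) {w p σ : E} (hp : θ * ‖p‖ ^ 2 ≤ a ^ 2 * ‖w‖ ^ 2)
    (hσ : ‖σ‖ ^ 2 ≤ ν * a ^ 2 * τ ^ 2) (hN : ‖w‖ ^ 2 + ε * a ^ 2 ≤ 1) :
    (1 - θ * ν) / 2 * (a ^ 2 * (1 - ‖w‖ ^ 2) + ε * τ ^ 2) ≤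
      a ^ 2 + ε * τ ^ 2 - θ * ‖p + ε • σ‖ ^ 2 := by
  set ρ := θ * ν with hρ
  have hρ0 : 0 ≤ ρ := mul_nonneg hθ hν
  set r2 := ‖w‖ ^ 2 with hr2
  have hr0 : 0 ≤ r2 := sq_nonneg _
  have hεa : 0 ≤ ε * a ^ 2 := by positivity
  have hx : ε * a ^ 2 ≤ 1 - r2 := by linarith
  have hc : 0 < (1 + ρ) / 2 := by linarith
  have h1 : ‖p + ε • σ‖ ≤ ‖p‖ + ε * ‖σ‖ := by
    refine (norm_add_le _ _).trans ?_
    rw [norm_smul, Real.norm_of_nonneg hε.le]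
  have h2 : θ * ‖p + ε • σ‖ ^ 2 ≤ θ * (‖p‖ + ε * ‖σ‖) ^ 2 :=
    mul_le_mul_of_nonneg_left (pow_le_pow_left₀ (norm_nonneg _) h1 2) hθ
  have h3 : θ * ‖σ‖ ^ 2 ≤ ρ * a ^ 2 * τ ^ 2 := by
    have := mul_le_mul_of_nonneg_left hσ hθ
    rw [hρ]; linarith
  have h4 : ε ^ 2 * (θ * ‖σ‖ ^ 2) ≤ ρ * (1 - r2) * (ε * τ ^ 2) := by
    calc _ ≤ ε ^ 2 * (ρ * a ^ 2 * τ ^ 2) := mul_le_mul_of_nonneg_left h3 (sq_nonneg _)
      _ = ρ * (ε * a ^ 2) * (ε * τ ^ 2) := by ring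
      _ ≤ _ := mul_le_mul_of_nonneg_right (mul_le_mul_of_nonneg_left hx hρ0) (by positivity)
  set X := (1 + ρ) / 2 * (a ^ 2 * (1 - r2)) with hX
  set Y := ρ * r2 / ((1 + ρ) / 2) * (ε * τ ^ 2) with hY
  have hX0 : 0 ≤ X := mul_nonneg hc.le (mul_nonneg (sq_nonneg _) (by linarith))
  have hY0 : 0 ≤ Y := by positivity
  have h5 : 2 * θ * ε * ‖p‖ * ‖σ‖ ≤ X + Y := by
    refine (abs_le_of_sq_le_sq' ?_ (add_nonneg hX0 hY0)).2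
    have h6 : X * Y = a ^ 2 * r2 * (ρ * (1 - r2) * (ε * τ ^ 2)) := by
      rw [hX, hY]; field_simp
    calc (2 * θ * ε * ‖p‖ * ‖σ‖) ^ 2 = 4 * ((θ * ‖p‖ ^ 2) * (ε ^ 2 * (θ * ‖σ‖ ^ 2))) := by ring
      _ ≤ 4 * (X * Y) := by
          rw [h6]
          exact mul_le_mul_of_nonneg_left (mul_le_mul hp h4 (by positivity) (by positivity))
            (by norm_num)
      _ ≤ _ := by linarith only [sq_nonneg (X - Y)]
  have h7 : ρ * r2 / ((1 + ρ) / 2) ≤ ρ * r2 + (1 - ρ) / 2 := by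
    rw [div_le_iff₀ hc]
    have h8 : ρ * r2 ≤ (1 + ρ) / 2 := by
      have := mul_le_mul_of_nonneg_left (show r2 ≤ 1 by linarith) hρ0
      linarith
    have := mul_le_mul_of_nonneg_left h8 (show 0 ≤ (1 - ρ) / 2 by linarith)
    linarith
  have h9 : Y ≤ (ρ * r2 + (1 - ρ) / 2) * (ε * τ ^ 2) :=
    mul_le_mul_of_nonneg_right h7 (by positivity)
  rw [hX] at h5
  linarith

lemma abs_mul_le2 {x y X Y : ℝ} (hx : |x| ≤ X) (hy : |y| ≤ Y) : |x * y| ≤ X * Y := by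
  rw [abs_mul]; exact mul_le_mul hx hy (abs_nonneg _) ((abs_nonneg _).trans hx)

lemma abs_inner_le2 {u v : E} {X Y : ℝ} (hx : ‖u‖ ≤ X) (hy : ‖v‖ ≤ Y) : |⟪u, v⟫_ℝ| ≤ X * Y :=
  (abs_real_inner_le_norm u v).trans (mul_le_mul hx hy (norm_nonneg _) ((norm_nonneg _).trans hx))

/- Sketch. Put m = sqrt eps <= 1, m a <= 1, t = m tau, u = p + eps s, h = b w0 q + a^2 e, so that
gabs = u + eps h. Then |u| <= a + t, eps |h| <= m (b + 1) a, |gabs| <= (b + 2) (a + t), eps a^2 <= m a,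
eps a^3 <= m a^2, eps a tau = m a t, eps <= m. Fabs = (a^2 + eps tau^2 - theta |u|^2)
- theta (2 eps <u,h> + eps^2 |h|^2) + eps (remaining terms), every term after the first bracket is at most
C m (a + t)^2 <= 2 C m (a^2 + t^2) in absolute value. Use caseA_main for the first bracket. -/
theorem caseA {θ ν b k c y : ℝ} (hθ : 1 ≤ θ) (hθ2 : θ ≤ 2) (hν : 0 ≤ ν) (h : θ * ν < 1)
    (hb : 0 ≤ b) (hk : 0 ≤ k) (hc : 0 ≤ c) (hy : 0 ≤ y) :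
    ∃ C : ℝ, 0 ≤ C ∧ ∀ ε : ℝ, 0 < ε → ε ≤ 1 → ∀ (e w p q σ Y : E) (a τ tr : ℝ), ‖e‖ = 1 →
      0 ≤ a → 0 ≤ τ → θ * ‖p‖ ^ 2 ≤ a ^ 2 * ‖w‖ ^ 2 → ‖q‖ ≤ a → ‖σ‖ ^ 2 ≤ ν * a ^ 2 * τ ^ 2 →
      ‖Y‖ ≤ y * a ^ 2 → |tr| ≤ a ^ 3 → ‖w‖ ^ 2 + ε * a ^ 2 ≤ 1 →
      (1 - θ * ν) / 2 * (a ^ 2 * (1 - ‖w‖ ^ 2) + ε * τ ^ 2) - C * √ε * (a ^ 2 + ε * τ ^ 2) ≤
        Fabs ε b k c θ 1 e w p q σ Y (a ^ 2) (τ ^ 2) tr := by
  refine ⟨2 * (4 * (b + 1) + 2 * (b + 1) ^ 2 + 3 + 4 * (b + 2) + y + 2 * k + 2 * c + 2 * y +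
    4 * y * (b + 2)), by positivity, ?_⟩
  intro ε hε hε1 e w p q σ Y a τ tr he ha hτ hp hq hσ hY htr hN
  have hmain := caseA_main (by linarith) hν h hε ha hτ hp hσ hN
  obtain ⟨m, hm0, rfl⟩ : ∃ m : ℝ, 0 < m ∧ ε = m ^ 2 :=
    ⟨√ε, Real.sqrt_pos.2 hε, (Real.sq_sqrt hε.le).symm⟩
  rw [Real.sqrt_sq hm0.le]
  have hm1 : m ≤ 1 := (sq_le_one_iff₀ hm0.le).1 hε1
  have hw : ‖w‖ ≤ 1 := (sq_le_one_iff₀ (norm_nonneg _)).1 (by nlinarith [sq_nonneg (m * a)])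
  have hma : m * a ≤ 1 := (sq_le_one_iff₀ (by positivity)).1 (by nlinarith [sq_nonneg ‖w‖])
  have hp' : ‖p‖ ≤ a := by
    refine (abs_le_of_sq_le_sq' ?_ ha).2
    have h1 : ‖p‖ ^ 2 ≤ θ * ‖p‖ ^ 2 := le_mul_of_one_le_left (sq_nonneg _) hθ
    have h2 : a ^ 2 * ‖w‖ ^ 2 ≤ a ^ 2 :=
      mul_le_of_le_one_right (sq_nonneg _) ((sq_le_one_iff₀ (norm_nonneg _)).2 hw)
    linarith
  have hσ' : ‖σ‖ ≤ a * τ := by
    refine (abs_le_of_sq_le_sq' (hσ.trans ?_) (by positivity)).2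
    have h1 : ν ≤ 1 := (le_mul_of_one_le_left hν hθ).trans h.le
    rw [mul_pow, mul_assoc]
    exact mul_le_of_le_one_left (by positivity) h1
  have hw0 : |⟪e, w⟫_ℝ| ≤ 1 := by simpa using abs_inner_le2 he.le hw
  set T := a + m * τ with hT
  have haT : a ≤ T := le_add_of_nonneg_right (by positivity)
  have htT : m * τ ≤ T := le_add_of_nonneg_left ha
  have hT0 : 0 ≤ T := ha.trans haT
  have hεa : m ^ 2 * a ≤ m := by
    rw [sq, mul_assoc]; exact mul_le_of_le_one_right hm0.le hma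
  have hεm : m ^ 2 ≤ m := by rw [sq]; exact mul_le_of_le_one_right hm0.le hm1
  have hU : ‖p + m ^ 2 • σ‖ ≤ T := by
    refine (norm_add_le _ _).trans (add_le_add hp' ?_)
    rw [norm_smul, Real.norm_of_nonneg hε.le]
    calc _ ≤ m ^ 2 * (a * τ) := mul_le_mul_of_nonneg_left hσ' hε.le
      _ = m ^ 2 * a * τ := by ring
      _ ≤ _ := mul_le_mul_of_nonneg_right hεa hτ
  have hH : ‖m ^ 2 • ((b * ⟪e, w⟫_ℝ) • q + a ^ 2 • e)‖ ≤ m * ((b + 1) * T) := by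
    have h1 : ‖(b * ⟪e, w⟫_ℝ) • q‖ ≤ b * 1 * a := by
      rw [norm_smul]
      exact mul_le_mul (abs_mul_le2 (abs_of_nonneg hb).le hw0) hq (norm_nonneg _) (by positivity)
    have h2 : ‖a ^ 2 • e‖ = a ^ 2 := by
      rw [norm_smul, he, mul_one, Real.norm_of_nonneg (sq_nonneg a)]
    rw [norm_smul, Real.norm_of_nonneg hε.le]
    calc _ ≤ m ^ 2 * (b * 1 * a + a ^ 2) :=
          mul_le_mul_of_nonneg_left ((norm_add_le _ _).trans (add_le_add h1 h2.le)) hε.le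
      _ = m ^ 2 * (b * a) + m ^ 2 * a * a := by ring
      _ ≤ m * (b * a) + m * a := add_le_add (mul_le_mul_of_nonneg_right hεm (by positivity))
          (mul_le_mul_of_nonneg_right hεa ha)
      _ = m * ((b + 1) * a) := by ring
      _ ≤ _ := by gcongr
  have hg : gabs (m ^ 2) b e w p q σ (a ^ 2) =
      (p + m ^ 2 • σ) + m ^ 2 • ((b * ⟪e, w⟫_ℝ) • q + a ^ 2 • e) := by
    unfold gabs; module
  unfold Fabs
  simp only [div_one, one_pow]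
  generalize gabs (m ^ 2) b e w p q σ (a ^ 2) = g at *
  generalize p + m ^ 2 • σ = u at *
  generalize m ^ 2 • ((b * ⟪e, w⟫_ℝ) • q + a ^ 2 • e) = v at *
  have hgu : ‖g‖ ≤ ‖u‖ + m * ((b + 1) * T) := hg ▸ (norm_add_le _ _).trans (add_le_add le_rfl hH)
  have hG : ‖g‖ ≤ (b + 2) * T := by
    have : m * ((b + 1) * T) ≤ (b + 1) * T := mul_le_of_le_one_left (by positivity) hm1
    linarith
  have hθ0 : 0 ≤ θ := by linarith
  have A1 : θ * ‖g‖ ^ 2 ≤ θ * ‖u‖ ^ 2 + (4 * (b + 1) + 2 * (b + 1) ^ 2) * (m * T ^ 2) := by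
    have h1 : ‖g‖ ^ 2 ≤ ‖u‖ ^ 2 + (2 * (b + 1) + (b + 1) ^ 2) * (m * T ^ 2) := by
      have h2 := pow_le_pow_left₀ (norm_nonneg _) hgu 2
      have h3 : ‖u‖ * (m * ((b + 1) * T)) ≤ T * (m * ((b + 1) * T)) :=
        mul_le_mul_of_nonneg_right hU (by positivity)
      have h4 : m ^ 2 * ((b + 1) * T) ^ 2 ≤ m * ((b + 1) * T) ^ 2 :=
        mul_le_mul_of_nonneg_right hεm (by positivity)
      linarith only [h2, h3, h4]
    have h5 := mul_le_mul_of_nonneg_left h1 hθ0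
    have h6 : θ * ((2 * (b + 1) + (b + 1) ^ 2) * (m * T ^ 2)) ≤
        2 * ((2 * (b + 1) + (b + 1) ^ 2) * (m * T ^ 2)) :=
      mul_le_mul_of_nonneg_right hθ2 (by positivity)
    linarith only [h5, h6]
  have hTT : a ^ 2 ≤ T ^ 2 := pow_le_pow_left₀ ha haT 2
  have B1 : m ^ 2 * a ^ 2 ≤ m * T ^ 2 := mul_le_mul hεm hTT (sq_nonneg _) hm0.le
  have B2 : m ^ 2 * a ^ 2 * T ≤ m * T ^ 2 := by
    calc _ = m ^ 2 * a * (a * T) := by ring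
      _ ≤ m * (T * T) := by gcongr
      _ = _ := by ring
  have B3 : m ^ 2 * a ^ 3 ≤ m * T ^ 2 := by
    calc _ = m ^ 2 * a * a ^ 2 := by ring
      _ ≤ _ := mul_le_mul hεa hTT (sq_nonneg _) hm0.le
  have B4 : m ^ 2 * (a * τ) ≤ m * T ^ 2 := by
    calc _ = m * (a * (m * τ)) := by ring
      _ ≤ m * (T * T) := by gcongr
      _ = _ := by ring
  have hε' : |m ^ 2| ≤ m ^ 2 := (abs_of_nonneg hε.le).le
  have h2 : |(2 : ℝ)| ≤ 2 := by norm_num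
  have h2θ : |2 * θ| ≤ 4 := by rw [abs_of_nonneg (by linarith)]; linarith
  have h4θ : |2 + θ| ≤ 4 := by rw [abs_of_nonneg (by linarith)]; linarith
  have haa : |a ^ 2| ≤ a ^ 2 := (abs_of_nonneg (sq_nonneg a)).le
  have C1 := (abs_le.1 (abs_mul_le2 hε' (abs_mul_le2 (abs_mul_le2 h2θ haa)
    (abs_inner_le2 he.le hG)))).1
  have C2 := (abs_le.1 (abs_mul_le2 hε' (abs_inner_le2 hq hY))).1
  have C3 := (abs_le.1 (abs_mul_le2 hε' (abs_mul_le2 (abs_mul_le2 h2 hw0)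
    (abs_mul_le2 (abs_of_nonneg hk).le htr)))).1
  have C4 := (abs_le.1 (abs_mul_le2 hε' (abs_mul_le2 (abs_mul_le2 h2 hw0)
    (abs_mul_le2 (abs_of_nonneg hc).le (abs_inner_le2 hσ' hw))))).1
  have C5 := (abs_le.1 (abs_mul_le2 hε' (abs_mul_le2 (abs_mul_le2 h2 hw0)
    (abs_inner_le2 he.le hY)))).1
  have C6 := (abs_le.1 (abs_mul_le2 hε' (abs_mul_le2 (abs_mul_le2 h4θ hw0)
    (abs_inner_le2 hY hG)))).2
  have C7 : 0 ≤ m ^ 2 * (b * ‖q‖ ^ 2) := by positivity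
  have D1 := mul_le_mul_of_nonneg_left B2 (show 0 ≤ 4 * (b + 2) by positivity)
  have D2 := mul_le_mul_of_nonneg_left B3 hy
  have D3 := mul_le_mul_of_nonneg_left B3 hk
  have D4 := mul_le_mul_of_nonneg_left B4 hc
  have D5 := mul_le_mul_of_nonneg_left B1 hy
  have D6 := mul_le_mul_of_nonneg_left B2 (show 0 ≤ 4 * y * (b + 2) by positivity)
  have hT2 : m * T ^ 2 ≤ m * (2 * (a ^ 2 + m ^ 2 * τ ^ 2)) :=
    mul_le_mul_of_nonneg_left (by rw [hT]; linarith only [sq_nonneg (a - m * τ)]) hm0.le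
  have F1 := mul_le_mul_of_nonneg_left hT2 (show 0 ≤ 4 * (b + 1) + 2 * (b + 1) ^ 2 + 3 +
    4 * (b + 2) + y + 2 * k + 2 * c + 2 * y + 4 * y * (b + 2) by positivity)
  linarith only [hmain, A1, B1, C1, C2, C3, C4, C5, C6, C7, D1, D2, D3, D4, D5, D6, F1]

end Pool.Agent.Lib.MP_fc0ae9_an.St
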