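import Pool.Agent.Lib.MP_fc0ae9_an.StA

/-! Expansion of the normalised divergence in powers of the small parameter. -/

namespace Pool.Agent.Lib.MP_fc0ae9_an.St

open scoped InnerProductSpace

variable {ι : Type} [Fintype ι]

/- Sketch (checked numerically). norm_add_sq_real for gabs = p + eps j, expand the inner products that
are linear in j only in the first order part, move A with inner_mv_comm, then ring. -/
theorem FF_expand (ε b k c θ r : ℝ) (e u : Vc ι) {A : Vc (ι × ι)}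
    (hA : ∀ i j, A (i, j) = A (j, i)) (S : Vc (ι × ι × ι)) :
    FF ε b k c θ 1 e (r • u) A S = ‖A‖ ^ 2 - θ * r ^ 2 * ‖mv A u‖ ^ 2 +
      ε * (Qr θ b k c r ⟪e, u⟫_ℝ ⟪u, mv A u⟫_ℝ ‖A‖ ‖S‖ (tr3 A) ⟪sg A S, u⟫_ℝ
        ⟪mv A u, sg A S⟫_ℝ (‖mv A e‖ ^ 2) ⟪e, mv A (mv A u)⟫_ℝ ⟪e, mv A (mv A (mv A u))⟫_ℝ
        ⟪e, mv A u⟫_ℝ ⟪u, mv A (mv A (mv A u))⟫_ℝ -
        b * r ^ 2 * ⟪e, u⟫_ℝ ^ 2 * ‖A‖ ^ 2 - ‖A‖ ^ 4) +
      ε ^ 2 * R2 b k c θ e (r • u) A S := by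
  have c1 : ⟪mv A u, mv A e⟫_ℝ = ⟪e, mv A (mv A u)⟫_ℝ := by
    rw [real_inner_comm, inner_mv_comm hA]
  have c2 : ⟪mv A e, mv A (mv A u)⟫_ℝ = ⟪e, mv A (mv A (mv A u))⟫_ℝ := inner_mv_comm hA _ _
  have c3 : ⟪mv A e, u⟫_ℝ = ⟪e, mv A u⟫_ℝ := inner_mv_comm hA _ _
  have c4 : ⟪mv A (mv A u), mv A u⟫_ℝ = ⟪u, mv A (mv A (mv A u))⟫_ℝ := by
    rw [inner_mv_comm hA, inner_mv_comm hA]
  have c5 : ⟪mv A u, e⟫_ℝ = ⟪e, mv A u⟫_ℝ := real_inner_comm _ _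
  have hw : ⟪e, r • u⟫_ℝ = r * ⟪e, u⟫_ℝ := real_inner_smul_right _ _ _
  have hp : mv A (r • u) = r • mv A u := mv_smul_right _ _ _
  have hY : Yv k c (r • u) A = r • Yv k c u A := Yv_smul_right _ _ _ _ _
  have h1 : ‖mv A (r • u)‖ ^ 2 = r ^ 2 * ‖mv A u‖ ^ 2 := by
    rw [hp, norm_smul, mul_pow, Real.norm_eq_abs, sq_abs]
  have h2 : ⟪mv A (r • u), (b * ⟪e, r • u⟫_ℝ) • mv A e + ‖A‖ ^ 2 • e + sg A S⟫_ℝ =
      r * (b * (r * ⟪e, u⟫_ℝ) * ⟪e, mv A (mv A u)⟫_ℝ + ‖A‖ ^ 2 * ⟪e, mv A u⟫_ℝ +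
        ⟪mv A u, sg A S⟫_ℝ) := by
    rw [hp, hw, real_inner_smul_left, inner_add_right, inner_add_right, real_inner_smul_right,
      real_inner_smul_right, c1, c5]
  have h3 : ⟪e, mv A (r • u)⟫_ℝ = r * ⟪e, mv A u⟫_ℝ := by rw [hp, real_inner_smul_right]
  have h4 : ⟪mv A e, Yv k c (r • u) A⟫_ℝ = r * (2 * k * ⟪e, mv A (mv A (mv A u))⟫_ℝ +
      (c - k) * ‖A‖ ^ 2 * ⟪e, mv A u⟫_ℝ) := by
    rw [hY, real_inner_smul_right, Yv, inner_add_right, real_inner_smul_right,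
      real_inner_smul_right, c2, c3]
  have h5 : ⟪sg A S, r • u⟫_ℝ = r * ⟪sg A S, u⟫_ℝ := real_inner_smul_right _ _ _
  have h6 : ⟪e, Yv k c (r • u) A⟫_ℝ = r * (2 * k * ⟪e, mv A (mv A u)⟫_ℝ +
      (c - k) * ‖A‖ ^ 2 * ⟪e, u⟫_ℝ) := by
    rw [hY, real_inner_smul_right, Yv, inner_add_right, real_inner_smul_right,
      real_inner_smul_right]
  have h7 : ⟪Yv k c (r • u) A, mv A (r • u)⟫_ℝ = r * (r * (2 * k * ⟪u, mv A (mv A (mv A u))⟫_ℝ +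
      (c - k) * ‖A‖ ^ 2 * ⟪u, mv A u⟫_ℝ)) := by
    rw [hY, hp, real_inner_smul_right, real_inner_smul_left, Yv, inner_add_left,
      real_inner_smul_left, real_inner_smul_left, c4]
  unfold FF Fabs gabs R2 Qr
  generalize (b * ⟪e, r • u⟫_ℝ) • mv A e + ‖A‖ ^ 2 • e + sg A S = J at h2 ⊢
  rw [norm_add_sq_real, real_inner_smul_right _ J ε, norm_smul ε J, mul_pow, Real.norm_eq_abs,
    sq_abs, inner_add_right e, real_inner_smul_right e J ε, inner_add_right (Yv k c (r • u) A),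
    real_inner_smul_right _ J ε, h1, h2, h3, h4, h5, h6, h7, hw]
  ring

/- Sketch. x = mv A u - l u. mv A (mv A u) - l^2 u = l x + mv A x, and
mv A (mv A (mv A u)) - l^3 u = l^2 x + mv A (mv A (mv A u) - l^2 u); norm_mv_le, |l| <= |A|,
abs_real_inner_le_norm, norm_sg_le. -/
theorem zonal_approx {A : Vc (ι × ι)} (S : Vc (ι × ι × ι)) {e u : Vc ι} (he : ‖e‖ = 1)
    (hu : ‖u‖ = 1) {l β : ℝ} (hl : l = ⟪u, mv A u⟫_ℝ) (h : ‖mv A u - l • u‖ ≤ β) :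
    |⟪mv A u, sg A S⟫_ℝ - l * ⟪sg A S, u⟫_ℝ| ≤ β * ‖A‖ * ‖S‖ ∧
      |⟪e, mv A (mv A u)⟫_ℝ - l ^ 2 * ⟪e, u⟫_ℝ| ≤ 2 * ‖A‖ * β ∧
      |⟪e, mv A (mv A (mv A u))⟫_ℝ - l ^ 3 * ⟪e, u⟫_ℝ| ≤ 3 * ‖A‖ ^ 2 * β ∧
      |⟪e, mv A u⟫_ℝ - l * ⟪e, u⟫_ℝ| ≤ β ∧
      |⟪u, mv A (mv A (mv A u))⟫_ℝ - l ^ 3| ≤ 3 * ‖A‖ ^ 2 * β := by
  have hn := norm_nonneg A
  have hβ : 0 ≤ β := (norm_nonneg _).trans h
  have hl' : |l| ≤ ‖A‖ := by
    rw [hl]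
    refine (abs_real_inner_le_norm _ _).trans ?_
    have := norm_mv_le A u
    rw [hu] at this ⊢
    linarith
  have e2 : mv A (mv A u) - l ^ 2 • u = l • (mv A u - l • u) + mv A (mv A u - l • u) := by
    rw [mv_sub_right, mv_smul_right, smul_sub, smul_smul, ← sq]
    abel
  have e3 : mv A (mv A (mv A u)) - l ^ 3 • u =
      l ^ 2 • (mv A u - l • u) + mv A (mv A (mv A u) - l ^ 2 • u) := by
    rw [mv_sub_right, mv_smul_right, smul_sub, smul_smul, ← pow_succ]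
    abel
  have n2 : ‖mv A (mv A u) - l ^ 2 • u‖ ≤ 2 * ‖A‖ * β := by
    rw [e2]
    refine (norm_add_le _ _).trans ?_
    have a1 : ‖l • (mv A u - l • u)‖ ≤ ‖A‖ * β := by
      rw [norm_smul, Real.norm_eq_abs]
      exact mul_le_mul hl' h (norm_nonneg _) hn
    have a2 := (norm_mv_le A _).trans (mul_le_mul_of_nonneg_left h hn)
    linarith
  have n3 : ‖mv A (mv A (mv A u)) - l ^ 3 • u‖ ≤ 3 * ‖A‖ ^ 2 * β := by
    rw [e3]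
    refine (norm_add_le _ _).trans ?_
    have a1 : ‖l ^ 2 • (mv A u - l • u)‖ ≤ ‖A‖ ^ 2 * β := by
      rw [norm_smul, Real.norm_eq_abs, abs_pow]
      exact mul_le_mul (pow_le_pow_left₀ (abs_nonneg _) hl' 2) h (norm_nonneg _) (by positivity)
    have a2 := (norm_mv_le A _).trans (mul_le_mul_of_nonneg_left n2 hn)
    nlinarith
  have key : ∀ (v x : Vc ι) (t B : ℝ), ‖v‖ = 1 → ‖x - t • u‖ ≤ B →
      |⟪v, x⟫_ℝ - t * ⟪v, u⟫_ℝ| ≤ B := by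
    intro v x t B hv hx
    rw [← real_inner_smul_right, ← inner_sub_right]
    refine (abs_real_inner_le_norm _ _).trans ?_
    rwa [hv, one_mul]
  refine ⟨?_, key e _ _ _ he n2, key e _ _ _ he n3, key e _ _ _ he h, ?_⟩
  · rw [real_inner_comm u, ← real_inner_smul_left, ← inner_sub_left, mul_assoc]
    exact (abs_real_inner_le_norm _ _).trans
      (mul_le_mul h (norm_sg_le A S) (norm_nonneg _) hβ)
  · have := key u _ _ _ hu n3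
    rwa [real_inner_self_eq_norm_sq, hu, one_pow, mul_one] at this

end Pool.Agent.Lib.MP_fc0ae9_an.St
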