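import Pool.Agent.Lib.MP_fc0ae9_an.StZP

/-! The first order term on nearly zonal configurations. -/

namespace Pool.Agent.Lib.MP_fc0ae9_an.St

lemma mul_lower {c x y C D : ℝ} (hc : |c| ≤ C) (h : |x - y| ≤ D) : c * y - C * D ≤ c * x := by
  have h1 : |c * (x - y)| ≤ C * D := by
    rw [abs_mul]; exact mul_le_mul hc h (abs_nonneg _) ((abs_nonneg _).trans hc)
  have := (abs_le.1 h1).1
  linarith

lemma abs_mul_le' {x y X Y : ℝ} (hx : |x| ≤ X) (hy : |y| ≤ Y) : |x * y| ≤ X * Y := by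
  rw [abs_mul]; exact mul_le_mul hx hy (abs_nonneg _) ((abs_nonneg _).trans hx)

lemma quad_lower {g τ st μ P : ℝ} (hg : 0 < g) (hg2 : g ≤ 1 / 2) (hP : 0 ≤ P)
    (h : st ^ 2 ≤ P * τ ^ 2) : g * τ ^ 2 - (1 + 2 * g) * P * μ ^ 2 ≤ τ ^ 2 - 2 * st * μ := by
  have h1 : 0 ≤ (1 - g) * τ ^ 2 := mul_nonneg (by linarith) (sq_nonneg _)
  have h2 : 0 ≤ (1 + 2 * g) * P * μ ^ 2 := by positivity
  have h3 : (2 * st * μ) ^ 2 ≤ ((1 - g) * τ ^ 2 + (1 + 2 * g) * P * μ ^ 2) ^ 2 := by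
    have h4 : (2 * st * μ) ^ 2 ≤ 4 * (P * τ ^ 2 * μ ^ 2) := by
      have := mul_le_mul_of_nonneg_right h (sq_nonneg μ)
      nlinarith
    have h5 : 1 * (P * τ ^ 2 * μ ^ 2) ≤ (1 - g) * (1 + 2 * g) * (P * τ ^ 2 * μ ^ 2) :=
      mul_le_mul_of_nonneg_right (by nlinarith) (by positivity)
    nlinarith [sq_nonneg ((1 - g) * τ ^ 2 - (1 + 2 * g) * P * μ ^ 2)]
  have := (abs_le_of_sq_le_sq' h3 (add_nonneg h1 h2)).2
  linarith

/- Sketch. lam = th n * l, so l = nu lam, a^2 = nu lam^2 + be^2, |l| <= a, |lam| <= 2 a, 1 <= th <= 3/2.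
S terms: tau^2 - 2 th X1 + 8 om st >= tau^2 - 2 st (lam - 4 om) - 3 be a tau
>= g tau^2 - (1 + 2 g) nu2 a^2 (lam - 4 om)^2 - 3 be a tau (st^2 <= nu2 a^2 tau^2, (1-g)(1+2g) >= 1).
Replace every X_i, tr by its zonal value and a^2 by nu lam^2 (error be^2 <= be a; a^4 >= (nu lam^2)^2);
all errors are at most C be (a + a^2 + a^3). Then zonal_value, zonal_poly and
lam^2 (1 + lam^2) >= a^2 + a^4 - be a - 2 be a^3 because lam^2 >= a^2 - be^2 >= 0.
State each error bound as a separate have and finish with linarith. -/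
theorem Q1_lower {n : ℝ} (h3 : 3 ≤ n) : ∃ γ C : ℝ, 0 < γ ∧ 0 ≤ C ∧
    ∀ ω l a τ β tr st X1 X2 X3 X4 X5 X6 : ℝ, |ω| ≤ 1 → 0 ≤ τ → 0 ≤ β → β ≤ a →
      a ^ 2 = th n * l ^ 2 + β ^ 2 → |X1 - l * st| ≤ β * a * τ →
      st ^ 2 ≤ nu2 n * a ^ 2 * τ ^ 2 →
      l ^ 2 * ω ^ 2 + (th n * l / n) ^ 2 * (1 - ω ^ 2) - 2 * a * β ≤ X2 →
      |X3 - l ^ 2 * ω| ≤ 2 * a * β → |X4 - l ^ 3 * ω| ≤ 3 * a ^ 2 * β → |X5 - l * ω| ≤ β →
      |X6 - l ^ 3| ≤ 3 * a ^ 2 * β →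
      |tr - (th n * l) ^ 3 * (nu n * (2 * nu n - 1))| ≤ 3 * a ^ 2 * β →
      γ * (a ^ 2 + a ^ 4 + τ ^ 2) - C * β * (a + a ^ 2 + a ^ 3 + a * τ) ≤
        Qr (th n) (bb n) (kk n) 4 1 ω l a τ tr st X1 X2 X3 X4 X5 X6 := by
  obtain ⟨g, g₂, hg, hg2, hg₂, hzp⟩ := zonal_poly h3
  have hn1 : 0 < n - 1 := by linarith
  have hθ1 : 1 ≤ th n := by unfold th; rw [le_div_iff₀ hn1]; linarith
  have hθ2 : th n ≤ 3 / 2 := by unfold th; rw [div_le_iff₀ hn1]; linarith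
  have hθν : th n * nu n = 1 := by
    unfold th nu
    have : n ≠ 0 := by linarith
    field_simp
  have hν0 : 0 ≤ nu2 n := by unfold nu2; exact div_nonneg (by linarith) (by linarith)
  have hν1 : nu2 n ≤ 1 := by unfold nu2; rw [div_le_one (by linarith)]; linarith
  have hb : 0 ≤ bb n := by unfold bb; exact mul_nonneg (by linarith) hn1.le
  have hk : 0 ≤ kk n := by
    unfold kk; exact div_nonneg (mul_nonneg (by linarith) hn1.le) (by linarith)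
  refine ⟨min g g₂, 70 + 8 * bb n + 36 * kk n + 8 * (4 + kk n) + 2 * g₂, lt_min hg hg₂,
    by positivity, ?_⟩
  intro ω l a τ β tr st X1 X2 X3 X4 X5 X6 hω hτ hβ hβa ha2 hX1 hst hX2 hX3 hX4 hX5 hX6 htr
  have hzv := zonal_value h3 g (th n * l) ω l (th n * l ^ 2)
    (by rw [← mul_assoc, mul_comm (nu n), hθν, one_mul])
    (by rw [mul_pow, sq (th n), ← mul_assoc, ← mul_assoc, mul_comm (nu n), hθν, one_mul])
  have hz := mul_le_mul_of_nonneg_left (hzp (th n * l) ω) (sq_nonneg (th n * l))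
  rw [← hzv] at hz
  clear hzv hzp
  unfold Qr
  generalize th n = θ at *
  generalize nu2 n = ν₂ at *
  generalize bb n = b at *
  generalize kk n = k at *
  generalize nu n * (2 * nu n - 1) = ρ at *
  set z := θ * l ^ 2 with hzdef
  set lam := θ * l with hlam
  have ha : 0 ≤ a := hβ.trans hβa
  have hθ0 : 0 ≤ θ := by linarith
  have hz0 : 0 ≤ z := by positivity
  have hlz : l ^ 2 ≤ z := le_mul_of_one_le_left (sq_nonneg l) hθ1
  have hza : z ≤ a ^ 2 := by rw [ha2]; exact le_add_of_nonneg_right (sq_nonneg β)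
  have hl : |l| ≤ a := abs_le_of_sq_le_sq (hlz.trans hza) ha
  have hlam2 : lam ^ 2 = θ * z := by rw [hlam, hzdef]; ring
  have hlam3 : z ≤ lam ^ 2 := hlam2 ▸ le_mul_of_one_le_left hz0 hθ1
  have hlam4 : lam ^ 2 ≤ 2 * a ^ 2 :=
    hlam2 ▸ mul_le_mul (hθ2.trans (by norm_num)) hza hz0 (by norm_num)
  have hω2 : ω ^ 2 ≤ 1 := (sq_le_one_iff_abs_le_one ω).2 hω
  have hβ2 : β ^ 2 ≤ a * β := by rw [sq]; exact mul_le_mul_of_nonneg_right hβa hβ
  have hd : |a ^ 2 - z| ≤ a * β := by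
    rw [ha2, add_sub_cancel_left, abs_of_nonneg (sq_nonneg β)]; exact hβ2
  have hm : |4 - k| ≤ 4 + k := abs_le.2 ⟨by linarith, by linarith⟩
  have hkk : |k| ≤ k := (abs_of_nonneg hk).le
  have h2θ : |-(2 * θ)| ≤ 3 := by rw [abs_neg, abs_of_nonneg (by linarith)]; linarith
  have h4θ : |-(2 + θ)| ≤ 4 := by rw [abs_neg, abs_of_nonneg (by linarith)]; linarith
  have h2 : |(2 : ℝ)| ≤ 2 := by norm_num
  have haa : |a ^ 2| ≤ a ^ 2 := (abs_of_nonneg (sq_nonneg a)).le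
  have E1 := mul_lower h2θ hX1
  have E2 := quad_lower (μ := lam - 4 * ω) hg hg2 (mul_nonneg hν0 (sq_nonneg a)) hst
  have hμ : |-((1 + 2 * g) * ν₂ * (lam - 4 * ω) ^ 2)| ≤ 2 * (4 * a ^ 2 + 32) := by
    rw [abs_neg, abs_of_nonneg (by positivity)]
    refine mul_le_mul ?_ (by linarith only [sq_nonneg (lam + 4 * ω), hlam4, hω2]) (sq_nonneg _)
      (by norm_num)
    exact (mul_le_of_le_one_right (by linarith only [hg]) hν1).trans (by linarith only [hg2])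
  have E2' := mul_lower hμ hd
  have E3 := mul_lower (abs_mul_le' (abs_mul_le' h2θ (abs_of_nonneg hb).le) hω) hX3
  have E4 := mul_le_mul_of_nonneg_left hX2 hb
  have E6 := mul_lower (abs_mul_le' h2 hkk) hX4
  have E7 := mul_lower (abs_mul_le' hm haa) hX5
  have E7' := mul_lower (abs_mul_le' hm (abs_mul_le' hl hω)) hd
  have E8 := mul_lower (abs_mul_le' (abs_mul_le' h2 hω) hkk) htr
  have E9 := mul_lower (abs_mul_le' (abs_mul_le' h2 hω) (abs_mul_le' h2 hkk)) hX3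
  have E10 := mul_lower (abs_mul_le' (abs_mul_le' (abs_mul_le' h2 hω) hm) hω) hd
  have E11 := mul_lower (abs_mul_le' (abs_mul_le' h4θ hω) (abs_mul_le' h2 hkk)) hX6
  have E12 := mul_lower (abs_mul_le' (abs_mul_le' (abs_mul_le' h4θ hω) hm) hl) hd
  have E13 : b * ω ^ 2 * z ≤ b * ω ^ 2 * a ^ 2 := mul_le_mul_of_nonneg_left hza (by positivity)
  have E14 : z ^ 2 ≤ a ^ 4 := by
    have := pow_le_pow_left₀ hz0 hza 2
    rwa [← pow_mul] at this
  have E15 : a ^ 2 + a ^ 4 - (a * β + 2 * (a ^ 3 * β)) ≤ lam ^ 2 * (1 + lam ^ 2) := by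
    have h5 : z ^ 2 ≤ (lam ^ 2) ^ 2 := pow_le_pow_left₀ hz0 hlam3 2
    have h6 : z = a ^ 2 - β ^ 2 := by linarith
    have h7 : a ^ 2 * β ^ 2 ≤ a ^ 2 * (a * β) := mul_le_mul_of_nonneg_left hβ2 (sq_nonneg a)
    have h8 : a ^ 4 - 2 * (a ^ 2 * β ^ 2) ≤ z ^ 2 := by
      rw [h6]; linarith only [sq_nonneg (β ^ 2)]
    linarith only [h5, h6, h7, h8, hβ2, hlam3]
  have E16 := mul_le_mul_of_nonneg_left E15 hg₂.le
  have E17 : min g g₂ * (a ^ 2 + a ^ 4) ≤ g₂ * (a ^ 2 + a ^ 4) :=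
    mul_le_mul_of_nonneg_right (min_le_right _ _) (by positivity)
  have E18 : min g g₂ * τ ^ 2 ≤ g * τ ^ 2 :=
    mul_le_mul_of_nonneg_right (min_le_left _ _) (by positivity)
  have p1 : 0 ≤ β * a := by positivity
  have p2 : 0 ≤ β * a ^ 2 := by positivity
  have p3 : 0 ≤ β * a ^ 3 := by positivity
  have p4 : 0 ≤ β * (a * τ) := by positivity
  have q1 := mul_nonneg hb p2
  have q2 := mul_nonneg hb p3
  have q3 := mul_nonneg hb p4
  have q4 := mul_nonneg hk p1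
  have q5 := mul_nonneg hk p2
  have q6 := mul_nonneg hk p3
  have q7 := mul_nonneg hk p4
  have q8 := mul_nonneg hg₂.le p1
  have q9 := mul_nonneg hg₂.le p2
  have q10 := mul_nonneg hg₂.le p4
  have e1 : θ * (l * st) = lam * st := by rw [hlam]; ring
  have e5 : -(3 * z) - 3 * (a * β) ≤ -(3 * a ^ 2) := by linarith
  clear_value z lam
  linarith

end Pool.Agent.Lib.MP_fc0ae9_an.St
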