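import Pool.Agent.Lib.MP_fc0ae9_an.StA

/-! Crude bounds for the first and second order terms. -/

namespace Pool.Agent.Lib.MP_fc0ae9_an.St

open scoped InnerProductSpace

lemma abs_mul_le3 {x y X Y : ℝ} (hx : |x| ≤ X) (hy : |y| ≤ Y) : |x * y| ≤ X * Y := by
  rw [abs_mul]; exact mul_le_mul hx hy (abs_nonneg _) ((abs_nonneg _).trans hx)

lemma abs_add_le3 {x y X Y : ℝ} (hx : |x| ≤ X) (hy : |y| ≤ Y) : |x + y| ≤ X + Y :=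
  (abs_add_le x y).trans (add_le_add hx hy)

/- Sketch. Qr r - Qr 1 = (1 - r) T1 + (1 - r^2) T2 + (1 - r^3) T3 with |T_i| <= C (a^2 + a^4 + tau^2)
(a^3 <= a^2 + a^4, a^2 tau <= a^4 + tau^2, a tau <= a^2 + tau^2), 1 - r <= 1 - r^2, 1 - r^3 <= 2 (1 - r^2). -/
theorem Qr_sub {θ b k c : ℝ} (hθ : 0 ≤ θ) (hb : 0 ≤ b) (hk : 0 ≤ k) (hc : 0 ≤ c) :
    ∃ C : ℝ, 0 ≤ C ∧ ∀ r ω l a τ tr st X1 X2 X3 X4 X5 X6 : ℝ, 0 ≤ r → r ≤ 1 → |ω| ≤ 1 → 0 ≤ a →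
      0 ≤ τ → |l| ≤ a → |tr| ≤ a ^ 3 → |st| ≤ a * τ → |X1| ≤ a ^ 2 * τ → |X3| ≤ a ^ 2 →
      |X4| ≤ a ^ 3 → |X5| ≤ a → |X6| ≤ a ^ 3 →
      Qr θ b k c 1 ω l a τ tr st X1 X2 X3 X4 X5 X6 - C * (1 - r ^ 2) * (a ^ 2 + a ^ 4 + τ ^ 2) ≤
        Qr θ b k c r ω l a τ tr st X1 X2 X3 X4 X5 X6 := by
  refine ⟨2 * θ + (2 * k + (c + k)) + 2 * k + 2 * θ * b + 2 * c + 2 * (2 * k + (c + k)) + b +
    2 * ((2 + θ) * (2 * k + (c + k))), by positivity, ?_⟩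
  intro r ω l a τ tr st X1 X2 X3 X4 X5 X6 hr0 hr1 hω ha hτ hl htr hst hX1 hX3 hX4 hX5 hX6
  set E := a ^ 2 + a ^ 4 + τ ^ 2 with hE
  have p2 : 0 ≤ a ^ 2 := by positivity
  have p4 : 0 ≤ a ^ 4 := by positivity
  have pt : 0 ≤ τ ^ 2 := by positivity
  have e2 : a ^ 2 ≤ E := by linarith
  have e3 : a ^ 3 ≤ E := by linarith [sq_nonneg (a - a ^ 2)]
  have e4 : a ^ 2 * τ ≤ E := by linarith [sq_nonneg (τ - a ^ 2)]
  have e5 : a * τ ≤ E := by linarith [sq_nonneg (τ - a)]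
  have hm : |c - k| ≤ c + k := abs_le.2 ⟨by linarith, by linarith⟩
  have haa : |a ^ 2| ≤ a ^ 2 := (abs_of_nonneg p2).le
  have pos : ∀ {x : ℝ}, 0 ≤ x → |x| ≤ x := fun h => (abs_of_nonneg h).le
  have f5 : |a ^ 2 * X5| ≤ E := (abs_mul_le3 haa hX5).trans (by linarith)
  have f6 : |a ^ 2 * l| ≤ E := (abs_mul_le3 haa hl).trans (by linarith)
  have f7 : |a ^ 2 * ω| ≤ E := (abs_mul_le3 haa hω).trans (by linarith)
  have hx0 : 0 ≤ 1 - r ^ 2 := by nlinarith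
  have r1 : |1 - r| ≤ 1 - r ^ 2 := by rw [abs_of_nonneg (by linarith)]; nlinarith
  have r2 : |1 - r ^ 2| ≤ 1 - r ^ 2 := pos hx0
  have r3 : |1 - r ^ 3| ≤ 2 * (1 - r ^ 2) := by
    have h1 : r ^ 3 ≤ 1 := pow_le_one₀ hr0 hr1
    have h2 : r ^ 4 ≤ r ^ 3 := pow_le_pow_of_le_one hr0 hr1 (by norm_num)
    rw [abs_of_nonneg (by linarith)]
    linarith [sq_nonneg (1 - r ^ 2)]
  have t1 := (abs_le.1 (abs_mul_le3 r1 (abs_mul_le3 (pos (show 0 ≤ 2 * θ by positivity))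
    (hX1.trans e4)))).1
  have t2 := (abs_le.1 (abs_mul_le3 r1 (abs_add_le3 (abs_mul_le3
    (pos (show 0 ≤ 2 * k by positivity)) (hX4.trans e3)) (abs_mul_le3 hm f5)))).2
  have t3 := (abs_le.1 (abs_mul_le3 r1 (abs_mul_le3 hω (abs_mul_le3
    (pos (show 0 ≤ 2 * k by positivity)) (htr.trans e3))))).2
  have t4 := (abs_le.1 (abs_mul_le3 r2 (abs_mul_le3 hω (abs_mul_le3
    (pos (show 0 ≤ 2 * θ * b by positivity)) (hX3.trans e2))))).1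
  have t5 := (abs_le.1 (abs_mul_le3 r2 (abs_mul_le3 hω (abs_mul_le3
    (pos (show 0 ≤ 2 * c by positivity)) (hst.trans e5))))).2
  have t6 := (abs_le.1 (abs_mul_le3 r2 (abs_mul_le3 hω (abs_mul_le3
    (pos (show (0 : ℝ) ≤ 2 by norm_num)) (abs_add_le3 (abs_mul_le3
    (pos (show 0 ≤ 2 * k by positivity)) (hX3.trans e2)) (abs_mul_le3 hm f7)))))).2
  have t7 := (abs_le.1 (abs_mul_le3 r2 (abs_mul_le3 hω (abs_mul_le3 (pos hb) f7)))).2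
  have t8 := (abs_le.1 (abs_mul_le3 r3 (abs_mul_le3 hω (abs_mul_le3
    (pos (show 0 ≤ 2 + θ by positivity)) (abs_add_le3 (abs_mul_le3
    (pos (show 0 ≤ 2 * k by positivity)) (hX6.trans e3)) (abs_mul_le3 hm f6)))))).1
  clear_value E
  unfold Qr
  linarith only [t1, t2, t3, t4, t5, t6, t7, t8]

variable {ι : Type} [Fintype ι]

/- Sketch. J = |j| <= b a + a^2 + a tau, |R2| <= theta J^2 + (2 theta + (2 + theta)(3k + c)) a^2 J,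
a^2 J <= a^4 + J^2, J^2 <= 3 (b^2 a^2 + a^4 + a^2 tau^2), eps a^2 tau^2 <= x tau^2. -/
theorem R2_bound {θ b k c : ℝ} (hθ : 0 ≤ θ) (hb : 0 ≤ b) (hk : 0 ≤ k) (hc : 0 ≤ c) :
    ∃ C : ℝ, 0 ≤ C ∧ ∀ (ε x : ℝ) (e w : Vc ι) (A : Vc (ι × ι)) (S : Vc (ι × ι × ι)), 0 < ε →
      ε ≤ x → ‖e‖ = 1 → ‖w‖ ≤ 1 → ε * ‖A‖ ^ 2 ≤ x →
      -(C * x * (‖A‖ ^ 2 + ‖A‖ ^ 4 + ‖S‖ ^ 2)) ≤ ε * R2 b k c θ e w A S := by
  refine ⟨(θ + (2 * θ + (2 + θ) * (3 * k + c))) * (3 * (b ^ 2 + 1)) +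
    (2 * θ + (2 + θ) * (3 * k + c)), by positivity, ?_⟩
  intro ε x e w A S hε hεx he hw hεa
  have hw0 : |⟪e, w⟫_ℝ| ≤ 1 := (abs_real_inner_le_norm e w).trans (by rw [he, one_mul]; exact hw)
  have hY : ‖Yv k c w A‖ ≤ (3 * k + c) * ‖A‖ ^ 2 :=
    (norm_Yv_le hk hc w A).trans (mul_le_of_le_one_right (by positivity) hw)
  have hJ : ‖(b * ⟪e, w⟫_ℝ) • mv A e + ‖A‖ ^ 2 • e + sg A S‖ ≤
      b * ‖A‖ + ‖A‖ ^ 2 + ‖A‖ * ‖S‖ := by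
    refine (norm_add₃_le).trans (add_le_add (add_le_add ?_ ?_) (norm_sg_le A S))
    · rw [norm_smul]
      exact mul_le_mul (by simpa using abs_mul_le3 (abs_of_nonneg hb).le hw0)
        (by simpa [he] using norm_mv_le A e) (norm_nonneg _) hb
    · rw [norm_smul, he, mul_one, Real.norm_of_nonneg (sq_nonneg _)]
  unfold R2
  generalize (b * ⟪e, w⟫_ℝ) • mv A e + ‖A‖ ^ 2 • e + sg A S = j at *
  have h1 : |⟪e, j⟫_ℝ| ≤ ‖j‖ := by simpa [he] using abs_real_inner_le_norm e j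
  have h2 : |⟪Yv k c w A, j⟫_ℝ| ≤ (3 * k + c) * ‖A‖ ^ 2 * ‖j‖ :=
    (abs_real_inner_le_norm _ _).trans (mul_le_mul_of_nonneg_right hY (norm_nonneg _))
  have t1 := (abs_le.1 (abs_mul_le3
    (abs_of_nonneg (show 0 ≤ 2 * θ * ‖A‖ ^ 2 by positivity)).le h1)).1
  have t2 := (abs_le.1 (abs_mul_le3 (abs_mul_le3
    (abs_of_nonneg (show 0 ≤ 2 + θ by positivity)).le hw0) h2)).2
  have hJ0 := norm_nonneg j
  have ha := norm_nonneg A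
  have hτ := norm_nonneg S
  generalize ‖j‖ = J at *
  generalize ‖A‖ = a at *
  generalize ‖S‖ = τ at *
  have hx : 0 ≤ x := hε.le.trans hεx
  set z := 2 * θ + (2 + θ) * (3 * k + c) with hz
  have hz0 : 0 ≤ z := by positivity
  have u1 : ε * J ^ 2 ≤ 3 * (b ^ 2 + 1) * (x * (a ^ 2 + a ^ 4 + τ ^ 2)) := by
    have v1 : J ^ 2 ≤ 3 * (b ^ 2 * a ^ 2 + a ^ 4 + a ^ 2 * τ ^ 2) := by
      have := pow_le_pow_left₀ hJ0 hJ 2
      linarith only [this, sq_nonneg (b * a - a ^ 2), sq_nonneg (b * a - a * τ),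
        sq_nonneg (a ^ 2 - a * τ)]
    have v2 := mul_le_mul_of_nonneg_left v1 hε.le
    have v3 := mul_le_mul_of_nonneg_right hεx (show 0 ≤ b ^ 2 * a ^ 2 + a ^ 4 by positivity)
    have v4 := mul_le_mul_of_nonneg_right hεa (sq_nonneg τ)
    have v5 : 0 ≤ x * (b ^ 2 * (a ^ 4 + τ ^ 2) + a ^ 2) := by positivity
    linarith only [v2, v3, v4, v5]
  have u2 : a ^ 2 * J ≤ a ^ 4 + J ^ 2 := by
    have : 0 ≤ a ^ 2 * J := by positivity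
    linarith only [this, sq_nonneg (a ^ 2 - J)]
  have u3 : ε * a ^ 4 ≤ x * (a ^ 2 + a ^ 4 + τ ^ 2) :=
    mul_le_mul hεx (by linarith only [sq_nonneg a, sq_nonneg τ]) (by positivity) hx
  have u4 := mul_le_mul_of_nonneg_left u1 (add_nonneg hθ hz0)
  have u5 := mul_le_mul_of_nonneg_left u3 hz0
  have u6 := mul_le_mul_of_nonneg_left u2 (mul_nonneg hε.le hz0)
  have u7 := mul_le_mul_of_nonneg_left t1 hε.le
  have u8 := mul_le_mul_of_nonneg_left t2 hε.le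
  rw [hz] at *
  linarith only [u4, u5, u6, u7, u8]

end Pool.Agent.Lib.MP_fc0ae9_an.St
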