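import Pool.Agent.Lib.MP_fc0ae9_an.StK2
import Pool.Agent.Lib.MP_fc0ae9_an.StZL
import Pool.Agent.Lib.MP_fc0ae9_an.StZQ
import Pool.Agent.Lib.MP_fc0ae9_an.StZE

/-! The calibration inequality in the degenerate regime. -/

namespace Pool.Agent.Lib.MP_fc0ae9_an.St

open scoped InnerProductSpace

variable {ι : Type} [Fintype ι]

/- Sketch. r = |w|, r^2 >= 1/2, u = w / r, x = 1 - r^2 <= x0, eps a^2 <= x <= x0, E = a^2 + a^4 + tau^2.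
zonal gives be; a^2 - th r^2 |Au|^2 = a^2 x + r^2 (a^2 - th |Au|^2) >= eps a^2 (b r^2 om^2 + a^2) + be^2/8
(zonal_defect). With FF_expand, R2_bound (x := x0), Qr_sub, Q1_lower (zonal_approx, kato2):
FF >= be^2/8 + eps (gam E - C1 be (a + a^2 + a^3 + a tau) - (C2 + C3) x0 E), and
eps C1 be s <= be^2/8 + 2 C1^2 eps^2 s^2, eps s^2 <= 4 eps (a^2 + a^4 + a^6 + a^2 tau^2) <= 8 x0 E.
Choose x0 = min (1/2) (gam / (2 (C2 + C3 + 16 C1^2 + 1))). -/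
theorem caseB {n : ℝ} (hn : n = Fintype.card ι) (h3 : 3 ≤ n) : ∃ γ x₀ : ℝ, 0 < γ ∧ 0 < x₀ ∧
    x₀ ≤ 1 / 2 ∧ ∀ ε : ℝ, 0 < ε → ε ≤ x₀ →
      ∀ (e w : Vc ι) (A : Vc (ι × ι)) (S : Vc (ι × ι × ι)), ‖e‖ = 1 → STM A → STT S →
      ‖w‖ ^ 2 + ε * bb n * ⟪e, w⟫_ℝ ^ 2 + ε * ‖A‖ ^ 2 ≤ 1 → 1 - ‖w‖ ^ 2 ≤ x₀ →
      γ * ε * (‖A‖ ^ 2 + ‖A‖ ^ 4 + ‖S‖ ^ 2) ≤ FF ε (bb n) (kk n) 4 (th n) 1 e w A S := by
  have hn1 : 0 < n - 1 := by linarith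
  have hθ : 0 ≤ th n := by unfold th; exact div_nonneg (by linarith) hn1.le
  have hb : 0 ≤ bb n := by unfold bb; exact mul_nonneg (by linarith) hn1.le
  have hk : 0 ≤ kk n := by
    unfold kk; exact div_nonneg (mul_nonneg (by linarith) hn1.le) (by linarith)
  obtain ⟨γ, C₁, hγ, hC₁, hQ1⟩ := Q1_lower h3
  obtain ⟨C₂, hC₂, hQr⟩ := Qr_sub (c := 4) hθ hb hk (by norm_num)
  obtain ⟨C₃, hC₃, hR2⟩ := R2_bound (ι := ι) (c := 4) hθ hb hk (by norm_num)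
  have hD : 0 < C₂ + C₃ + 16 * C₁ ^ 2 + 1 := by positivity
  refine ⟨γ / 2, min (1 / 2) (γ / (2 * (C₂ + C₃ + 16 * C₁ ^ 2 + 1))), half_pos hγ,
    lt_min (by norm_num) (by positivity), min_le_left _ _, ?_⟩
  set x₀ := min (1 / 2) (γ / (2 * (C₂ + C₃ + 16 * C₁ ^ 2 + 1))) with hx₀
  have hx1 : x₀ ≤ 1 / 2 := min_le_left _ _
  have hx2 : x₀ * (2 * (C₂ + C₃ + 16 * C₁ ^ 2 + 1)) ≤ γ :=
    (le_div_iff₀ (by positivity)).1 (min_le_right _ _)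
  clear_value x₀
  intro ε hε hεx e w A S he hA hS hN hx
  have hx0 : 0 < x₀ := hε.trans_le hεx
  have hr0 : 0 < ‖w‖ := by
    refine (norm_nonneg w).lt_of_ne fun h => ?_
    rw [← h] at hx
    linarith
  obtain ⟨r, u, hr, hu, rfl⟩ : ∃ (r : ℝ) (u : Vc ι), 0 < r ∧ ‖u‖ = 1 ∧ w = r • u :=
    ⟨‖w‖, ‖w‖⁻¹ • w, hr0, norm_smul_inv_norm (𝕜 := ℝ) (norm_pos_iff.1 hr0),
      by rw [smul_smul, mul_inv_cancel₀ hr0.ne', one_smul]⟩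
  have hnr : ‖r • u‖ = r := by rw [norm_smul, hu, mul_one, Real.norm_of_nonneg hr.le]
  rw [hnr] at hx
  rw [hnr, real_inner_smul_right] at hN
  have hb1 : 0 ≤ ε * bb n * (r * ⟪e, u⟫_ℝ) ^ 2 := by positivity
  have hb2 : 0 ≤ ε * ‖A‖ ^ 2 := by positivity
  have hr1 : r ≤ 1 := (sq_le_one_iff₀ hr.le).1 (by linarith)
  have hεa : ε * ‖A‖ ^ 2 ≤ x₀ := by linarith
  obtain ⟨β, hβ0, hβa, ha2, hβ, hAe, htr⟩ := zonal hn h3 hA hu rfl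
  have hdef := zonal_defect h3 hu rfl ha2 hβ
  obtain ⟨z1, z2, z3, z4, z5⟩ := zonal_approx S he hu rfl (β := β)
    (abs_le_of_sq_le_sq' (by linarith [sq_nonneg β]) hβ0).2
  have inn : ∀ {x y : Vc ι} {s t : ℝ}, ‖x‖ ≤ s → ‖y‖ ≤ t → |⟪x, y⟫_ℝ| ≤ s * t := fun hx hy =>
    (abs_real_inner_le_norm _ _).trans
      (mul_le_mul hx hy (norm_nonneg _) ((norm_nonneg _).trans hx))
  have m1 : ‖mv A u‖ ≤ ‖A‖ := by simpa [hu] using norm_mv_le A u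
  have m2 : ‖mv A (mv A u)‖ ≤ ‖A‖ ^ 2 := by
    rw [sq]; exact (norm_mv_le _ _).trans (mul_le_mul_of_nonneg_left m1 (norm_nonneg _))
  have m3 : ‖mv A (mv A (mv A u))‖ ≤ ‖A‖ ^ 3 := by
    rw [pow_succ']; exact (norm_mv_le _ _).trans (mul_le_mul_of_nonneg_left m2 (norm_nonneg _))
  have hω : |⟪e, u⟫_ℝ| ≤ 1 := by simpa using inn he.le hu.le
  have hst : ⟪sg A S, u⟫_ℝ ^ 2 ≤ nu2 n * ‖A‖ ^ 2 * ‖S‖ ^ 2 := by
    refine le_trans ?_ (kato2 hn h3 hA hS)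
    rw [← sq_abs]
    exact pow_le_pow_left₀ (abs_nonneg _) (by simpa using inn (le_refl ‖sg A S‖) hu.le) 2
  have q1 := hQ1 _ _ _ _ _ _ _ _ _ _ _ _ _ hω (norm_nonneg S) hβ0 hβa ha2 z1 hst (hAe e he)
    z2 z3 z4 z5 htr
  have q2 := hQr r _ _ _ _ _ _ _ (‖mv A e‖ ^ 2) _ _ _ _ hr.le hr1 hω (norm_nonneg A)
    (norm_nonneg S) (by simpa using inn hu.le m1) (abs_tr3_le A)
    (by simpa using inn (norm_sg_le A S) hu.le)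
    ((inn m1 (norm_sg_le A S)).trans_eq (by ring)) (by simpa using inn he.le m2)
    (by simpa using inn he.le m3) (by simpa using inn he.le m1) (by simpa using inn hu.le m3)
  have q3 := hR2 ε x₀ e (r • u) A S hε hεx he (hnr.le.trans hr1) hεa
  rw [FF_expand _ _ _ _ _ _ _ _ hA.1]
  generalize Qr (th n) (bb n) (kk n) 4 r _ _ _ _ _ _ _ _ _ _ _ _ = Q at *
  generalize Qr (th n) (bb n) (kk n) 4 1 _ _ _ _ _ _ _ _ _ _ _ _ = Q' at *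
  generalize R2 (bb n) (kk n) 4 (th n) e (r • u) A S = R at *
  have ha := norm_nonneg A
  have hτ := norm_nonneg S
  generalize ‖A‖ = a at *
  generalize ‖S‖ = τ at *
  have hE : 0 ≤ a ^ 2 + a ^ 4 + τ ^ 2 := by positivity
  have s1 : C₂ * (1 - r ^ 2) * (a ^ 2 + a ^ 4 + τ ^ 2) ≤ C₂ * x₀ * (a ^ 2 + a ^ 4 + τ ^ 2) :=
    mul_le_mul_of_nonneg_right (mul_le_mul_of_nonneg_left hx hC₂) hE
  have s2 : ε * (a + a ^ 2 + a ^ 3 + a * τ) ^ 2 ≤ 8 * x₀ * (a ^ 2 + a ^ 4 + τ ^ 2) := by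
    have t1 : (a + a ^ 2 + a ^ 3 + a * τ) ^ 2 ≤ 4 * (a ^ 2 + a ^ 4 + a ^ 6 + a ^ 2 * τ ^ 2) := by
      linarith only [sq_nonneg (a - a ^ 2), sq_nonneg (a - a ^ 3), sq_nonneg (a - a * τ),
        sq_nonneg (a ^ 2 - a ^ 3), sq_nonneg (a ^ 2 - a * τ), sq_nonneg (a ^ 3 - a * τ)]
    have t2 := mul_le_mul_of_nonneg_left t1 hε.le
    have t3 := mul_le_mul_of_nonneg_right hεx (show 0 ≤ a ^ 2 + a ^ 4 by positivity)
    have t4 := mul_le_mul_of_nonneg_right hεa (show 0 ≤ a ^ 4 + τ ^ 2 by positivity)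
    have t5 : 0 ≤ x₀ * (a ^ 2 + τ ^ 2) := by positivity
    linarith only [t2, t3, t4, t5]
  have s3 := mul_le_mul_of_nonneg_left s2 (show 0 ≤ 2 * C₁ ^ 2 * ε by positivity)
  have s4 := sq_nonneg (β - 4 * (ε * C₁ * (a + a ^ 2 + a ^ 3 + a * τ)))
  have s5 := mul_le_mul_of_nonneg_left hdef (sq_nonneg r)
  have s6 : 1 / 2 * (β ^ 2 / 4) ≤ r ^ 2 * (β ^ 2 / 4) :=
    mul_le_mul_of_nonneg_right (by linarith) (by positivity)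
  have s7 := mul_le_mul_of_nonneg_left hN (sq_nonneg a)
  have s8 := mul_le_mul_of_nonneg_left (q1.trans (le_refl Q')) hε.le
  have s9 := mul_le_mul_of_nonneg_left (show Q' - C₂ * x₀ * (a ^ 2 + a ^ 4 + τ ^ 2) ≤ Q by
    linarith only [q2, s1]) hε.le
  have s10 := mul_le_mul_of_nonneg_left q3 hε.le
  have s11 := mul_le_mul_of_nonneg_right hx2 (mul_nonneg hε.le hE)
  have s12 : 0 ≤ x₀ * (ε * (a ^ 2 + a ^ 4 + τ ^ 2)) := by positivity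
  linarith only [s3, s4, s5, s6, s7, s8, s9, s10, s11, s12]

end Pool.Agent.Lib.MP_fc0ae9_an.St
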