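import Pool.Agent.Lib.MP_fc0ae9_an.StAlg

/-! Dependence of the normalised divergence on the exponent. -/

namespace Pool.Agent.Lib.MP_fc0ae9_an.St

open scoped InnerProductSpace

variable {E : Type} [NormedAddCommGroup E] [InnerProductSpace ℝ E]

/- Sketch. Fabs theta - Fabs theta' = (theta' - theta) D with g = gabs and
D = |g|^2 - eps (2 a^2 <e,g> - w0 <Y,g>), |eps (..)| <= eps (2 + y) a^2 |g|.
Lower bound: G^2 - s G >= - s^2 / 4. Upper bound: |g| <= (b + 2) (a + sqrt eps tau) and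
eps a^2 <= a, because eps a^2 <= 1 and eps <= 1. -/
theorem theta_dep {b y : ℝ} (hb : 0 ≤ b) (hy : 0 ≤ y) :
    ∃ C : ℝ, 0 < C ∧ ∀ (ε k c θ θ' : ℝ), 0 < ε → ε ≤ 1 → ∀ (e w p q σ Y : E) (a τ tr : ℝ),
      ‖e‖ = 1 → 0 ≤ a → 0 ≤ τ → ‖p‖ ≤ a → ‖q‖ ≤ a → ‖σ‖ ≤ a * τ → ‖Y‖ ≤ y * a ^ 2 →
      ‖w‖ ^ 2 + ε * a ^ 2 ≤ 1 → ∃ D : ℝ, -(C * ε ^ 2 * a ^ 4) ≤ D ∧
        D ≤ C * (a ^ 2 + ε * τ ^ 2) ∧
        Fabs ε b k c θ 1 e w p q σ Y (a ^ 2) (τ ^ 2) tr =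
          Fabs ε b k c θ' 1 e w p q σ Y (a ^ 2) (τ ^ 2) tr + (θ' - θ) * D := by
  refine ⟨4 * (b + 2) ^ 2 + (2 + y) ^ 2, by positivity,
    fun ε k c θ θ' h0 h1 e w p q σ Y a τ tr he ha hτ hp hq hσ hY hw => ?_⟩
  obtain ⟨g, hg⟩ : ∃ g, g = gabs ε b e w p q σ (a ^ 2) := ⟨_, rfl⟩
  have h2 : ε * a ^ 2 ≤ 1 := by nlinarith [sq_nonneg ‖w‖]
  have h3 : |⟪e, w⟫_ℝ| ≤ 1 := (abs_real_inner_le_norm e w).trans (by
    rw [he, one_mul]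
    exact (sq_le_one_iff₀ (norm_nonneg w)).1 (by nlinarith [mul_nonneg h0.le (sq_nonneg a)]))
  have h4 : ε * a ≤ 1 := (sq_le_one_iff₀ (by positivity)).1 (by nlinarith)
  have h5 : ‖g‖ ≤ (b + 2) * a + ε * a * τ := by
    have e1 : ‖(b * ⟪e, w⟫_ℝ) • q‖ ≤ b * a := by
      rw [norm_smul, Real.norm_eq_abs, abs_mul, abs_of_nonneg hb, mul_assoc]
      exact mul_le_mul_of_nonneg_left ((mul_le_of_le_one_left (norm_nonneg q) h3).trans hq) hb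
    have e2 : ‖(a ^ 2) • e‖ = a ^ 2 := by rw [norm_smul, he, mul_one, Real.norm_of_nonneg (sq_nonneg a)]
    have e3 : ‖(b * ⟪e, w⟫_ℝ) • q + (a ^ 2) • e + σ‖ ≤ b * a + a ^ 2 + a * τ :=
      norm_add_le_of_le (norm_add_le_of_le e1 e2.le) hσ
    rw [hg, gabs]
    refine (norm_add_le_of_le hp ((norm_smul _ _).trans_le (mul_le_mul_of_nonneg_left e3
      (norm_nonneg ε)))).trans ?_
    rw [Real.norm_of_nonneg h0.le]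
    nlinarith [mul_le_mul_of_nonneg_right h1 (mul_nonneg hb ha), mul_le_mul_of_nonneg_right h4 ha]
  have h6 : |2 * a ^ 2 * ⟪e, g⟫_ℝ - ⟪e, w⟫_ℝ * ⟪Y, g⟫_ℝ| ≤ (2 + y) * a ^ 2 * ‖g‖ := by
    have e1 := abs_real_inner_le_norm e g
    have e2 := (abs_real_inner_le_norm Y g).trans (mul_le_mul_of_nonneg_right hY (norm_nonneg g))
    refine (abs_sub _ _).trans ?_
    rw [abs_mul, abs_mul ⟪e, w⟫_ℝ, abs_of_nonneg (by positivity : 0 ≤ 2 * a ^ 2)]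
    rw [he, one_mul] at e1
    nlinarith [mul_le_mul_of_nonneg_left e1 (sq_nonneg a),
      mul_le_of_le_one_left (abs_nonneg ⟪Y, g⟫_ℝ) h3]
  obtain ⟨s, hs⟩ : ∃ s, s = ε * ((2 + y) * a ^ 2) := ⟨_, rfl⟩
  have h7 := abs_le.1 h6
  have h8 := mul_le_mul_of_nonneg_left h7.1 h0.le
  have h9 := mul_le_mul_of_nonneg_left h7.2 h0.le
  have h10 : s ^ 2 = (2 + y) ^ 2 * (ε ^ 2 * a ^ 4) := by rw [hs]; ring
  have h11 : ε * ((2 + y) * a ^ 2 * ‖g‖) = s * ‖g‖ := by rw [hs]; ring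
  refine ⟨‖g‖ ^ 2 - ε * (2 * a ^ 2 * ⟪e, g⟫_ℝ - ⟪e, w⟫_ℝ * ⟪Y, g⟫_ℝ), ?_, ?_, ?_⟩
  · have : 0 ≤ (b + 2) ^ 2 * (ε ^ 2 * a ^ 4) := by positivity
    nlinarith [sq_nonneg (‖g‖ - s), sq_nonneg ‖g‖]
  · have e1 : ‖g‖ ^ 2 ≤ 2 * ((b + 2) ^ 2 * a ^ 2) + 2 * (ε * τ ^ 2) := by
      have := pow_le_pow_left₀ (norm_nonneg g) h5 2
      nlinarith [sq_nonneg ((b + 2) * a - ε * a * τ),
        mul_le_mul_of_nonneg_right h2 (mul_nonneg h0.le (sq_nonneg τ))]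
    have e2 : ε ^ 2 * a ^ 4 ≤ a ^ 2 := by
      nlinarith [mul_le_mul_of_nonneg_right (pow_le_one₀ (n := 2) (by positivity) h4) (sq_nonneg a)]
    have e3 := mul_le_mul_of_nonneg_left e2 (sq_nonneg (2 + y))
    have e4 : 0 ≤ ε * τ ^ 2 := by positivity
    have e5 : 1 * (ε * τ ^ 2) ≤ (b + 2) ^ 2 * (ε * τ ^ 2) :=
      mul_le_mul_of_nonneg_right (by nlinarith) e4
    nlinarith [sq_nonneg (‖g‖ - s), sq_nonneg s, mul_nonneg (sq_nonneg (2 + y)) e4]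
  · simp only [Fabs, ← hg]
    ring

end Pool.Agent.Lib.MP_fc0ae9_an.St
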