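import Pool.Agent.Lib.MP_fc0ae9_an.StCA
import Pool.Agent.Lib.MP_fc0ae9_an.StCB
import Pool.Agent.Lib.MP_fc0ae9_an.StCT

/-! The calibration inequality. -/

namespace Pool.Agent.Lib.MP_fc0ae9_an.St

open scoped InnerProductSpace

variable {ι : Type} [Fintype ι]

lemma cal_th_one {n : ℝ} (h3 : 3 ≤ n) : 1 ≤ th n := by
  unfold th
  rw [le_div_iff₀ (by linarith)]
  linarith

lemma cal_th_two {n : ℝ} (h3 : 3 ≤ n) : th n ≤ 2 := by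
  unfold th
  rw [div_le_iff₀ (by linarith)]
  linarith

lemma cal_nu2 {n : ℝ} (h3 : 3 ≤ n) : 0 ≤ nu2 n := div_nonneg (by linarith) (by linarith)

lemma cal_th_nu2 {n : ℝ} (h3 : 3 ≤ n) : th n * nu2 n < 1 := by
  unfold th nu2
  rw [div_mul_div_comm, div_lt_one (mul_pos (by linarith) (by linarith))]
  nlinarith

lemma cal_bb {n : ℝ} (h3 : 3 ≤ n) : 0 ≤ bb n :=
  mul_nonneg (mul_nonneg (by norm_num) (by linarith)) (by linarith)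

lemma cal_kk {n : ℝ} (h3 : 3 ≤ n) : 0 ≤ kk n :=
  div_nonneg (mul_nonneg (mul_nonneg (by norm_num) (by linarith)) (by linarith)) (by linarith)

lemma cal_w_le {w : Vc ι} {t : ℝ} (ht : 0 ≤ t) (h : ‖w‖ ^ 2 + t ≤ 1) : ‖w‖ ≤ 1 := by
  nlinarith [norm_nonneg w]

lemma cal_mv_le (A : Vc (ι × ι)) {w : Vc ι} (h : ‖w‖ ≤ 1) : ‖mv A w‖ ≤ ‖A‖ :=
  (norm_mv_le A w).trans (mul_le_of_le_one_right (norm_nonneg _) h)

lemma cal_Yv_le {k : ℝ} (hk : 0 ≤ k) (A : Vc (ι × ι)) {w : Vc ι} (h : ‖w‖ ≤ 1) :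
    ‖Yv k 4 w A‖ ≤ (3 * k + 4) * ‖A‖ ^ 2 :=
  (norm_Yv_le hk (by norm_num) w A).trans (mul_le_of_le_one_right (by positivity) h)

lemma cal_A {g x₀ x ε m a2 τ2 : ℝ} (hg : 0 < g) (hx : x₀ ≤ 1 / 2) (hε : 0 < ε) (hεx : ε ≤ x₀)
    (ha : 0 ≤ a2) (hτ : 0 ≤ τ2) (h1 : x₀ ≤ x) (h2 : ε * a2 ≤ x) (hm : m ≤ g * x₀ / 4) :
    g / 4 * ε * (a2 + a2 ^ 2 + τ2) ≤ g * (a2 * x + ε * τ2) - m * (a2 + ε * τ2) := by
  have h3 : m * (a2 + ε * τ2) ≤ g * x₀ / 4 * (a2 + ε * τ2) :=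
    mul_le_mul_of_nonneg_right hm (by positivity)
  have h4 : a2 * x₀ ≤ a2 * x := mul_le_mul_of_nonneg_left h1 ha
  have h5 : a2 * (ε * a2) ≤ a2 * x := mul_le_mul_of_nonneg_left h2 ha
  have h6 : a2 * ε ≤ a2 * x₀ := mul_le_mul_of_nonneg_left hεx ha
  have h7 : 0 ≤ ε * τ2 := by positivity
  have h8 : x₀ * (ε * τ2) ≤ 1 / 2 * (ε * τ2) := mul_le_mul_of_nonneg_right hx h7
  have h9 : 0 ≤ a2 * (ε * a2) := by positivity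
  have h10 : 1 / 4 * ε * (a2 + a2 ^ 2 + τ2) ≤ a2 * x + ε * τ2 - x₀ / 4 * (a2 + ε * τ2) := by
    nlinarith
  nlinarith [mul_le_mul_of_nonneg_left h10 hg.le]

/- Sketch. caseB if x = 1 - |w|^2 <= x0. Otherwise caseA with nu = nu2 n (th n * nu2 n < 1, kato1, kato2,
norm_mv_le, norm_Yv_le, abs_tr3_le), g0 = (1 - th nu2)/2: a^2 x >= (x0 a^2 + eps a^4)/2, so if
C sqrt eps <= g0 x0 / 4 and eps <= x0 then FF >= (g0/4) eps (a^2 + a^4 + tau^2). -/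
theorem calib0 {n : ℝ} (hn : n = Fintype.card ι) (h3 : 3 ≤ n) : ∃ γ ε₀ : ℝ, 0 < γ ∧ 0 < ε₀ ∧
    ∀ ε : ℝ, 0 < ε → ε ≤ ε₀ →
      ∀ (e w : Vc ι) (A : Vc (ι × ι)) (S : Vc (ι × ι × ι)), ‖e‖ = 1 → STM A → STT S →
      ‖w‖ ^ 2 + ε * bb n * ⟪e, w⟫_ℝ ^ 2 + ε * ‖A‖ ^ 2 ≤ 1 →
      γ * ε * (‖A‖ ^ 2 + ‖A‖ ^ 4 + ‖S‖ ^ 2) ≤ FF ε (bb n) (kk n) 4 (th n) 1 e w A S := by
  obtain ⟨γ, x₀, hγ, hx0, hx1, HB⟩ := caseB hn h3
  have hb := cal_bb h3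
  have hk := cal_kk h3
  obtain ⟨C, hC, HA⟩ := caseA (E := Vc ι) (c := 4) (y := 3 * kk n + 4) (cal_th_one h3)
    (cal_th_two h3) (cal_nu2 h3) (cal_th_nu2 h3) hb hk (by norm_num) (by positivity)
  obtain ⟨g, hg⟩ : ∃ g, g = (1 - th n * nu2 n) / 2 := ⟨_, rfl⟩
  have hg0 : 0 < g := by
    rw [hg]
    linarith [cal_th_nu2 h3]
  rw [← hg] at HA
  refine ⟨min γ (g / 4), min x₀ ((g * x₀ / (4 * (C + 1))) ^ 2), by positivity, by positivity, ?_⟩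
  intro ε hε hε0 e w A S he hA hS hN
  have hεx : ε ≤ x₀ := hε0.trans (min_le_left _ _)
  have hE : 0 ≤ ε * (‖A‖ ^ 2 + ‖A‖ ^ 4 + ‖S‖ ^ 2) := by positivity
  by_cases hx : 1 - ‖w‖ ^ 2 ≤ x₀
  · refine le_trans ?_ (HB ε hε hεx e w A S he hA hS hN hx)
    rw [mul_assoc, mul_assoc]
    exact mul_le_mul_of_nonneg_right (min_le_left _ _) hE
  have h1 : 0 ≤ ε * bb n * ⟪e, w⟫_ℝ ^ 2 := by positivity
  have hN' : ‖w‖ ^ 2 + ε * ‖A‖ ^ 2 ≤ 1 := by linarith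
  have hw := cal_w_le (by positivity) hN'
  have h2 := HA ε hε (by linarith) e w (mv A w) (mv A e) (sg A S) (Yv (kk n) 4 w A) ‖A‖ ‖S‖ (tr3 A)
    he (norm_nonneg _) (norm_nonneg _) (kato1 hn h3 hA w) (cal_mv_le A he.le) (kato2 hn h3 hA hS)
    (cal_Yv_le hk A hw) (abs_tr3_le A) hN'
  have h4 : √ε ≤ g * x₀ / (4 * (C + 1)) :=
    Real.sqrt_le_iff.2 ⟨by positivity, hε0.trans (min_le_right _ _)⟩
  have h5 : C * √ε ≤ g * x₀ / 4 := by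
    rw [le_div_iff₀ (by positivity)] at h4
    nlinarith [Real.sqrt_nonneg ε]
  have h6 := cal_A (x := 1 - ‖w‖ ^ 2) (τ2 := ‖S‖ ^ 2) hg0 hx1 hε hεx (sq_nonneg ‖A‖) (sq_nonneg _)
    (not_le.1 hx).le (by linarith) h5
  refine le_trans ?_ (h6.trans h2)
  rw [mul_assoc, mul_assoc, ← pow_mul]
  exact mul_le_mul_of_nonneg_right (min_le_right _ _) hE

/- Sketch. eps = min eps0 (min 1 (gam / C)), eta = gam eps / (2 C) with C from theta_dep (theta' = th n,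
1 <= th n <= 3/2). For N = 1: if theta <= th n the loss is at most C eps^2 a^4 <= gam eps a^4, otherwise at
most eta C (a^2 + eps tau^2). General N: FF_homog with mu = sqrt N applied to mu^-1 w, mu^-1 A, mu^-1 S. -/
theorem calib {n : ℝ} (hn : n = Fintype.card ι) (h3 : 3 ≤ n) : ∃ ε b k c η γ : ℝ, 0 < ε ∧ 0 ≤ b ∧
    0 ≤ k ∧ 0 ≤ c ∧ 0 < η ∧ 0 < γ ∧ ∀ θ : ℝ, 1 ≤ θ → θ ≤ th n + η →
      ∀ (N : ℝ) (e w : Vc ι) (A : Vc (ι × ι)) (S : Vc (ι × ι × ι)), ‖e‖ = 1 → STM A → STT S →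
      0 < N → ‖w‖ ^ 2 + ε * b * ⟪e, w⟫_ℝ ^ 2 + ε * ‖A‖ ^ 2 ≤ N →
      γ * ‖A‖ ^ 2 ≤ FF ε b k c θ N e w A S := by
  obtain ⟨γ, ε₀, hγ, hε0, H0⟩ := calib0 hn h3
  have hb := cal_bb h3
  have hk := cal_kk h3
  obtain ⟨C, hC, HT⟩ := theta_dep (E := Vc ι) (y := 3 * kk n + 4) hb (by positivity)
  obtain ⟨ε, hε⟩ : ∃ ε, ε = min ε₀ (min 1 (γ / C)) := ⟨_, rfl⟩
  have e0 : 0 < ε := by rw [hε]; positivity
  have e1 : ε ≤ ε₀ := hε ▸ min_le_left _ _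
  have e2 : ε ≤ 1 := hε ▸ (min_le_right _ _).trans (min_le_left _ _)
  have e3 : ε * C ≤ γ := (le_div_iff₀ hC).1 (hε ▸ (min_le_right _ _).trans (min_le_right _ _))
  refine ⟨ε, bb n, kk n, 4, γ * ε / (2 * C), γ * ε / 2, e0, hb, hk, by norm_num, by positivity,
    by positivity, fun θ hθ1 hθ2 => ?_⟩
  have key : ∀ (e w : Vc ι) (A : Vc (ι × ι)) (S : Vc (ι × ι × ι)), ‖e‖ = 1 → STM A → STT S →
      ‖w‖ ^ 2 + ε * bb n * ⟪e, w⟫_ℝ ^ 2 + ε * ‖A‖ ^ 2 ≤ 1 →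
      γ * ε / 2 * ‖A‖ ^ 2 ≤ FF ε (bb n) (kk n) 4 θ 1 e w A S := by
    intro e w A S he hA hS hN
    have h0 := H0 ε e0 e1 e w A S he hA hS hN
    have h1 : 0 ≤ ε * bb n * ⟪e, w⟫_ℝ ^ 2 := by positivity
    have hN' : ‖w‖ ^ 2 + ε * ‖A‖ ^ 2 ≤ 1 := by linarith
    have hw := cal_w_le (by positivity) hN'
    obtain ⟨D, d1, d2, d3⟩ := HT ε (kk n) 4 θ (th n) e0 e2 e w (mv A w) (mv A e) (sg A S)
      (Yv (kk n) 4 w A) ‖A‖ ‖S‖ (tr3 A) he (norm_nonneg _) (norm_nonneg _) (cal_mv_le A hw)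
      (cal_mv_le A he.le) (norm_sg_le A S) (cal_Yv_le hk A hw) hN'
    unfold FF at h0 ⊢
    rw [d3]
    have p1 : 0 ≤ γ * ε * ‖A‖ ^ 2 := by positivity
    have p2 : 0 ≤ γ * ε * ‖A‖ ^ 4 := by positivity
    have p3 : 0 ≤ γ * ε * ‖S‖ ^ 2 := by positivity
    rcases le_total θ (th n) with h | h
    · have h4 : 0 ≤ C * ε ^ 2 * ‖A‖ ^ 4 := by positivity
      have h5 : (th n - θ) * -(C * ε ^ 2 * ‖A‖ ^ 4) ≤ (th n - θ) * D :=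
        mul_le_mul_of_nonneg_left d1 (by linarith)
      have h6 : (th n - θ) * (C * ε ^ 2 * ‖A‖ ^ 4) ≤ 1 * (C * ε ^ 2 * ‖A‖ ^ 4) :=
        mul_le_mul_of_nonneg_right (by linarith [cal_th_two h3]) h4
      have h7 : ε * C * (ε * ‖A‖ ^ 4) ≤ γ * (ε * ‖A‖ ^ 4) :=
        mul_le_mul_of_nonneg_right e3 (by positivity)
      nlinarith
    · have h5 : (θ - th n) * D ≤ (θ - th n) * (C * (‖A‖ ^ 2 + ε * ‖S‖ ^ 2)) :=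
        mul_le_mul_of_nonneg_left d2 (by linarith)
      have h6 : (θ - th n) * (C * (‖A‖ ^ 2 + ε * ‖S‖ ^ 2)) ≤
          γ * ε / (2 * C) * (C * (‖A‖ ^ 2 + ε * ‖S‖ ^ 2)) :=
        mul_le_mul_of_nonneg_right (by linarith) (by positivity)
      have h7 : γ * ε / (2 * C) * (C * (‖A‖ ^ 2 + ε * ‖S‖ ^ 2)) =
          γ * ε / 2 * (‖A‖ ^ 2 + ε * ‖S‖ ^ 2) := by field_simp
      have h8 : ε * (γ * ε * ‖S‖ ^ 2) ≤ 1 * (γ * ε * ‖S‖ ^ 2) := mul_le_mul_of_nonneg_right e2 p3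
      nlinarith
  intro N e w A S he hA hS hN hle
  obtain ⟨μ, hμ0, rfl⟩ : ∃ μ : ℝ, 0 < μ ∧ N = μ ^ 2 :=
    ⟨√N, Real.sqrt_pos.2 hN, (Real.sq_sqrt hN.le).symm⟩
  have h1 := FF_homog ε (bb n) (kk n) 4 θ 1 μ hμ0.ne' one_ne_zero e (μ⁻¹ • w) (μ⁻¹ • A) (μ⁻¹ • S)
  rw [smul_inv_smul₀ hμ0.ne', smul_inv_smul₀ hμ0.ne', smul_inv_smul₀ hμ0.ne', mul_one] at h1
  have h2 := key e (μ⁻¹ • w) (μ⁻¹ • A) (μ⁻¹ • S) he (hA.smul _) (hS.smul _) (by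
    rw [norm_smul, norm_smul, inner_smul_right, Real.norm_of_nonneg (inv_pos.2 hμ0).le]
    have h3 := mul_le_mul_of_nonneg_left hle (sq_nonneg μ⁻¹)
    rw [← mul_pow, inv_mul_cancel₀ hμ0.ne'] at h3
    linarith)
  rw [norm_smul, Real.norm_of_nonneg (inv_pos.2 hμ0).le] at h2
  rw [h1]
  refine le_trans (le_of_eq ?_) (mul_le_mul_of_nonneg_left h2 (sq_nonneg μ))
  field_simp

end Pool.Agent.Lib.MP_fc0ae9_an.St
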