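import Pool.Agent.Lib.MP_fc0ae9_an.StH2

/-! Rules for scaled derivatives, derivatives and symmetries of the jets, bounds for the jets. -/

namespace Pool.Agent.Lib.MP_fc0ae9_an.St

open scoped InnerProductSpace ContDiff Topology
open Metric Pool.Agent.Results.MP_fc0ae9_an.PositiveThreshold

variable {d : ℕ} {l : Fin (d + 1)} {X : EE d} {f g : EE d → ℝ} {f' g' : ℝ}

lemma HD.of_eq (h : HD l f X f') (e : f' = g') : HD l f X g' := e ▸ h

lemma HD.congr (h : HD l f X f') (e : g =ᶠ[𝓝 X] f) : HD l g X f' := by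
  refine ⟨h.1.congr_of_eventuallyEq e, ?_⟩
  rw [pd_eq, e.fderiv_eq]
  exact h.2

lemma HD.const (c : ℝ) : HD l (fun _ => c) X 0 := by
  refine ⟨differentiableAt_const c, ?_⟩
  simp [pd_eq]

lemma HD.coord : HD l (fun Y => Y 0) X (X 0 * ev 0 l) := by
  have h : HasFDerivAt (fun Y : EE d => Y 0) (EuclideanSpace.proj (𝕜 := ℝ) (0 : Fin (d + 1))) X :=
    (EuclideanSpace.proj (𝕜 := ℝ) (0 : Fin (d + 1))).hasFDerivAt
  refine ⟨h.differentiableAt, ?_⟩
  rw [pd_eq, h.fderiv]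
  simp [ev_apply, eq_comm]

lemma HD.add (hf : HD l f X f') (hg : HD l g X g') : HD l (fun Y => f Y + g Y) X (f' + g') := by
  refine ⟨hf.1.fun_add hg.1, ?_⟩
  rw [← hf.2, ← hg.2, pd_eq, pd_eq, pd_eq, fderiv_fun_add hf.1 hg.1]
  simp [mul_add]

lemma HD.sub (hf : HD l f X f') (hg : HD l g X g') : HD l (fun Y => f Y - g Y) X (f' - g') := by
  refine ⟨hf.1.fun_sub hg.1, ?_⟩
  rw [← hf.2, ← hg.2, pd_eq, pd_eq, pd_eq, fderiv_fun_sub hf.1 hg.1]
  simp [mul_sub]

lemma HD.mul (hf : HD l f X f') (hg : HD l g X g') :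
    HD l (fun Y => f Y * g Y) X (f' * g X + f X * g') := by
  refine ⟨hf.1.fun_mul hg.1, ?_⟩
  rw [← hf.2, ← hg.2, pd_eq, pd_eq, pd_eq, fderiv_fun_mul hf.1 hg.1]
  simp only [add_apply, smul_apply, smul_eq_mul]
  ring

lemma HD.const_mul (c : ℝ) (hf : HD l f X f') : HD l (fun Y => c * f Y) X (c * f') := by
  exact ((HD.const c).mul hf).of_eq (by ring)

lemma HD.mul_const (hf : HD l f X f') (c : ℝ) : HD l (fun Y => f Y * c) X (f' * c) := by
  exact (hf.mul (HD.const c)).of_eq (by ring)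

lemma HD.sq (hf : HD l f X f') : HD l (fun Y => f Y ^ 2) X (2 * f X * f') := by
  simp only [pow_two]
  exact (hf.mul hf).of_eq (by ring)

lemma HD.rpow (hf : HD l f X f') (h : 0 < f X) (s : ℝ) :
    HD l (fun Y => f Y ^ s) X (s * f X ^ (s - 1) * f') := by
  have h1 := hf.1.hasFDerivAt.rpow_const (p := s) (Or.inl h.ne')
  refine ⟨h1.differentiableAt, ?_⟩
  rw [← hf.2, pd_eq, pd_eq, h1.fderiv]
  simp only [smul_apply, smul_eq_mul]
  ring

lemma HD.sum {ι : Type} [Fintype ι] {f : ι → EE d → ℝ} {f' : ι → ℝ}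
    (h : ∀ i, HD l (f i) X (f' i)) : HD l (fun Y => ∑ i, f i Y) X (∑ i, f' i) := by
  refine ⟨DifferentiableAt.fun_sum fun i _ => (h i).1, ?_⟩
  rw [pd_eq, fderiv_fun_sum fun i _ => (h i).1, _root_.sum_apply, Finset.mul_sum]
  exact Finset.sum_congr rfl fun i _ => (h i).2

lemma hd_har {u : EE d → ℝ} (hu : Har u) (hX : X ∈ halfSpace d) (l : Fin (d + 1)) :
    HD l u X (X 0 * pd l u X) :=
  ⟨(hu X hX).1.differentiableAt (by simp), rfl⟩

variable {F : Fin (d + 1) → EE d → ℝ}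

lemma hd_w (hF : ∀ i, Har (F i)) (hX : X ∈ halfSpace d) (l i : Fin (d + 1)) :
    HD l (fun Y => vec F Y i) X (jA F X (i, l)) := by
  exact hd_har (hF i) hX l

lemma hd_A (hF : ∀ i, Har (F i)) (hX : X ∈ halfSpace d) (l i j : Fin (d + 1)) :
    HD l (fun Y => jA F Y (i, j)) X (ev 0 l * jA F X (i, j) + jS F X (i, j, l)) := by
  refine (HD.coord.mul (hd_har ((hF i).der j) hX l)).of_eq ?_
  rw [jA_apply, jS_apply]
  ring

lemma hd_S (hF : ∀ i, Har (F i)) (hX : X ∈ halfSpace d) (l i j k : Fin (d + 1)) :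
    HD l (fun Y => jS F Y (i, j, k)) X (2 * ev 0 l * jS F X (i, j, k) + jR F X i j k l) := by
  refine (HD.coord.sq.mul (hd_har (((hF i).der j).der k) hX l)).of_eq ?_
  rw [jS_apply, jR]
  ring

lemma jR_trace (hF : ∀ i, Har (F i)) (hX : X ∈ halfSpace d) (i j : Fin (d + 1)) :
    ∑ k, jR F X i j k k = 0 := by
  simp only [jR]
  rw [← Finset.mul_sum, ((hF i).der j X hX).2, mul_zero]

lemma CR.stm (hF : CR F) (hX : X ∈ halfSpace d) : STM (jA F X) := by
  refine ⟨fun i j => ?_, ?_⟩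
  · rw [jA_apply, jA_apply, hF.sym X hX]
  · simp only [jA_apply]
    rw [← Finset.mul_sum, hF.div X hX, mul_zero]

/- Differentiate hF.sym and hF.div, which hold on the open half-space; pd_comm. -/
lemma CR.stt (hF : CR F) (hX : X ∈ halfSpace d) : STT (jS F X) := by
  refine ⟨fun i j k => ?_, fun i j k => ?_, fun k => ?_⟩
  · have h : pd j (F i) =ᶠ[𝓝 X] pd i (F j) := by
      filter_upwards [isOpen_half.mem_nhds hX] with Y hY using hF.sym Y hY j i
    rw [jS_apply, jS_apply, pd_eq k, pd_eq k, h.fderiv_eq]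
  · rw [jS_apply, jS_apply, pd_comm (hF.har i X hX).1]
  · have h : (fun _ => (0 : ℝ)) =ᶠ[𝓝 X] fun Y => ∑ i, pd i (F i) Y := by
      filter_upwards [isOpen_half.mem_nhds hX] with Y hY using (hF.div Y hY).symm
    have h1 := ((HD.sum fun i => hd_har ((hF.har i).der i) hX k).congr h).2
    rw [(HD.const (0 : ℝ)).2] at h1
    simp only [jS_apply, pow_two, mul_assoc]
    rw [← Finset.mul_sum, ← h1, mul_zero]

lemma jet_contDiffAt (hF : ∀ i, Har (F i)) (hX : X ∈ halfSpace d) :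
    ContDiffAt ℝ 1 (jet F) X := by
  have h0 : ContDiffAt ℝ 1 (fun Y : EE d => Y 0) X :=
    (EuclideanSpace.proj (𝕜 := ℝ) (0 : Fin (d + 1))).contDiff.contDiffAt
  have h1 : ∀ {u : EE d → ℝ}, Har u → ContDiffAt ℝ 1 u X := fun hu =>
    (hu X hX).1.of_le (by exact_mod_cast le_top)
  refine ContDiffAt.prodMk (contDiffAt_euclidean.2 fun i => h1 (hF i)) (ContDiffAt.prodMk
    (contDiffAt_euclidean.2 fun p => h0.mul (h1 ((hF p.1).der p.2)))
    (contDiffAt_euclidean.2 fun p => (h0.pow 2).mul (h1 (((hF p.1).der p.2.1).der p.2.2))))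

end Pool.Agent.Lib.MP_fc0ae9_an.St
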