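import Pool.Agent.Lib.MP_fc0ae9_an.StD2a

/-! Divergence of the scaled gradient along a solution. -/

namespace Pool.Agent.Lib.MP_fc0ae9_an.St

open scoped InnerProductSpace ContDiff Topology
open Pool.Agent.Results.MP_fc0ae9_an.PositiveThreshold

variable {d : ℕ} {X : EE d} {F : Fin (d + 1) → EE d → ℝ}

lemma sum_ev_mul (f : Fin (d + 1) → ℝ) : ∑ l, (ev 0 : EE d) l * f l = f 0 := by
  simp [ev_apply]

lemma mv_ev (A : Vc (Fin (d + 1) × Fin (d + 1))) (l : Fin (d + 1)) : mv A (ev 0) l = A (l, 0) := by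
  simp [mv_apply, ev_apply]

lemma STT.trace13 {ι : Type} [Fintype ι] {S : Vc (ι × ι × ι)} (hS : STT S) (j : ι) :
    ∑ l, S (l, j, l) = 0 := by
  rw [← hS.2.2 j]
  exact Finset.sum_congr rfl fun l _ => hS.2.1 l j l

lemma div_mv (hF : CR F) (hX : X ∈ halfSpace d) : ∃ G' : Fin (d + 1) → ℝ,
    (∀ l, HD l (fun Y => mv (jA F Y) (vec F Y) l) X (G' l)) ∧
    ∑ l, G' l = mv (jA F X) (vec F X) 0 + ‖jA F X‖ ^ 2 := by
  refine ⟨_, fun l => HD.sum fun j => (hd_A hF.har hX l l j).mul (hd_w hF.har hX l j), ?_⟩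
  have h1 : ∑ l, ∑ j, jS F X (l, j, l) * vec F X j = 0 := by
    rw [Finset.sum_comm]
    exact Finset.sum_eq_zero fun j _ => by rw [← Finset.sum_mul, (hF.stt hX).trace13, zero_mul]
  have h2 : ∑ l, ∑ j, jA F X (l, j) * jA F X (j, l) = ‖jA F X‖ ^ 2 := by
    rw [norm_sq_eq2]
    exact Finset.sum_congr rfl fun l _ => Finset.sum_congr rfl fun j _ => by
      rw [(hF.stm hX).1 j l, sq]
  simp only [add_mul, Finset.sum_add_distrib, mul_assoc, ← Finset.mul_sum]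
  rw [h1, h2, sum_ev_mul, add_zero, mv_apply]

lemma div_mv_ev (hF : CR F) (hX : X ∈ halfSpace d) : ∃ G' : Fin (d + 1) → ℝ,
    (∀ l, HD l (fun Y => ⟪ev 0, vec F Y⟫_ℝ * mv (jA F Y) (ev 0) l) X (G' l)) ∧
    ∑ l, G' l = ‖mv (jA F X) (ev 0)‖ ^ 2 + ⟪ev 0, vec F X⟫_ℝ * mv (jA F X) (ev 0) 0 := by
  simp only [mv_ev]
  refine ⟨_, fun l => (hd_w0 hF hX l).mul (hd_A hF.har hX l l 0), ?_⟩
  simp only [Finset.sum_add_distrib, ← Finset.mul_sum]
  rw [sum_ev_mul, (hF.stt hX).trace13, add_zero, norm_sq_eq]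
  simp only [mv_ev, sq]

lemma div_sg (hF : CR F) (hX : X ∈ halfSpace d) : ∃ G' : Fin (d + 1) → ℝ,
    (∀ l, HD l (fun Y => sg (jA F Y) (jS F Y) l) X (G' l)) ∧
    ∑ l, G' l = 3 * sg (jA F X) (jS F X) 0 + ‖jS F X‖ ^ 2 := by
  refine ⟨_, fun l => HD.sum fun i => HD.sum fun j =>
    (hd_A hF.har hX l i j).mul (hd_S hF.har hX l i j l), ?_⟩
  have h1 : ∑ l, ∑ i, ∑ j, jA F X (i, j) * jR F X i j l l = 0 := by
    rw [Finset.sum_comm]
    refine Finset.sum_eq_zero fun i _ => ?_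
    rw [Finset.sum_comm]
    exact Finset.sum_eq_zero fun j _ => by rw [← Finset.mul_sum, jR_trace hF.har hX, mul_zero]
  have h2 : ∑ l, ∑ i, ∑ j, jS F X (i, j, l) ^ 2 = ‖jS F X‖ ^ 2 := by
    rw [norm_sq_eq3, Finset.sum_comm]
    exact Finset.sum_congr rfl fun i _ => Finset.sum_comm
  have h3 : ∑ l, (ev 0 : EE d) l * (3 * sg (jA F X) (jS F X) l) = _ := sum_ev_mul _
  rw [← h2, ← h3]
  refine Eq.trans ?_ ((congrArg₂ (· + ·) rfl h1).trans (add_zero _))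
  rw [← Finset.sum_add_distrib, ← Finset.sum_add_distrib]
  refine Finset.sum_congr rfl fun l _ => ?_
  simp only [sg_apply, Finset.mul_sum, ← Finset.sum_add_distrib]
  exact Finset.sum_congr rfl fun i _ => Finset.sum_congr rfl fun j _ => by ring

/- Sketch. w, A, S the jets, e = ev 0. Scaled divergences (sum over l of HD l of the l-th coordinate):
mv A w gives (mv A w) 0 + |A|^2 (sum_l S(l,j,l) = 0 by STT, sum_l,j A(l,j) A(j,l) = |A|^2);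
w0 mv A e gives |mv A e|^2 + w0 (mv A e) 0; |A|^2 e gives 2 |A|^2 + 2 sg 0;
sg A S gives 3 sg 0 + |S|^2 (jR_trace). -/
theorem div_gv (hF : CR F) (hX : X ∈ halfSpace d) (ε b : ℝ) : ∃ G' : Fin (d + 1) → ℝ,
    (∀ l, HD l (fun Y => gv ε b (ev 0) (vec F Y) (jA F Y) (jS F Y) l) X (G' l)) ∧
    ∑ l, G' l = ⟪ev 0, gv ε b (ev 0) (vec F X) (jA F X) (jS F X)⟫_ℝ + ‖jA F X‖ ^ 2 +
      ε * (b * ‖mv (jA F X) (ev 0)‖ ^ 2 + ‖jA F X‖ ^ 2 + 4 * ⟪ev 0, sg (jA F X) (jS F X)⟫_ℝ +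
        ‖jS F X‖ ^ 2) := by
  obtain ⟨G₁, h₁, e₁⟩ := div_mv hF hX
  obtain ⟨G₂, h₂, e₂⟩ := div_mv_ev hF hX
  obtain ⟨G₃, h₃, e₃⟩ := div_sg hF hX
  refine ⟨_, fun l => HD.congr ((h₁ l).add (((((h₂ l).const_mul b).add
    ((hd_a2 hF hX l).mul_const (ev 0 l))).add (h₃ l)).const_mul ε))
    (Filter.Eventually.of_forall fun Y => ?_), ?_⟩
  · simp only [gv, gabs, PiLp.add_apply, PiLp.smul_apply, smul_eq_mul]
    ring
  · have h4 : ∑ l, 2 * ((ev 0 : EE d) l * ‖jA F X‖ ^ 2 + sg (jA F X) (jS F X) l) * (ev 0 : EE d) l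
        = 2 * (‖jA F X‖ ^ 2 + sg (jA F X) (jS F X) 0) := by
      simp [ev_apply]
    rw [Finset.sum_add_distrib, ← Finset.mul_sum, Finset.sum_add_distrib, Finset.sum_add_distrib,
      ← Finset.mul_sum, e₁, e₂, e₃, h4]
    simp only [inner_ev, gv, gabs, PiLp.add_apply, PiLp.smul_apply, smul_eq_mul, ev_apply,
      if_true]
    ring

end Pool.Agent.Lib.MP_fc0ae9_an.St
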