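import Pool.Agent.Lib.MP_fc0ae9_an.StD1
import Pool.Agent.Lib.MP_fc0ae9_an.StA

/-! Gradient of the quadratic form along a solution. -/

namespace Pool.Agent.Lib.MP_fc0ae9_an.St

open scoped InnerProductSpace ContDiff Topology
open Pool.Agent.Results.MP_fc0ae9_an.PositiveThreshold

variable {d : ℕ} {X : EE d} {F : Fin (d + 1) → EE d → ℝ}

/- norm_sq_eq2, HD.sum, HD.sq, hd_A. -/
lemma hd_a2 (hF : CR F) (hX : X ∈ halfSpace d) (l : Fin (d + 1)) :
    HD l (fun Y => ‖jA F Y‖ ^ 2) X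
      (2 * (ev 0 l * ‖jA F X‖ ^ 2 + sg (jA F X) (jS F X) l)) := by
  simp only [norm_sq_eq2]
  refine (HD.sum fun i => HD.sum fun j => (hd_A hF.har hX l i j).sq).of_eq ?_
  rw [sg_apply]
  simp only [Finset.mul_sum, ← Finset.sum_add_distrib]
  exact Finset.sum_congr rfl fun i _ => Finset.sum_congr rfl fun j _ => by ring

lemma hd_w0 (hF : CR F) (hX : X ∈ halfSpace d) (l : Fin (d + 1)) :
    HD l (fun Y => ⟪ev 0, vec F Y⟫_ℝ) X (mv (jA F X) (ev 0) l) := by
  simp only [inner_ev]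
  refine (hd_w hF.har hX l 0).of_eq ?_
  rw [mv_apply, (hF.stm hX).1 0 l]
  simp [ev_apply]

lemma hd_NN (hF : CR F) (hX : X ∈ halfSpace d) (ε b δ : ℝ) (l : Fin (d + 1)) :
    HD l (fun Y => NN ε b δ (ev 0) (jet F Y)) X
      (2 * gv ε b (ev 0) (vec F X) (jA F X) (jS F X) l) := by
  have h1 : HD l (fun Y => ‖vec F Y‖ ^ 2) X (2 * mv (jA F X) (vec F X) l) := by
    simp only [norm_sq_eq]
    refine (HD.sum fun i => (hd_w hF.har hX l i).sq).of_eq ?_
    rw [mv_apply, Finset.mul_sum]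
    exact Finset.sum_congr rfl fun i _ => by rw [(hF.stm hX).1 i l]; ring
  refine (((h1.add ((hd_w0 hF hX l).sq.const_mul (ε * b))).add
    ((hd_a2 hF hX l).const_mul ε)).add (HD.const (δ ^ 2))).of_eq ?_
  simp only [gv, gabs, PiLp.add_apply, PiLp.smul_apply, smul_eq_mul]
  ring

end Pool.Agent.Lib.MP_fc0ae9_an.St
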