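import Pool.Agent.Lib.MP_fc0ae9_an.StD2a

/-! Divergence of the correction field along a solution. -/

namespace Pool.Agent.Lib.MP_fc0ae9_an.St

open scoped InnerProductSpace ContDiff Topology
open Pool.Agent.Results.MP_fc0ae9_an.PositiveThreshold

variable {d : ℕ} {X : EE d} {F : Fin (d + 1) → EE d → ℝ}

lemma d2b_alg {ι : Type} [Fintype ι] (k c : ℝ) (e w : Vc ι) {A : Vc (ι × ι)} {S : Vc (ι × ι × ι)}
    (hA : STM A) (hS : STT S) :
    ∑ l, (2 * k * ∑ j, ((e l * A (l, j) + S (l, j, l)) * (∑ m, A (j, m) * w m) +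
        A (l, j) * ∑ m, ((e l * A (j, m) + S (j, m, l)) * w m + A (j, m) * A (m, l))) +
      ((c - k) * (2 * (e l * ‖A‖ ^ 2 + sg A S l)) * w l + (c - k) * ‖A‖ ^ 2 * A (l, l))) =
      2 * ⟪e, Yv k c w A⟫_ℝ + 2 * k * tr3 A + 2 * c * ⟪sg A S, w⟫_ℝ := by
  have t1 : ∑ l, ∑ j, e l * A (l, j) * (∑ m, A (j, m) * w m) = ⟪e, mv A (mv A w)⟫_ℝ := by
    simp only [inner_eq, mv_apply]
    refine Finset.sum_congr rfl fun l _ => ?_
    rw [Finset.mul_sum]
    exact Finset.sum_congr rfl fun j _ => by ring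
  have t2 : ∑ l, ∑ j, S (l, j, l) * (∑ m, A (j, m) * w m) = 0 := by
    rw [Finset.sum_comm]
    refine Finset.sum_eq_zero fun j _ => ?_
    rw [← Finset.sum_mul]
    have : ∑ l, S (l, j, l) = 0 := by
      rw [← hS.2.2 j]
      exact Finset.sum_congr rfl fun l _ => hS.2.1 l j l
    rw [this, zero_mul]
  have t4 : ∑ l, ∑ j, A (l, j) * ∑ m, S (j, m, l) * w m = ⟪sg A S, w⟫_ℝ := by
    simp only [inner_eq, sg_apply, Finset.mul_sum, Finset.sum_mul]
    conv_rhs => rw [Finset.sum_comm]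
    refine Finset.sum_congr rfl fun l _ => ?_
    conv_rhs => rw [Finset.sum_comm]
    refine Finset.sum_congr rfl fun j _ => Finset.sum_congr rfl fun m _ => ?_
    rw [hS.2.1 j m l, hS.1 j l m]
    ring
  have t5 : ∑ l, ∑ j, A (l, j) * ∑ m, A (j, m) * A (m, l) = tr3 A := by
    simp only [tr3, Finset.mul_sum, mul_assoc]
  have t6 : ⟪e, Yv k c w A⟫_ℝ = 2 * k * ⟪e, mv A (mv A w)⟫_ℝ + (c - k) * ‖A‖ ^ 2 * ⟪e, w⟫_ℝ := by
    simp only [Yv, inner_add_right, real_inner_smul_right]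
  have t7 : ∀ l j, (e l * A (l, j) + S (l, j, l)) * (∑ m, A (j, m) * w m) +
        A (l, j) * ∑ m, ((e l * A (j, m) + S (j, m, l)) * w m + A (j, m) * A (m, l)) =
      2 * (e l * A (l, j) * (∑ m, A (j, m) * w m)) + S (l, j, l) * (∑ m, A (j, m) * w m) +
        A (l, j) * (∑ m, S (j, m, l) * w m) + A (l, j) * ∑ m, A (j, m) * A (m, l) := by
    intro l j
    have : ∑ m, ((e l * A (j, m) + S (j, m, l)) * w m + A (j, m) * A (m, l)) =
        e l * (∑ m, A (j, m) * w m) + (∑ m, S (j, m, l) * w m) + ∑ m, A (j, m) * A (m, l) := by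
      rw [Finset.mul_sum, ← Finset.sum_add_distrib, ← Finset.sum_add_distrib]
      exact Finset.sum_congr rfl fun m _ => by ring
    rw [this]
    ring
  have t8 : ∑ l, ((c - k) * (2 * (e l * ‖A‖ ^ 2 + sg A S l)) * w l +
      (c - k) * ‖A‖ ^ 2 * A (l, l)) = 2 * (c - k) * ‖A‖ ^ 2 * ⟪e, w⟫_ℝ +
        2 * (c - k) * ⟪sg A S, w⟫_ℝ := by
    rw [Finset.sum_add_distrib, ← Finset.mul_sum, hA.2, mul_zero, add_zero, inner_eq, inner_eq,
      Finset.mul_sum, Finset.mul_sum, ← Finset.sum_add_distrib]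
    exact Finset.sum_congr rfl fun l _ => by ring
  rw [Finset.sum_add_distrib, t8, ← Finset.mul_sum]
  simp only [t7]
  have t9 : ∑ l, ∑ j, 2 * (e l * A (l, j) * (∑ m, A (j, m) * w m)) =
      2 * ∑ l, ∑ j, e l * A (l, j) * (∑ m, A (j, m) * w m) := by
    rw [Finset.mul_sum]
    exact Finset.sum_congr rfl fun l _ => (Finset.mul_sum _ _ _).symm
  simp only [Finset.sum_add_distrib]
  rw [t9, t1, t2, t4, t5, t6]
  ring

/- Sketch. mv A (mv A w) gives 2 (mv A (mv A w)) 0 + <sg A S, w> + tr3 A, because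
sum_l S(l,j,l) = 0 and sum_l,j A(l,j) S(j,m,l) = sg A S m by the symmetries; |A|^2 w gives
2 |A|^2 w 0 + 2 <sg A S, w> because A is traceless. -/
theorem div_Yv (hF : CR F) (hX : X ∈ halfSpace d) (k c : ℝ) : ∃ Y' : Fin (d + 1) → ℝ,
    (∀ l, HD l (fun Y => Yv k c (vec F Y) (jA F Y) l) X (Y' l)) ∧
    ∑ l, Y' l = 2 * ⟪ev 0, Yv k c (vec F X) (jA F X)⟫_ℝ + 2 * k * tr3 (jA F X) +
      2 * c * ⟪sg (jA F X) (jS F X), vec F X⟫_ℝ := by
  refine ⟨_, fun l => ?_, d2b_alg k c (ev 0) (vec F X) (hF.stm hX) (hF.stt hX)⟩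
  exact (HD.const_mul (2 * k) (HD.sum fun j => (hd_A hF.har hX l l j).mul
    (HD.sum fun m => (hd_A hF.har hX l j m).mul (hd_w hF.har hX l m)))).add
    ((HD.const_mul (c - k) (hd_a2 hF hX l)).mul (hd_w hF.har hX l l))

end Pool.Agent.Lib.MP_fc0ae9_an.St
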