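import Pool.Agent.Lib.MP_fc0ae9_an.StD2
import Pool.Agent.Lib.MP_fc0ae9_an.StD2b

/-! The divergence of the calibration. -/

namespace Pool.Agent.Lib.MP_fc0ae9_an.St

open scoped InnerProductSpace ContDiff Topology
open Pool.Agent.Results.MP_fc0ae9_an.PositiveThreshold

variable {d : ℕ} {X : EE d} {F : Fin (d + 1) → EE d → ℝ}

theorem hd_VV (hF : CR F) (hX : X ∈ halfSpace d) {ε b δ : ℝ} (hε : 0 ≤ ε) (hb : 0 ≤ b)
    (hδ : 0 < δ) (q : ℝ) (l : Fin (d + 1)) :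
    HD l (fun Y => VV ε b δ q (ev 0) (jet F Y)) X (q * NN ε b δ (ev 0) (jet F X) ^ (q / 2 - 1) *
      gv ε b (ev 0) (vec F X) (jA F X) (jS F X) l) := by
  refine (((hd_NN hF hX ε b δ l).rpow (NN_pos hε hb hδ _ _) (q / 2)).sub
    (HD.const (δ ^ q))).of_eq ?_
  ring

lemma std3_apply {ι : Type} [Fintype ι] (ε b k c δ q : ℝ) (e : Vc ι) (j : Jet ι) (l : ι) :
    WW ε b k c δ q e j l =
      q * NN ε b δ e j ^ (q / 2 - 1) * (gv ε b e j.1 j.2.1 j.2.2 l - 2 * ε * ‖j.2.1‖ ^ 2 * e l) -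
        VV ε b δ q e j * e l +
        ε * q * NN ε b δ e j ^ (q / 2 - 2) * ⟪e, j.1⟫_ℝ * Yv k c j.1 j.2.1 l := by
  simp only [WW, PiLp.add_apply, PiLp.sub_apply, PiLp.smul_apply, smul_eq_mul]

lemma std3_sum {ι : Type} [Fintype ι] (g e σ Y Q : Vc ι) (G' Y' : ι → ℝ)
    (c1 c2 c3 c4 c5 c6 c7 c8 : ℝ) :
    ∑ l, (c1 * (g l * g l) + c2 * (e l * g l) + c3 * G' l + c4 * (e l * e l) + c5 * (e l * σ l) +
      c6 * (Y l * g l) + c7 * (Q l * Y l) + c8 * Y' l) =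
      c1 * ‖g‖ ^ 2 + c2 * ⟪e, g⟫_ℝ + c3 * ∑ l, G' l + c4 * ‖e‖ ^ 2 + c5 * ⟪e, σ⟫_ℝ +
        c6 * ⟪Y, g⟫_ℝ + c7 * ⟪Q, Y⟫_ℝ + c8 * ∑ l, Y' l := by
  rw [← real_inner_self_eq_norm_sq, ← real_inner_self_eq_norm_sq]
  simp only [inner_eq, Finset.sum_add_distrib, Finset.mul_sum]

/- Sketch (checked numerically). Product rule with hd_NN, HD.rpow, div_gv, hd_a2, hd_VV, hd_w0, div_Yv;
turn the sums over l into inner products (inner_eq, inner_ev, ev_apply), write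
N^(q/2-2) = N^(q/2-1) / N and N^(q/2-3) = N^(q/2-1) / N^2 (Real.rpow_sub), unfold FF Fabs, field_simp, ring. -/
theorem div_WW (hF : CR F) (hX : X ∈ halfSpace d) {ε b δ : ℝ} (hε : 0 ≤ ε) (hb : 0 ≤ b)
    (hδ : 0 < δ) (k c q : ℝ) :
    X 0 * ∑ l, pd l (fun Y => WW ε b k c δ q (ev 0) (jet F Y) l) X =
      q * NN ε b δ (ev 0) (jet F X) ^ (q / 2 - 1) *
        FF ε b k c (2 - q) (NN ε b δ (ev 0) (jet F X)) (ev 0) (vec F X) (jA F X) (jS F X) := by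
  obtain ⟨G', hG, sG⟩ := div_gv hF hX ε b
  obtain ⟨Y', hY, sY⟩ := div_Yv hF hX k c
  have hN := NN_pos hε hb hδ (ev 0) (jet F X)
  obtain ⟨N, hNe⟩ : ∃ N, N = NN ε b δ (ev 0) (jet F X) := ⟨_, rfl⟩
  obtain ⟨P, hP⟩ : ∃ P, P = N ^ (q / 2 - 1) := ⟨_, rfl⟩
  rw [← hNe] at hN
  have r1 : N ^ (q / 2 - 1 - 1) = P / N := by rw [hP, Real.rpow_sub_one hN.ne']
  have r2 : N ^ (q / 2 - 2) = P / N := by rw [← r1]; congr 1; ring
  have r3 : N ^ (q / 2 - 2 - 1) = P / N / N := by rw [← r2, Real.rpow_sub_one hN.ne']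
  have key : ∀ l, X 0 * pd l (fun Y => WW ε b k c δ q (ev 0) (jet F Y) l) X =
      q * (q - 2) * (P / N) * (gv ε b (ev 0) (vec F X) (jA F X) (jS F X) l *
          gv ε b (ev 0) (vec F X) (jA F X) (jS F X) l) +
        (-(q * (q - 2) * (P / N) * (2 * ε * ‖jA F X‖ ^ 2)) - q * P) *
          (ev 0 l * gv ε b (ev 0) (vec F X) (jA F X) (jS F X) l) +
        q * P * G' l + -(4 * q * P * ε * ‖jA F X‖ ^ 2) * ((ev 0 : EE d) l * (ev 0 : EE d) l) +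
        -(4 * q * P * ε) * (ev 0 l * sg (jA F X) (jS F X) l) +
        ε * q * (q - 4) * (P / N / N) * ⟪ev 0, vec F X⟫_ℝ *
          (Yv k c (vec F X) (jA F X) l * gv ε b (ev 0) (vec F X) (jA F X) (jS F X) l) +
        ε * q * (P / N) * (mv (jA F X) (ev 0) l * Yv k c (vec F X) (jA F X) l) +
        ε * q * (P / N) * ⟪ev 0, vec F X⟫_ℝ * Y' l := by
    intro l
    have hn := hd_NN hF hX ε b δ l
    have hpos := NN_pos hε hb hδ (ev 0) (jet F X)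
    have h1 := ((hn.rpow hpos (q / 2 - 1)).const_mul q).mul
      ((hG l).sub (((hd_a2 hF hX l).const_mul (2 * ε)).mul_const (ev 0 l)))
    have h2 := (hd_VV hF hX hε hb hδ q l).mul_const (ev 0 l)
    have h3 := (((hn.rpow hpos (q / 2 - 2)).const_mul (ε * q)).mul (hd_w0 hF hX l)).mul (hY l)
    have h4 := ((h1.sub h2).add h3).2
    simp only [← hNe, r1, r2, r3, ← hP] at h4
    simp only [std3_apply]
    refine h4.trans ?_
    ring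
  rw [Finset.mul_sum, Finset.sum_congr rfl fun l _ => key l, std3_sum, sG, sY, norm_ev, ← hNe,
    ← hP]
  have e1 : FF ε b k c (2 - q) N (ev 0) (vec F X) (jA F X) (jS F X) =
      ‖jA F X‖ ^ 2 - (2 - q) * ‖gv ε b (ev 0) (vec F X) (jA F X) (jS F X)‖ ^ 2 / N +
        ε * (b * ‖mv (jA F X) (ev 0)‖ ^ 2 + ‖jS F X‖ ^ 2 - 3 * ‖jA F X‖ ^ 2 +
          2 * (2 - q) * ‖jA F X‖ ^ 2 * ⟪ev 0, gv ε b (ev 0) (vec F X) (jA F X) (jS F X)⟫_ℝ / N +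
          (⟪mv (jA F X) (ev 0), Yv k c (vec F X) (jA F X)⟫_ℝ + 2 * ⟪ev 0, vec F X⟫_ℝ *
            (k * tr3 (jA F X) + c * ⟪sg (jA F X) (jS F X), vec F X⟫_ℝ) +
            2 * ⟪ev 0, vec F X⟫_ℝ * ⟪ev 0, Yv k c (vec F X) (jA F X)⟫_ℝ) / N -
          (2 + (2 - q)) * ⟪ev 0, vec F X⟫_ℝ *
            ⟪Yv k c (vec F X) (jA F X), gv ε b (ev 0) (vec F X) (jA F X) (jS F X)⟫_ℝ / N ^ 2) :=
    rfl
  rw [e1]
  ring

end Pool.Agent.Lib.MP_fc0ae9_an.St
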