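import Pool.Agent.Lib.MP_fc0ae9_an.StAlg

/-! The one-variable argument. -/

namespace Pool.Agent.Lib.MP_fc0ae9_an.St

open scoped InnerProductSpace Topology
open Filter

theorem StL_mono {f f' : ℝ → ℝ} (hf : ∀ t, 0 < t → HasDerivAt f (f' t) t) {a b : ℝ} (ha : 0 < a)
    (hab : a ≤ b) (h : ∀ t ∈ Set.Icc a b, 0 ≤ f' t) : f a ≤ f b :=
  monotoneOn_of_hasDerivWithinAt_nonneg (convex_Icc a b)
    (fun t ht => (hf t (ha.trans_le ht.1)).continuousAt.continuousWithinAt)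
    (fun t ht => (hf t (ha.trans_le (interior_subset ht).1)).hasDerivWithinAt)
    (fun t ht => h t (interior_subset ht)) (Set.left_mem_Icc.2 hab) (Set.right_mem_Icc.2 hab) hab

theorem StL_log {f f' : ℝ → ℝ} (hf : ∀ t, 0 < t → HasDerivAt f (f' t) t) {a b κ : ℝ} (ha : 0 < a)
    (hab : a ≤ b) (h : ∀ t ∈ Set.Icc a b, κ ≤ t * f' t) :
    f a + κ * (Real.log b - Real.log a) ≤ f b := by
  have := StL_mono (f := fun t => f t - κ * Real.log t) (fun t ht =>
    (hf t ht).fun_sub ((Real.hasDerivAt_log ht.ne').const_mul κ)) ha hab fun t ht => by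
      rw [sub_nonneg, ← div_eq_mul_inv, div_le_iff₀' (ha.trans_le ht.1)]
      exact h t ht
  linarith

theorem StL_top {f f' : ℝ → ℝ} (hf : ∀ t, 0 < t → HasDerivAt f (f' t) t) {s κ : ℝ} (hs : 0 < s)
    (hκ : 0 < κ) (h : ∀ t, s ≤ t → κ ≤ t * f' t) (M : ℝ) : ∃ t, s ≤ t ∧ M < f t := by
  have h1 : s ≤ s * Real.exp (|M - f s| / κ + 1) :=
    le_mul_of_one_le_right hs.le (Real.one_le_exp (by positivity))
  have h2 := StL_log hf hs h1 fun t ht => h t ht.1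
  rw [Real.log_mul hs.ne' (Real.exp_ne_zero _), Real.log_exp, add_sub_cancel_left, mul_add,
    mul_div_cancel₀ _ hκ.ne'] at h2
  exact ⟨_, h1, by linarith [le_abs_self (M - f s)]⟩

theorem StL_zero {f f' : ℝ → ℝ} (hf : ∀ t, 0 < t → HasDerivAt f (f' t) t) {s κ : ℝ} (hs : 0 < s)
    (hκ : 0 < κ) (h : ∀ t, 0 < t → t ≤ s → t * f' t ≤ -κ) (M : ℝ) :
    ∃ t, 0 < t ∧ t ≤ s ∧ M < f t := by
  have h0 : 0 < s / Real.exp (|M - f s| / κ + 1) := by positivity
  have h1 : s / Real.exp (|M - f s| / κ + 1) ≤ s :=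
    div_le_self hs.le (Real.one_le_exp (by positivity))
  have h2 := StL_log (κ := κ) (fun t ht => (hf t ht).fun_neg) h0 h1 fun t ht => by
    linarith [h t (h0.trans_le ht.1) ht.2]
  rw [Real.log_div hs.ne' (Real.exp_ne_zero _), Real.log_exp, sub_sub_cancel, mul_add,
    mul_div_cancel₀ _ hκ.ne'] at h2
  exact ⟨_, h0, h1, by linarith [le_abs_self (M - f s)]⟩

/- Sketch. Phi is antitone on (0, oo). (1) If Phi s = -kap < 0 then for t >= s,
t I' = Th - Phi >= -C Gam + kap, so I - C Phi - kap log t is monotone on [s, oo), hence Phi -> -oo, hence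
t I' >= 1 for large t, so I - log t is monotone for large t, against |I| <= B.
(2) If Phi s > L + 2 kap then for small t, t I' <= L + kap + C Gam - Phi <= -kap + C Gam, so
I + C Phi + kap log t is antitone near 0, hence Phi -> +oo at 0, hence t I' <= -1 near 0, so I + log t is
antitone near 0, against |I| <= B. (monotoneOn_of_deriv_nonneg, antitoneOn_of_deriv_nonpos.) -/
theorem one_dim {I I' Φ Γ ϑ : ℝ → ℝ} {B C L : ℝ} (hC : 0 ≤ C)
    (hI : ∀ t, 0 < t → HasDerivAt I (I' t) t) (hΦ : ∀ t, 0 < t → HasDerivAt Φ (-(Γ t / t)) t)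
    (hΓ : ∀ t, 0 < t → 0 ≤ Γ t) (hB : ∀ t, 0 < t → |I t| ≤ B)
    (hB' : ∀ t, 0 < t → |Φ t + t * I' t| ≤ B)
    (hlo : ∀ t, 0 < t → -(C * Γ t) ≤ Φ t + t * I' t)
    (hup : ∀ t, 0 < t → Φ t + t * I' t ≤ ϑ t + C * Γ t)
    (hlim : Tendsto ϑ (𝓝[>] 0) (𝓝 L)) : ∀ t, 0 < t → 0 ≤ Φ t ∧ Φ t ≤ L := by
  have anti : ∀ a b, 0 < a → a ≤ b → Φ b ≤ Φ a := fun a b ha hab =>
    neg_le_neg_iff.1 (StL_mono (fun t ht => (hΦ t ht).fun_neg) ha hab fun t ht => by
      rw [neg_neg]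
      exact div_nonneg (hΓ t (ha.trans_le ht.1)) (ha.le.trans ht.1))
  have hm : ∀ t, 0 < t → t * (C * -(Γ t / t)) = -(C * Γ t) := fun t ht => by field_simp
  intro s hs
  refine ⟨not_lt.1 fun h => ?_, not_lt.1 fun h => ?_⟩
  · obtain ⟨t₀, h0, h1⟩ := StL_top (fun t ht => (hI t ht).fun_sub ((hΦ t ht).const_mul C)) hs
      (neg_pos.2 h) (fun t ht => by
        rw [mul_sub, hm t (hs.trans_le ht)]
        linarith [hlo t (hs.trans_le ht), anti s t hs ht]) (B + C * (B + 1))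
    have ht₀ := hs.trans_le h0
    have h2 : Φ t₀ ≤ -(B + 1) := not_lt.1 fun h2 => by
      nlinarith [(abs_le.1 (hB t₀ ht₀)).2, mul_le_mul_of_nonneg_left h2.le hC]
    obtain ⟨t, h3, h4⟩ := StL_top hI ht₀ one_pos (fun t ht => by
      linarith [(abs_le.1 (hB' t (ht₀.trans_le ht))).1, anti t₀ t ht₀ ht]) B
    exact h4.not_ge (abs_le.1 (hB t (ht₀.trans_le h3))).2
  · obtain ⟨s', hs', h0⟩ := (mem_nhdsGT_iff_exists_Ioc_subset).1
      (hlim.eventually (gt_mem_nhds (show L < L + (Φ s - L) / 2 by linarith)))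
    obtain ⟨t₀, ht₀, h1, h2⟩ := StL_zero (fun t ht => (hI t ht).fun_add ((hΦ t ht).const_mul C))
      (lt_min hs hs') (half_pos (sub_pos.2 h)) (fun t ht ht' => by
        have h3 : ϑ t < L + (Φ s - L) / 2 := h0 ⟨ht, ht'.trans (min_le_right _ _)⟩
        rw [mul_add, hm t ht]
        linarith [hup t ht, anti t s ht (ht'.trans (min_le_left _ _))]) (B + C * (B + 1))
    have h3 : B + 1 ≤ Φ t₀ := not_lt.1 fun h3 => by
      nlinarith [(abs_le.1 (hB t₀ ht₀)).2, mul_le_mul_of_nonneg_left h3.le hC]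
    obtain ⟨t, h4, -, h5⟩ := StL_zero hI ht₀ one_pos (fun t ht ht' => by
      linarith [(abs_le.1 (hB' t ht)).2, anti t t₀ ht ht']) B
    exact h5.not_ge (abs_le.1 (hB t h4)).2

/- Phi + g t / s' is antitone on [s, s']. -/
theorem one_dim_drop {Φ Γ : ℝ → ℝ} (hΦ : ∀ t, 0 < t → HasDerivAt Φ (-(Γ t / t)) t) {s s' g : ℝ}
    (hs : 0 < s) (hss : s < s') (hg : 0 ≤ g) (h : ∀ t ∈ Set.Icc s s', g ≤ Γ t) :
    g * ((s' - s) / s') ≤ Φ s - Φ s' := by
  have hs' := hs.trans hss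
  have h1 := StL_mono (f := fun t => -Φ t - g / s' * t) (fun t ht =>
    (hΦ t ht).fun_neg.fun_sub ((hasDerivAt_id' t).const_mul (g / s'))) hs hss.le fun t ht => by
      rw [neg_neg, mul_one, sub_nonneg]
      exact div_le_div₀ (hg.trans (h t ht)) (h t ht) (hs.trans_le ht.1) ht.2
  have h2 : g * ((s' - s) / s') = g / s' * s' - g / s' * s := by ring
  linarith

end Pool.Agent.Lib.MP_fc0ae9_an.St
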