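import Pool.Agent.Lib.MP_fc0ae9_an.StAn

/-! Calculus of slice integrals under local domination. -/

namespace Pool.Agent.Lib.MP_fc0ae9_an.St

open scoped InnerProductSpace ContDiff Topology
open MeasureTheory Pool.Agent.Results.MP_fc0ae9_an.PositiveThreshold

variable {d : ℕ} {W : EE d → ℝ} {t : ℝ}

lemma sS_fderiv (t : ℝ) (x : Ed d) : HasFDerivAt (fun x : Ed d => pt t x)
    ((ptL d).comp (ContinuousLinearMap.inr ℝ ℝ (Ed d))) x :=
  (ptL d).hasFDerivAt.comp x (hasFDerivAt_prodMk_right t x)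

lemma sS_deriv (s : ℝ) (x : Ed d) : HasDerivAt (fun s : ℝ => pt s x) (ev 0) s := by
  have h2 : HasDerivAt (fun s : ℝ => (s, x)) ((1 : ℝ), (0 : Ed d)) s :=
    (hasDerivAt_id s).prodMk (hasDerivAt_const s x)
  have := (ptL d).hasFDerivAt.comp_hasDerivAt s h2
  rw [ptL_e0] at this
  exact this

lemma sS_cont {G : EE d → ℝ} (hG : ∀ X ∈ halfSpace d, ContinuousAt G X) (ht : 0 < t) :
    Continuous fun x : Ed d => G (pt t x) :=
  continuous_iff_continuousAt.2 fun x =>
    ContinuousAt.comp (f := fun x : Ed d => pt t x) (hG _ (pt_mem ht x)) (sS_fderiv t x).continuousAt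

lemma Dom.cont (hW : Dom W) (ht : 0 < t) : Continuous fun x : Ed d => W (pt t x) :=
  sS_cont (fun X hX => (hW.1 X hX).continuousAt) ht

lemma Dom.cont_pd (hW : Dom W) (ht : 0 < t) (l : Fin (d + 1)) :
    Continuous fun x : Ed d => pd l W (pt t x) :=
  sS_cont (fun X hX => (dd_contDiffAt (m := 0) (hW.1 X hX) (by simp) (ev l)).continuousAt) ht

/- pt t x = ptL d (t, x); slices are continuous; Integrable.mono'. -/
lemma Dom.integrable (hW : Dom W) (ht : 0 < t) : Integrable fun x => W (pt t x) := by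
  obtain ⟨h, hi, hb⟩ := hW.2 t t ht
  refine hi.mono' (hW.cont ht).aestronglyMeasurable ?_
  filter_upwards [hb] with x hx
  exact (hx t ⟨le_rfl, le_rfl⟩).1

lemma Dom.integrable_pd (hW : Dom W) (ht : 0 < t) (l : Fin (d + 1)) :
    Integrable fun x => pd l W (pt t x) := by
  obtain ⟨h, hi, hb⟩ := hW.2 t t ht
  refine hi.mono' (hW.cont_pd ht l).aestronglyMeasurable ?_
  filter_upwards [hb] with x hx
  exact (hx t ⟨le_rfl, le_rfl⟩).2 l

/- hasDerivAt_integral_of_dominated_loc_of_deriv_le on Icc (t/2) (2t); ptL_e0. -/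
lemma Dom.hasDerivAt (hW : Dom W) (ht : 0 < t) :
    HasDerivAt (fun s => ∫ x, W (pt s x)) (∫ x, pd 0 W (pt t x)) t := by
  obtain ⟨h, hi, hb⟩ := hW.2 (t / 2) (2 * t) (by linarith)
  have hs : Set.Icc (t / 2) (2 * t) ∈ 𝓝 t := Icc_mem_nhds (by linarith) (by linarith)
  refine (hasDerivAt_integral_of_dominated_loc_of_deriv_le (μ := volume)
    (F := fun s x => W (pt s x)) (F' := fun s x => pd 0 W (pt s x))
    (bound := h) hs ?_ (hW.integrable ht) (hW.cont_pd ht 0).aestronglyMeasurable ?_ hi ?_).2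
  · filter_upwards [Ioi_mem_nhds ht] with s hs'
    exact (hW.cont hs').aestronglyMeasurable
  · filter_upwards [hb] with x hx s hs'
    exact (hx s hs').2 0
  · refine Filter.Eventually.of_forall fun x s hs' => ?_
    have hs0 : 0 < s := by have := hs'.1; linarith
    have h1 := ((hW.1 _ (pt_mem hs0 x)).differentiableAt one_ne_zero).hasFDerivAt
    exact h1.comp_hasDerivAt s (sS_deriv s x)

/- integral_mul_fderiv_eq_neg_fderiv_mul_of_integrable with the constant function 1; ptL_ej. -/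
lemma Dom.integral_pd_succ (hW : Dom W) (ht : 0 < t) (j : Fin d) :
    ∫ x, pd j.succ W (pt t x) = 0 := by
  have hD : ∀ x : Ed d, HasFDerivAt (fun x : Ed d => W (pt t x))
      ((fderiv ℝ W (pt t x)).comp ((ptL d).comp (ContinuousLinearMap.inr ℝ ℝ (Ed d)))) x :=
    fun x => ((hW.1 _ (pt_mem ht x)).differentiableAt one_ne_zero).hasFDerivAt.comp x
      (sS_fderiv t x)
  have hE : ∀ x : Ed d, fderiv ℝ (fun x : Ed d => W (pt t x)) x (EuclideanSpace.single j 1) =
      pd j.succ W (pt t x) := by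
    intro x
    rw [(hD x).fderiv, ContinuousLinearMap.comp_apply, ContinuousLinearMap.comp_apply,
      ContinuousLinearMap.inr_apply, ptL_ej]
    rfl
  have := integral_mul_fderiv_eq_neg_fderiv_mul_of_integrable (μ := (volume : Measure (Ed d)))
    (f := fun _ : Ed d => (1 : ℝ)) (g := fun x : Ed d => W (pt t x))
    (v := EuclideanSpace.single j 1) (by simp) (by simpa [hE] using hW.integrable_pd ht j.succ)
    (by simpa using hW.integrable ht) (fun x _ => differentiableAt_const _)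
    (fun x _ => (hD x).differentiableAt)
  simpa [hE] using this

lemma sS_interp {z K M p : ℝ} (hz : 0 ≤ z) (hK : z ≤ K) (hM : z ≤ M) (hp : 0 < p) (hp1 : p ≤ 1) :
    z ≤ K ^ (1 - p) * M ^ p := by
  have h1 : z = z ^ (1 - p) * z ^ p := by
    rw [← Real.rpow_add' hz (by norm_num)]
    simp
  rw [h1]
  exact mul_le_mul (Real.rpow_le_rpow hz hK (by linarith)) (Real.rpow_le_rpow hz hM hp.le)
    (Real.rpow_nonneg hz _) (Real.rpow_nonneg (hz.trans hK) _)

/- Sketch. Fix t1 t2 and K. The derivative of Psi is bounded by some L >= 0 on closedBall 0 K (compact), so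
|Psi j| <= L |j| there (Convex.norm_image_sub_le_of_norm_fderiv_le) and by the chain rule
|pd l (Psi o J)| <= L |fderiv J X (ev l)|. A number z with 0 <= z <= K, z <= M satisfies
z <= K^(1-p) M^p. Take h = L (1 + 1/t1) K^(1-p) M^p. -/
theorem dom_comp {J : Type} [NormedAddCommGroup J] [NormedSpace ℝ J] [FiniteDimensional ℝ J]
    {Ψ : J → ℝ} (hΨ : ContDiff ℝ 1 Ψ) (h0 : Ψ 0 = 0) {j : EE d → J}
    (hj : ∀ X ∈ halfSpace d, ContDiffAt ℝ 1 j X) {p : ℝ} (hp : 0 < p) (hp1 : p ≤ 1)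
    {M : Ed d → ℝ} (hM : Integrable fun x => M x ^ p)
    (hb : ∀ᵐ x, ∀ t, 0 < t → ‖j (pt t x)‖ ≤ M x ∧ ∀ l, t * ‖fderiv ℝ j (pt t x) (ev l)‖ ≤ M x)
    (hK : ∀ t₁, 0 < t₁ → ∃ K : ℝ, ∀ X : EE d, t₁ ≤ X 0 →
      ‖j X‖ ≤ K ∧ ∀ l, X 0 * ‖fderiv ℝ j X (ev l)‖ ≤ K) : Dom fun X => Ψ (j X) := by
  refine ⟨fun X hX => hΨ.contDiffAt.comp X (hj X hX), fun t₁ t₂ ht₁ => ?_⟩
  obtain ⟨K, hK⟩ := hK t₁ ht₁
  have : ProperSpace J := FiniteDimensional.proper_real J
  obtain ⟨L₀, hL₀⟩ := (isCompact_closedBall (0 : J) K).exists_bound_of_continuousOn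
    (hΨ.continuous_fderiv one_ne_zero).continuousOn
  set L := max L₀ 0 with hLdef
  have hL0 : 0 ≤ L := le_max_right _ _
  have hL : ∀ y ∈ Metric.closedBall (0 : J) K, ‖fderiv ℝ Ψ y‖ ≤ L :=
    fun y hy => (hL₀ y hy).trans (le_max_left _ _)
  refine ⟨fun x => L * (1 + 1 / t₁) * K ^ (1 - p) * M x ^ p, hM.const_mul _, ?_⟩
  filter_upwards [hb] with x hx t ht
  have ht0 : 0 < t := ht₁.trans_le ht.1
  obtain ⟨a1, a2⟩ := hx t ht0
  obtain ⟨b1, b2⟩ := hK (pt t x) ht.1
  have hK0 : 0 ≤ K := (norm_nonneg _).trans b1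
  have hM0 : 0 ≤ M x := (norm_nonneg _).trans a1
  have hmem : j (pt t x) ∈ Metric.closedBall (0 : J) K := by simpa using b1
  have hP : 0 ≤ K ^ (1 - p) * M x ^ p := by positivity
  have hi : 0 < 1 / t₁ := by positivity
  refine ⟨?_, fun l => ?_⟩
  · have c1 := (convex_closedBall (0 : J) K).norm_image_sub_le_of_norm_fderiv_le
      (fun y _ => hΨ.differentiable one_ne_zero y) hL (Metric.mem_closedBall_self hK0) hmem
    rw [h0, sub_zero, sub_zero, Real.norm_eq_abs] at c1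
    have c2 := sS_interp (norm_nonneg _) b1 a1 hp hp1
    calc |Ψ (j (pt t x))| ≤ L * (K ^ (1 - p) * M x ^ p) :=
          c1.trans (mul_le_mul_of_nonneg_left c2 hL0)
      _ ≤ L * (1 + 1 / t₁) * K ^ (1 - p) * M x ^ p := by
          have := mul_nonneg (mul_nonneg hL0 hi.le) hP
          nlinarith
  · have c0 := (hΨ.differentiable one_ne_zero (j (pt t x))).hasFDerivAt.comp (pt t x)
      ((hj _ (pt_mem ht0 x)).differentiableAt one_ne_zero).hasFDerivAt
    have c1 : pd l (fun X => Ψ (j X)) (pt t x) =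
        fderiv ℝ Ψ (j (pt t x)) (fderiv ℝ j (pt t x) (ev l)) := by
      rw [pd_eq]
      exact congrArg (fun T : EE d →L[ℝ] ℝ => T (ev l)) c0.fderiv
    have c2 := sS_interp (mul_nonneg ht0.le (norm_nonneg _)) (b2 l) (a2 l) hp hp1
    have c3 : ‖fderiv ℝ j (pt t x) (ev l)‖ ≤ 1 / t₁ * (K ^ (1 - p) * M x ^ p) := by
      rw [one_div, ← div_eq_inv_mul, le_div_iff₀ ht₁]
      have := mul_le_mul_of_nonneg_right ht.1 (norm_nonneg (fderiv ℝ j (pt t x) (ev l)))
      linarith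
    rw [c1, ← Real.norm_eq_abs]
    calc ‖fderiv ℝ Ψ (j (pt t x)) (fderiv ℝ j (pt t x) (ev l))‖
        ≤ L * (1 / t₁ * (K ^ (1 - p) * M x ^ p)) :=
          ((fderiv ℝ Ψ (j (pt t x))).le_opNorm _).trans
            (mul_le_mul (hL _ hmem) c3 (norm_nonneg _) hL0)
      _ ≤ L * (1 + 1 / t₁) * K ^ (1 - p) * M x ^ p := by
          have := mul_nonneg hL0 hP
          nlinarith

end Pool.Agent.Lib.MP_fc0ae9_an.St
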