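import Pool.Agent.Lib.MP_fc0ae9_an.StD3
import Pool.Agent.Lib.MP_fc0ae9_an.StS
import Pool.Agent.Lib.MP_fc0ae9_an.StB
import Pool.Agent.Lib.MP_fc0ae9_an.StL

/-! The energy estimate. -/

namespace Pool.Agent.Lib.MP_fc0ae9_an.St

open scoped InnerProductSpace ContDiff Topology
open MeasureTheory Filter Pool.Agent.Results.MP_fc0ae9_an.PositiveThreshold

variable {d : ℕ}

/- Sketch. V = VV o jet and W_l = (WW o jet) l are Dom (dom_comp, contDiff_VV, contDiff_WW, VV_zero, WW_zero,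
jet_contDiffAt). I t = int V, I' t = int pd 0 V, Phi t = - int W_0, D X = X 0 * sum_l pd l W_l X,
Gam t = int D (pt t x) = t * int pd 0 W_0 (Dom.integral_pd_succ). D >= p gam GG >= 0 by div_WW and hcal.
Phi t + t I' t = int Th (hd_VV, inner_ev). With C0 from ptw: B = C0 int M^p, C = C0 / (p gam),
vartheta t = C0 int |vec F (pt t x)|^p -> C0 int |f|^p (tendsto_integral_filter_of_dominated_convergence).
one_dim, one_dim_drop with g = p gam g1 vol(B) <= int_B D <= int D (setIntegral_ge_of_const_le_real,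
setIntegral_le_integral). -/
theorem energy {ε b k c γ p : ℝ} (hε : 0 < ε) (hb : 0 ≤ b) (hk : 0 ≤ k) (hc : 0 ≤ c) (hγ : 0 < γ)
    (hp : 0 < p) (hp1 : p ≤ 1)
    (hcal : ∀ (N : ℝ) (w : EE d) (A : Vc (Fin (d + 1) × Fin (d + 1)))
      (S : Vc (Fin (d + 1) × Fin (d + 1) × Fin (d + 1))), STM A → STT S → 0 < N →
      ‖w‖ ^ 2 + ε * b * ⟪ev 0, w⟫_ℝ ^ 2 + ε * ‖A‖ ^ 2 ≤ N →
      γ * ‖A‖ ^ 2 ≤ FF ε b k c (2 - p) N (ev 0) w A S) :
    ∃ C : ℝ, 0 < C ∧ ∀ F : Fin (d + 1) → EE d → ℝ, CR F → ∀ M : Ed d → ℝ,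
      Integrable (fun x => M x ^ p) → (∀ᵐ x, ∀ t, 0 < t → JB F (pt t x) (M x)) →
      (∀ t₁, 0 < t₁ → ∃ K : ℝ, ∀ X : EE d, t₁ ≤ X 0 → JB F X K) →
      ∀ f : Ed d → EE d, (∀ᵐ x, Tendsto (fun t => vec F (pt t x)) (𝓝[>] 0) (𝓝 (f x))) →
      ∀ (δ s s' g₁ : ℝ) (B : Set (Ed d)), 0 < δ → 0 < s → s < s' → 0 ≤ g₁ → MeasurableSet B →
        volume B ≠ ⊤ → (∀ t ∈ Set.Icc s s', ∀ x ∈ B, g₁ ≤ GG ε b δ p (ev 0) (jet F (pt t x))) →
        g₁ * volume.real B * ((s' - s) / s') ≤ C * ∫ x, ‖f x‖ ^ p := by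
  obtain ⟨C₀, hC₀, hpt⟩ := ptw (ι := Fin (d + 1)) hε hb hk hc hp hp1
  have hpγ : 0 < p * γ := mul_pos hp hγ
  refine ⟨C₀ / (p * γ), div_pos hC₀ hpγ, ?_⟩
  intro F hF M hM hJ hK f hf δ s s' g₁ B hδ hs hss hg₁ hB hBv hG
  have hjc : ∀ X ∈ halfSpace d, ContDiffAt ℝ 1 (jet F) X := fun X hX => jet_contDiffAt hF.har hX
  have hV : Dom fun X => VV ε b δ p (ev 0) (jet F X) :=
    dom_comp (contDiff_VV hε.le hb hδ p _) (VV_zero ε b hδ p _) hjc hp hp1 hM hJ hK
  have hW : ∀ l, Dom fun X => WW ε b k c δ p (ev 0) (jet F X) l := fun l =>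
    dom_comp (Ψ := fun j => WW ε b k c δ p (ev 0) j l)
      (contDiff_euclidean.1 (contDiff_WW hε.le hb hδ k c p _) l)
      (by simp [WW_zero ε b k c hδ]) hjc hp hp1 hM hJ hK
  set D : EE d → ℝ := fun X => X 0 * ∑ l, pd l (fun Y => WW ε b k c δ p (ev 0) (jet F Y) l) X
    with hD
  have hDG : ∀ X ∈ halfSpace d, p * γ * GG ε b δ p (ev 0) (jet F X) ≤ D X := by
    intro X hX
    have hN := NN_pos hε.le hb hδ (ev 0) (jet F X)
    have h1 := hcal _ (vec F X) (jA F X) (jS F X) (hF.stm hX) (hF.stt hX) hN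
      (le_add_of_nonneg_right (sq_nonneg δ))
    have h2 := mul_le_mul_of_nonneg_left h1
      (mul_pos hp (Real.rpow_pos_of_pos hN (p / 2 - 1))).le
    rw [← div_WW hF hX hε.le hb hδ] at h2
    refine le_of_eq_of_le ?_ h2
    simp only [GG, jet]
    ring
  have hG0 : ∀ j : Jet (Fin (d + 1)), 0 ≤ GG ε b δ p (ev 0) j := fun j =>
    mul_nonneg (Real.rpow_pos_of_pos (NN_pos hε.le hb hδ _ _) _).le (sq_nonneg _)
  have hD0 : ∀ X ∈ halfSpace d, 0 ≤ D X := fun X hX =>
    (mul_nonneg hpγ.le (hG0 _)).trans (hDG X hX)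
  have hDi : ∀ t, 0 < t → Integrable fun x => D (pt t x) := fun t ht =>
    (integrable_finsetSum _ fun l _ => (hW l).integrable_pd ht l).const_mul t
  have hΓ : ∀ t, 0 < t → ∫ x, D (pt t x) =
      t * ∫ x, pd 0 (fun Y => WW ε b k c δ p (ev 0) (jet F Y) 0) (pt t x) := by
    intro t ht
    simp only [hD, pt_zero]
    rw [integral_const_mul, integral_finsetSum _ fun l _ => (hW l).integrable_pd ht l,
      Fin.sum_univ_succ, Finset.sum_eq_zero fun j _ => (hW j.succ).integral_pd_succ ht j,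
      add_zero]
  have hΦ : ∀ t, 0 < t → HasDerivAt (fun s => -∫ x, WW ε b k c δ p (ev 0) (jet F (pt s x)) 0)
      (-((∫ x, D (pt t x)) / t)) t := by
    intro t ht
    rw [hΓ t ht, mul_div_cancel_left₀ _ ht.ne']
    exact ((hW 0).hasDerivAt ht).neg
  have hTh : ∀ t, 0 < t → ∀ x, Th ε b k c δ p (ev 0) (jet F (pt t x)) =
      t * pd 0 (fun X => VV ε b δ p (ev 0) (jet F X)) (pt t x) -
        WW ε b k c δ p (ev 0) (jet F (pt t x)) 0 := by
    intro t ht x
    have := (hd_VV hF (pt_mem ht x) hε.le hb hδ p 0).2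
    rw [pt_zero] at this
    rw [this, Th, inner_ev, inner_ev]
    rfl
  have hThi : ∀ t, 0 < t → Integrable fun x => Th ε b k c δ p (ev 0) (jet F (pt t x)) := by
    intro t ht
    simp only [hTh t ht]
    exact ((hV.integrable_pd ht 0).const_mul t).sub ((hW 0).integrable ht)
  have hsum : ∀ t, 0 < t → -(∫ x, WW ε b k c δ p (ev 0) (jet F (pt t x)) 0) +
      t * ∫ x, pd 0 (fun X => VV ε b δ p (ev 0) (jet F X)) (pt t x) =
      ∫ x, Th ε b k c δ p (ev 0) (jet F (pt t x)) := by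
    intro t ht
    simp only [hTh t ht]
    rw [integral_sub ((hV.integrable_pd ht 0).const_mul t) ((hW 0).integrable ht),
      integral_const_mul]
    ring
  have hdom : ∀ (Ψ : Jet (Fin (d + 1)) → ℝ), (∀ j, |Ψ j| ≤ C₀ * ‖j‖ ^ p) → ∀ t, 0 < t →
      ∀ᵐ x, ‖Ψ (jet F (pt t x))‖ ≤ C₀ * M x ^ p := by
    intro Ψ hΨ t ht
    filter_upwards [hJ] with x hx
    exact (hΨ _).trans (mul_le_mul_of_nonneg_left
      (Real.rpow_le_rpow (norm_nonneg _) (hx t ht).1 hp.le) hC₀.le)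
  have hwb : ∀ j : Jet (Fin (d + 1)), |C₀ * ‖j.1‖ ^ p| ≤ C₀ * ‖j‖ ^ p := fun j => by
    rw [abs_of_nonneg (by positivity)]
    exact mul_le_mul_of_nonneg_left
      (Real.rpow_le_rpow (norm_nonneg _) (norm_fst_le j) hp.le) hC₀.le
  have hwm : ∀ t, 0 < t → AEStronglyMeasurable fun x => C₀ * ‖vec F (pt t x)‖ ^ p := by
    intro t ht
    refine Continuous.aestronglyMeasurable (continuous_const.mul
      (Continuous.rpow_const (Continuous.norm ?_) fun _ => Or.inr hp.le))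
    refine continuous_iff_continuousAt.2 fun x => ?_
    have h1 : ContinuousAt (fun x : Ed d => pt t x) x :=
      ((ptL d).continuous.comp (continuous_const.prodMk continuous_id)).continuousAt
    exact (ContinuousAt.comp (f := fun x : Ed d => pt t x)
      (hjc _ (pt_mem ht x)).continuousAt h1).fst
  have hwi : ∀ t, 0 < t → Integrable fun x => C₀ * ‖vec F (pt t x)‖ ^ p := fun t ht =>
    (hM.const_mul C₀).mono' (hwm t ht) (hdom _ hwb t ht)
  have hGD : ∀ X ∈ halfSpace d, C₀ * GG ε b δ p (ev 0) (jet F X) ≤ C₀ / (p * γ) * D X := by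
    intro X hX
    rw [div_mul_eq_mul_div, mul_div_assoc]
    exact mul_le_mul_of_nonneg_left ((le_div_iff₀' hpγ).2 (hDG X hX)) hC₀.le
  have key := one_dim (I := fun t => ∫ x, VV ε b δ p (ev 0) (jet F (pt t x)))
    (ϑ := fun t => ∫ x, C₀ * ‖vec F (pt t x)‖ ^ p) (B := ∫ x, C₀ * M x ^ p)
    (C := C₀ / (p * γ)) (L := ∫ x, C₀ * ‖f x‖ ^ p) (div_pos hC₀ hpγ).le
    (fun t ht => hV.hasDerivAt ht) hΦ
    (fun t ht => integral_nonneg fun x => hD0 _ (pt_mem ht x))
    (fun t ht => norm_integral_le_of_norm_le (hM.const_mul C₀)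
      (hdom _ (fun j => (hpt δ hδ _ j (norm_ev 0)).1) t ht))
    (fun t ht => by
      rw [hsum t ht]
      exact norm_integral_le_of_norm_le (hM.const_mul C₀)
        (hdom _ (fun j => (hpt δ hδ _ j (norm_ev 0)).2.1) t ht))
    (fun t ht => by
      rw [hsum t ht, ← integral_const_mul, ← integral_neg]
      refine integral_mono ((hDi t ht).const_mul _).neg (hThi t ht) fun x => ?_
      exact (neg_le_neg (hGD _ (pt_mem ht x))).trans (hpt δ hδ _ _ (norm_ev 0)).2.2.1)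
    (fun t ht => by
      rw [hsum t ht, ← integral_const_mul, ← integral_add (hwi t ht) ((hDi t ht).const_mul _)]
      refine integral_mono (hThi t ht) ((hwi t ht).add ((hDi t ht).const_mul _)) fun x => ?_
      exact (hpt δ hδ _ _ (norm_ev 0)).2.2.2.trans (add_le_add le_rfl (hGD _ (pt_mem ht x))))
    (by
      refine tendsto_integral_filter_of_dominated_convergence (fun x => C₀ * M x ^ p)
        (eventually_nhdsWithin_of_forall hwm)
        (eventually_nhdsWithin_of_forall fun t ht => hdom _ hwb t ht) (hM.const_mul C₀) ?_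
      filter_upwards [hf] with x hx
      exact (hx.norm.rpow_const (Or.inr hp.le)).const_mul C₀)
  have hdrop := one_dim_drop hΦ hs hss (g := p * γ * g₁ * volume.real B) (by positivity)
    fun t ht => by
      have ht0 : 0 < t := hs.trans_le ht.1
      refine le_trans ?_ (setIntegral_le_integral (s := B) (hDi t ht0)
        (Eventually.of_forall fun x => hD0 _ (pt_mem ht0 x)))
      refine setIntegral_ge_of_const_le_real hB hBv (fun x hx => ?_) (hDi t ht0).integrableOn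
      exact (mul_le_mul_of_nonneg_left (hG t ht x hx) hpγ.le).trans (hDG _ (pt_mem ht0 x))
  have h1 := (key s hs).2
  have h2 := (key s' (hs.trans hss)).1
  rw [integral_const_mul] at h1
  rw [div_mul_eq_mul_div, le_div_iff₀ hpγ]
  calc _ = p * γ * g₁ * volume.real B * ((s' - s) / s') := by ring
    _ ≤ _ := by linarith

end Pool.Agent.Lib.MP_fc0ae9_an.St
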