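import Pool.Agent.Lib.MP_fc0ae9_an.StAn

/-! The mean value formula with a smooth radial weight. -/

namespace Pool.Agent.Lib.MP_fc0ae9_an.St

open scoped InnerProductSpace ContDiff
open MeasureTheory Metric Pool.Agent.Results.MP_fc0ae9_an.PositiveThreshold

variable {d : ℕ}

lemma contDiff_bump : ContDiff ℝ ∞ (bump : EE d → ℝ) :=
  expNegInvGlue.contDiff.comp (contDiff_const.sub (contDiff_norm_sq ℝ))

lemma bump_nonneg (y : EE d) : 0 ≤ bump y := expNegInvGlue.nonneg _

lemma bump_eq_zero {y : EE d} (hy : 1 ≤ ‖y‖) : bump y = 0 :=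
  expNegInvGlue.zero_of_nonpos (by nlinarith)

lemma hasCompactSupport_bump : HasCompactSupport (bump : EE d → ℝ) :=
  HasCompactSupport.intro (isCompact_closedBall (0 : EE d) 1) fun y hy =>
    bump_eq_zero (by simpa using (not_le.1 (fun h => hy (by simpa using h))).le)

lemma integral_bump_pos : 0 < ∫ y : EE d, bump y := by
  refine contDiff_bump.continuous.integral_pos_of_hasCompactSupport_nonneg_nonzero
    hasCompactSupport_bump bump_nonneg (x := 0) ?_
  exact (expNegInvGlue.pos_of_pos (by simp)).ne'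

/-- A primitive of `expNegInvGlue`. -/
noncomputable def h1Psi (s : ℝ) : ℝ := ∫ x in (0 : ℝ)..s, expNegInvGlue x

lemma h1Psi_deriv (s : ℝ) : HasDerivAt h1Psi (expNegInvGlue s) s :=
  ((expNegInvGlue.contDiff (n := 0)).continuous.integral_hasStrictDerivAt 0 s).hasDerivAt

lemma h1Psi_contDiff : ContDiff ℝ 1 h1Psi := by
  rw [contDiff_one_iff_deriv]
  refine ⟨fun s => (h1Psi_deriv s).differentiableAt, ?_⟩
  have : deriv h1Psi = expNegInvGlue := funext fun s => (h1Psi_deriv s).deriv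
  rw [this]
  exact (expNegInvGlue.contDiff (n := 0)).continuous

lemma h1Psi_zero {s : ℝ} (hs : s ≤ 0) : h1Psi s = 0 := by
  unfold h1Psi
  rw [intervalIntegral.integral_congr (g := fun _ => (0 : ℝ))]
  · simp
  · intro x hx
    rw [Set.uIcc_of_ge hs] at hx
    exact expNegInvGlue.zero_of_nonpos hx.2

/-- The primitive weight. -/
noncomputable def h1Phi (y : EE d) : ℝ := h1Psi (1 - ‖y‖ ^ 2)

lemma h1Phi_contDiff : ContDiff ℝ 1 (h1Phi : EE d → ℝ) :=
  h1Psi_contDiff.comp (contDiff_const.sub (contDiff_norm_sq ℝ))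

lemma h1Phi_zero {y : EE d} (hy : 1 ≤ ‖y‖) : h1Phi y = 0 := h1Psi_zero (by nlinarith)

lemma h1Phi_supp : HasCompactSupport (h1Phi : EE d → ℝ) :=
  HasCompactSupport.intro (isCompact_closedBall (0 : EE d) 1) fun y hy =>
    h1Phi_zero (by simpa using (not_le.1 (fun h => hy (by simpa using h))).le)

lemma h1Phi_dd (k : Fin (d + 1)) (y : EE d) :
    dd (h1Phi : EE d → ℝ) (ev k) y = -2 * (y k * bump y) := by
  have h1 : HasFDerivAt (fun y : EE d => 1 - ‖y‖ ^ 2) (-(2 • innerSL ℝ y)) y :=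
    (hasStrictFDerivAt_norm_sq y).hasFDerivAt.const_sub 1
  have h2 := (h1Psi_deriv (1 - ‖y‖ ^ 2)).comp_hasFDerivAt y h1
  have h3 : fderiv ℝ (h1Phi : EE d → ℝ) y = expNegInvGlue (1 - ‖y‖ ^ 2) • (-(2 • innerSL ℝ y)) :=
    h2.fderiv
  unfold dd
  rw [h3]
  have h4 : ⟪y, ev k⟫_ℝ = y k := by rw [real_inner_comm, inner_ev]
  simp only [smul_apply, neg_apply, innerSL_apply_apply,
    h4, smul_eq_mul, nsmul_eq_mul, bump]
  push_cast
  ring

lemma h1_sum (L : EE d →L[ℝ] ℝ) (y : EE d) : L y = ∑ k, L (ev k) * y k := by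
  have : y = ∑ k, y k • (ev k : EE d) := by
    ext i
    simp [ev_apply]
  conv_lhs => rw [this]
  simp [mul_comm]

lemma h1_deriv_zero {u : EE d → ℝ} (hu : ContDiff ℝ 2 u) (X : EE d) {r : ℝ} (hr : 0 < r)
    (hΔ : ∀ Y ∈ ball X r, ∑ k, pd k (pd k u) Y = 0) {s : ℝ} (h0 : 0 ≤ s) (h1 : s ≤ r) :
    ∫ y, fderiv ℝ u (X + s • y) y * bump y = 0 := by
  have h21 : (1 : WithTop ℕ∞) + 1 ≤ 2 := by norm_num
  have hA : ContDiff ℝ 1 (fun y : EE d => X + s • y) :=
    contDiff_const.add (contDiff_id.const_smul s)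
  have hp : ∀ k, ContDiff ℝ 1 (pd k u) := fun k => dd_contDiff hu h21 (ev k)
  have hf : ∀ k, ContDiff ℝ 1 (fun y : EE d => pd k u (X + s • y)) := fun k => (hp k).comp hA
  have hdd : ∀ k y, dd (fun y : EE d => pd k u (X + s • y)) (ev k) y =
      s * pd k (pd k u) (X + s • y) := by
    intro k y
    have a1 : HasFDerivAt (fun y : EE d => X + s • y) (s • ContinuousLinearMap.id ℝ (EE d)) y :=
      ((hasFDerivAt_id y).const_smul s).const_add X
    have a2 := (((hp k).differentiable one_ne_zero (X + s • y)).hasFDerivAt.comp y a1).fderiv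
    unfold dd
    have a3 : (fun y : EE d => pd k u (X + s • y)) = pd k u ∘ fun y : EE d => X + s • y := rfl
    rw [a3, a2, pd_eq]
    simp
  have hi1 : ∀ k, Integrable (fun y : EE d => pd k u (X + s • y) * dd h1Phi (ev k) y) := by
    intro k
    refine ((hf k).continuous.mul ?_).integrable_of_hasCompactSupport ?_
    · exact (h1Phi_contDiff.continuous_fderiv one_ne_zero).clm_apply continuous_const
    · exact (h1Phi_supp.fderiv_apply ℝ (ev k)).mul_left
  have hi2 : ∀ k, Integrable (fun y : EE d =>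
      dd (fun y : EE d => pd k u (X + s • y)) (ev k) y * h1Phi y) := by
    intro k
    refine (Continuous.mul ?_ h1Phi_contDiff.continuous).integrable_of_hasCompactSupport ?_
    · exact ((hf k).continuous_fderiv one_ne_zero).clm_apply continuous_const
    · exact h1Phi_supp.mul_left
  have e1 : ∀ y : EE d, fderiv ℝ u (X + s • y) y * bump y =
      -(1 / 2) * ∑ k, pd k u (X + s • y) * dd h1Phi (ev k) y := by
    intro y
    rw [h1_sum (fderiv ℝ u (X + s • y)) y, Finset.sum_mul, Finset.mul_sum]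
    refine Finset.sum_congr rfl fun k _ => ?_
    rw [h1Phi_dd, pd_eq]
    ring
  have e2 : ∀ y : EE d, ∑ k, dd (fun y : EE d => pd k u (X + s • y)) (ev k) y * h1Phi y = 0 := by
    intro y
    rcases le_or_gt 1 ‖y‖ with hy | hy
    · simp [h1Phi_zero hy]
    · simp only [hdd]
      rw [← Finset.sum_mul, ← Finset.mul_sum, hΔ, mul_zero, zero_mul]
      rw [mem_ball, dist_eq_norm, add_sub_cancel_left, norm_smul, Real.norm_of_nonneg h0]
      nlinarith [norm_nonneg y]
  simp only [e1]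
  rw [integral_const_mul, integral_finsetSum _ fun k _ => hi1 k]
  simp only [fun k => ibp_once (hf k) h1Phi_contDiff h1Phi_supp (ev k)]
  rw [Finset.sum_neg_distrib, ← integral_finsetSum _ fun k _ => hi2 k]
  simp [e2]

/- Sketch. m s = integral of u (X + s y) bump y has derivative zero on 0..r. -/
theorem mean_value {u : EE d → ℝ} (hu : ContDiff ℝ 2 u) (X : EE d) {r : ℝ} (hr : 0 < r)
    (hΔ : ∀ Y ∈ ball X r, ∑ k, pd k (pd k u) Y = 0) :
    ∫ y, u (X + r • y) * bump y = u X * ∫ y : EE d, bump y := by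
  have h12 : (1 : WithTop ℕ∞) ≤ 2 := by norm_num
  have hA : ContDiff ℝ 1 (fun q : ℝ × EE d => X + (q.1 - 1) • q.2) :=
    contDiff_const.add ((contDiff_fst.sub contDiff_const).smul contDiff_snd)
  have hH : ContDiff ℝ 1 (fun q : ℝ × EE d => u (X + (q.1 - 1) • q.2)) := (hu.of_le h12).comp hA
  have hdd : ∀ (t : ℝ) (y : EE d), dd (fun q : ℝ × EE d => u (X + (q.1 - 1) • q.2)) (1, 0) (t, y) =
      fderiv ℝ u (X + (t - 1) • y) y := by
    intro t y
    have a0 : HasFDerivAt (fun q : ℝ × EE d => q.1 - 1) (ContinuousLinearMap.fst ℝ ℝ (EE d)) (t, y) :=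
      hasFDerivAt_fst.sub_const 1
    have a1 := (a0.smul (hasFDerivAt_snd (𝕜 := ℝ) (p := (t, y)))).const_add X
    have a2 := ((hu.differentiable two_ne_zero (X + (t - 1) • y)).hasFDerivAt.comp (t, y) a1).fderiv
    unfold dd
    have a3 : (fun q : ℝ × EE d => u (X + (q.1 - 1) • q.2)) =
      u ∘ fun q : ℝ × EE d => X + ((fun q : ℝ × EE d => q.1 - 1) • Prod.snd) q := rfl
    rw [a3, a2]
    simp
  have hm : ∀ t ∈ Set.Icc (1 : ℝ) (r + 1),
      HasDerivAt (fun s : ℝ => ∫ y : EE d, u (X + (s - 1) • y) * bump y) 0 t := by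
    intro t ht
    have := hasDerivAt_slice_integral (d := d + 1)
      (H := fun q : ℝ × EE d => u (X + (q.1 - 1) • q.2)) (fun q _ => hH.contDiffAt)
      contDiff_bump.continuous hasCompactSupport_bump (t := t) (by linarith [ht.1])
    simp only [hdd] at this
    rwa [h1_deriv_zero hu X hr hΔ (by linarith [ht.1]) (by linarith [ht.2])] at this
  have := constant_of_has_deriv_right_zero
    (f := fun s : ℝ => ∫ y : EE d, u (X + (s - 1) • y) * bump y) (a := 1) (b := r + 1)
    (fun t ht => (hm t ht).continuousAt.continuousWithinAt)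
    (fun t ht => (hm t ⟨ht.1, ht.2.le⟩).hasDerivWithinAt) (r + 1) ⟨by linarith, le_rfl⟩
  simpa [integral_const_mul] using this

end Pool.Agent.Lib.MP_fc0ae9_an.St
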