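import Pool.Agent.Lib.MP_fc0ae9_an.StAn

/-! Cutoffs and derivatives of smooth harmonic functions. -/

namespace Pool.Agent.Lib.MP_fc0ae9_an.St

open scoped InnerProductSpace ContDiff Topology
open MeasureTheory Metric Pool.Agent.Results.MP_fc0ae9_an.PositiveThreshold

variable {d : ℕ}

lemma ball_subset_half {X : EE d} {r : ℝ} (hr : r ≤ X 0) : ball X r ⊆ halfSpace d := by
  intro Y hY
  rw [mem_ball, dist_eq_norm] at hY
  have h := PiLp.norm_apply_le (Y - X) 0
  rw [PiLp.sub_apply, Real.norm_eq_abs] at h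
  show 0 < Y 0
  linarith [neg_abs_le (Y 0 - X 0)]

/- Multiply by a ContDiffBump centred at X with r < rIn < rOut < X 0. -/
lemma exists_cutoff {n : WithTop ℕ∞} (hn : n ≤ ∞) {u : EE d → ℝ}
    (hu : ∀ Y ∈ halfSpace d, ContDiffAt ℝ n u Y) {X : EE d} {r : ℝ} (hr : 0 < r) (hX : r < X 0) :
    ∃ v : EE d → ℝ, ContDiff ℝ n v ∧ HasCompactSupport v ∧ ∀ Y ∈ ball X r, v =ᶠ[𝓝 Y] u := by
  let φ : ContDiffBump X := ⟨r, (r + X 0) / 2, hr, by linarith⟩
  refine ⟨fun Y => φ Y * u Y, contDiff_iff_contDiffAt.2 fun Y => ?_, φ.hasCompactSupport.mul_right,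
    fun Y hY => ?_⟩
  · by_cases hY : Y ∈ halfSpace d
    · exact ((φ.contDiff (n := ⊤)).of_le hn).contDiffAt.mul (hu Y hY)
    · have h1 : Y ∉ tsupport φ := by
        rw [φ.tsupport_eq]
        exact fun h => hY (ball_subset_half le_rfl
          (closedBall_subset_ball (show (r + X 0) / 2 < X 0 by linarith) h))
      refine (contDiffAt_const (c := (0 : ℝ))).congr_of_eventuallyEq ?_
      filter_upwards [notMem_tsupport_iff_eventuallyEq.1 h1] with Z hZ
      rw [hZ, Pi.zero_apply, zero_mul]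
  · filter_upwards [φ.eventuallyEq_one_of_mem_ball hY] with Z hZ
    rw [hZ, Pi.one_apply, one_mul]

lemma StH2_pd_pd {u : EE d → ℝ} {X : EE d} (hu : ContDiffAt ℝ 2 u X) (i j : Fin (d + 1)) :
    pd i (pd j u) X = fderiv ℝ (fderiv ℝ u) X (ev i) (ev j) := by
  have h2 : DifferentiableAt ℝ (fderiv ℝ u) X :=
    (hu.fderiv_right (m := 1) (by norm_num)).differentiableAt one_ne_zero
  show fderiv ℝ (fun Y => fderiv ℝ u Y (ev j)) X (ev i) = _
  rw [fderiv_clm_apply h2 (differentiableAt_const _)]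
  simp

/- laplacian_eq_iteratedFDeriv_orthonormalBasis, see the proof of main in PositiveThreshold. -/
lemma lap_eq_zero {u : EE d → ℝ} {X : EE d} (hu : InnerProductSpace.HarmonicAt u X) :
    ∑ k, pd k (pd k u) X = 0 := by
  have hlap := hu.2.eq_of_nhds
  rw [InnerProductSpace.laplacian_eq_iteratedFDeriv_orthonormalBasis _
    (EuclideanSpace.basisFun (Fin (d + 1)) ℝ)] at hlap
  simp only [Pi.zero_apply] at hlap
  rw [← hlap]
  refine Finset.sum_congr rfl fun i _ => ?_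
  rw [StH2_pd_pd hu.1, iteratedFDeriv_two_apply]
  simp [ev]

lemma pd_contDiffAt {u : EE d → ℝ} {X : EE d} (hu : ContDiffAt ℝ ∞ u X) (i : Fin (d + 1)) :
    ContDiffAt ℝ ∞ (pd i u) X := by
  exact (hu.fderiv_right (m := ∞) (by simp)).clm_apply contDiffAt_const

/- ContDiffAt.isSymmSndFDerivAt. -/
lemma pd_comm {u : EE d → ℝ} {X : EE d} (hu : ContDiffAt ℝ ∞ u X) (i j : Fin (d + 1)) :
    pd i (pd j u) X = pd j (pd i u) X := by
  have h2 : ContDiffAt ℝ 2 u X := hu.of_le (WithTop.coe_le_coe.2 (le_top : (2 : ℕ∞) ≤ ⊤))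
  rw [StH2_pd_pd h2, StH2_pd_pd h2]
  exact (h2.isSymmSndFDerivAt (by simp)).eq _ _

/- pd k (pd k (pd i u)) = pd i (pd k (pd k u)) on the open half-space. -/
theorem Har.der {u : EE d → ℝ} (hu : Har u) (i : Fin (d + 1)) : Har (pd i u) := by
  intro X hX
  refine ⟨pd_contDiffAt (hu X hX).1 i, ?_⟩
  have h1 : ∀ k, pd k (pd k (pd i u)) X = pd i (pd k (pd k u)) X := fun k => by
    have e : pd k (pd i u) =ᶠ[𝓝 X] pd i (pd k u) := by
      filter_upwards [isOpen_half.mem_nhds hX] with Y hY using pd_comm (hu Y hY).1 k i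
    rw [← pd_comm (pd_contDiffAt (hu X hX).1 k) k i, pd_eq, e.fderiv_eq, ← pd_eq]
  have h2 : ∀ k ∈ Finset.univ, DifferentiableAt ℝ (pd k (pd k u)) X := fun k _ =>
    (pd_contDiffAt (pd_contDiffAt (hu X hX).1 k) k).differentiableAt (by simp)
  have h3 : (fun Y => ∑ k, pd k (pd k u) Y) =ᶠ[𝓝 X] fun _ => 0 := by
    filter_upwards [isOpen_half.mem_nhds hX] with Y hY using (hu Y hY).2
  have h4 := fderiv_fun_sum h2
  rw [h3.fderiv_eq, fderiv_fun_const] at h4
  have h5 := congrArg (fun L : EE d →L[ℝ] ℝ => L (ev i)) h4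
  simp only [Pi.zero_apply, zero_apply, sum_apply] at h5
  rw [Finset.sum_congr rfl fun k _ => h1 k]
  exact h5.symm

end Pool.Agent.Lib.MP_fc0ae9_an.St
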