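import Pool.Agent.Lib.MP_fc0ae9_an.StH1
import Pool.Agent.Lib.MP_fc0ae9_an.StH2

/-! Smoothness of harmonic functions. -/

namespace Pool.Agent.Lib.MP_fc0ae9_an.St

open scoped InnerProductSpace ContDiff Topology
open MeasureTheory Metric Pool.Agent.Results.MP_fc0ae9_an.PositiveThreshold

variable {d : ℕ}

/- Sketch. v from exists_cutoff with r = X 0 / 2; for Y in ball X (r/2), mean_value with radius s = r/2 and
the substitution Z = Y + s y show that v Y is a constant times the convolution of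
y |-> bump (-(s^-1) y) with v at Y; HasCompactSupport.contDiff_convolution_left. -/
theorem har_of_harmonic {u : EE d → ℝ} (hu : InnerProductSpace.HarmonicOnNhd u (halfSpace d)) :
    Har u := by
  intro X hX
  refine ⟨?_, lap_eq_zero (hu X hX)⟩
  have hX0 : 0 < X 0 := hX
  obtain ⟨v, hv, -, hvu⟩ := exists_cutoff (n := 2) (WithTop.coe_le_coe.2 (le_top : (2 : ℕ∞) ≤ ⊤))
    (fun Y hY => (hu Y hY).1) (X := X) (r := X 0 / 2) (by linarith) (by linarith)
  set s := X 0 / 4 with hs
  have hs0 : 0 < s := by linarith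
  have hlap : ∀ Z ∈ ball X (X 0 / 2), ∑ k, pd k (pd k v) Z = 0 := by
    intro Z hZ
    rw [← lap_eq_zero (hu Z (ball_subset_half (by linarith) hZ))]
    refine Finset.sum_congr rfl fun k _ => ?_
    have h1 : pd k v =ᶠ[𝓝 Z] pd k u := by
      filter_upwards [(hvu Z hZ).fderiv (𝕜 := ℝ)] with W hW
      rw [pd_eq, pd_eq, hW]
    rw [pd_eq, pd_eq, h1.fderiv_eq]
  let φ : EE d → ℝ := fun y => bump ((-s)⁻¹ • y)
  have hφ : ContDiff ℝ ∞ φ := contDiff_bump.comp (contDiff_id.const_smul _)
  have hφc : HasCompactSupport φ :=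
    hasCompactSupport_bump.comp_smul (inv_ne_zero (neg_ne_zero.2 hs0.ne'))
  have hconv := hφc.contDiff_convolution_left (μ := volume) (ContinuousLinearMap.mul ℝ ℝ) hφ
    hv.continuous.locallyIntegrable
  refine ((contDiff_const (c := |((-s) ^ Module.finrank ℝ (EE d))⁻¹| / ∫ y : EE d, bump y)).mul
    hconv).contDiffAt.congr_of_eventuallyEq ?_
  filter_upwards [ball_mem_nhds X hs0] with Y hY
  have hsub : ball Y s ⊆ ball X (X 0 / 2) := ball_subset_ball' (by
    have := mem_ball.1 hY
    linarith)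
  have h1 := mean_value hv Y hs0 fun Z hZ => hlap Z (hsub hZ)
  have h2 := Measure.integral_comp_smul (volume : Measure (EE d)) (fun t => φ t * v (Y - t)) (-s)
  have h3 : ∀ y : EE d, φ ((-s) • y) * v (Y - (-s) • y) = v (Y + s • y) * bump y := by
    intro y
    simp only [φ]
    rw [smul_smul, inv_mul_cancel₀ (neg_ne_zero.2 hs0.ne'), one_smul, neg_smul, sub_neg_eq_add,
      mul_comm]
  simp only [h3] at h2
  rw [← (hvu Y (hsub (mem_ball_self hs0))).eq_of_nhds, convolution_def, div_mul_eq_mul_div,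
    eq_div_iff integral_bump_pos.ne', ← h1, h2, smul_eq_mul]
  rfl

end Pool.Agent.Lib.MP_fc0ae9_an.St
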