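import Pool.Agent.Lib.MP_fc0ae9_an.StH1
import Pool.Agent.Lib.MP_fc0ae9_an.StH2

/-! The interior gradient estimate. -/

namespace Pool.Agent.Lib.MP_fc0ae9_an.St

open scoped InnerProductSpace ContDiff Topology
open MeasureTheory Metric Pool.Agent.Results.MP_fc0ae9_an.PositiveThreshold

variable {d : ℕ}

lemma stH4_pd_congr {u v : EE d → ℝ} {Y : EE d} (h : v =ᶠ[𝓝 Y] u) (i : Fin (d + 1)) :
    pd i v =ᶠ[𝓝 Y] pd i u := by
  filter_upwards [h.fderiv (𝕜 := ℝ)] with Z hZ
  rw [pd_eq, pd_eq, hZ]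

lemma stH4_pd_bump {y : EE d} (hy : 1 ≤ ‖y‖) (i : Fin (d + 1)) : pd i bump y = 0 := by
  have h : IsLocalMin (bump : EE d → ℝ) y :=
    Filter.Eventually.of_forall fun z => by rw [bump_eq_zero hy]; exact bump_nonneg z
  rw [pd_eq, h.fderiv_eq_zero]
  rfl

lemma stH4_cont {v : EE d → ℝ} (hv : ContDiff ℝ ∞ v) (i : Fin (d + 1)) :
    ContDiff ℝ ∞ (pd i v) :=
  contDiff_iff_contDiffAt.2 fun _ => pd_contDiffAt hv.contDiffAt i

lemma stH4_supp (i : Fin (d + 1)) : HasCompactSupport (pd i (bump : EE d → ℝ)) :=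
  hasCompactSupport_bump.fderiv_apply ℝ (ev i)

lemma stH4_ibp {v : EE d → ℝ} (hv : ContDiff ℝ ∞ v) (X : EE d) (r : ℝ) (i : Fin (d + 1)) :
    ∫ y, v (X + r • y) * pd i bump y = -(r * ∫ y, pd i v (X + r • y) * bump y) := by
  have hA : ∀ y : EE d, HasFDerivAt (fun y : EE d => X + r • y)
      (r • ContinuousLinearMap.id ℝ (EE d)) y := fun y =>
    ((hasFDerivAt_id y).const_smul r).const_add X
  have hc : Continuous fun y : EE d => X + r • y := by fun_prop
  have hd : Differentiable ℝ v := hv.differentiable (by simp)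
  have hf : ∀ y, HasFDerivAt (fun y : EE d => v (X + r • y))
      ((fderiv ℝ v (X + r • y)).comp (r • ContinuousLinearMap.id ℝ (EE d))) y := fun y =>
    (hd _).hasFDerivAt.comp y (hA y)
  have he : ∀ y, fderiv ℝ (fun y : EE d => v (X + r • y)) y (ev i) = r * pd i v (X + r • y) := by
    intro y
    rw [(hf y).fderiv, pd_eq]
    simp
  have hb : Continuous (bump : EE d → ℝ) := contDiff_bump.continuous
  have h1 := integral_mul_fderiv_eq_neg_fderiv_mul_of_integrable (μ := volume)
    (f := fun y : EE d => v (X + r • y)) (g := bump) (v := ev i)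
    (by
      simp only [he]
      exact ((continuous_const.mul ((stH4_cont hv i).continuous.comp hc)).mul
        hb).integrable_of_hasCompactSupport hasCompactSupport_bump.mul_left)
    (((hv.continuous.comp hc).mul
      (stH4_cont contDiff_bump i).continuous).integrable_of_hasCompactSupport
        (stH4_supp i).mul_left)
    (((hv.continuous.comp hc).mul hb).integrable_of_hasCompactSupport
      hasCompactSupport_bump.mul_left)
    (fun y _ => (hf y).differentiableAt)
    (fun y _ => contDiff_bump.differentiable (by simp) y)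
  simp only [he, mul_assoc, integral_const_mul] at h1
  exact h1

/- Sketch. v from exists_cutoff (radius r); mean_value for pd i v, and integration by parts:
r * integral of pd i v (X + r y) bump y = - integral of v (X + r y) pd i bump y, where pd i bump vanishes for
|y| >= 1. C = (sum_i integral of |pd i bump| + 1) / integral of bump. -/
theorem grad_est : ∃ C : ℝ, 0 < C ∧ ∀ u : EE d → ℝ, Har u → ∀ (X : EE d) (r m : ℝ), 0 < r →
    r < X 0 → (∀ Y ∈ ball X r, |u Y| ≤ m) → ∀ i, |pd i u X| ≤ C * m / r := by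
  have hI : 0 < ∫ y : EE d, bump y := integral_bump_pos
  have hK : ∀ i : Fin (d + 1), 0 ≤ ∫ y : EE d, |pd i bump y| := fun i =>
    integral_nonneg fun y => abs_nonneg _
  have hS : 0 ≤ ∑ i : Fin (d + 1), ∫ y : EE d, |pd i bump y| := Finset.sum_nonneg fun i _ => hK i
  refine ⟨(∑ i : Fin (d + 1), (∫ y : EE d, |pd i bump y|) + 1) / ∫ y : EE d, bump y,
    by positivity, fun u hu X r m hr hX hm i => ?_⟩
  obtain ⟨v, hv, -, hvu⟩ := exists_cutoff le_rfl (fun Y hY => (hu Y hY).1) hr hX
  have hm0 : 0 ≤ m := (abs_nonneg _).trans (hm X (mem_ball_self hr))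
  have h0 : ContDiff ℝ 2 (pd i v) :=
    (stH4_cont hv i).of_le (WithTop.coe_le_coe.2 (le_top : (2 : ℕ∞) ≤ ⊤))
  have h1 := mean_value h0 X hr fun Y hY => by
    rw [← (hu.der i Y (ball_subset_half hX.le hY)).2]
    exact Finset.sum_congr rfl fun k _ =>
      (stH4_pd_congr (stH4_pd_congr (stH4_pd_congr (hvu Y hY) i) k) k).eq_of_nhds
  rw [(stH4_pd_congr (hvu X (mem_ball_self hr)) i).eq_of_nhds] at h1
  have h2 := stH4_ibp hv X r i
  rw [h1] at h2
  have h3 : ‖∫ y, v (X + r • y) * pd i bump y‖ ≤ ∫ y : EE d, m * |pd i bump y| := by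
    refine norm_integral_le_of_norm_le (Integrable.const_mul
      ((stH4_cont contDiff_bump i).continuous.integrable_of_hasCompactSupport (stH4_supp i)).abs m)
      (Filter.Eventually.of_forall fun y => ?_)
    rw [Real.norm_eq_abs, abs_mul]
    by_cases hy : 1 ≤ ‖y‖
    · simp [stH4_pd_bump hy]
    · have hY : X + r • y ∈ ball X r := by
        rw [mem_ball, dist_eq_norm, add_sub_cancel_left, norm_smul, Real.norm_eq_abs,
          abs_of_pos hr]
        exact mul_lt_of_lt_one_right hr (not_le.1 hy)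
      rw [(hvu _ hY).eq_of_nhds]
      exact mul_le_mul_of_nonneg_right (hm _ hY) (abs_nonneg _)
  rw [h2, integral_const_mul, norm_neg, Real.norm_eq_abs, abs_mul, abs_mul, abs_of_pos hr,
    abs_of_pos hI] at h3
  have h4 : ∫ y : EE d, |pd i bump y| ≤ ∑ i : Fin (d + 1), ∫ y : EE d, |pd i bump y| :=
    Finset.single_le_sum (fun i _ => hK i) (Finset.mem_univ i)
  rw [le_div_iff₀ hr, div_mul_eq_mul_div, le_div_iff₀ hI]
  nlinarith [mul_le_mul_of_nonneg_left h4 hm0]

end Pool.Agent.Lib.MP_fc0ae9_an.St
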