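import Pool.Agent.Lib.MP_fc0ae9_an.StD1
import Pool.Agent.Lib.MP_fc0ae9_an.StH4

/-! Interior bounds for the jets. -/

namespace Pool.Agent.Lib.MP_fc0ae9_an.St

open scoped InnerProductSpace ContDiff Topology
open Metric Pool.Agent.Results.MP_fc0ae9_an.PositiveThreshold

variable {d : ℕ}

/- grad_est three times with radius rho/3 on ball X (2 rho/3), ball X (rho/3), and at X (Har.der). -/
theorem grad_est3 : ∃ C : ℝ, 0 < C ∧ ∀ u : EE d → ℝ, Har u → ∀ (X : EE d) (ρ m : ℝ), 0 < ρ →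
    ρ < X 0 → (∀ Y ∈ ball X ρ, |u Y| ≤ m) → (∀ i, ρ * |pd i u X| ≤ C * m) ∧
      (∀ i j, ρ ^ 2 * |pd j (pd i u) X| ≤ C * m) ∧
      ∀ i j k, ρ ^ 3 * |pd k (pd j (pd i u)) X| ≤ C * m := by
  obtain ⟨C, hC, h⟩ := grad_est (d := d)
  refine ⟨4 * C + (4 * C) ^ 2 + (4 * C) ^ 3, by positivity, fun u hu X ρ m hρ hX hb => ?_⟩
  have hm : 0 ≤ m := (abs_nonneg _).trans (hb X (mem_ball_self hρ))
  have step : ∀ v : EE d → ℝ, Har v → ∀ s M : ℝ, s + ρ / 4 ≤ ρ →
      (∀ Y ∈ ball X (s + ρ / 4), |v Y| ≤ M) → ∀ i, ∀ Y ∈ ball X s,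
        |pd i v Y| ≤ 4 * C * M / ρ := by
    intro v hv s M hs hM i Y hY
    have h1 : dist (Y 0) (X 0) ≤ dist Y X := PiLp.dist_apply_le Y X 0
    have h2 := mem_ball.1 hY
    rw [Real.dist_eq] at h1
    have h3 := (abs_le.1 h1).1
    refine (h v hv Y (ρ / 4) M (by linarith) (by linarith) (fun Z hZ => hM Z ?_) i).trans
      (le_of_eq (by field_simp))
    have h4 := dist_triangle Z Y X
    rw [mem_ball] at hZ ⊢
    linarith
  have s1 := step u hu (ρ / 4 + ρ / 4 + ρ / 4) m (by linarith) fun Y hY =>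
    hb Y (ball_subset_ball (by linarith) hY)
  have s2 := fun i => step _ (hu.der i) (ρ / 4 + ρ / 4) _ (by linarith) (s1 i)
  have s3 := fun i j => step _ ((hu.der i).der j) (ρ / 4) _ (by linarith) (s2 i j)
  have p1 : 0 ≤ 4 * C * m := by positivity
  have p2 : 0 ≤ (4 * C) ^ 2 * m := by positivity
  have p3 : 0 ≤ (4 * C) ^ 3 * m := by positivity
  refine ⟨fun i => ?_, fun i j => ?_, fun i j k => ?_⟩
  · have h1 := mul_le_mul_of_nonneg_left (s1 i X (mem_ball_self (by linarith))) hρ.le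
    have e : ρ * (4 * C * m / ρ) = 4 * C * m := by field_simp
    linarith
  · have h1 := mul_le_mul_of_nonneg_left (s2 i j X (mem_ball_self (by linarith))) (sq_nonneg ρ)
    have e : ρ ^ 2 * (4 * C * (4 * C * m / ρ) / ρ) = (4 * C) ^ 2 * m := by field_simp
    linarith
  · have h1 := mul_le_mul_of_nonneg_left (s3 i j k X (mem_ball_self (by linarith)))
      (pow_pos hρ 3).le
    have e : ρ ^ 3 * (4 * C * (4 * C * (4 * C * m / ρ) / ρ) / ρ) = (4 * C) ^ 3 * m := by field_simp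
    linarith

/- A Euclidean vector whose coordinates are at most m has norm at most (card) * m. -/
lemma norm_le_card_mul {ι : Type} [Fintype ι] (v : Vc ι) {m : ℝ} (hm : 0 ≤ m)
    (h : ∀ i, |v i| ≤ m) : ‖v‖ ≤ Fintype.card ι * m := by
  refine le_of_sq_le_sq ?_ (by positivity)
  have h1 : ∑ i, v i ^ 2 ≤ ∑ _i : ι, m ^ 2 := Finset.sum_le_sum fun i _ => by
    rw [← sq_abs]
    exact pow_le_pow_left₀ (abs_nonneg _) (h i) 2
  rw [Finset.sum_const, Finset.card_univ, nsmul_eq_mul] at h1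
  have h2 : (Fintype.card ι : ℝ) ≤ (Fintype.card ι : ℝ) ^ 2 := by
    exact_mod_cast Nat.le_self_pow two_ne_zero _
  rw [norm_sq_eq, mul_pow]
  exact h1.trans (mul_le_mul_of_nonneg_right h2 (sq_nonneg m))

lemma stj_norm (j : Jet (Fin (d + 1))) {m : ℝ} (hm : 0 ≤ m) (h1 : ∀ i, |j.1 i| ≤ m)
    (h2 : ∀ p, |j.2.1 p| ≤ m) (h3 : ∀ p, |j.2.2 p| ≤ m) : ‖j‖ ≤ ((d : ℝ) + 1) ^ 3 * m := by
  have k1 := norm_le_card_mul _ hm h1
  have k2 := norm_le_card_mul _ hm h2
  have k3 := norm_le_card_mul _ hm h3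
  simp only [Fintype.card_prod, Fintype.card_fin] at k1 k2 k3
  push_cast at k1 k2 k3
  have hd : (1 : ℝ) ≤ d + 1 := by linarith [Nat.cast_nonneg (α := ℝ) d]
  have e1 : (d : ℝ) + 1 ≤ ((d : ℝ) + 1) ^ 3 := le_self_pow₀ hd three_ne_zero
  have e2 : ((d : ℝ) + 1) * (d + 1) ≤ ((d : ℝ) + 1) ^ 3 := by
    rw [← sq]; exact pow_le_pow_right₀ hd (by norm_num)
  rw [Prod.norm_def, Prod.norm_def]
  refine max_le (k1.trans ?_) (max_le (k2.trans ?_) (k3.trans (le_of_eq (by ring))))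
  · exact mul_le_mul_of_nonneg_right e1 hm
  · exact mul_le_mul_of_nonneg_right e2 hm

lemma stj_coord {G : EE d → Jet (Fin (d + 1))} {X : EE d} (hG : DifferentiableAt ℝ G X)
    (π : Jet (Fin (d + 1)) →L[ℝ] ℝ) {l : Fin (d + 1)} {c : ℝ} (h : HD l (fun Y => π (G Y)) X c) :
    π (X 0 • fderiv ℝ G X (ev l)) = c := by
  rw [← h.2, pd_eq, map_smul, smul_eq_mul]
  congr 1
  exact (congrFun (congrArg DFunLike.coe (π.hasFDerivAt.comp X hG.hasFDerivAt).fderiv) _).symm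

/- Sketch. The coordinates of X 0 • fderiv (jet F) X (ev l) are given by hd_w, hd_A, hd_S (compose with the
coordinate projections, which are continuous linear, as in vec_fderiv); Prod.norm_def, grad_est3 with
rho = kappa * X 0, norm_le_card_mul. -/
theorem jet_bound {κ : ℝ} (h0 : 0 < κ) (h1 : κ < 1) : ∃ C : ℝ, 0 < C ∧
    ∀ F : Fin (d + 1) → EE d → ℝ, (∀ i, Har (F i)) → ∀ X ∈ halfSpace d, ∀ m : ℝ,
      (∀ i, ∀ Y ∈ ball X (κ * X 0), |F i Y| ≤ m) → JB F X (C * m) := by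
  obtain ⟨C, hC, h⟩ := grad_est3 (d := d)
  obtain ⟨B, hB⟩ : ∃ B, B = C / κ ^ 3 + 1 := ⟨_, rfl⟩
  have hq : 0 < C / κ ^ 3 := by positivity
  have hB0 : 0 < B := by linarith
  refine ⟨((d : ℝ) + 1) ^ 3 * (3 * B), by positivity, fun F hF X hX m hb => ?_⟩
  have ht : 0 < X 0 := hX
  have hρ : 0 < κ * X 0 := mul_pos h0 ht
  have hm : 0 ≤ m := (abs_nonneg _).trans (hb 0 X (mem_ball_self hρ))
  have hBm : 0 ≤ B * m := by positivity
  have key : ∀ (k : ℕ) (a : ℝ), k ≤ 3 → (κ * X 0) ^ k * |a| ≤ C * m → |X 0 ^ k * a| ≤ B * m := by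
    intro k a hk ha
    rw [abs_mul, abs_of_pos (pow_pos ht k)]
    have e1 : κ ^ 3 ≤ κ ^ k := pow_le_pow_of_le_one h0.le h1.le hk
    have e2 : 0 ≤ X 0 ^ k * |a| := by positivity
    have e3 : κ ^ 3 * (X 0 ^ k * |a|) ≤ C * m := by
      refine (mul_le_mul_of_nonneg_right e1 e2).trans (le_trans (le_of_eq ?_) ha)
      rw [mul_pow, mul_assoc]
    have e4 : X 0 ^ k * |a| ≤ C / κ ^ 3 * m := by
      rw [div_mul_eq_mul_div, le_div_iff₀ (pow_pos h0 3), mul_comm]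
      exact e3
    rw [hB]
    linarith
  have g := fun i => h (F i) (hF i) X (κ * X 0) m hρ (mul_lt_of_lt_one_left ht h1) (hb i)
  have b0 : ∀ i, |vec F X i| ≤ B * m := fun i =>
    (hb i X (mem_ball_self hρ)).trans (le_mul_of_one_le_left hm (by linarith))
  have b1 : ∀ p, |jA F X p| ≤ B * m := fun p => by
    have := key 1 (pd p.2 (F p.1) X) (by norm_num) (by rw [pow_one]; exact (g p.1).1 p.2)
    rwa [pow_one] at this
  have b2 : ∀ p, |jS F X p| ≤ B * m := fun p => key 2 _ (by norm_num) ((g p.1).2.1 p.2.1 p.2.2)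
  have b3 : ∀ i j k l, |jR F X i j k l| ≤ B * m := fun i j k l =>
    key 3 _ le_rfl ((g i).2.2 j k l)
  have up : B * m ≤ 3 * B * m := by linarith
  rw [mul_assoc]
  refine ⟨stj_norm _ (by positivity) (fun i => (b0 i).trans up) (fun p => (b1 p).trans up)
    fun p => (b2 p).trans up, fun l => ?_⟩
  have hG : DifferentiableAt ℝ (jet F) X := (jet_contDiffAt hF hX).differentiableAt one_ne_zero
  have he : |(ev 0 : EE d) l| ≤ 1 := by
    rw [ev_apply]
    split_ifs <;> simp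
  rw [← abs_of_pos ht, ← Real.norm_eq_abs, ← norm_smul]
  refine stj_norm _ (by positivity) (fun i => ?_) (fun p => ?_) fun p => ?_
  · have e := stj_coord hG ((EuclideanSpace.proj i).comp (ContinuousLinearMap.fst ℝ _ _))
      (hd_w hF hX l i)
    exact (congrArg abs e).le.trans ((b1 _).trans up)
  · have e := stj_coord hG ((EuclideanSpace.proj p).comp ((ContinuousLinearMap.fst ℝ _ _).comp
      (ContinuousLinearMap.snd ℝ _ _))) (hd_A hF hX l p.1 p.2)
    refine (congrArg abs e).le.trans ((abs_add_le _ _).trans ?_)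
    have k1 := mul_le_mul he (b1 (p.1, p.2)) (abs_nonneg _) zero_le_one
    have k2 := b2 (p.1, p.2, l)
    rw [abs_mul]
    linarith
  · have e := stj_coord hG ((EuclideanSpace.proj p).comp ((ContinuousLinearMap.snd ℝ _ _).comp
      (ContinuousLinearMap.snd ℝ _ _))) (hd_S hF hX l p.1 p.2.1 p.2.2)
    refine (congrArg abs e).le.trans ((abs_add_le _ _).trans ?_)
    have k1 := mul_le_mul he (b2 (p.1, p.2.1, p.2.2)) (abs_nonneg _) zero_le_one
    have k2 := b3 p.1 p.2.1 p.2.2 l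
    rw [mul_assoc, abs_mul, abs_mul, abs_two]
    linarith

end Pool.Agent.Lib.MP_fc0ae9_an.St
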