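import Pool.Agent.Lib.MP_fc0ae9_an.StA

/-! The zonal decomposition of a symmetric traceless matrix and the first Kato inequality. -/

namespace Pool.Agent.Lib.MP_fc0ae9_an.St

open scoped InnerProductSpace

variable {ι : Type} [Fintype ι]

/-- The outer product. -/
noncomputable def k1op (a b : Vc ι) : Vc (ι × ι) := WithLp.toLp 2 fun p => a p.1 * b p.2

open Classical in
/-- The identity matrix. -/
noncomputable def k1id : Vc (ι × ι) := WithLp.toLp 2 fun p => if p.1 = p.2 then 1 else 0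

omit [Fintype ι] in
lemma k1op_apply (a b : Vc ι) (i j : ι) : k1op a b (i, j) = a i * b j := rfl

omit [Fintype ι] in
lemma k1id_self (i : ι) : (k1id : Vc (ι × ι)) (i, i) = 1 := if_pos rfl

omit [Fintype ι] in
lemma k1id_ne {i j : ι} (h : i ≠ j) : (k1id : Vc (ι × ι)) (i, j) = 0 := if_neg h

omit [Fintype ι] in
lemma k1id_symm (i j : ι) : (k1id : Vc (ι × ι)) (i, j) = (k1id : Vc (ι × ι)) (j, i) := by
  rcases eq_or_ne i j with rfl | h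
  · rfl
  · rw [k1id_ne h, k1id_ne h.symm]

lemma k1id_sum (f : ι → ℝ) (i : ι) : ∑ k, (k1id : Vc (ι × ι)) (i, k) * f k = f i := by
  rw [Finset.sum_eq_single i, k1id_self, one_mul]
  · intro k _ hk
    rw [k1id_ne hk.symm, zero_mul]
  · simp

lemma k1id_sum' (f : ι → ℝ) (i : ι) : ∑ k, f k * (k1id : Vc (ι × ι)) (k, i) = f i := by
  rw [← k1id_sum f i]
  exact Finset.sum_congr rfl fun k _ => by rw [k1id_symm, mul_comm]

lemma k1_inner_op (M : Vc (ι × ι)) (a b : Vc ι) : ⟪M, k1op a b⟫_ℝ = ⟪a, mv M b⟫_ℝ := by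
  rw [inner_eq, inner_eq, Fintype.sum_prod_type]
  refine Finset.sum_congr rfl fun i _ => ?_
  rw [mv_apply, Finset.mul_sum]
  refine Finset.sum_congr rfl fun j _ => ?_
  rw [k1op_apply]
  ring

lemma k1_inner_id (M : Vc (ι × ι)) : ⟪M, k1id⟫_ℝ = ∑ i, M (i, i) := by
  rw [inner_eq, Fintype.sum_prod_type]
  refine Finset.sum_congr rfl fun i _ => ?_
  rw [← k1id_sum (fun j => M (i, j)) i]
  exact Finset.sum_congr rfl fun j _ => mul_comm _ _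

lemma k1_mv_op (a b v : Vc ι) : mv (k1op a b) v = ⟪b, v⟫_ℝ • a := by
  ext i
  rw [mv_apply, inner_eq, PiLp.smul_apply, smul_eq_mul, Finset.sum_mul]
  refine Finset.sum_congr rfl fun j _ => ?_
  rw [k1op_apply]
  ring

lemma k1_mv_id (v : Vc ι) : mv k1id v = v := by
  ext i
  rw [mv_apply, k1id_sum]

lemma k1_sym {B : Vc (ι × ι)} (hB : ∀ i j, B (i, j) = B (j, i)) {u : Vc ι} (hu : ‖u‖ = 1)
    (h0 : ⟪u, mv B u⟫_ℝ = 0) : ‖mv B u‖ ^ 2 ≤ ‖B‖ ^ 2 / 2 := by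
  set x := mv B u with hx
  have huu : ⟪u, u⟫_ℝ = 1 := by rw [real_inner_self_eq_norm_sq, hu, one_pow]
  have h0' : ⟪x, u⟫_ℝ = 0 := by rw [real_inner_comm, h0]
  have h1 : ⟪B, k1op u x + k1op x u⟫_ℝ = 2 * ‖x‖ ^ 2 := by
    rw [inner_add_right, k1_inner_op, k1_inner_op, ← inner_mv_comm hB, ← hx,
      real_inner_self_eq_norm_sq]
    ring
  have h2 : ‖k1op u x + k1op x u‖ ^ 2 = 2 * ‖x‖ ^ 2 := by
    rw [← real_inner_self_eq_norm_sq, inner_add_right, k1_inner_op, k1_inner_op, mv_add_left,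
      mv_add_left]
    simp only [k1_mv_op, inner_add_right, inner_smul_right, huu, h0, h0',
      real_inner_self_eq_norm_sq x]
    ring
  have h3 := norm_sub_sq_real B (k1op u x + k1op x u)
  have h4 := sq_nonneg ‖B - (k1op u x + k1op x u)‖
  linarith

lemma k1_tr3 {n : ℝ} (hn : n = Fintype.card ι) (h3 : 3 ≤ n) {u : Vc ι} (hu : ‖u‖ = 1) :
    tr3 (k1op u u - n⁻¹ • k1id) = nu n * (2 * nu n - 1) := by
  have hn0 : n ≠ 0 := by linarith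
  have huu : ∑ j, u j * u j = 1 := by rw [← inner_eq, real_inner_self_eq_norm_sq, hu, one_pow]
  set Z : Vc (ι × ι) := k1op u u - n⁻¹ • k1id with hZ
  have hZa : ∀ i j, Z (i, j) = u i * u j - n⁻¹ * (k1id : Vc (ι × ι)) (i, j) := fun i j => rfl
  have h1 : ∀ i j, ∑ k, Z (j, k) * Z (k, i) =
      (1 - 2 * n⁻¹) * (u i * u j) + n⁻¹ ^ 2 * (k1id : Vc (ι × ι)) (i, j) := by
    intro i j
    have h2 : ∀ k, Z (j, k) * Z (k, i) = u i * u j * (u k * u k) -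
        n⁻¹ * u j * (u k * (k1id : Vc (ι × ι)) (k, i)) -
        n⁻¹ * u i * ((k1id : Vc (ι × ι)) (j, k) * u k) +
        n⁻¹ ^ 2 * ((k1id : Vc (ι × ι)) (j, k) * (k1id : Vc (ι × ι)) (k, i)) := by
      intro k
      rw [hZa, hZa]
      ring
    simp only [h2, Finset.sum_add_distrib, Finset.sum_sub_distrib, ← Finset.mul_sum, huu]
    rw [k1id_sum, k1id_sum, k1id_sum', k1id_symm j i]
    ring
  have h2 : tr3 Z = ⟪Z, (1 - 2 * n⁻¹) • k1op u u + n⁻¹ ^ 2 • k1id⟫_ℝ := by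
    rw [inner_eq, Fintype.sum_prod_type, tr3]
    refine Finset.sum_congr rfl fun i _ => Finset.sum_congr rfl fun j _ => ?_
    simp only [mul_assoc, ← Finset.mul_sum, h1]
    rfl
  have h4 : ∑ i, Z (i, i) = 0 := by
    simp only [hZa, k1id_self, Finset.sum_sub_distrib, huu, Finset.sum_const,
      Finset.card_univ, nsmul_eq_mul, ← hn]
    field_simp
    ring
  have huu' : ⟪u, u⟫_ℝ = 1 := by rw [real_inner_self_eq_norm_sq, hu, one_pow]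
  rw [h2, inner_add_right, inner_smul_right, inner_smul_right, k1_inner_id, h4, k1_inner_op, hZ,
    mv_sub_left, mv_smul_left, k1_mv_op, k1_mv_id, inner_sub_right, inner_smul_right,
    inner_smul_right, huu', nu]
  field_simp
  ring

/- Sketch. lam = th n * l, Z (i,j) = lam * (u i * u j - (if i = j then 1 else 0) / n), B = A - Z,
beta = |B|. Then mv Z v = lam * (<u,v> u - v / n), <A,Z> = lam * l = |Z|^2, so B is orthogonal to Z and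
|A|^2 = |Z|^2 + |B|^2, |Z|^2 = lam * l = th n * l^2. The vector x = mv B u = mv A u - l u is
orthogonal to u, and 0 <= |B - (u x^T + x u^T)|^2 = |B|^2 - 2 |x|^2. For e:
|mv A e|^2 >= |mv Z e|^2 - 2 |mv Z e| |mv B e|, |Z| <= |A|,
|mv Z e|^2 = lam^2 (w^2 (1 - 2/n) + 1/n^2) = l^2 w^2 + (lam/n)^2 (1 - w^2), w = <e,u>.
tr3 A - tr3 Z = tri(B,A,A) + tri(Z,B,A) + tri(Z,Z,B) (abs_tri_le), tr3 Z = lam^3 nu (2 nu - 1). -/
theorem zonal {n : ℝ} (hn : n = Fintype.card ι) (h3 : 3 ≤ n) {A : Vc (ι × ι)} (hA : STM A)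
    {u : Vc ι} (hu : ‖u‖ = 1) {l : ℝ} (hl : l = ⟪u, mv A u⟫_ℝ) :
    ∃ β : ℝ, 0 ≤ β ∧ β ≤ ‖A‖ ∧ ‖A‖ ^ 2 = th n * l ^ 2 + β ^ 2 ∧
      ‖mv A u - l • u‖ ^ 2 ≤ β ^ 2 / 2 ∧
      (∀ e : Vc ι, ‖e‖ = 1 → l ^ 2 * ⟪e, u⟫_ℝ ^ 2 + (th n * l / n) ^ 2 * (1 - ⟪e, u⟫_ℝ ^ 2) -
        2 * ‖A‖ * β ≤ ‖mv A e‖ ^ 2) ∧
      |tr3 A - (th n * l) ^ 3 * (nu n * (2 * nu n - 1))| ≤ 3 * ‖A‖ ^ 2 * β := by
  have hn0 : n ≠ 0 := by linarith
  have hn1 : n - 1 ≠ 0 := by linarith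
  have huu : ⟪u, u⟫_ℝ = 1 := by rw [real_inner_self_eq_norm_sq, hu, one_pow]
  obtain ⟨Z, hZ⟩ : ∃ Z : Vc (ι × ι), Z = (th n * l) • (k1op u u - n⁻¹ • k1id) := ⟨_, rfl⟩
  have hZv : ∀ v, mv Z v = (th n * l) • (⟪u, v⟫_ℝ • u - n⁻¹ • v) := fun v => by
    rw [hZ, mv_smul_left, mv_sub_left, mv_smul_left, k1_mv_op, k1_mv_id]
  have hZu : mv Z u = l • u := by
    rw [hZv, huu, ← sub_smul, smul_smul]
    refine congrArg (· • u) ?_
    unfold th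
    field_simp
  have hZs : ∀ i j, Z (i, j) = Z (j, i) := fun i j => by
    rw [hZ]
    change th n * l * (u i * u j - n⁻¹ * (k1id : Vc (ι × ι)) (i, j)) =
      th n * l * (u j * u i - n⁻¹ * (k1id : Vc (ι × ι)) (j, i))
    rw [k1id_symm i j, mul_comm (u i)]
  have hZt : ∑ i, Z (i, i) = 0 := by
    have h1 : ∀ i, Z (i, i) = th n * l * (u i * u i - n⁻¹) := fun i => by
      rw [hZ]
      change th n * l * (u i * u i - n⁻¹ * (k1id : Vc (ι × ι)) (i, i)) = _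
      rw [k1id_self, mul_one]
    simp only [h1, ← Finset.mul_sum, Finset.sum_sub_distrib, ← inner_eq, huu, Finset.sum_const,
      Finset.card_univ, nsmul_eq_mul, ← hn]
    rw [mul_inv_cancel₀ hn0, sub_self, mul_zero]
  have hin : ∀ M : Vc (ι × ι), ∑ i, M (i, i) = 0 → ⟪M, Z⟫_ℝ = th n * l * ⟪u, mv M u⟫_ℝ := by
    intro M hM
    rw [hZ, inner_smul_right, inner_sub_right, inner_smul_right, k1_inner_id, hM, k1_inner_op,
      mul_zero, sub_zero]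
  have hAZ : ⟪A, Z⟫_ℝ = th n * l ^ 2 := by
    rw [hin A hA.2, ← hl]
    ring
  have hZZ : ‖Z‖ ^ 2 = th n * l ^ 2 := by
    rw [← real_inner_self_eq_norm_sq, hin Z hZt, hZu, inner_smul_right, huu]
    ring
  have hBB : ‖A‖ ^ 2 = ‖Z‖ ^ 2 + ‖A - Z‖ ^ 2 := by
    rw [norm_sub_sq_real, hAZ, hZZ]
    ring
  have hBA : ‖A - Z‖ ≤ ‖A‖ :=
    abs_le_of_sq_le_sq' (by nlinarith [sq_nonneg ‖Z‖]) (norm_nonneg _) |>.2
  have hZA : ‖Z‖ ≤ ‖A‖ :=
    abs_le_of_sq_le_sq' (by nlinarith [sq_nonneg ‖A - Z‖]) (norm_nonneg _) |>.2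
  have hBu : mv (A - Z) u = mv A u - l • u := by rw [mv_sub_left, hZu]
  refine ⟨‖A - Z‖, norm_nonneg _, hBA, by rw [hBB, hZZ], ?_, fun e he => ?_, ?_⟩
  · rw [← hBu]
    refine k1_sym (fun i j => ?_) hu ?_
    · change A (i, j) - Z (i, j) = A (j, i) - Z (j, i)
      rw [hA.1, hZs]
    · rw [hBu, inner_sub_right, inner_smul_right, huu, ← hl, mul_one, sub_self]
  · have h1 : mv A e = mv Z e + mv (A - Z) e := by rw [← mv_add_left, add_sub_cancel]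
    have h2 : ‖mv Z e‖ ^ 2 =
        l ^ 2 * ⟪e, u⟫_ℝ ^ 2 + (th n * l / n) ^ 2 * (1 - ⟪e, u⟫_ℝ ^ 2) := by
      rw [hZv, norm_smul, mul_pow, Real.norm_eq_abs, sq_abs, norm_sub_sq_real, norm_smul, norm_smul,
        inner_smul_left, inner_smul_right, hu, he, mul_one, mul_one, Real.norm_eq_abs,
        Real.norm_eq_abs, sq_abs, sq_abs, real_inner_comm u e, conj_trivial]
      unfold th
      field_simp
      ring
    have h4 := norm_mv_le Z e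
    have h5 := norm_mv_le (A - Z) e
    rw [he, mul_one] at h4 h5
    have h6 := (abs_le.1 (abs_real_inner_le_norm (mv Z e) (mv (A - Z) e))).1
    have h7 : ‖mv Z e‖ * ‖mv (A - Z) e‖ ≤ ‖A‖ * ‖A - Z‖ :=
      mul_le_mul (h4.trans hZA) h5 (norm_nonneg _) (norm_nonneg _)
    rw [h1, norm_add_sq_real, h2]
    nlinarith [sq_nonneg ‖mv (A - Z) e‖]
  · have h1 : tr3 Z = (th n * l) ^ 3 * (nu n * (2 * nu n - 1)) := by
      rw [hZ, tr3_smul, k1_tr3 hn h3 hu]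
    have h2 : tr3 A - tr3 Z = ∑ i, ∑ j, ∑ k, (A - Z) (i, j) * A (j, k) * A (k, i) +
        ∑ i, ∑ j, ∑ k, Z (i, j) * (A - Z) (j, k) * A (k, i) +
        ∑ i, ∑ j, ∑ k, Z (i, j) * Z (j, k) * (A - Z) (k, i) := by
      simp only [tr3, ← Finset.sum_add_distrib, ← Finset.sum_sub_distrib, PiLp.sub_apply]
      refine Finset.sum_congr rfl fun i _ => Finset.sum_congr rfl fun j _ =>
        Finset.sum_congr rfl fun k _ => ?_
      ring
    have h4 := abs_tri_le (A - Z) A A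
    have h5 := abs_tri_le Z (A - Z) A
    have h6 := abs_tri_le Z Z (A - Z)
    have h7 : ‖Z‖ * ‖A - Z‖ * ‖A‖ ≤ ‖A‖ * ‖A - Z‖ * ‖A‖ := by gcongr
    have h8 : ‖Z‖ * ‖Z‖ * ‖A - Z‖ ≤ ‖A‖ * ‖A‖ * ‖A - Z‖ := by gcongr
    rw [← h1, h2]
    refine (abs_add_three _ _ _).trans ?_
    nlinarith

/- From zonal: |mv A u|^2 = l^2 + |mv A u - l u|^2 and th n <= 3/2. -/
theorem zonal_defect {n : ℝ} (h3 : 3 ≤ n) {A : Vc (ι × ι)} {u : Vc ι} (hu : ‖u‖ = 1) {l β : ℝ}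
    (hl : l = ⟪u, mv A u⟫_ℝ) (h1 : ‖A‖ ^ 2 = th n * l ^ 2 + β ^ 2)
    (h2 : ‖mv A u - l • u‖ ^ 2 ≤ β ^ 2 / 2) :
    β ^ 2 / 4 ≤ ‖A‖ ^ 2 - th n * ‖mv A u‖ ^ 2 := by
  have h0 : ‖mv A u - l • u‖ ^ 2 = ‖mv A u‖ ^ 2 - l ^ 2 := by
    rw [norm_sub_sq_real, inner_smul_right, real_inner_comm, ← hl, norm_smul, hu, mul_one,
      Real.norm_eq_abs, sq_abs]
    ring
  have h4 : th n ≤ 3 / 2 := by
    unfold th
    rw [div_le_iff₀ (by linarith)]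
    linarith
  have h5 : th n * ‖mv A u - l • u‖ ^ 2 ≤ 3 / 2 * (β ^ 2 / 2) :=
    mul_le_mul h4 h2 (sq_nonneg _) (by norm_num)
  rw [h0] at h5
  nlinarith

/- w = 0 or w = |w| u; zonal and zonal_defect. -/
theorem kato1 {n : ℝ} (hn : n = Fintype.card ι) (h3 : 3 ≤ n) {A : Vc (ι × ι)} (hA : STM A)
    (w : Vc ι) : th n * ‖mv A w‖ ^ 2 ≤ ‖A‖ ^ 2 * ‖w‖ ^ 2 := by
  rcases eq_or_ne w 0 with rfl | hw
  · have h0 : mv A 0 = 0 := by simpa using mv_smul_right A 0 0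
    simp [h0]
  · have hw0 : ‖w‖ ≠ 0 := norm_ne_zero_iff.2 hw
    have hu : ‖‖w‖⁻¹ • w‖ = 1 := by rw [norm_smul, norm_inv, norm_norm, inv_mul_cancel₀ hw0]
    obtain ⟨β, -, -, h1, h2, -⟩ := zonal hn h3 hA hu rfl
    have h4 := zonal_defect h3 hu rfl h1 h2
    have h5 : th n * ‖mv A (‖w‖⁻¹ • w)‖ ^ 2 ≤ ‖A‖ ^ 2 := by nlinarith [sq_nonneg β]
    have h6 : ‖mv A w‖ = ‖mv A (‖w‖⁻¹ • w)‖ * ‖w‖ := by
      rw [mv_smul_right, norm_smul, norm_inv, norm_norm]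
      field_simp
    rw [h6, mul_pow, ← mul_assoc]
    exact mul_le_mul_of_nonneg_right h5 (sq_nonneg _)

end Pool.Agent.Lib.MP_fc0ae9_an.St
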