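import Pool.Agent.Lib.MP_fc0ae9_an.StK1

/-! The second Kato inequality. -/

namespace Pool.Agent.Lib.MP_fc0ae9_an.St

open scoped InnerProductSpace

variable {ι : Type} [Fintype ι]

omit [Fintype ι] in
/-- the symmetrised product of a matrix and a vector -/
noncomputable def k2s (B : Vc (ι × ι)) (x : Vc ι) : Vc (ι × ι × ι) :=
  WithLp.toLp 2 fun p =>
    B (p.1, p.2.1) * x p.2.2 + B (p.1, p.2.2) * x p.2.1 + B (p.2.1, p.2.2) * x p.1

lemma k2_inner3 (S T : Vc (ι × ι × ι)) : ⟪S, T⟫_ℝ = ∑ i, ∑ j, ∑ k, S (i, j, k) * T (i, j, k) := by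
  simp only [inner_eq, Fintype.sum_prod_type]

lemma k2_rot (f : ι → ι → ι → ℝ) : ∑ i, ∑ j, ∑ k, f i j k = ∑ k, ∑ i, ∑ j, f i j k := by
  rw [Finset.sum_congr rfl fun i _ => Finset.sum_comm, Finset.sum_comm]

lemma k2_swap (f : ι → ι → ι → ℝ) : ∑ i, ∑ j, ∑ k, f i j k = ∑ i, ∑ k, ∑ j, f i j k :=
  Finset.sum_congr rfl fun _ _ => Finset.sum_comm

lemma k2_pair {S : Vc (ι × ι × ι)} (h1 : ∀ i j k, S (i, j, k) = S (j, i, k))
    (h2 : ∀ i j k, S (i, j, k) = S (i, k, j)) (B : Vc (ι × ι)) (x : Vc ι) :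
    ⟪S, k2s B x⟫_ℝ = 3 * ⟪sg B S, x⟫_ℝ := by
  have e0 : ⟪sg B S, x⟫_ℝ = ∑ i, ∑ j, ∑ k, S (i, j, k) * (B (i, j) * x k) := by
    rw [k2_rot, inner_eq]
    simp only [sg_apply, Finset.sum_mul]
    exact Finset.sum_congr rfl fun _ _ => Finset.sum_congr rfl fun _ _ =>
      Finset.sum_congr rfl fun _ _ => by ring
  have e1 : ∑ i, ∑ j, ∑ k, S (i, j, k) * (B (i, k) * x j) = ⟪sg B S, x⟫_ℝ := by
    rw [k2_swap, e0]
    exact Finset.sum_congr rfl fun _ _ => Finset.sum_congr rfl fun _ _ =>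
      Finset.sum_congr rfl fun _ _ => by rw [h2]
  have e2 : ∑ i, ∑ j, ∑ k, S (i, j, k) * (B (j, k) * x i) = ⟪sg B S, x⟫_ℝ := by
    rw [e0, k2_rot fun i j k => S (i, j, k) * (B (i, j) * x k)]
    exact Finset.sum_congr rfl fun _ _ => Finset.sum_congr rfl fun _ _ =>
      Finset.sum_congr rfl fun _ _ => by rw [h1, h2]
  rw [k2_inner3]
  simp only [k2s, mul_add, Finset.sum_add_distrib]
  rw [← e0, e1, e2]
  ring

lemma k2_inner {B C : Vc (ι × ι)} (hB : ∀ i j, B (i, j) = B (j, i))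
    (hC : ∀ i j, C (i, j) = C (j, i)) (x y : Vc ι) :
    ⟪k2s B x, k2s C y⟫_ℝ = 3 * (⟪B, C⟫_ℝ * ⟪x, y⟫_ℝ + 2 * ⟪mv B y, mv C x⟫_ℝ) := by
  rw [k2_pair (fun i j k => by simp only [k2s]; rw [hB i j]; ring)
    (fun i j k => by simp only [k2s]; rw [hB j k]; ring)]
  congr 1
  have e0 : ⟪B, C⟫_ℝ * ⟪x, y⟫_ℝ = ∑ k, ∑ i, ∑ j, C (i, j) * (B (i, j) * x k) * y k := by
    simp only [inner_eq, Fintype.sum_prod_type, Finset.sum_mul, Finset.mul_sum]
    exact Finset.sum_congr rfl fun _ _ => Finset.sum_congr rfl fun _ _ =>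
      Finset.sum_congr rfl fun _ _ => by ring
  have e1 : ⟪mv B y, mv C x⟫_ℝ = ∑ k, ∑ i, ∑ j, C (i, j) * (B (i, k) * x j) * y k := by
    rw [← k2_rot]
    simp only [inner_eq, mv_apply, Finset.sum_mul, Finset.mul_sum]
    exact Finset.sum_congr rfl fun _ _ => Finset.sum_congr rfl fun _ _ =>
      Finset.sum_congr rfl fun _ _ => by ring
  have e2 : ⟪mv B y, mv C x⟫_ℝ = ∑ k, ∑ i, ∑ j, C (i, j) * (B (j, k) * x i) * y k := by
    rw [e1, k2_swap]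
    exact Finset.sum_congr rfl fun _ _ => Finset.sum_congr rfl fun _ _ =>
      Finset.sum_congr rfl fun _ _ => by rw [hC]
  rw [two_mul, e0]
  nth_rewrite 1 [e1]
  rw [e2, inner_eq]
  simp only [sg_apply, k2s, mul_add, add_mul, Finset.sum_add_distrib, Finset.sum_mul]
  ring

/- Sketch. g = mv A v, al = 2 / (3 (n + 2)),
P (i,j,k) = (A(i,j) v k + A(i,k) v j + A(j,k) v i) / 3 - al (d_ij g k + d_ik g j + d_jk g i).
By symmetry and tracelessness of S, <S,P> = <sg A S, v>. With U the first and D the second bracket: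
|U/3|^2 = (|A|^2 |v|^2 + 2 |g|^2) / 3, <U/3, D> = 2 |g|^2, |D|^2 = 3 (n + 2) |g|^2.
It is easier to name the six tensors, T1 (i,j,k) = A(i,j) v k etc., and compute the inner products
pair by pair. Then Cauchy-Schwarz (real_inner_mul_inner_self_le or abs_real_inner_le_norm). -/
theorem kato2_aux {n : ℝ} (hn : n = Fintype.card ι) {A : Vc (ι × ι)} (hA : STM A)
    {S : Vc (ι × ι × ι)} (hS : STT S) (v : Vc ι) :
    ⟪sg A S, v⟫_ℝ ^ 2 ≤
      ‖S‖ ^ 2 * (‖A‖ ^ 2 * ‖v‖ ^ 2 / 3 + 2 * n / (3 * (n + 2)) * ‖mv A v‖ ^ 2) := by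
  classical
  let I : Vc (ι × ι) := WithLp.toLp 2 fun p => if p.1 = p.2 then 1 else 0
  have hI : ∀ i j, I (i, j) = I (j, i) := fun i j => by simp only [I, eq_comm]
  have mI : ∀ x, mv I x = x := fun x => by ext i; simp [mv_apply, I]
  have sI : sg I S = 0 := by ext k; simp [sg_apply, I, hS.2.2]
  have AI : ⟪A, I⟫_ℝ = 0 := by simp [inner_eq, Fintype.sum_prod_type, I, hA.2]
  have II : ⟪I, I⟫_ℝ = n := by rw [inner_eq]; simp [Fintype.sum_prod_type, I, hn]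
  have hn0 : 0 < n + 2 := by rw [hn]; positivity
  set g := mv A v with hg
  let P := (1 / 3 : ℝ) • k2s A v - (2 / (3 * (n + 2))) • k2s I g
  have e1 : ⟪S, P⟫_ℝ = ⟪sg A S, v⟫_ℝ := by
    simp only [P, inner_sub_right, real_inner_smul_right, k2_pair hS.1 hS.2.1, sI, inner_zero_left]
    ring
  have e2 : ⟪P, P⟫_ℝ = ‖A‖ ^ 2 * ‖v‖ ^ 2 / 3 + 2 * n / (3 * (n + 2)) * ‖g‖ ^ 2 := by
    simp only [P, inner_sub_right, inner_sub_left, real_inner_smul_right, real_inner_smul_left,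
      k2_inner hA.1 hA.1, k2_inner hA.1 hI, k2_inner hI hA.1, k2_inner hI hI, mI, AI, II,
      real_inner_comm A I]
    rw [inner_mv_comm hA.1 g v, ← inner_mv_comm hA.1 v g, ← hg]
    simp only [real_inner_self_eq_norm_sq]
    field_simp
    ring
  rw [← e1, ← e2, ← real_inner_self_eq_norm_sq, sq]
  exact real_inner_mul_inner_self_le S P

/- kato2_aux with v = sg A S and kato1: 1/3 + 2 n / (3 (n+2)) * (n-1)/n = n / (n+2). -/
theorem kato2 {n : ℝ} (hn : n = Fintype.card ι) (h3 : 3 ≤ n) {A : Vc (ι × ι)} (hA : STM A)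
    {S : Vc (ι × ι × ι)} (hS : STT S) : ‖sg A S‖ ^ 2 ≤ nu2 n * ‖A‖ ^ 2 * ‖S‖ ^ 2 := by
  have h1 := kato2_aux hn hA hS (sg A S)
  have h2 := kato1 hn h3 hA (sg A S)
  rw [real_inner_self_eq_norm_sq] at h1
  rcases (sq_nonneg ‖sg A S‖).eq_or_lt with h | h
  · rw [← h, nu2]
    have : 0 < n := by linarith
    positivity
  refine le_of_mul_le_mul_right ?_ h
  have hn1 : 0 < n - 1 := by linarith
  have hn0 : 0 < n := by linarith
  have h4 : ‖mv A (sg A S)‖ ^ 2 ≤ (n - 1) / n * (‖A‖ ^ 2 * ‖sg A S‖ ^ 2) := by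
    rw [th, div_mul_eq_mul_div, div_le_iff₀ hn1] at h2
    rw [div_mul_eq_mul_div, le_div_iff₀ hn0]
    linarith
  calc _ = (‖sg A S‖ ^ 2) ^ 2 := by ring
    _ ≤ _ := h1
    _ ≤ ‖S‖ ^ 2 * (‖A‖ ^ 2 * ‖sg A S‖ ^ 2 / 3 +
        2 * n / (3 * (n + 2)) * ((n - 1) / n * (‖A‖ ^ 2 * ‖sg A S‖ ^ 2))) := by gcongr
    _ = _ := by rw [nu2]; field_simp; ring

end Pool.Agent.Lib.MP_fc0ae9_an.St
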