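import Pool.Agent.Lib.MP_fc0ae9_an.StAn

/-! Consequences of membership in the Hardy space. -/

namespace Pool.Agent.Lib.MP_fc0ae9_an.St

open scoped InnerProductSpace ContDiff Topology ENNReal
open MeasureTheory Filter Metric Pool.Agent.Results.MP_fc0ae9_an.PositiveThreshold

variable {d : ℕ} {α p : ℝ}

lemma p1_le (u : EE d → ℝ) {t : ℝ} (ht : 0 < t) {x y : Ed d} (h : dist y x < α * t) :
    ‖u (pt t y)‖ₑ ≤ ntMax α u x :=
  le_iSup_of_le t (le_iSup_of_le y (le_iSup_of_le ⟨ht, h⟩ le_rfl))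

lemma p1_cone (hα : 0 < α) {t s : ℝ} (ht : 0 < t) {x y : Ed d}
    (h : pt s y ∈ ball (pt t x) (α / (1 + α) * t)) : 0 < s ∧ dist y x < α * s := by
  have h1 : dist (pt s y) (pt t x) ^ 2 < (α / (1 + α) * t) ^ 2 :=
    pow_lt_pow_left₀ h dist_nonneg two_ne_zero
  rw [dist_pt_sq] at h1
  obtain ⟨r, hr⟩ : ∃ r, r = α / (1 + α) * t := ⟨_, rfl⟩
  have hr0 : 0 < r := by rw [hr]; positivity
  have e : r + α * r = α * t := by
    rw [hr]
    field_simp
  rw [← hr] at h1
  have h2 : |s - t| < r := abs_lt_of_sq_lt_sq (by nlinarith [sq_nonneg (dist y x)]) hr0.le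
  have h3 : dist y x < r := lt_of_pow_lt_pow_left₀ 2 hr0.le (by nlinarith [sq_nonneg (s - t)])
  have h4 : r < α * s := by nlinarith [(abs_lt.1 h2).1]
  exact ⟨(mul_pos_iff_of_pos_left hα).1 (hr0.trans h4), h3.trans h4⟩

/- Sketch. X = pt t y; for x in ball y (alpha t) the maximal function is at least |u X|, so
|u X|^p vol(ball y (alpha t)) <= lintegral; Measure.addHaar_ball (finrank = d), or addHaar_ball_of_pos. -/
theorem hp_bound (hα : 0 < α) (hp : 0 < p) {u : EE d → ℝ} (hu : MemHp α p u) :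
    ∃ K : ℝ, ∀ X ∈ halfSpace d, X 0 ^ d * |u X| ^ p ≤ K := by
  have hc0 : 0 < (volume (ball (0 : Ed d) 1)).toReal :=
    ENNReal.toReal_pos (measure_ball_pos volume _ one_pos).ne' measure_ball_lt_top.ne
  refine ⟨(∫⁻ x, ntMax α u x ^ p).toReal / (α ^ d * (volume (ball (0 : Ed d) 1)).toReal),
    fun X hX => ?_⟩
  obtain ⟨y, hy⟩ := exists_pt X
  have ht : 0 < X 0 := hX
  have h1 : ‖u X‖ₑ ^ p * volume (ball y (α * X 0)) ≤ ∫⁻ x, ntMax α u x ^ p := by
    rw [← setLIntegral_const]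
    refine (setLIntegral_mono' measurableSet_ball fun x hx => ?_).trans
      (setLIntegral_le_lintegral _ _)
    refine ENNReal.rpow_le_rpow ?_ hp.le
    rw [hy]
    exact p1_le u ht (mem_ball'.1 hx)
  have h2 := ENNReal.toReal_mono hu.2.ne h1
  rw [Measure.addHaar_ball_of_pos _ _ (mul_pos hα ht), finrank_euclideanSpace_fin,
    ENNReal.toReal_mul, ENNReal.toReal_mul, ENNReal.toReal_ofReal (by positivity),
    ← ENNReal.toReal_rpow, toReal_enorm, Real.norm_eq_abs, mul_pow] at h2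
  rw [le_div_iff₀ (by positivity)]
  linarith

/- Sketch. M x = sum_i (ntMax alpha (F i) x).toReal, finite a.e., M^p <= sum_i (..)^p
(Real.rpow_add_le_add_rpow, or M^p <= card^p sum). A point Y = pt s y of the ball has
s > t / (1 + alpha) and dist y x < alpha t / (1 + alpha) < alpha s (dist_pt_sq, exists_pt). -/
theorem exists_M (hα : 0 < α) (hp : 0 < p) (hp1 : p ≤ 1) {F : Fin (d + 1) → EE d → ℝ}
    (hF : ∀ i, MemHp α p (F i)) : ∃ M : Ed d → ℝ, (∀ x, 0 ≤ M x) ∧
      Integrable (fun x => M x ^ p) ∧ ∀ᵐ x, ∀ t, 0 < t → ∀ i,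
        ∀ Y ∈ ball (pt t x) (α / (1 + α) * t), |F i Y| ≤ M x := by
  have hm : ∀ i, Measurable fun x => ntMax α (F i) x ^ p :=
    fun i => (measurable_ntMax α (F i)).pow_const p
  have h0 : ∀ x, 0 ≤ ∑ i, (ntMax α (F i) x ^ p).toReal :=
    fun x => Finset.sum_nonneg fun _ _ => ENNReal.toReal_nonneg
  refine ⟨fun x => (∑ i, (ntMax α (F i) x ^ p).toReal) ^ p⁻¹, fun x => Real.rpow_nonneg (h0 x) _,
    ?_, ?_⟩
  · simp only [Real.rpow_inv_rpow (h0 _) hp.ne']
    exact integrable_finsetSum _ fun i _ =>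
      integrable_toReal_of_lintegral_ne_top (hm i).aemeasurable (hF i).2.ne
  · filter_upwards [ae_all_iff.2 fun i => ae_lt_top (hm i) (hF i).2.ne] with x hx t ht i Y hY
    obtain ⟨y, hy⟩ := exists_pt Y
    rw [hy] at hY ⊢
    obtain ⟨h1, h2⟩ := p1_cone hα ht hY
    have h3 := ENNReal.toReal_mono (hx i).ne (ENNReal.rpow_le_rpow (p1_le (F i) h1 h2) hp.le)
    rw [← ENNReal.toReal_rpow, toReal_enorm, Real.norm_eq_abs] at h3
    rw [Real.le_rpow_inv_iff_of_pos (abs_nonneg _) (h0 x) hp]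
    exact h3.trans (Finset.single_le_sum (f := fun i => (ntMax α (F i) x ^ p).toReal)
      (fun _ _ => ENNReal.toReal_nonneg) (Finset.mem_univ i))

/- ntMax of a sum is at most the sum; ENNReal.rpow_add_le_add_rpow, lintegral_add_left, measurable_ntMax. -/
theorem memHp_add (hp : 0 < p) (hp1 : p ≤ 1) {u v : EE d → ℝ} (hu : MemHp α p u)
    (hv : MemHp α p v) : MemHp α p fun X => u X + v X := by
  refine ⟨hu.1.add hv.1, ?_⟩
  have h1 : ∀ x, ntMax α (fun X => u X + v X) x ^ p ≤ ntMax α u x ^ p + ntMax α v x ^ p := by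
    intro x
    refine le_trans (ENNReal.rpow_le_rpow ?_ hp.le) (ENNReal.rpow_add_le_add_rpow _ _ hp.le hp1)
    exact iSup_le fun t => iSup_le fun y => iSup_le fun h =>
      (enorm_add_le _ _).trans (add_le_add (p1_le u h.1 h.2) (p1_le v h.1 h.2))
  refine (lintegral_mono h1).trans_lt ?_
  rw [lintegral_add_left ((measurable_ntMax α u).pow_const p)]
  exact ENNReal.add_lt_top.2 ⟨hu.2, hv.2⟩

theorem memHp_neg {u : EE d → ℝ} (hu : MemHp α p u) : MemHp α p fun X => -u X := by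
  refine ⟨hu.1.neg, ?_⟩
  simpa only [ntMax, enorm_neg] using hu.2

lemma pd_sub_sub {u v w : EE d → ℝ} (hu : MemHp α p u) (hv : MemHp α p v) (hw : MemHp α p w)
    {X : EE d} (hX : X ∈ halfSpace d) (i : Fin (d + 1)) :
    pd i (fun Y => u Y - v Y - w Y) X = pd i u X - pd i v X - pd i w X := by
  have h1 := (hu.1 X hX).1.differentiableAt two_ne_zero
  have h2 := (hv.1 X hX).1.differentiableAt two_ne_zero
  have h3 := (hw.1 X hX).1.differentiableAt two_ne_zero
  unfold pd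
  rw [fderiv_fun_sub (h1.fun_sub h2) h3, fderiv_fun_sub h1 h2]
  rfl

end Pool.Agent.Lib.MP_fc0ae9_an.St
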