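import Pool.Agent.Lib.MP_fc0ae9_an.StD1

/-! Mean value inequalities for the jets. -/

namespace Pool.Agent.Lib.MP_fc0ae9_an.St

open scoped InnerProductSpace ContDiff Topology
open MeasureTheory Filter Metric Pool.Agent.Results.MP_fc0ae9_an.PositiveThreshold

variable {d : ℕ}

/- Sketch. Let tau maximise the continuous function s |-> |jA F (pt s x)| on [t, 2t] (jet_contDiffAt), with value m.
The derivative of s |-> vec F (pt s x), whose coordinates are jA (i, 0) / s, has norm at most m / t;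
mean value inequality (norm_image_sub_le_of_norm_deriv_le_segment'). -/
lemma exists_height {F : Fin (d + 1) → EE d → ℝ} (hF : ∀ i, Har (F i)) {t μ : ℝ} (ht : 0 < t)
    (x : Ed d) (h : μ / 4 ≤ ‖vec F (pt t x) - vec F (pt (2 * t) x)‖) :
    ∃ τ ∈ Set.Icc t (2 * t), μ / 4 ≤ ‖jA F (pt τ x)‖ := by
  have hγ : ∀ s : ℝ, HasDerivAt (fun s : ℝ => pt s x) (ev 0) s := by
    intro s
    have e : (fun s : ℝ => pt s x) = fun s : ℝ => pt 0 x + s • (ev 0 : EE d) := by
      funext s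
      ext i
      refine Fin.cases ?_ (fun j => ?_) i
      · simp [pt_zero, ev_apply]
      · simp [pt_succ, ev_apply]
    rw [e]
    simpa using ((hasDerivAt_id s).smul_const (ev 0 : EE d)).const_add (pt 0 x)
  have hpos : ∀ s ∈ Set.Icc t (2 * t), 0 < s := fun s hs => lt_of_lt_of_le ht hs.1
  have hc : ContinuousOn (fun s : ℝ => ‖jA F (pt s x)‖) (Set.Icc t (2 * t)) := by
    intro s hs
    have h1 : ContinuousAt (jet F) (pt s x) :=
      (jet_contDiffAt hF (pt_mem (hpos s hs) x)).continuousAt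
    have h2 : ContinuousAt (fun s : ℝ => jet F (pt s x)) s :=
      ContinuousAt.comp (f := fun s : ℝ => pt s x) h1 (hγ s).continuousAt
    exact (h2.snd.fst.norm).continuousWithinAt
  obtain ⟨τ, hτ, hmax⟩ := isCompact_Icc.exists_isMaxOn
    (Set.nonempty_Icc.2 (by linarith : t ≤ 2 * t)) hc
  refine ⟨τ, hτ, h.trans ?_⟩
  have hd : ∀ s ∈ Set.Icc t (2 * t), DifferentiableAt ℝ (vec F) (pt s x) := by
    intro s hs
    exact ((jet_contDiffAt hF (pt_mem (hpos s hs) x)).differentiableAt one_ne_zero).fst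
  have hg : ∀ s ∈ Set.Icc t (2 * t), HasDerivWithinAt (fun s : ℝ => vec F (pt s x))
      (fderiv ℝ (vec F) (pt s x) (ev 0)) (Set.Icc t (2 * t)) s := by
    intro s hs
    exact ((hd s hs).hasFDerivAt.comp_hasDerivAt s (hγ s)).hasDerivWithinAt
  have hb : ∀ s ∈ Set.Ico t (2 * t),
      ‖fderiv ℝ (vec F) (pt s x) (ev 0)‖ ≤ ‖jA F (pt τ x)‖ / t := by
    intro s hs
    have hs' : s ∈ Set.Icc t (2 * t) := Set.Ico_subset_Icc_self hs
    have hco : ∀ i, s * fderiv ℝ (vec F) (pt s x) (ev 0) i = jA F (pt s x) (i, 0) := by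
      intro i
      have h1 := ((EuclideanSpace.proj i : EE d →L[ℝ] ℝ).hasFDerivAt.comp (pt s x)
        (hd s hs').hasFDerivAt).fderiv
      have h2 : (⇑(EuclideanSpace.proj i : EE d →L[ℝ] ℝ) ∘ vec F) = F i := rfl
      rw [h2] at h1
      rw [jA_apply, pd_eq, h1, pt_zero]
      rfl
    have h3 : (s * ‖fderiv ℝ (vec F) (pt s x) (ev 0)‖) ^ 2 ≤ ‖jA F (pt s x)‖ ^ 2 := by
      rw [mul_pow, norm_sq_eq, norm_sq_eq2, Finset.mul_sum]
      refine Finset.sum_le_sum (fun i _ => ?_)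
      rw [← mul_pow, hco]
      exact Finset.single_le_sum (f := fun j => jA F (pt s x) (i, j) ^ 2)
        (fun j _ => sq_nonneg _) (Finset.mem_univ 0)
    have h4 : s * ‖fderiv ℝ (vec F) (pt s x) (ev 0)‖ ≤ ‖jA F (pt s x)‖ :=
      (abs_le_of_sq_le_sq' h3 (norm_nonneg _)).2
    have h5 : ‖jA F (pt s x)‖ ≤ ‖jA F (pt τ x)‖ := hmax hs'
    rw [le_div_iff₀ ht]
    nlinarith [norm_nonneg (fderiv ℝ (vec F) (pt s x) (ev 0)), hs.1]
  have h6 := norm_image_sub_le_of_norm_deriv_le_segment' hg hb (2 * t)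
    (Set.right_mem_Icc.2 (by linarith))
  rw [norm_sub_rev]
  refine h6.trans (le_of_eq ?_)
  field_simp
  ring

/- Sketch. On the convex set of points of height >= t the operator norm of fderiv (jet F) is at most
(d + 1) m / t (expand in the basis ev l); Convex.norm_image_sub_le_of_norm_fderiv_le. -/
lemma jet_lipschitz {F : Fin (d + 1) → EE d → ℝ} (hF : ∀ i, Har (F i)) {t m : ℝ} (ht : 0 < t)
    (h : ∀ Y : EE d, t ≤ Y 0 → JB F Y m) {Y Z : EE d} (hY : t ≤ Y 0) (hZ : t ≤ Z 0) :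
    ‖jet F Y - jet F Z‖ ≤ (d + 1) * m / t * dist Y Z := by
  have hm : 0 ≤ m := (norm_nonneg _).trans (h Y hY).1
  have hconv : Convex ℝ {W : EE d | t ≤ W 0} :=
    convex_halfSpace_ge (EuclideanSpace.proj (0 : Fin (d + 1)) : EE d →L[ℝ] ℝ).isLinear t
  have hd : ∀ W ∈ {W : EE d | t ≤ W 0}, DifferentiableAt ℝ (jet F) W := fun W hW =>
    (jet_contDiffAt hF (lt_of_lt_of_le ht hW)).differentiableAt one_ne_zero
  have hb : ∀ W ∈ {W : EE d | t ≤ W 0}, ‖fderiv ℝ (jet F) W‖ ≤ (d + 1) * m / t := by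
    intro W hW
    have hW' : t ≤ W 0 := hW
    refine ContinuousLinearMap.opNorm_le_bound _ (by positivity) (fun v => ?_)
    have e : v = ∑ l, v l • (ev l : EE d) := by
      ext i
      simp [ev_apply, Finset.sum_apply]
    have hl : ∀ l, ‖fderiv ℝ (jet F) W (ev l)‖ ≤ m / t := by
      intro l
      rw [le_div_iff₀ ht]
      nlinarith [(h W hW).2 l, norm_nonneg (fderiv ℝ (jet F) W (ev l))]
    calc ‖fderiv ℝ (jet F) W v‖ = ‖∑ l, v l • fderiv ℝ (jet F) W (ev l)‖ := by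
          conv_lhs => rw [e]
          simp only [map_sum, map_smul]
      _ ≤ ∑ l, ‖v l • fderiv ℝ (jet F) W (ev l)‖ := norm_sum_le _ _
      _ ≤ ∑ _l : Fin (d + 1), ‖v‖ * (m / t) := by
          refine Finset.sum_le_sum (fun l _ => ?_)
          rw [norm_smul]
          exact mul_le_mul (PiLp.norm_apply_le v l) (hl l) (norm_nonneg _) (norm_nonneg _)
      _ = (d + 1) * m / t * ‖v‖ := by
          rw [Finset.sum_const, Finset.card_univ, Fintype.card_fin, nsmul_eq_mul]
          push_cast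
          ring
  rw [dist_eq_norm]
  exact hconv.norm_image_sub_le_of_norm_fderiv_le hd hb hZ hY

end Pool.Agent.Lib.MP_fc0ae9_an.St
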