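import Pool.Agent.Lib.MP_fc0ae9_an.StJ
import Pool.Agent.Lib.MP_fc0ae9_an.StP2a

/-! From the energy estimate to the pointwise estimate. -/

namespace Pool.Agent.Lib.MP_fc0ae9_an.St

open scoped InnerProductSpace ContDiff Topology
open MeasureTheory Filter Metric Pool.Agent.Results.MP_fc0ae9_an.PositiveThreshold

variable {d : ℕ}

lemma stp2_GG {ι : Type} [Fintype ι] {ε b p μ C₁ : ℝ} (hε : 0 < ε) (hb : 0 ≤ b) (hp1 : p ≤ 1)
    (hμ : 0 < μ) {e : Vc ι} (he : ‖e‖ = 1) {j : Jet ι} (hj : ‖j‖ ≤ C₁ * μ)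
    (hA : μ / 8 ≤ ‖j.2.1‖) :
    ((1 + ε * b + ε) * C₁ ^ 2 + 1) ^ (p / 2 - 1) * μ ^ p / 64 ≤ GG ε b μ p e j := by
  have h1 : ‖j.1‖ ≤ C₁ * μ := (norm_fst_le j).trans hj
  have h2 : ‖j.2.1‖ ≤ C₁ * μ := ((norm_fst_le j.2).trans (norm_snd_le j)).trans hj
  have h3 : |⟪e, j.1⟫_ℝ| ≤ C₁ * μ := by
    have := abs_real_inner_le_norm e j.1
    rw [he, one_mul] at this
    exact this.trans h1
  have h1' : ‖j.1‖ ^ 2 ≤ (C₁ * μ) ^ 2 := pow_le_pow_left₀ (norm_nonneg _) h1 2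
  have h2' : ‖j.2.1‖ ^ 2 ≤ (C₁ * μ) ^ 2 := pow_le_pow_left₀ (norm_nonneg _) h2 2
  have h3' : ⟪e, j.1⟫_ℝ ^ 2 ≤ (C₁ * μ) ^ 2 := by
    rw [← sq_abs]
    exact pow_le_pow_left₀ (abs_nonneg _) h3 2
  have hN : NN ε b μ e j ≤ ((1 + ε * b + ε) * C₁ ^ 2 + 1) * μ ^ 2 := by
    have h4 := mul_le_mul_of_nonneg_left h3' (mul_nonneg hε.le hb)
    have h5 := mul_le_mul_of_nonneg_left h2' hε.le
    unfold NN
    linarith
  have hC : 0 < (1 + ε * b + ε) * C₁ ^ 2 + 1 := by positivity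
  have h6 : (((1 + ε * b + ε) * C₁ ^ 2 + 1) * μ ^ 2) ^ (p / 2 - 1) ≤
      NN ε b μ e j ^ (p / 2 - 1) :=
    Real.rpow_le_rpow_of_nonpos (NN_pos hε.le hb hμ e j) hN (by linarith)
  have h7 : (μ ^ 2) ^ (p / 2 - 1) * μ ^ 2 = μ ^ p := by
    rw [← Real.rpow_add_one (by positivity), ← Real.rpow_natCast, ← Real.rpow_mul hμ.le]
    congr 1
    push_cast
    ring
  have h8 : (μ / 8) ^ 2 ≤ ‖j.2.1‖ ^ 2 := pow_le_pow_left₀ (by positivity) hA 2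
  calc ((1 + ε * b + ε) * C₁ ^ 2 + 1) ^ (p / 2 - 1) * μ ^ p / 64
      = (((1 + ε * b + ε) * C₁ ^ 2 + 1) * μ ^ 2) ^ (p / 2 - 1) * (μ / 8) ^ 2 := by
        rw [Real.mul_rpow hC.le (by positivity), ← h7]
        ring
    _ ≤ GG ε b μ p e j := mul_le_mul h6 h8 (by positivity)
        (Real.rpow_nonneg (NN_pos hε.le hb hμ e j).le _)

lemma stp2_coord {Y Z : EE d} {r : ℝ} (h : Z ∈ ball Y r) : Y 0 - r < Z 0 := by
  have h1 : dist (Z 0) (Y 0) ≤ dist Z Y := PiLp.dist_apply_le Z Y 0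
  have h2 := h1.trans_lt (mem_ball.mp h)
  rw [Real.dist_eq, abs_lt] at h2
  linarith [h2.1]

lemma stp2_dist {s τ r : ℝ} {x y : Ed d} (hs : s ∈ Set.Icc τ (τ + r)) (hy : y ∈ ball x r) :
    dist (pt s y) (pt τ x) ≤ 2 * r := by
  have h1 := mem_ball.mp hy
  have h2 : (0 : ℝ) ≤ dist y x := dist_nonneg
  have hr : 0 ≤ r := by linarith
  refine (pow_le_pow_iff_left₀ dist_nonneg (by linarith) two_ne_zero).mp ?_
  rw [dist_pt_sq]
  nlinarith [hs.1, hs.2]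

lemma stp2_vol (x : Ed d) {r : ℝ} (hr : 0 < r) :
    volume.real (ball x r) = r ^ d * volume.real (ball (0 : Ed d) 1) := by
  rw [Measure.real, Measure.addHaar_ball_of_pos volume x hr, ENNReal.toReal_mul,
    ENNReal.toReal_ofReal (by positivity), finrank_euclideanSpace_fin]
  rfl

lemma stp2_main (hd : 1 ≤ d) {ε b p : ℝ} (hε : 0 < ε) (hb : 0 ≤ b) (hp : 0 < p) (hp1 : p ≤ 1) :
    ∃ c : ℝ, 0 < c ∧ ∀ F : Fin (d + 1) → EE d → ℝ, (∀ i, Har (F i)) → ∀ K L : ℝ, 0 < K →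
      (∀ X ∈ halfSpace d, X 0 ^ d * ‖vec F X‖ ^ p ≤ K) →
      (∀ (δ s s' g₁ : ℝ) (B : Set (Ed d)), 0 < δ → 0 < s → s < s' → 0 ≤ g₁ → MeasurableSet B →
        volume B ≠ ⊤ → (∀ t ∈ Set.Icc s s', ∀ x ∈ B, g₁ ≤ GG ε b δ p (ev 0) (jet F (pt t x))) →
        g₁ * volume.real B * ((s' - s) / s') ≤ L) →
      ∀ (t : ℝ) (x : Ed d), 0 < t → (3 / 4 : ℝ) ^ p * K ≤ t ^ d * ‖vec F (pt t x)‖ ^ p →
        c * K ≤ L := by
  obtain ⟨C, hC, hJ⟩ := jet_bound (d := d) (κ := 1 / 2) (by norm_num) (by norm_num)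
  obtain ⟨c₀, hc₀, hc₀p⟩ : ∃ c₀ : ℝ, 0 < c₀ ∧ c₀ ^ p = 2 ^ d :=
    ⟨((2 : ℝ) ^ d) ^ p⁻¹, by positivity, Real.rpow_inv_rpow (by positivity) hp.ne'⟩
  obtain ⟨θ, hθ, hθ1, hθ2⟩ : ∃ θ : ℝ, 0 < θ ∧ θ ≤ 1 ∧ 16 * (d + 1) * (C * c₀) * θ ≤ 1 := by
    refine ⟨min 1 (16 * (d + 1) * (C * c₀))⁻¹, by positivity, min_le_left _ _, ?_⟩
    have h0 : (0 : ℝ) < 16 * (d + 1) * (C * c₀) := by positivity
    exact (mul_le_mul_of_nonneg_left (min_le_right _ _) h0.le).trans (mul_inv_cancel₀ h0.ne').le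
  have hv : 0 < volume.real (ball (0 : Ed d) 1) :=
    ENNReal.toReal_pos (measure_ball_pos volume _ one_pos).ne' measure_ball_lt_top.ne
  obtain ⟨G, hG, hGe⟩ : ∃ G : ℝ, 0 < G ∧
      G = ((1 + ε * b + ε) * (C * c₀) ^ 2 + 1) ^ (p / 2 - 1) := ⟨_, by positivity, rfl⟩
  refine ⟨G / 64 * (θ ^ d * volume.real (ball (0 : Ed d) 1)) * (θ / 3), by positivity, ?_⟩
  intro F hF K L hK hb1 hE t x ht hx
  have htd : 0 < t ^ d := by positivity
  obtain ⟨μ, hμ, hμp⟩ : ∃ μ : ℝ, 0 < μ ∧ μ ^ p * t ^ d = K :=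
    ⟨(K / t ^ d) ^ p⁻¹, by positivity, by
      rw [Real.rpow_inv_rpow (by positivity) hp.ne', div_mul_cancel₀ _ htd.ne']⟩
  have hμp0 : 0 < μ ^ p := by positivity
  have h1 : 3 / 4 * μ ≤ ‖vec F (pt t x)‖ := by
    rw [← Real.rpow_le_rpow_iff (by positivity) (norm_nonneg _) hp,
      Real.mul_rpow (by norm_num) hμ.le]
    rw [← hμp] at hx
    refine le_of_mul_le_mul_left ?_ htd
    linarith
  have h2 : ‖vec F (pt (2 * t) x)‖ ≤ 1 / 2 * μ := by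
    rw [← Real.rpow_le_rpow_iff (norm_nonneg _) (by positivity) hp,
      Real.mul_rpow (by norm_num) hμ.le]
    have h3 := hb1 _ (pt_mem (t := 2 * t) (by positivity) x)
    rw [pt_zero, mul_pow, ← hμp] at h3
    have h4 : (2 : ℝ) ≤ 2 ^ d := le_self_pow₀ (by norm_num) (by omega)
    have h5 : (1 / 2 : ℝ) ≤ (1 / 2 : ℝ) ^ p :=
      Real.self_le_rpow_of_le_one (by norm_num) (by norm_num) hp1
    have h6 : 0 ≤ ‖vec F (pt (2 * t) x)‖ ^ p := by positivity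
    have h7 : 2 ^ d * ‖vec F (pt (2 * t) x)‖ ^ p ≤ μ ^ p := by
      refine le_of_mul_le_mul_left ?_ htd
      linarith
    nlinarith
  have h3 : ∀ Z : EE d, t / 2 ≤ Z 0 → ‖vec F Z‖ ≤ c₀ * μ := fun Z hZ => by
    rw [← Real.rpow_le_rpow_iff (norm_nonneg _) (by positivity) hp,
      Real.mul_rpow hc₀.le hμ.le, hc₀p]
    have hZ0 : 0 < Z 0 := by linarith
    have h3 := hb1 Z hZ0
    have h4 : t ^ d ≤ 2 ^ d * Z 0 ^ d := by
      rw [← mul_pow]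
      exact pow_le_pow_left₀ ht.le (by linarith) d
    have h6 : 0 ≤ ‖vec F Z‖ ^ p := by positivity
    refine le_of_mul_le_mul_left ?_ htd
    calc t ^ d * ‖vec F Z‖ ^ p ≤ 2 ^ d * Z 0 ^ d * ‖vec F Z‖ ^ p :=
          mul_le_mul_of_nonneg_right h4 h6
      _ = 2 ^ d * (Z 0 ^ d * ‖vec F Z‖ ^ p) := by ring
      _ ≤ 2 ^ d * K := mul_le_mul_of_nonneg_left h3 (by positivity)
      _ = t ^ d * (2 ^ d * μ ^ p) := by rw [← hμp]; ring
  have h4 : ∀ Y : EE d, t ≤ Y 0 → JB F Y (C * (c₀ * μ)) := fun Y hY =>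
    hJ F hF Y (ht.trans_le hY) _ fun i Z hZ => by
      have h5 := stp2_coord hZ
      refine le_trans ?_ (h3 Z (by linarith))
      exact PiLp.norm_apply_le (vec F Z) i
  obtain ⟨τ, hτ, hA⟩ := exists_height hF ht x (μ := μ) (by
    have := norm_sub_norm_le (vec F (pt t x)) (vec F (pt (2 * t) x))
    linarith)
  have hθt : 0 < θ * t := by positivity
  have h5 := hE μ τ (τ + θ * t) (G * μ ^ p / 64) (ball x (θ * t)) hμ (ht.trans_le hτ.1)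
    (by linarith) (by positivity) measurableSet_ball measure_ball_lt_top.ne fun s hs y hy => by
      have hs' : t ≤ pt s y 0 := hτ.1.trans hs.1
      have h6 := jet_lipschitz hF ht h4 hs' (Z := pt τ x) hτ.1
      have h7 : ((d : ℝ) + 1) * (C * (c₀ * μ)) / t * dist (pt s y) (pt τ x) ≤ μ / 8 := by
        calc ((d : ℝ) + 1) * (C * (c₀ * μ)) / t * dist (pt s y) (pt τ x)
            ≤ ((d : ℝ) + 1) * (C * (c₀ * μ)) / t * (2 * (θ * t)) :=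
              mul_le_mul_of_nonneg_left (stp2_dist hs hy) (by positivity)
          _ = 16 * (d + 1) * (C * c₀) * θ * (μ / 8) := by field_simp; ring
          _ ≤ 1 * (μ / 8) := mul_le_mul_of_nonneg_right hθ2 (by positivity)
          _ = μ / 8 := one_mul _
      have h8 : ‖jA F (pt s y) - jA F (pt τ x)‖ ≤ μ / 8 :=
        (((norm_fst_le (jet F (pt s y) - jet F (pt τ x)).2).trans
          (norm_snd_le (jet F (pt s y) - jet F (pt τ x)))).trans h6).trans h7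
      have h9 := norm_sub_norm_le (jA F (pt τ x)) (jA F (pt s y))
      rw [norm_sub_rev] at h9
      rw [hGe]
      refine stp2_GG hε hb hp1 hμ (norm_ev 0) (by rw [mul_assoc]; exact (h4 _ hs').1) ?_
      change μ / 8 ≤ ‖jA F (pt s y)‖
      linarith
  refine le_trans ?_ h5
  have h6 : θ / 3 ≤ (τ + θ * t - τ) / (τ + θ * t) := by
    rw [div_le_div_iff₀ (by norm_num) (by linarith [hτ.1])]
    have h7 : θ * t ≤ t := by nlinarith
    have h8 : τ + θ * t ≤ 3 * t := by linarith [hτ.2]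
    nlinarith
  calc G / 64 * (θ ^ d * volume.real (ball (0 : Ed d) 1)) * (θ / 3) * K
      = G * μ ^ p / 64 * volume.real (ball x (θ * t)) * (θ / 3) := by
        rw [stp2_vol x hθt, ← hμp, mul_pow]
        ring
    _ ≤ _ := mul_le_mul_of_nonneg_left h6 (by positivity)

/- Sketch. K = sup over the half-space of X 0^(d/p) |vec F X| (bounded by K0^(1/p)). If K = 0 done (L >= 0 from
hE with g1 = 0). Otherwise take X = pt t x with value >= 3K/4, mu = K t^(-d/p). |vec F (pt (2t) x)| <= mu/2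
as d/p >= 1. For height >= t, JB F Y (C1 mu) with C1 = C 2^(d/p) (jet_bound with kappa = 1/2).
exists_height gives tau. th = min 1 (1/(16 (d+1) C1)): for s in [tau, tau + th t], y in ball x (th t):
|jA| >= mu/8 (jet_lipschitz, dist_pt_sq), NN <= C2 mu^2 with delta = mu, C2 = (1 + eps b + eps) C1^2 + 1, so
GG >= C2^(p/2-1) mu^p / 64. vol = (th t)^d vol(ball 0 1), (s'-s)/s' >= th/3, mu^p t^d = K^p. -/
theorem kbound (hd : 1 ≤ d) {ε b p : ℝ} (hε : 0 < ε) (hb : 0 ≤ b) (hp : 0 < p) (hp1 : p ≤ 1) :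
    ∃ C : ℝ, 0 < C ∧ ∀ F : Fin (d + 1) → EE d → ℝ, (∀ i, Har (F i)) → ∀ K₀ L : ℝ,
      (∀ X ∈ halfSpace d, X 0 ^ d * ‖vec F X‖ ^ p ≤ K₀) →
      (∀ (δ s s' g₁ : ℝ) (B : Set (Ed d)), 0 < δ → 0 < s → s < s' → 0 ≤ g₁ → MeasurableSet B →
        volume B ≠ ⊤ → (∀ t ∈ Set.Icc s s', ∀ x ∈ B, g₁ ≤ GG ε b δ p (ev 0) (jet F (pt t x))) →
        g₁ * volume.real B * ((s' - s) / s') ≤ L) →
      ∀ X ∈ halfSpace d, X 0 ^ d * ‖vec F X‖ ^ p ≤ C * L := by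
  obtain ⟨c, hc, hmain⟩ := stp2_main hd hε hb hp hp1
  refine ⟨c⁻¹, inv_pos.mpr hc, fun F hF K₀ L hK hE X hX => ?_⟩
  have hbdd : BddAbove ((fun Y : EE d => Y 0 ^ d * ‖vec F Y‖ ^ p) '' halfSpace d) :=
    ⟨K₀, by rintro _ ⟨Y, hY, rfl⟩; exact hK Y hY⟩
  obtain ⟨K, hKe⟩ : ∃ K, K = sSup ((fun Y : EE d => Y 0 ^ d * ‖vec F Y‖ ^ p) '' halfSpace d) :=
    ⟨_, rfl⟩
  have hle : ∀ Y ∈ halfSpace d, Y 0 ^ d * ‖vec F Y‖ ^ p ≤ K := fun Y hY =>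
    hKe ▸ le_csSup hbdd ⟨Y, hY, rfl⟩
  refine (hle X hX).trans ?_
  rw [le_inv_mul_iff₀ hc]
  rcases le_or_gt K 0 with h0 | h0
  · have h1 := hE 1 1 2 0 ∅ one_pos one_pos one_lt_two le_rfl MeasurableSet.empty (by simp)
      fun _ _ _ h => absurd h (Set.notMem_empty _)
    rw [zero_mul, zero_mul] at h1
    exact (mul_nonpos_of_nonneg_of_nonpos hc.le h0).trans h1
  · have h1 : (3 / 4 : ℝ) ^ p * K <
        sSup ((fun Y : EE d => Y 0 ^ d * ‖vec F Y‖ ^ p) '' halfSpace d) := by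
      rw [← hKe]
      exact mul_lt_of_lt_one_left h0 (Real.rpow_lt_one (by norm_num) (by norm_num) hp)
    obtain ⟨_, ⟨Y, hY, rfl⟩, h2⟩ := exists_lt_of_lt_csSup (Set.Nonempty.image _ ⟨X, hX⟩) h1
    obtain ⟨y, hy⟩ := exists_pt Y
    refine hmain F hF K L h0 hle hE (Y 0) y hY ?_
    rw [← hy]
    exact h2.le

end Pool.Agent.Lib.MP_fc0ae9_an.St
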