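import Pool.Agent.Lib.MP_fc0ae9_an.StAn

/-! Subadditive set functions that are small on small sets. -/

namespace Pool.Agent.Lib.MP_fc0ae9_an.St

open scoped InnerProductSpace ContDiff Topology ENNReal
open MeasureTheory Filter Metric Pool.Agent.Results.MP_fc0ae9_an.PositiveThreshold

variable {d : ℕ} {α p : ℝ}

/- Sketch. Shells E i = ball 0 ((i+1)/N)^(1/d) minus ball 0 (i/N)^(1/d) have measure vol(ball 0 1) / N
(Measure.addHaar_ball). Induction gives phi (ball 0 (i/N)^(1/d)) <= phi empty + i (C vol / N)^(1/p), and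
phi empty = 0; N^(1 - 1/p) -> 0. -/
theorem additive_zero (hd : 1 ≤ d) (hp : 0 < p) (hp1 : p < 1) {C : ℝ} {φ : Set (Ed d) → ℝ}
    (h0 : ∀ E, 0 ≤ φ E)
    (hle : ∀ E, MeasurableSet E → E ⊆ ball 0 1 → φ E ^ p ≤ C * volume.real E)
    (hadd : ∀ E E', MeasurableSet E → MeasurableSet E' → E ⊆ E' → E' ⊆ ball 0 1 →
      φ E' ≤ φ E + φ (E' \ E)) : φ (ball 0 1) = 0 := by
  have hd0 : (d : ℝ) ≠ 0 := by exact_mod_cast (by omega : d ≠ 0)
  have hvol : ∀ s : ℝ, 0 ≤ s → volume.real (ball (0 : Ed d) (s ^ ((d : ℝ)⁻¹))) =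
      s * volume.real (ball (0 : Ed d) 1) := by
    intro s hs
    have : Nonempty (Fin d) := ⟨⟨0, hd⟩⟩
    rw [Measure.real, Measure.addHaar_ball _ _ (Real.rpow_nonneg hs _), finrank_euclideanSpace_fin,
      Real.rpow_inv_natCast_pow hs (by omega), ENNReal.toReal_mul, ENNReal.toReal_ofReal hs]
    rfl
  set v := C * volume.real (ball (0 : Ed d) 1) with hv
  have hv0 : 0 ≤ v := (Real.rpow_nonneg (h0 _) p).trans (hle _ measurableSet_ball subset_rfl)
  have key : ∀ N : ℕ, 1 ≤ N → φ (ball 0 1) ≤ N * (v / N) ^ p⁻¹ := by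
    intro N hN
    have hN0 : (0 : ℝ) < N := by exact_mod_cast hN
    have step : ∀ i : ℕ, i ≤ N → φ (ball 0 (((i : ℝ) / N) ^ ((d : ℝ)⁻¹))) ≤ i * (v / N) ^ p⁻¹ := by
      intro i
      induction i with
      | zero =>
        intro _
        have h1 := hle ∅ MeasurableSet.empty (Set.empty_subset _)
        rw [measureReal_empty, mul_zero] at h1
        have h2 : φ ∅ = 0 :=
          (Real.rpow_eq_zero (h0 _) hp.ne').1 (le_antisymm h1 (Real.rpow_nonneg (h0 _) p))
        simp [Real.zero_rpow (inv_ne_zero hd0), h2]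
      | succ i ih =>
        intro hi
        have hi' : ((i + 1 : ℕ) : ℝ) ≤ N := by exact_mod_cast hi
        have hs1 : ball (0 : Ed d) (((i : ℝ) / N) ^ ((d : ℝ)⁻¹)) ⊆
            ball 0 ((((i + 1 : ℕ) : ℝ) / N) ^ ((d : ℝ)⁻¹)) :=
          ball_subset_ball (Real.rpow_le_rpow (by positivity)
            (div_le_div_of_nonneg_right (by push_cast; linarith) hN0.le) (by positivity))
        have hs2 : ball (0 : Ed d) ((((i + 1 : ℕ) : ℝ) / N) ^ ((d : ℝ)⁻¹)) ⊆ ball 0 1 :=
          ball_subset_ball (Real.rpow_le_one (by positivity) ((div_le_one hN0).2 hi')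
            (by positivity))
        have h1 := hadd _ _ measurableSet_ball measurableSet_ball hs1 hs2
        have h2 := hle (ball (0 : Ed d) ((((i + 1 : ℕ) : ℝ) / N) ^ ((d : ℝ)⁻¹)) \
            ball 0 (((i : ℝ) / N) ^ ((d : ℝ)⁻¹)))
          (measurableSet_ball.diff measurableSet_ball) (Set.sdiff_subset.trans hs2)
        rw [measureReal_sdiff hs1 measurableSet_ball measure_ball_lt_top.ne, hvol _ (by positivity),
          hvol _ (by positivity)] at h2
        have h3 := (Real.le_rpow_inv_iff_of_pos (h0 _) (div_nonneg hv0 hN0.le) hp).2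
          (h2.trans_eq (by rw [hv]; push_cast; field_simp; ring))
        have h4 := ih (by omega)
        push_cast at *
        linarith
    have := step N le_rfl
    rwa [div_self hN0.ne', Real.one_rpow] at this
  refine le_antisymm ?_ (h0 _)
  have hlim : Tendsto (fun N : ℕ => v ^ p⁻¹ * (N : ℝ) ^ (-(p⁻¹ - 1))) atTop (𝓝 (v ^ p⁻¹ * 0)) :=
    ((tendsto_rpow_neg_atTop (sub_pos.2 ((one_lt_inv₀ hp).2 hp1))).comp
      tendsto_natCast_atTop_atTop).const_mul _
  rw [mul_zero] at hlim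
  refine ge_of_tendsto hlim (eventually_atTop.2 ⟨1, fun N hN => (key N hN).trans_eq ?_⟩)
  have hN0 : (0 : ℝ) < N := by exact_mod_cast hN
  rw [Real.div_rpow hv0 hN0.le, neg_sub, Real.rpow_sub hN0, Real.rpow_one]
  ring

end Pool.Agent.Lib.MP_fc0ae9_an.St
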