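import Pool.Agent.Lib.MP_fc0ae9_an.StCal
import Pool.Agent.Lib.MP_fc0ae9_an.StE
import Pool.Agent.Lib.MP_fc0ae9_an.StP1
import Pool.Agent.Lib.MP_fc0ae9_an.StP2
import Pool.Agent.Lib.MP_fc0ae9_an.StP3
import Pool.Agent.Lib.MP_fc0ae9_an.StH3

/-! The a priori estimate below the Stein-Weiss exponent. -/

namespace Pool.Agent.Lib.MP_fc0ae9_an.St

open scoped InnerProductSpace ContDiff Topology
open MeasureTheory Filter Metric Pool.Agent.Results.MP_fc0ae9_an.PositiveThreshold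

variable {d : ℕ}

theorem apriori (hd : 2 ≤ d) : ∃ p₁ : ℝ, 0 < p₁ ∧ p₁ < ((d : ℝ) - 1) / d ∧ ∀ p : ℝ, p₁ ≤ p →
    p ≤ 1 → ∃ C : ℝ, 0 < C ∧ ∀ α : ℝ, 0 < α → ∀ F : Fin (d + 1) → EE d → ℝ,
      (∀ i, MemHp α p (F i)) → (∀ X ∈ halfSpace d, ∀ i j, pd i (F j) X = pd j (F i) X) →
      (∀ X ∈ halfSpace d, ∑ i, pd i (F i) X = 0) →
      ∀ f : Ed d → EE d, (∀ᵐ x, Tendsto (fun t => vec F (pt t x)) (𝓝[>] 0) (𝓝 (f x))) →
      ∀ X ∈ halfSpace d, X 0 ^ d * ‖vec F X‖ ^ p ≤ C * ∫ x, ‖f x‖ ^ p := by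
  have hd2 : (2 : ℝ) ≤ d := by exact_mod_cast hd
  obtain ⟨ε, b, k, c, η, γ, hε, hb, hk, hc, hη, hγ, hcal⟩ :=
    calib (ι := Fin (d + 1)) (n := (d : ℝ) + 1) (by simp) (by linarith)
  have hq : 0 < ((d : ℝ) - 1) / d := div_pos (by linarith) (by linarith)
  refine ⟨max (((d : ℝ) - 1) / d - η) (((d : ℝ) - 1) / d / 2),
    lt_max_of_lt_right (half_pos hq), max_lt (by linarith) (half_lt_self hq), fun p hp hp1 => ?_⟩
  have hp0 : 0 < p := (lt_max_of_lt_right (half_pos hq)).trans_le hp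
  have hθ : 2 - p ≤ th ((d : ℝ) + 1) + η := by
    have h1 : ((d : ℝ) - 1) / d - η ≤ p := (le_max_left _ _).trans hp
    have h2 : th ((d : ℝ) + 1) = 2 - ((d : ℝ) - 1) / d := by
      unfold th
      have : (d : ℝ) ≠ 0 := by linarith
      rw [add_sub_cancel_right]
      field_simp
      ring
    linarith
  obtain ⟨C₁, hC₁, hE⟩ := energy (d := d) hε hb hk hc hγ hp0 hp1 fun N w A S hA hS hN h =>
    hcal (2 - p) (by linarith) hθ N (ev 0) w A S (norm_ev 0) hA hS hN h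
  obtain ⟨C₂, hC₂, hK⟩ := kbound (d := d) (by omega) hε hb hp0 hp1
  refine ⟨C₂ * C₁, mul_pos hC₂ hC₁, fun α hα F hF hsym hdiv f hf X hX => ?_⟩
  have hhar : ∀ i, Har (F i) := fun i => har_of_harmonic (hF i).1
  choose K hKb using fun i => hp_bound hα hp0 (hF i)
  have hK0 : ∀ X ∈ halfSpace d, X 0 ^ d * ‖vec F X‖ ^ p ≤ ((d : ℝ) + 1) ^ p * ∑ i, K i := by
    intro X hX
    have hX0 : 0 < X 0 := hX
    calc X 0 ^ d * ‖vec F X‖ ^ p ≤ X 0 ^ d * (((d : ℝ) + 1) ^ p * ∑ i, |vec F X i| ^ p) :=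
          mul_le_mul_of_nonneg_left (norm_rpow_le hp0 _) (by positivity)
      _ = ((d : ℝ) + 1) ^ p * ∑ i, X 0 ^ d * |F i X| ^ p := by
          rw [← Finset.mul_sum]; simp only [vec_apply]; ring
      _ ≤ _ := mul_le_mul_of_nonneg_left (Finset.sum_le_sum fun i _ => hKb i X hX) (by positivity)
  obtain ⟨M, hM0, hM, hMb⟩ := exists_M hα hp0 hp1 hF
  obtain ⟨C₃, hC₃, hJ⟩ := jet_bound (d := d) (κ := α / (1 + α)) (by positivity)
    (by rw [div_lt_one (by linarith)]; linarith)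
  obtain ⟨C₄, hC₄, hJ'⟩ := jet_bound (d := d) (κ := 1 / 2) (by norm_num) (by norm_num)
  rw [mul_assoc]
  refine hK F hhar _ _ hK0 ?_ X hX
  refine hE F ⟨hhar, hsym, hdiv⟩ (fun x => C₃ * M x) ?_ ?_ ?_ f hf
  · simp only [Real.mul_rpow hC₃.le (hM0 _)]
    exact hM.const_mul _
  · filter_upwards [hMb] with x hx t ht
    exact hJ F hhar _ (pt_mem ht x) _ (hx t ht)
  · intro t₁ ht₁
    refine ⟨C₄ * ((((d : ℝ) + 1) ^ p * ∑ i, K i) / (t₁ / 2) ^ d) ^ (1 / p), fun Y hY => ?_⟩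
    have hY0 : 0 < Y 0 := ht₁.trans_le hY
    refine hJ' F hhar Y hY0 _ fun i Z hZ => ?_
    have h1 : |Z 0 - Y 0| < 1 / 2 * Y 0 := by
      have := PiLp.dist_apply_le Z Y 0
      rw [Real.dist_eq] at this
      exact this.trans_lt hZ
    have h2 : t₁ / 2 ≤ Z 0 := by
      have := (abs_lt.1 h1).1
      linarith
    have h3 : 0 < Z 0 := (half_pos ht₁).trans_le h2
    have h4 : |F i Z| ≤ ‖vec F Z‖ := PiLp.norm_apply_le (vec F Z) i
    refine h4.trans ?_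
    rw [one_div, Real.le_rpow_inv_iff_of_pos (norm_nonneg _) ?_ hp0, le_div_iff₀ (by positivity),
      mul_comm]
    · exact (mul_le_mul_of_nonneg_right (pow_le_pow_left₀ (by positivity) h2 d)
        (by positivity)).trans (hK0 Z h3)
    · exact div_nonneg (le_trans (by positivity) (hK0 Z h3)) (by positivity)

end Pool.Agent.Lib.MP_fc0ae9_an.St
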