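import Pool.Agent.Lib.MP_fc0ae9_an.StP

/-! The a priori estimate for systems with one nontrivial boundary component. -/

namespace Pool.Agent.Lib.MP_fc0ae9_an.St

open scoped InnerProductSpace ContDiff Topology
open MeasureTheory Filter Metric Pool.Agent.Results.MP_fc0ae9_an.PositiveThreshold

variable {d : ℕ} {α p : ℝ}

/-- Systems in the Hardy space whose boundary values are `g` times the first unit vector. -/
structure Sys (α p : ℝ) (F : Fin (d + 1) → EE d → ℝ) (g : Ed d → ℝ) : Prop where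
  mem : ∀ i, MemHp α p (F i)
  sym : ∀ X ∈ halfSpace d, ∀ i j, pd i (F j) X = pd j (F i) X
  div : ∀ X ∈ halfSpace d, ∑ i, pd i (F i) X = 0
  lim0 : ∀ᵐ x, Tendsto (fun t => F 0 (pt t x)) (𝓝[>] 0) (𝓝 (g x))
  lim : ∀ j : Fin d, ∀ᵐ x, Tendsto (fun t => F j.succ (pt t x)) (𝓝[>] 0) (𝓝 0)

lemma sys_of_riesz {u : EE d → ℝ} {v : Fin d → EE d → ℝ} {g : Ed d → ℝ} (hu : MemHp α p u)
    (hv : AreRieszTransforms α p u v)
    (h0 : ∀ᵐ x, Tendsto (fun t => u (pt t x)) (𝓝[>] 0) (𝓝 (g x)))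
    (h : ∀ j, ∀ᵐ x, Tendsto (fun t => v j (pt t x)) (𝓝[>] 0) (𝓝 0)) :
    Sys α p (Fin.cons u v) g := by
  refine ⟨fun i => Fin.cases hu hv.1 i, ?_, ?_, h0, h⟩
  · intro X hX i j
    obtain ⟨h1, h2, -⟩ := hv.2 X hX
    refine Fin.cases ?_ (fun i => ?_) i <;> refine Fin.cases ?_ (fun j => ?_) j
    · rfl
    · exact h1 j
    · exact (h1 i).symm
    · exact h2 i j
  · intro X hX
    rw [Fin.sum_univ_succ]
    exact (hv.2 X hX).2.2

lemma Sys.sub_sub (hp : 0 < p) (hp1 : p ≤ 1) {F G H : Fin (d + 1) → EE d → ℝ}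
    {f g h : Ed d → ℝ} (hF : Sys α p F f) (hG : Sys α p G g) (hH : Sys α p H h) :
    Sys α p (fun i X => F i X - G i X - H i X) fun x => f x - g x - h x := by
  refine ⟨fun i => ?_, fun X hX i j => ?_, fun X hX => ?_, ?_, fun j => ?_⟩
  · simp only [sub_eq_add_neg]
    exact memHp_add hp hp1 (memHp_add hp hp1 (hF.mem i) (memHp_neg (hG.mem i)))
      (memHp_neg (hH.mem i))
  · rw [pd_sub_sub (hF.mem j) (hG.mem j) (hH.mem j) hX,
      pd_sub_sub (hF.mem i) (hG.mem i) (hH.mem i) hX, hF.sym X hX, hG.sym X hX, hH.sym X hX]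
  · rw [Finset.sum_congr rfl fun i _ => pd_sub_sub (hF.mem i) (hG.mem i) (hH.mem i) hX i,
      Finset.sum_sub_distrib, Finset.sum_sub_distrib, hF.div X hX, hG.div X hX, hH.div X hX]
    simp
  · filter_upwards [hF.lim0, hG.lim0, hH.lim0] with x h1 h2 h3 using (h1.sub h2).sub h3
  · filter_upwards [hF.lim j, hG.lim j, hH.lim j] with x h1 h2 h3
    simpa using (h1.sub h2).sub h3

theorem apriori_sys (hd : 2 ≤ d) : ∃ p₁ : ℝ, 0 < p₁ ∧ p₁ < ((d : ℝ) - 1) / d ∧ ∀ p : ℝ, p₁ ≤ p →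
    p ≤ 1 → ∃ C : ℝ, 0 < C ∧ ∀ α : ℝ, 0 < α → ∀ (F : Fin (d + 1) → EE d → ℝ) (g : Ed d → ℝ),
      Sys α p F g → ∀ X ∈ halfSpace d, X 0 ^ d * |F 0 X| ^ p ≤ C * ∫ x, |g x| ^ p := by
  obtain ⟨p₁, h0, h1, h⟩ := apriori hd
  refine ⟨p₁, h0, h1, fun p hp hp1 => ?_⟩
  obtain ⟨C, hC, h⟩ := h p hp hp1
  refine ⟨C, hC, fun α hα F g hF X hX => ?_⟩
  have hX0 : 0 < X 0 := hX
  have := h α hα F hF.mem hF.sym hF.div (fun x => g x • ev 0) ?_ X hX
  · simp only [norm_smul, norm_ev, mul_one, Real.norm_eq_abs] at this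
    refine le_trans (mul_le_mul_of_nonneg_left ?_ (by positivity)) this
    exact Real.rpow_le_rpow (abs_nonneg _) (PiLp.norm_apply_le (vec F X) 0) (h0.le.trans hp)
  · filter_upwards [hF.lim0, ae_all_iff.2 hF.lim] with x hx0 hx
    have h2 : Tendsto (fun t => fun i => F i (pt t x)) (𝓝[>] 0)
        (𝓝 (g x • (ev 0 : EE d)).ofLp) := by
      rw [tendsto_pi_nhds]
      intro i
      refine Fin.cases ?_ (fun j => ?_) i
      · simpa [ev] using hx0
      · simpa [ev] using hx j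
    exact ((PiLp.continuous_toLp 2 _).tendsto _).comp h2

end Pool.Agent.Lib.MP_fc0ae9_an.St
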