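import Pool.Agent.Lib.MP_fc0ae9_an.StAlg

/-! The first order term on zonal configurations. -/

namespace Pool.Agent.Lib.MP_fc0ae9_an.St

/- Sketch. q1 = (n-1)(n-2)/(n^2 (n+2)) > 0. With L = lam + 2 n om:
(lam - 4 om)^2 <= 2 L^2 + 2 (2n+4)^2 om^2, nu nu2 <= 1, lam^2 <= 2 L^2 + 8 n^2 om^2, nu >= 2/3.
Take g = min (1/2) (min (q1/8) ((n-1)/(16 (2n+4)^2))), g2 = min (1/3) (min (q1/4) ((n-1)/(32 n^2))). -/
theorem zonal_poly {n : ℝ} (h3 : 3 ≤ n) : ∃ g g₂ : ℝ, 0 < g ∧ g ≤ 1 / 2 ∧ 0 < g₂ ∧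
    ∀ lam ω : ℝ, g₂ * (1 + lam ^ 2) ≤
      nu n / 2 + (n - 1) * (n - 2) / (n ^ 2 * (n + 2)) * (lam + 2 * n * ω) ^ 2 +
        (n - 1) * ω ^ 2 / 2 - 2 * g * (nu n * nu2 n) * (lam - 4 * ω) ^ 2 := by
  have h0 : 0 < n := by linarith
  have h1 : 0 < n - 1 := by linarith
  have h2 : 0 < n - 2 := by linarith
  obtain ⟨q, hq⟩ : ∃ q, q = (n - 1) * (n - 2) / (n ^ 2 * (n + 2)) := ⟨_, rfl⟩
  have hq0 : 0 < q := by rw [hq]; positivity
  have hnu : 2 / 3 ≤ nu n := by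
    rw [nu, le_div_iff₀ h0]
    linarith
  have hm : nu n * nu2 n ≤ 1 := by
    have e : nu n * nu2 n = (n - 1) / (n + 2) := by
      unfold nu nu2
      field_simp
    rw [e, div_le_one (by linarith)]
    linarith
  rw [← hq]
  obtain ⟨g, g0, g1, g2, g3⟩ : ∃ g : ℝ, 0 < g ∧ g ≤ 1 / 2 ∧ g ≤ q / 8 ∧
      g * (16 * (2 * n + 4) ^ 2) ≤ n - 1 := by
    refine ⟨min (1 / 2) (min (q / 8) ((n - 1) / (16 * (2 * n + 4) ^ 2))), by positivity,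
      min_le_left _ _, (min_le_right _ _).trans (min_le_left _ _), ?_⟩
    rw [← le_div_iff₀ (by positivity)]
    exact (min_le_right _ _).trans (min_le_right _ _)
  obtain ⟨k, k0, k1, k2, k3⟩ : ∃ k : ℝ, 0 < k ∧ k ≤ 1 / 3 ∧ k ≤ q / 4 ∧
      k * (32 * n ^ 2) ≤ n - 1 := by
    refine ⟨min (1 / 3) (min (q / 4) ((n - 1) / (32 * n ^ 2))), by positivity,
      min_le_left _ _, (min_le_right _ _).trans (min_le_left _ _), ?_⟩
    rw [← le_div_iff₀ (by positivity)]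
    exact (min_le_right _ _).trans (min_le_right _ _)
  refine ⟨g, k, g0, g1, k0, fun lam ω => ?_⟩
  have a1 : (lam - 4 * ω) ^ 2 ≤ 2 * (lam + 2 * n * ω) ^ 2 + 2 * (2 * n + 4) ^ 2 * ω ^ 2 := by
    nlinarith [sq_nonneg (lam + 2 * n * ω + (2 * n + 4) * ω)]
  have a2 : lam ^ 2 ≤ 2 * (lam + 2 * n * ω) ^ 2 + 8 * n ^ 2 * ω ^ 2 := by
    nlinarith [sq_nonneg (lam + 2 * n * ω + 2 * n * ω)]
  have b1 := mul_le_mul_of_nonneg_left a1 g0.le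
  have b2 := mul_le_mul_of_nonneg_left a2 k0.le
  have b3 := mul_le_mul_of_nonneg_right hm (mul_nonneg g0.le (sq_nonneg (lam - 4 * ω)))
  have b4 := mul_le_mul_of_nonneg_right g2 (sq_nonneg (lam + 2 * n * ω))
  have b5 := mul_le_mul_of_nonneg_right g3 (sq_nonneg ω)
  have b6 := mul_le_mul_of_nonneg_right k2 (sq_nonneg (lam + 2 * n * ω))
  have b7 := mul_le_mul_of_nonneg_right k3 (sq_nonneg ω)
  linarith

/- The value on exactly zonal data (checked numerically; unfold, field_simp, ring). -/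
theorem zonal_value {n : ℝ} (h3 : 3 ≤ n) (g lam ω l a2 : ℝ) (hl : l = nu n * lam)
    (ha : a2 = nu n * lam ^ 2) :
    -(2 * th n * bb n * ω * (l ^ 2 * ω)) + bb n * (l ^ 2 * ω ^ 2 + (lam / n) ^ 2 * (1 - ω ^ 2)) -
      3 * a2 + (2 * kk n * (l ^ 3 * ω) + (4 - kk n) * a2 * (l * ω)) +
      2 * ω * (kk n * (lam ^ 3 * (nu n * (2 * nu n - 1)))) +
      2 * ω * (2 * kk n * (l ^ 2 * ω) + (4 - kk n) * a2 * ω) -
      (2 + th n) * ω * (2 * kk n * l ^ 3 + (4 - kk n) * a2 * l) + bb n * ω ^ 2 * a2 + a2 ^ 2 -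
      (1 + 2 * g) * nu2 n * a2 * (lam - 4 * ω) ^ 2 =
    lam ^ 2 * (nu n / 2 + (n - 1) * (n - 2) / (n ^ 2 * (n + 2)) * (lam + 2 * n * ω) ^ 2 +
      (n - 1) * ω ^ 2 / 2 - 2 * g * (nu n * nu2 n) * (lam - 4 * ω) ^ 2) := by
  have h0 : n ≠ 0 := ne_of_gt (by linarith)
  have h1 : n - 1 ≠ 0 := ne_of_gt (by linarith)
  have h2 : n - 2 ≠ 0 := ne_of_gt (by linarith)
  have h4 : n + 2 ≠ 0 := ne_of_gt (by linarith)
  subst hl ha
  unfold th bb kk nu nu2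
  field_simp
  ring

end Pool.Agent.Lib.MP_fc0ae9_an.St
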